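import Pool.Agent.Helper98.DL.FPk
import Pool.Agent.Helper98.DL.FRup
import Pool.Agent.Helper98.DL.FTab

set_option autoImplicit false
set_option maxRecDepth 100000

/-! # The check of a direction leaf: light definitions, fast evaluation

No forcing: arguments are passed unevaluated, the cache of the kernel evaluates them once. -/

noncomputable section

namespace Pool.Agent.Helper98.FD

/-- entry of 16 bits -/
def enF (T j : ℕ) : ℕ := Nat.mod (Nat.shiftRight T (Nat.mul (nat_lit 16) j)) (nat_lit 65536)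

/-- block of rows -/
def blF (k : ℕ) : ℕ :=
  (Bool.rec (motive := fun _ => ℕ) (Bool.rec (motive := fun _ => ℕ) (Bool.rec (motive := fun _ => ℕ) (Bool.rec (motive := fun _ => ℕ) (Bool.rec (motive := fun _ => ℕ) tB19 tB18 (Nat.ble k (nat_lit 18))) tB17 (Nat.ble k (nat_lit 17))) (Bool.rec (motive := fun _ => ℕ) tB16 tB15 (Nat.ble k (nat_lit 15))) (Nat.ble k (nat_lit 16))) (Bool.rec (motive := fun _ => ℕ) (Bool.rec (motive := fun _ => ℕ) (Bool.rec (motive := fun _ => ℕ) tB14 tB13 (Nat.ble k (nat_lit 13))) tB12 (Nat.ble k (nat_lit 12))) (Bool.rec (motive := fun _ => ℕ) tB11 tB10 (Nat.ble k (nat_lit 10))) (Nat.ble k (nat_lit 11))) (Nat.ble k (nat_lit 14))) (Bool.rec (motive := fun _ => ℕ) (Bool.rec (motive := fun _ => ℕ) (Bool.rec (motive := fun _ => ℕ) (Bool.rec (motive := fun _ => ℕ) tB9 tB8 (Nat.ble k (nat_lit 8))) tB7 (Nat.ble k (nat_lit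 7))) (Bool.rec (motive := fun _ => ℕ) tB6 tB5 (Nat.ble k (nat_lit 5))) (Nat.ble k (nat_lit 6))) (Bool.rec (motive := fun _ => ℕ) (Bool.rec (motive := fun _ => ℕ) (Bool.rec (motive := fun _ => ℕ) tB4 tB3 (Nat.ble k (nat_lit 3))) tB2 (Nat.ble k (nat_lit 2))) (Bool.rec (motive := fun _ => ℕ) tB1 tB0 (Nat.ble k (nat_lit 0))) (Nat.ble k (nat_lit 1))) (Nat.ble k (nat_lit 4))) (Nat.ble k (nat_lit 9)))

/-- row of the table of longitude differences -/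
def rwF (i : ℕ) : ℕ :=
  Nat.mod (Nat.shiftRight (blF (Nat.shiftRight i (nat_lit 4))) (Nat.mul (nat_lit 4880) (Nat.land i (nat_lit 15))))
    (Nat.pow (nat_lit 2) (nat_lit 4880))

/-- negative radicand -/
def qneF (i j : ℕ) : Bool :=
  Nat.ble (Nat.succ (Nat.add (nat_lit 18176) (Nat.add (Nat.mul i j) (Nat.mul (nat_lit 176) (Nat.add i j)))))
    (Nat.add (Nat.mul i i) (Nat.mul j j))

/-- first alternative of a pair without contact -/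
def frA (a d : ℕ) : Bool :=
  Bool.rec (motive := fun _ => Bool) false
    (Bool.rec (motive := fun _ => Bool) false (qneF a d) (Nat.ble d (nat_lit 176)))
    (Nat.ble (nat_lit 176) a)

/-- second alternative -/
def frB (b c : ℕ) : Bool :=
  Bool.rec (motive := fun _ => Bool) false
    (Bool.rec (motive := fun _ => Bool) false (qneF b c) (Nat.ble b (nat_lit 176)))
    (Nat.ble (nat_lit 176) c)

/-- no contact possible -/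
def frF (a b c d : ℕ) : Bool := Bool.rec (motive := fun _ => Bool) (frB b c) true (frA a d)

/-- clamp -/
def clF (a b c : ℕ) : ℕ := mx a (mn (Nat.sub (Nat.add c c) (nat_lit 176)) b)

/-- upper bound of the least longitude difference -/
def dHF (a b c d : ℕ) : ℕ :=
  Nat.succ (mx (mx (enF (rwF a) (clF c d a)) (enF (rwF b) (clF c d b)))
    (mx (enF (rwF c) (clF a b c)) (enF (rwF d) (clF a b d))))

/-- the same, `0` if no contact is possible -/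
def dpA (a b c d : ℕ) : ℕ := Bool.rec (motive := fun _ => ℕ) (dHF a b c d) (nat_lit 0) (frF a b c d)

/-- `dplus` -/
def dpF (c1 c2 : ℕ) : ℕ :=
  dpA (Nat.mod c1 (nat_lit 512)) (Nat.div c1 (nat_lit 512)) (Nat.mod c2 (nat_lit 512)) (Nat.div c2 (nat_lit 512))

/-- lower bound -/
def dLF (A B c d : ℕ) : ℕ := mn (mn (enF A c) (enF A d)) (mn (enF B c) (enF B d))

/-- `dminus` -/
def dmF (c1 c2 : ℕ) : ℕ :=
  dLF (rwF (Nat.mod c1 (nat_lit 512))) (rwF (Nat.div c1 (nat_lit 512))) (Nat.mod c2 (nat_lit 512))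
    (Nat.div c2 (nat_lit 512))

/-- longest path over 1 steps -/
def lc1 (c0 c1 : ℕ) : ℕ := dmF c0 c1

/-- longest path over 2 steps -/
def lc2 (c0 c1 c2 : ℕ) : ℕ := mx (dmF c0 c2) (Nat.add (lc1 c0 c1) (dmF c1 c2))

/-- longest path over 3 steps -/
def lc3 (c0 c1 c2 c3 : ℕ) : ℕ := mx (mx (dmF c0 c3) (Nat.add (lc1 c0 c1) (dmF c1 c3))) (Nat.add (lc2 c0 c1 c2) (dmF c2 c3))

/-- longest path over 4 steps -/
def lc4 (c0 c1 c2 c3 c4 : ℕ) : ℕ := mx (mx (mx (dmF c0 c4) (Nat.add (lc1 c0 c1) (dmF c1 c4))) (Nat.add (lc2 c0 c1 c2) (dmF c2 c4))) (Nat.add (lc3 c0 c1 c2 c3) (dmF c3 c4))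

/-- longest path over 5 steps -/
def lc5 (c0 c1 c2 c3 c4 c5 : ℕ) : ℕ := mx (mx (mx (mx (dmF c0 c5) (Nat.add (lc1 c0 c1) (dmF c1 c5))) (Nat.add (lc2 c0 c1 c2) (dmF c2 c5))) (Nat.add (lc3 c0 c1 c2 c3) (dmF c3 c5))) (Nat.add (lc4 c0 c1 c2 c3 c4) (dmF c4 c5))

/-- longest path over 6 steps -/
def lc6 (c0 c1 c2 c3 c4 c5 c6 : ℕ) : ℕ := mx (mx (mx (mx (mx (dmF c0 c6) (Nat.add (lc1 c0 c1) (dmF c1 c6))) (Nat.add (lc2 c0 c1 c2) (dmF c2 c6))) (Nat.add (lc3 c0 c1 c2 c3) (dmF c3 c6))) (Nat.add (lc4 c0 c1 c2 c3 c4) (dmF c4 c6))) (Nat.add (lc5 c0 c1 c2 c3 c4 c5) (dmF c5 c6))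

/-- longest path over 7 steps -/
def lc7 (c0 c1 c2 c3 c4 c5 c6 c7 : ℕ) : ℕ := mx (mx (mx (mx (mx (mx (dmF c0 c7) (Nat.add (lc1 c0 c1) (dmF c1 c7))) (Nat.add (lc2 c0 c1 c2) (dmF c2 c7))) (Nat.add (lc3 c0 c1 c2 c3) (dmF c3 c7))) (Nat.add (lc4 c0 c1 c2 c3 c4) (dmF c4 c7))) (Nat.add (lc5 c0 c1 c2 c3 c4 c5) (dmF c5 c7))) (Nat.add (lc6 c0 c1 c2 c3 c4 c5 c6) (dmF c6 c7))

/-- longest path over 8 steps -/
def lc8 (c0 c1 c2 c3 c4 c5 c6 c7 c8 : ℕ) : ℕ := mx (mx (mx (mx (mx (mx (mx (dmF c0 c8) (Nat.add (lc1 c0 c1) (dmF c1 c8))) (Nat.add (lc2 c0 c1 c2) (dmF c2 c8))) (Nat.add (lc3 c0 c1 c2 c3) (dmF c3 c8))) (Nat.add (lc4 c0 c1 c2 c3 c4) (dmF c4 c8))) (Nat.add (lc5 c0 c1 c2 c3 c4 c5) (dmF c5 c8))) (Nat.add (lc6 c0 c1 c2 c3 c4 c5 c6) (dmF c6 c8))) (Nat.add (lc7 c0 c1 c2 c3 c4 c5 c6 c7) (dmF c7 c8))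

/-- longest path over 9 steps -/
def lc9 (c0 c1 c2 c3 c4 c5 c6 c7 c8 c9 : ℕ) : ℕ := mx (mx (mx (mx (mx (mx (mx (mx (dmF c0 c9) (Nat.add (lc1 c0 c1) (dmF c1 c9))) (Nat.add (lc2 c0 c1 c2) (dmF c2 c9))) (Nat.add (lc3 c0 c1 c2 c3) (dmF c3 c9))) (Nat.add (lc4 c0 c1 c2 c3 c4) (dmF c4 c9))) (Nat.add (lc5 c0 c1 c2 c3 c4 c5) (dmF c5 c9))) (Nat.add (lc6 c0 c1 c2 c3 c4 c5 c6) (dmF c6 c9))) (Nat.add (lc7 c0 c1 c2 c3 c4 c5 c6 c7) (dmF c7 c9))) (Nat.add (lc8 c0 c1 c2 c3 c4 c5 c6 c7 c8) (dmF c8 c9))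

/-- number of a pair -/
def rvF (c v c' v' : ℕ) : ℕ :=
  rup c (Nat.mod v (nat_lit 65536)) (Nat.div v (nat_lit 65536)) c' (Nat.mod v' (nat_lit 65536))
    (Nat.div v' (nat_lit 65536))

/-- rate part of an entry -/
def peB (m c v c' v' : ℕ) : ℕ :=
  Nat.rec (motive := fun _ => ℕ) (nat_lit 15393162788864)
    (fun _ _ => Nat.mul (nat_lit 1048576) (rvF c v c' v')) m

/-- entry from its angle -/
def peA (d m c v c' v' : ℕ) : ℕ :=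
  Nat.rec (motive := fun _ => ℕ) (nat_lit 0) (fun _ _ => Nat.add d (peB m c v c' v')) d

/-- entry of a pair -/
def peF (M q c v c' v' : ℕ) : ℕ := peA (dpF c c') (Nat.land M q) c v c' v'

/-! ### contacts -/

/-- angle from a lower bound of the ratio -/
def alA (r : ℕ) : ℕ :=
  Bool.rec (motive := fun _ => ℕ) (nat_lit 0) (Nat.succ (enF tAU (Nat.div r (nat_lit 32))))
    (Nat.ble r (nat_lit 16384))

/-- angle from a negative lower bound -/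
def alB (r : ℕ) : ℕ :=
  Bool.rec (motive := fun _ => ℕ) (nat_lit 513)
    (Nat.succ (Nat.sub (nat_lit 512) (enF tAL (Nat.div (Nat.add r (nat_lit 31)) (nat_lit 32)))))
    (Nat.ble r (nat_lit 16384))

/-- code of a grid point -/
def gmF (i : ℕ) : ℕ := Nat.add (Nat.mul (nat_lit 16) i) (nat_lit 1280)

/-- shallow ratio -/
def rsA (k1 k2 x y i : ℕ) : ℕ :=
  Nat.div (Nat.mul (Nat.add x (Nat.mul (Nat.mul (Bool.rec (motive := fun _ => ℕ) k1 k2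
    (Nat.ble (Nat.mul (Nat.mul k2 k2) y) x)) k2) y)) i) (Nat.mul k2 (nat_lit 33554432))

/-- shallow ratio -/
def rsF (k1 k2 n i : ℕ) : ℕ :=
  rsA k1 k2 (Nat.mul (nat_lit 16777216) (Nat.sub n (nat_lit 2048))) (Nat.sub (nat_lit 6144) n) i

/-- shallow angle from the ratio -/
def asA (r : ℕ) : ℕ := Nat.rec (motive := fun _ => ℕ) (nat_lit 257) (fun _ _ => alA r) r

/-- `aSh` -/
def asF (k1 k2 i : ℕ) : ℕ := asA (rsF k1 k2 (gmF i) (enF tIL i))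

/-- deep angle -/
def adB (k x y i j : ℕ) : ℕ :=
  Bool.rec (motive := fun _ => ℕ)
    (alB (Nat.succ (Nat.div (Nat.mul (Nat.sub x y) j) (Nat.mul k (nat_lit 33554432)))))
    (alA (Nat.div (Nat.mul (Nat.sub y x) i) (Nat.mul k (nat_lit 33554432))))
    (Nat.ble x y)

/-- deep angle -/
def adA (k n i j : ℕ) : ℕ :=
  adB k (Nat.mul (nat_lit 16777216) (Nat.sub (nat_lit 2048) n))
    (Nat.mul (Nat.mul k k) (Nat.sub (nat_lit 6144) n)) i j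

/-- `aDq` -/
def adF (k i1 i2 : ℕ) : ℕ :=
  Nat.rec (motive := fun _ => ℕ) (nat_lit 513) (fun _ _ => adA k (gmF i1) (enF tIL i2) (enF tIU i1)) k

/-- shallow option -/
def osA (k1 k2 a b : ℕ) : ℕ :=
  Bool.rec (motive := fun _ => ℕ) (nat_lit 0) (asF k1 k2 (mx (nat_lit 48) a)) (Nat.ble (nat_lit 48) b)

/-- `osh` -/
def osF (k1 k2 c : ℕ) : ℕ := osA k1 k2 (Nat.mod c (nat_lit 512)) (Nat.div c (nat_lit 512))

/-- deep option -/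
def odA (k1 a b : ℕ) : ℕ :=
  Bool.rec (motive := fun _ => ℕ) (adF k1 a (mn b (nat_lit 48))) (nat_lit 0) (Nat.ble (nat_lit 48) a)

/-- `odp` -/
def odF (k1 c : ℕ) : ℕ := odA k1 (Nat.mod c (nat_lit 512)) (Nat.div c (nat_lit 512))

/-- `kUof` -/
def kuF (K k2 : ℕ) : ℕ :=
  Nat.succ (Nat.div (Nat.mul K (Nat.add (nat_lit 16777216) (Nat.mul k2 k2)))
    (Nat.sub (nat_lit 16777216) (Nat.mul k2 k2)))

/-- `kTof` -/
def ktF (K k2 : ℕ) : ℕ :=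
  Nat.succ (Nat.div (Nat.mul (Nat.mul K k2) (nat_lit 4194304)) (Nat.sub (nat_lit 16777216) (Nat.mul k2 k2)))

/-- `gLo` -/
def glF (k n i : ℕ) : ℕ :=
  Nat.div (Nat.mul (Nat.add (Nat.mul (nat_lit 4096) (Nat.sub (nat_lit 16777216) (Nat.mul (nat_lit 3) (Nat.mul k k))))
    (Nat.mul (Nat.add (nat_lit 16777216) (Nat.mul k k)) n)) i) (Nat.mul (nat_lit 67108864) k)

/-- `gAll` -/
def gaF (k : ℕ) : ℕ :=
  Nat.div (Nat.mul (Nat.sub (nat_lit 7264534528) (Nat.mul (nat_lit 1155) (Nat.mul k k)))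
    (Nat.add (nat_lit 16777216) (Nat.mul k k))) (Nat.mul (nat_lit 4194304000) k)

/-- `gvT` -/
def gvF (vn k1 n j : ℕ) : ℕ :=
  Nat.rec (motive := fun _ => ℕ) (nat_lit 0)
    (fun _ _ => Nat.rec (motive := fun _ => ℕ) (nat_lit 35184372088832) (fun _ _ => Nat.succ (glF k1 n j)) k1) vn

/-- `jT` -/
def jtF (a b : ℕ) : ℕ :=
  enF tIU (Bool.rec (motive := fun _ => ℕ) b a (Nat.ble (Nat.add a b) (nat_lit 352)))

/-- the packed comparison -/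
def chB (X M : ℕ) : Bool :=
  Nat.rec (motive := fun _ => Bool) false (fun _ _ => Nat.beq (Nat.land X M) M) M

/-- the packed comparison -/
def chA (l K ku mp mn cp cn J : ℕ) : Bool :=
  chB (Nat.sub (Nat.add (Nat.add tMask (Nat.add (Nat.mul l tJS) (Nat.mul K tCP)))
      (Nat.add (Nat.mul mp tSL) (Nat.mul cp tOne)))
    (Nat.add (Nat.mul ku tCM) (Nat.add (Nat.mul mn tSU) (Nat.mul cn tOne))))
    (Nat.mod tMask (Nat.pow (nat_lit 2) (Nat.mul (nat_lit 48) (Nat.succ J))))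

/-- all size conditions and the comparison -/
def cnB (l K ku mp mn cp cn J : ℕ) : Bool :=
  Bool.rec (motive := fun _ => Bool) false
    (Bool.rec (motive := fun _ => Bool) false
      (Bool.rec (motive := fun _ => Bool) false
        (Bool.rec (motive := fun _ => Bool) false (chA l K ku mp mn cp cn J) (Nat.ble J (nat_lit 32)))
        (Nat.ble (Nat.lor mp mn) (nat_lit 16777215)))
      (Nat.ble cn (nat_lit 35184372088831)))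
    (Nat.ble cp (nat_lit 35184372088831))

/-- check of a contact; `vp - vn` velocity, `mp - mn` constant -/
def cnA (l K ku KT g1 g2 j vp vn mp mn J : ℕ) : Bool :=
  cnB l K ku mp mn (Nat.mul vp g1)
    (Nat.add (Nat.mul vn g2) (Nat.add (Nat.succ (Nat.div (Nat.mul KT j) (nat_lit 1024)))
      (Nat.add (Nat.add (Nat.mul (nat_lit 403) l) (Nat.mul (nat_lit 20) ku)) (Nat.mul (nat_lit 20) mn)))) J

/-- static point and static south point -/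
def stF (K v M : ℕ) : Bool :=
  Bool.rec (motive := fun _ => Bool) false
    (Bool.rec (motive := fun _ => Bool) false (Nat.ble (nat_lit 8388597) M) (Nat.beq v (nat_lit 32768)))
    (Nat.beq K (nat_lit 0))

/-- shallow contact -/
def okA (l K k1 k2 a b P m M : ℕ) : Bool :=
  cnA l K (kuF K k2) (ktF K k2) (glF k2 (gmF a) (enF tIL a))
    (gvF (Nat.sub (nat_lit 32768) P) k1 (gmF b) (enF tIU b)) (jtF a b)
    (Nat.sub P (nat_lit 32768)) (Nat.sub (nat_lit 32768) P)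
    (Nat.sub M (nat_lit 8388608)) (Nat.sub (nat_lit 8388608) M) (Nat.div (Nat.add m (nat_lit 15)) (nat_lit 16))

/-- `okS` -/
def okF (l K k1 k2 c v m M : ℕ) : Bool :=
  Bool.rec (motive := fun _ => Bool)
    (okA l K k1 k2 (mx (nat_lit 48) (Nat.mod c (nat_lit 512))) (Nat.div c (nat_lit 512)) (Nat.mod v (nat_lit 65536)) m M)
    true (stF K v M)

/-- deep contact, `Q` velocity below -/
def oeA (l K k1 k2 a b Q m M : ℕ) : Bool :=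
  cnA l K (kuF K k2) (ktF K k2) (gaF k2)
    (gvF (Nat.sub (nat_lit 32768) Q) k1 (gmF b) (enF tIU a)) (enF tIU a)
    (Nat.sub Q (nat_lit 32768)) (Nat.sub (nat_lit 32768) Q)
    (Nat.sub M (nat_lit 8388608)) (Nat.sub (nat_lit 8388608) M) (Nat.div (Nat.add m (nat_lit 15)) (nat_lit 16))

/-- `okD` -/
def oeF (l K k1 k2 c v m M : ℕ) : Bool :=
  Bool.rec (motive := fun _ => Bool)
    (oeA l K k1 k2 (Nat.mod c (nat_lit 512)) (mn (Nat.div c (nat_lit 512)) (nat_lit 48))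
      (Nat.add (Nat.mod v (nat_lit 65536)) (Nat.div v (nat_lit 65536))) m M)
    true (stF K v M)

/-- self check, from the option -/
def slA (o K k1 k2 c v : ℕ) : Bool :=
  Nat.rec (motive := fun _ => Bool) true
    (fun m _ => Bool.rec (motive := fun _ => Bool) (oeF (nat_lit 0) K k1 k2 c v m (nat_lit 9437184)) true
      (Nat.ble m (nat_lit 511))) o

/-- `slf` -/
def slF (K k1 k2 c v : ℕ) : Bool := slA (odF k1 c) K k1 k2 c v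

/-! ### entries of a class -/

/-- second part of an entry of a class -/
def prC (l s A : ℕ) : ℕ :=
  Nat.add A (Nat.mul (nat_lit 1048576) (mn (mx (Nat.sub (Nat.add (Nat.div (Nat.add (Nat.mul l A) (nat_lit 1023)) (nat_lit 1024))
      (Nat.add (Nat.mod s (nat_lit 33554432)) (nat_lit 20))) (nat_lit 8388608)) (nat_lit 4194304)) (nat_lit 14680064)))

/-- entry of a class from the sum -/
def prS (l s L : ℕ) : ℕ :=
  prC l s (mn (Nat.mul (nat_lit 64) (Nat.div s (nat_lit 33554432))) (Nat.sub (nat_lit 65536) L))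

/-- entry of two touch numbers -/
def prF (l t t' L : ℕ) : ℕ :=
  Nat.rec (motive := fun _ => ℕ) (nat_lit 0)
    (fun a _ => Nat.rec (motive := fun _ => ℕ) (nat_lit 0) (fun b _ => prS l (Nat.add a b) L) t') t

/-- the larger of two entries -/
def coF (e e' : ℕ) : ℕ :=
  Nat.rec (motive := fun _ => ℕ) e'
    (fun _ _ => Nat.rec (motive := fun _ => ℕ) e
      (fun _ _ => Nat.add (mx (Nat.mod e (nat_lit 1048576)) (Nat.mod e' (nat_lit 1048576)))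
        (Nat.mul (nat_lit 1048576) (mx (Nat.div e (nat_lit 1048576)) (Nat.div e' (nat_lit 1048576))))) e') e

/-- forcing, Boolean value -/
def fzB (n : ℕ) (f : ℕ → Bool) : Bool :=
  Nat.rec (motive := fun _ => Bool) (f (nat_lit 0)) (fun m _ => f m) (Nat.succ n)

/-- forcing, number value -/
def fzN (n : ℕ) (f : ℕ → ℕ) : ℕ :=
  Nat.rec (motive := fun _ => ℕ) (f (nat_lit 0)) (fun m _ => f m) (Nat.succ n)

/-- read a constant of an option -/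
def stR (ok : ℕ → ℕ → Bool) (o D : ℕ) (k : ℕ → ℕ → Bool) : Bool :=
  Nat.rec (motive := fun _ => Bool) (k (nat_lit 0) D)
    (fun m _ => Bool.rec (motive := fun _ => Bool) false
      (fzB (Nat.div D (nat_lit 16777216)) fun D' =>
        fzB (Nat.add (Nat.succ (Nat.mod D (nat_lit 16777216))) (Nat.mul (nat_lit 33554432) m)) fun t => k t D')
      (ok m (Nat.mod D (nat_lit 16777216)))) o

/-- `sg` -/
def sgF (n : ℕ) : ℕ := Nat.sub (nat_lit 1) (Nat.sub (nat_lit 1) n)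

/-- `cnt` -/
def ctF (o0 o1 o2 o3 o4 o5 o6 o7 o8 o9 : ℕ) : ℕ :=
  Nat.add (sgF o0) (Nat.add (sgF o1) (Nat.add (sgF o2) (Nat.add (sgF o3) (Nat.add (sgF o4)
    (Nat.add (sgF o5) (Nat.add (sgF o6) (Nat.add (sgF o7) (Nat.add (sgF o8) (sgF o9)))))))))

/-- the two tests, one class -/
def tsF (M l c0 c1 c2 c3 c4 c5 c6 c7 c8 c9 v0 v1 v2 v3 v4 v5 v6 v7 v8 v9 t0 t1 t2 t3 t4 t5 t6 t7 t8 t9 : ℕ) : Bool :=
  pT (peF M (nat_lit 1) c0 v0 c1 v1) (peF M (nat_lit 2) c0 v0 c2 v2) (peF M (nat_lit 512) c1 v1 c2 v2) (peF M (nat_lit 4) c0 v0 c3 v3) (peF M (nat_lit 1024) c1 v1 c3 v3) (peF M (nat_lit 131072) c2 v2 c3 v3) (peF M (nat_lit 8) c0 v0 c4 v4) (peF M (nat_lit 2048) c1 v1 c4 v4) (peF M (nat_lit 262144) c2 v2 c4 v4) (peF M (nat_lit 16777216) c3 v3 c4 v4) (peF M (nat_lit 16) c0 v0 c5 v5) (peF M (nat_lit 4096) c1 v1 c5 v5) (peF M (nat_lit 524288) c2 v2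 c5 v5) (peF M (nat_lit 33554432) c3 v3 c5 v5) (peF M (nat_lit 1073741824) c4 v4 c5 v5) (peF M (nat_lit 32) c0 v0 c6 v6) (peF M (nat_lit 8192) c1 v1 c6 v6) (peF M (nat_lit 1048576) c2 v2 c6 v6) (peF M (nat_lit 67108864) c3 v3 c6 v6) (peF M (nat_lit 2147483648) c4 v4 c6 v6) (peF M (nat_lit 34359738368) c5 v5 c6 v6) (peF M (nat_lit 64) c0 v0 c7 v7) (peF M (nat_lit 16384) c1 v1 c7 v7) (peF M (nat_lit 2097152) c2 v2 c7 v7) (peF M (nat_lit 134217728) c3 v3 c7 v7) (peF M (nat_lit 4294967296) c4 v4 c7 v7) (peF M (nat_lit 68719476736) c5 v5 c7 v7) (peF M (nat_lit 549755813888) c6 v6 c7 v7) (peF M (nat_lit 128) c0 v0 c8 v8) (peF M (nat_lit 32768) c1 v1 c8 v8) (peF M (nat_lit 4194304) c2 v2 c8 v8) (peF M (nat_lit 268435456) c3 v3 c8 v8) (peF M (nat_lit 8589934592) c4 v4 c8 v8) (peF M (nat_lit 137438953472) c5 v5 c8 v8) (peF M (nat_lit 1099511627776)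 c6 v6 c8 v8) (peF M (nat_lit 4398046511104) c7 v7 c8 v8) (peF M (nat_lit 256) c0 v0 c9 v9) (peF M (nat_lit 65536) c1 v1 c9 v9) (peF M (nat_lit 8388608) c2 v2 c9 v9) (peF M (nat_lit 536870912) c3 v3 c9 v9) (peF M (nat_lit 17179869184) c4 v4 c9 v9) (peF M (nat_lit 274877906944) c5 v5 c9 v9) (peF M (nat_lit 2199023255552) c6 v6 c9 v9) (peF M (nat_lit 8796093022208) c7 v7 c9 v9) (peF M (nat_lit 17592186044416) c8 v8 c9 v9)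
    (prF l t0 t1 (lc1 c0 c1)) (prF l t0 t2 (lc2 c0 c1 c2)) (prF l t1 t2 (lc1 c1 c2)) (prF l t0 t3 (lc3 c0 c1 c2 c3)) (prF l t1 t3 (lc2 c1 c2 c3)) (prF l t2 t3 (lc1 c2 c3)) (prF l t0 t4 (lc4 c0 c1 c2 c3 c4)) (prF l t1 t4 (lc3 c1 c2 c3 c4)) (prF l t2 t4 (lc2 c2 c3 c4)) (prF l t3 t4 (lc1 c3 c4)) (prF l t0 t5 (lc5 c0 c1 c2 c3 c4 c5)) (prF l t1 t5 (lc4 c1 c2 c3 c4 c5)) (prF l t2 t5 (lc3 c2 c3 c4 c5)) (prF l t3 t5 (lc2 c3 c4 c5)) (prF l t4 t5 (lc1 c4 c5)) (prF l t0 t6 (lc6 c0 c1 c2 c3 c4 c5 c6)) (prF l t1 t6 (lc5 c1 c2 c3 c4 c5 c6)) (prF l t2 t6 (lc4 c2 c3 c4 c5 c6)) (prF l t3 t6 (lc3 c3 c4 c5 c6)) (prF l t4 t6 (lc2 c4 c5 c6)) (prF l t5 t6 (lc1 c5 c6)) (prF l t0 t7 (lc7 c0 c1 c2 c3 c4 c5 c6 c7)) (prF l t1 t7 (lc6 c1 c2 c3 c4 c5 c6 c7)) (prF l t2 t7 (lc5 c2 c3 c4 c5 c6 c7)) (prF l t3 t7 (lc4 c3 c4 c5 c6 c7)) (prF l t4 t7 (lc3 c4 c5 c6 c7)) (prF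 l t5 t7 (lc2 c5 c6 c7)) (prF l t6 t7 (lc1 c6 c7)) (prF l t0 t8 (lc8 c0 c1 c2 c3 c4 c5 c6 c7 c8)) (prF l t1 t8 (lc7 c1 c2 c3 c4 c5 c6 c7 c8)) (prF l t2 t8 (lc6 c2 c3 c4 c5 c6 c7 c8)) (prF l t3 t8 (lc5 c3 c4 c5 c6 c7 c8)) (prF l t4 t8 (lc4 c4 c5 c6 c7 c8)) (prF l t5 t8 (lc3 c5 c6 c7 c8)) (prF l t6 t8 (lc2 c6 c7 c8)) (prF l t7 t8 (lc1 c7 c8)) (prF l t0 t9 (lc9 c0 c1 c2 c3 c4 c5 c6 c7 c8 c9)) (prF l t1 t9 (lc8 c1 c2 c3 c4 c5 c6 c7 c8 c9)) (prF l t2 t9 (lc7 c2 c3 c4 c5 c6 c7 c8 c9)) (prF l t3 t9 (lc6 c3 c4 c5 c6 c7 c8 c9)) (prF l t4 t9 (lc5 c4 c5 c6 c7 c8 c9)) (prF l t5 t9 (lc4 c5 c6 c7 c8 c9)) (prF l t6 t9 (lc3 c6 c7 c8 c9)) (prF l t7 t9 (lc2 c7 c8 c9)) (prF l t8 t9 (lc1 c8 c9))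

/-- the test without contacts -/
def tzF (M c0 c1 c2 c3 c4 c5 c6 c7 c8 c9 v0 v1 v2 v3 v4 v5 v6 v7 v8 v9 : ℕ) : Bool :=
  pT (peF M (nat_lit 1) c0 v0 c1 v1) (peF M (nat_lit 2) c0 v0 c2 v2) (peF M (nat_lit 512) c1 v1 c2 v2) (peF M (nat_lit 4) c0 v0 c3 v3) (peF M (nat_lit 1024) c1 v1 c3 v3) (peF M (nat_lit 131072) c2 v2 c3 v3) (peF M (nat_lit 8) c0 v0 c4 v4) (peF M (nat_lit 2048) c1 v1 c4 v4) (peF M (nat_lit 262144) c2 v2 c4 v4) (peF M (nat_lit 16777216) c3 v3 c4 v4) (peF M (nat_lit 16) c0 v0 c5 v5) (peF M (nat_lit 4096) c1 v1 c5 v5) (peF M (nat_lit 524288) c2 v2 c5 v5) (peF M (nat_lit 33554432) c3 v3 c5 v5) (peF M (nat_lit 1073741824) c4 v4 c5 v5) (peF M (nat_lit 32) c0 v0 c6 v6) (peF M (nat_lit 8192) c1 v1 c6 v6) (peF M (nat_lit 1048576) c2 v2 c6 v6) (peF M (nat_lit 67108864) c3 v3 c6 v6) (peF M (nat_lit 2147483648) c4 v4 c6 v6) (peF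 M (nat_lit 34359738368) c5 v5 c6 v6) (peF M (nat_lit 64) c0 v0 c7 v7) (peF M (nat_lit 16384) c1 v1 c7 v7) (peF M (nat_lit 2097152) c2 v2 c7 v7) (peF M (nat_lit 134217728) c3 v3 c7 v7) (peF M (nat_lit 4294967296) c4 v4 c7 v7) (peF M (nat_lit 68719476736) c5 v5 c7 v7) (peF M (nat_lit 549755813888) c6 v6 c7 v7) (peF M (nat_lit 128) c0 v0 c8 v8) (peF M (nat_lit 32768) c1 v1 c8 v8) (peF M (nat_lit 4194304) c2 v2 c8 v8) (peF M (nat_lit 268435456) c3 v3 c8 v8) (peF M (nat_lit 8589934592) c4 v4 c8 v8) (peF M (nat_lit 137438953472) c5 v5 c8 v8) (peF M (nat_lit 1099511627776) c6 v6 c8 v8) (peF M (nat_lit 4398046511104) c7 v7 c8 v8) (peF M (nat_lit 256) c0 v0 c9 v9) (peF M (nat_lit 65536) c1 v1 c9 v9) (peF M (nat_lit 8388608) c2 v2 c9 v9) (peF M (nat_lit 536870912) c3 v3 c9 v9) (peF M (nat_lit 17179869184) c4 v4 c9 v9) (peF M (nat_lit 274877906944)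 c5 v5 c9 v9) (peF M (nat_lit 2199023255552) c6 v6 c9 v9) (peF M (nat_lit 8796093022208) c7 v7 c9 v9) (peF M (nat_lit 17592186044416) c8 v8 c9 v9)
    (nat_lit 0) (nat_lit 0) (nat_lit 0) (nat_lit 0) (nat_lit 0) (nat_lit 0) (nat_lit 0) (nat_lit 0) (nat_lit 0) (nat_lit 0) (nat_lit 0) (nat_lit 0) (nat_lit 0) (nat_lit 0) (nat_lit 0) (nat_lit 0) (nat_lit 0) (nat_lit 0) (nat_lit 0) (nat_lit 0) (nat_lit 0) (nat_lit 0) (nat_lit 0) (nat_lit 0) (nat_lit 0) (nat_lit 0) (nat_lit 0) (nat_lit 0) (nat_lit 0) (nat_lit 0) (nat_lit 0) (nat_lit 0) (nat_lit 0) (nat_lit 0) (nat_lit 0) (nat_lit 0) (nat_lit 0) (nat_lit 0) (nat_lit 0) (nat_lit 0) (nat_lit 0) (nat_lit 0) (nat_lit 0) (nat_lit 0) (nat_lit 0)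

/-- the two tests, mixed class -/
def tmF (M l c0 c1 c2 c3 c4 c5 c6 c7 c8 c9 v0 v1 v2 v3 v4 v5 v6 v7 v8 v9 s0 s1 s2 s3 s4 s5 s6 s7 s8 s9 d0 d1 d2 d3 d4 d5 d6 d7 d8 d9 : ℕ) : Bool :=
  pT (peF M (nat_lit 1) c0 v0 c1 v1) (peF M (nat_lit 2) c0 v0 c2 v2) (peF M (nat_lit 512) c1 v1 c2 v2) (peF M (nat_lit 4) c0 v0 c3 v3) (peF M (nat_lit 1024) c1 v1 c3 v3) (peF M (nat_lit 131072) c2 v2 c3 v3) (peF M (nat_lit 8) c0 v0 c4 v4) (peF M (nat_lit 2048) c1 v1 c4 v4) (peF M (nat_lit 262144) c2 v2 c4 v4) (peF M (nat_lit 16777216) c3 v3 c4 v4) (peF M (nat_lit 16) c0 v0 c5 v5) (peF M (nat_lit 4096) c1 v1 c5 v5) (peF M (nat_lit 524288) c2 v2 c5 v5) (peF M (nat_lit 33554432) c3 v3 c5 v5) (peF M (nat_lit 1073741824) c4 v4 c5 v5) (peF M (nat_lit 32) c0 v0 c6 v6) (peF M (nat_lit 8192) c1 v1 c6 v6) (peF M (nat_lit 1048576) c2 v2 c6 v6) (peF M (nat_lit 67108864)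 c3 v3 c6 v6) (peF M (nat_lit 2147483648) c4 v4 c6 v6) (peF M (nat_lit 34359738368) c5 v5 c6 v6) (peF M (nat_lit 64) c0 v0 c7 v7) (peF M (nat_lit 16384) c1 v1 c7 v7) (peF M (nat_lit 2097152) c2 v2 c7 v7) (peF M (nat_lit 134217728) c3 v3 c7 v7) (peF M (nat_lit 4294967296) c4 v4 c7 v7) (peF M (nat_lit 68719476736) c5 v5 c7 v7) (peF M (nat_lit 549755813888) c6 v6 c7 v7) (peF M (nat_lit 128) c0 v0 c8 v8) (peF M (nat_lit 32768) c1 v1 c8 v8) (peF M (nat_lit 4194304) c2 v2 c8 v8) (peF M (nat_lit 268435456) c3 v3 c8 v8) (peF M (nat_lit 8589934592) c4 v4 c8 v8) (peF M (nat_lit 137438953472) c5 v5 c8 v8) (peF M (nat_lit 1099511627776) c6 v6 c8 v8) (peF M (nat_lit 4398046511104) c7 v7 c8 v8) (peF M (nat_lit 256) c0 v0 c9 v9) (peF M (nat_lit 65536) c1 v1 c9 v9) (peF M (nat_lit 8388608) c2 v2 c9 v9) (peF M (nat_lit 536870912) c3 v3 c9 v9) (peF M (nat_lit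 17179869184) c4 v4 c9 v9) (peF M (nat_lit 274877906944) c5 v5 c9 v9) (peF M (nat_lit 2199023255552) c6 v6 c9 v9) (peF M (nat_lit 8796093022208) c7 v7 c9 v9) (peF M (nat_lit 17592186044416) c8 v8 c9 v9)
    (coF (prF l s0 d1 (lc1 c0 c1)) (prF l d0 s1 (lc1 c0 c1))) (coF (prF l s0 d2 (lc2 c0 c1 c2)) (prF l d0 s2 (lc2 c0 c1 c2))) (coF (prF l s1 d2 (lc1 c1 c2)) (prF l d1 s2 (lc1 c1 c2))) (coF (prF l s0 d3 (lc3 c0 c1 c2 c3)) (prF l d0 s3 (lc3 c0 c1 c2 c3))) (coF (prF l s1 d3 (lc2 c1 c2 c3)) (prF l d1 s3 (lc2 c1 c2 c3))) (coF (prF l s2 d3 (lc1 c2 c3)) (prF l d2 s3 (lc1 c2 c3))) (coF (prF l s0 d4 (lc4 c0 c1 c2 c3 c4)) (prF l d0 s4 (lc4 c0 c1 c2 c3 c4))) (coF (prF l s1 d4 (lc3 c1 c2 c3 c4)) (prF l d1 s4 (lc3 c1 c2 c3 c4))) (coF (prF l s2 d4 (lc2 c2 c3 c4)) (prF l d2 s4 (lc2 c2 c3 c4))) (coF (prF l s3 d4 (lc1 c3 c4)) (prF l d3 s4 (lc1 c3 c4)))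 (coF (prF l s0 d5 (lc5 c0 c1 c2 c3 c4 c5)) (prF l d0 s5 (lc5 c0 c1 c2 c3 c4 c5))) (coF (prF l s1 d5 (lc4 c1 c2 c3 c4 c5)) (prF l d1 s5 (lc4 c1 c2 c3 c4 c5))) (coF (prF l s2 d5 (lc3 c2 c3 c4 c5)) (prF l d2 s5 (lc3 c2 c3 c4 c5))) (coF (prF l s3 d5 (lc2 c3 c4 c5)) (prF l d3 s5 (lc2 c3 c4 c5))) (coF (prF l s4 d5 (lc1 c4 c5)) (prF l d4 s5 (lc1 c4 c5))) (coF (prF l s0 d6 (lc6 c0 c1 c2 c3 c4 c5 c6)) (prF l d0 s6 (lc6 c0 c1 c2 c3 c4 c5 c6))) (coF (prF l s1 d6 (lc5 c1 c2 c3 c4 c5 c6)) (prF l d1 s6 (lc5 c1 c2 c3 c4 c5 c6))) (coF (prF l s2 d6 (lc4 c2 c3 c4 c5 c6)) (prF l d2 s6 (lc4 c2 c3 c4 c5 c6))) (coF (prF l s3 d6 (lc3 c3 c4 c5 c6)) (prF l d3 s6 (lc3 c3 c4 c5 c6))) (coF (prF l s4 d6 (lc2 c4 c5 c6)) (prF l d4 s6 (lc2 c4 c5 c6))) (coF (prF l s5 d6 (lc1 c5 c6)) (prF l d5 s6 (lc1 c5 c6))) (coF (prF l s0 d7 (lc7 c0 c1 c2 c3 c4 c5 c6 c7)) (prF l d0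 s7 (lc7 c0 c1 c2 c3 c4 c5 c6 c7))) (coF (prF l s1 d7 (lc6 c1 c2 c3 c4 c5 c6 c7)) (prF l d1 s7 (lc6 c1 c2 c3 c4 c5 c6 c7))) (coF (prF l s2 d7 (lc5 c2 c3 c4 c5 c6 c7)) (prF l d2 s7 (lc5 c2 c3 c4 c5 c6 c7))) (coF (prF l s3 d7 (lc4 c3 c4 c5 c6 c7)) (prF l d3 s7 (lc4 c3 c4 c5 c6 c7))) (coF (prF l s4 d7 (lc3 c4 c5 c6 c7)) (prF l d4 s7 (lc3 c4 c5 c6 c7))) (coF (prF l s5 d7 (lc2 c5 c6 c7)) (prF l d5 s7 (lc2 c5 c6 c7))) (coF (prF l s6 d7 (lc1 c6 c7)) (prF l d6 s7 (lc1 c6 c7))) (coF (prF l s0 d8 (lc8 c0 c1 c2 c3 c4 c5 c6 c7 c8)) (prF l d0 s8 (lc8 c0 c1 c2 c3 c4 c5 c6 c7 c8))) (coF (prF l s1 d8 (lc7 c1 c2 c3 c4 c5 c6 c7 c8)) (prF l d1 s8 (lc7 c1 c2 c3 c4 c5 c6 c7 c8))) (coF (prF l s2 d8 (lc6 c2 c3 c4 c5 c6 c7 c8)) (prF l d2 s8 (lc6 c2 c3 c4 c5 c6 c7 c8))) (coF (prF l s3 d8 (lc5 c3 c4 c5 c6 c7 c8)) (prF l d3 s8 (lc5 c3 c4 c5 c6 c7 c8))) (coF (prF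 l s4 d8 (lc4 c4 c5 c6 c7 c8)) (prF l d4 s8 (lc4 c4 c5 c6 c7 c8))) (coF (prF l s5 d8 (lc3 c5 c6 c7 c8)) (prF l d5 s8 (lc3 c5 c6 c7 c8))) (coF (prF l s6 d8 (lc2 c6 c7 c8)) (prF l d6 s8 (lc2 c6 c7 c8))) (coF (prF l s7 d8 (lc1 c7 c8)) (prF l d7 s8 (lc1 c7 c8))) (coF (prF l s0 d9 (lc9 c0 c1 c2 c3 c4 c5 c6 c7 c8 c9)) (prF l d0 s9 (lc9 c0 c1 c2 c3 c4 c5 c6 c7 c8 c9))) (coF (prF l s1 d9 (lc8 c1 c2 c3 c4 c5 c6 c7 c8 c9)) (prF l d1 s9 (lc8 c1 c2 c3 c4 c5 c6 c7 c8 c9))) (coF (prF l s2 d9 (lc7 c2 c3 c4 c5 c6 c7 c8 c9)) (prF l d2 s9 (lc7 c2 c3 c4 c5 c6 c7 c8 c9))) (coF (prF l s3 d9 (lc6 c3 c4 c5 c6 c7 c8 c9)) (prF l d3 s9 (lc6 c3 c4 c5 c6 c7 c8 c9))) (coF (prF l s4 d9 (lc5 c4 c5 c6 c7 c8 c9)) (prF l d4 s9 (lc5 c4 c5 c6 c7 c8 c9))) (coF (prF l s5 d9 (lc4 c5 c6 c7 c8 c9)) (prF l d5 s9 (lc4 c5 c6 c7 c8 c9))) (coF (prF l s6 d9 (lc3 c6 c7 c8 c9)) (prF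 l d6 s9 (lc3 c6 c7 c8 c9))) (coF (prF l s7 d9 (lc2 c7 c8 c9)) (prF l d7 s9 (lc2 c7 c8 c9))) (coF (prF l s8 d9 (lc1 c8 c9)) (prF l d8 s9 (lc1 c8 c9)))

/-- both -/
def anF (b x : Bool) : Bool := Bool.rec (motive := fun _ => Bool) false x b

/-- the class of two deep contacts -/
def g2F (k1 k2 K M c0 c1 c2 c3 c4 c5 c6 c7 c8 c9 v0 v1 v2 v3 v4 v5 v6 v7 v8 v9 D : ℕ) : Bool :=
  Bool.rec (motive := fun _ => Bool) true
    (fzB (Nat.mod D (nat_lit 1048576)) fun l => fzB (Nat.div D (nat_lit 1048576)) fun D =>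
    stR (oeF l K k1 k2 c0 v0) (odF k1 c0) D fun t0 D =>
    stR (oeF l K k1 k2 c1 v1) (odF k1 c1) D fun t1 D =>
    stR (oeF l K k1 k2 c2 v2) (odF k1 c2) D fun t2 D =>
    stR (oeF l K k1 k2 c3 v3) (odF k1 c3) D fun t3 D =>
    stR (oeF l K k1 k2 c4 v4) (odF k1 c4) D fun t4 D =>
    stR (oeF l K k1 k2 c5 v5) (odF k1 c5) D fun t5 D =>
    stR (oeF l K k1 k2 c6 v6) (odF k1 c6) D fun t6 D =>
    stR (oeF l K k1 k2 c7 v7) (odF k1 c7) D fun t7 D =>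
    stR (oeF l K k1 k2 c8 v8) (odF k1 c8) D fun t8 D =>
    stR (oeF l K k1 k2 c9 v9) (odF k1 c9) D fun t9 _ =>
    tsF M l c0 c1 c2 c3 c4 c5 c6 c7 c8 c9 v0 v1 v2 v3 v4 v5 v6 v7 v8 v9 t0 t1 t2 t3 t4 t5 t6 t7 t8 t9)
    (Nat.ble (nat_lit 2) (ctF (odF k1 c0) (odF k1 c1) (odF k1 c2) (odF k1 c3) (odF k1 c4) (odF k1 c5) (odF k1 c6) (odF k1 c7) (odF k1 c8) (odF k1 c9)))

/-- the mixed class -/
def g1F (k1 k2 K M c0 c1 c2 c3 c4 c5 c6 c7 c8 c9 v0 v1 v2 v3 v4 v5 v6 v7 v8 v9 D : ℕ) : Bool :=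
  Bool.rec (motive := fun _ => Bool)
    (fzB (Nat.mod D (nat_lit 1048576)) fun l => fzB (Nat.div D (nat_lit 1048576)) fun D =>
    stR (okF l K k1 k2 c0 v0) (osF k1 k2 c0) D fun s0 D =>
    stR (oeF l K k1 k2 c0 v0) (odF k1 c0) D fun d0 D =>
    stR (okF l K k1 k2 c1 v1) (osF k1 k2 c1) D fun s1 D =>
    stR (oeF l K k1 k2 c1 v1) (odF k1 c1) D fun d1 D =>
    stR (okF l K k1 k2 c2 v2) (osF k1 k2 c2) D fun s2 D =>
    stR (oeF l K k1 k2 c2 v2) (odF k1 c2) D fun d2 D =>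
    stR (okF l K k1 k2 c3 v3) (osF k1 k2 c3) D fun s3 D =>
    stR (oeF l K k1 k2 c3 v3) (odF k1 c3) D fun d3 D =>
    stR (okF l K k1 k2 c4 v4) (osF k1 k2 c4) D fun s4 D =>
    stR (oeF l K k1 k2 c4 v4) (odF k1 c4) D fun d4 D =>
    stR (okF l K k1 k2 c5 v5) (osF k1 k2 c5) D fun s5 D =>
    stR (oeF l K k1 k2 c5 v5) (odF k1 c5) D fun d5 D =>
    stR (okF l K k1 k2 c6 v6) (osF k1 k2 c6) D fun s6 D =>
    stR (oeF l K k1 k2 c6 v6) (odF k1 c6) D fun d6 D =>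
    stR (okF l K k1 k2 c7 v7) (osF k1 k2 c7) D fun s7 D =>
    stR (oeF l K k1 k2 c7 v7) (odF k1 c7) D fun d7 D =>
    stR (okF l K k1 k2 c8 v8) (osF k1 k2 c8) D fun s8 D =>
    stR (oeF l K k1 k2 c8 v8) (odF k1 c8) D fun d8 D =>
    stR (okF l K k1 k2 c9 v9) (osF k1 k2 c9) D fun s9 D =>
    stR (oeF l K k1 k2 c9 v9) (odF k1 c9) D fun d9 D =>
    anF (tmF M l c0 c1 c2 c3 c4 c5 c6 c7 c8 c9 v0 v1 v2 v3 v4 v5 v6 v7 v8 v9 s0 s1 s2 s3 s4 s5 s6 s7 s8 s9 d0 d1 d2 d3 d4 d5 d6 d7 d8 d9) (g2F k1 k2 K M c0 c1 c2 c3 c4 c5 c6 c7 c8 c9 v0 v1 v2 v3 v4 v5 v6 v7 v8 v9 D))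
    (g2F k1 k2 K M c0 c1 c2 c3 c4 c5 c6 c7 c8 c9 v0 v1 v2 v3 v4 v5 v6 v7 v8 v9 D)
    (Nat.ble (Nat.mul (ctF (osF k1 k2 c0) (osF k1 k2 c1) (osF k1 k2 c2) (osF k1 k2 c3) (osF k1 k2 c4) (osF k1 k2 c5) (osF k1 k2 c6) (osF k1 k2 c7) (osF k1 k2 c8) (osF k1 k2 c9)) (ctF (odF k1 c0) (odF k1 c1) (odF k1 c2) (odF k1 c3) (odF k1 c4) (odF k1 c5) (odF k1 c6) (odF k1 c7) (odF k1 c8) (odF k1 c9))) (ctF (Nat.mul (osF k1 k2 c0) (odF k1 c0)) (Nat.mul (osF k1 k2 c1) (odF k1 c1)) (Nat.mul (osF k1 k2 c2) (odF k1 c2)) (Nat.mul (osF k1 k2 c3) (odF k1 c3)) (Nat.mul (osF k1 k2 c4) (odF k1 c4)) (Nat.mul (osF k1 k2 c5) (odF k1 c5)) (Nat.mul (osF k1 k2 c6) (odF k1 c6)) (Nat.mul (osF k1 k2 c7) (odF k1 c7)) (Nat.mul (osF k1 k2 c8) (odF k1 c8)) (Nat.mul (osF k1 k2 c9) (odF k1 c9))))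

/-- the class of two shallow contacts -/
def g0F (k1 k2 K M c0 c1 c2 c3 c4 c5 c6 c7 c8 c9 v0 v1 v2 v3 v4 v5 v6 v7 v8 v9 D : ℕ) : Bool :=
  Bool.rec (motive := fun _ => Bool)
    (anF (tzF M c0 c1 c2 c3 c4 c5 c6 c7 c8 c9 v0 v1 v2 v3 v4 v5 v6 v7 v8 v9) (g1F k1 k2 K M c0 c1 c2 c3 c4 c5 c6 c7 c8 c9 v0 v1 v2 v3 v4 v5 v6 v7 v8 v9 D))
    (fzB (Nat.mod D (nat_lit 1048576)) fun l => fzB (Nat.div D (nat_lit 1048576)) fun D =>
    stR (okF l K k1 k2 c0 v0) (osF k1 k2 c0) D fun t0 D =>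
    stR (okF l K k1 k2 c1 v1) (osF k1 k2 c1) D fun t1 D =>
    stR (okF l K k1 k2 c2 v2) (osF k1 k2 c2) D fun t2 D =>
    stR (okF l K k1 k2 c3 v3) (osF k1 k2 c3) D fun t3 D =>
    stR (okF l K k1 k2 c4 v4) (osF k1 k2 c4) D fun t4 D =>
    stR (okF l K k1 k2 c5 v5) (osF k1 k2 c5) D fun t5 D =>
    stR (okF l K k1 k2 c6 v6) (osF k1 k2 c6) D fun t6 D =>
    stR (okF l K k1 k2 c7 v7) (osF k1 k2 c7) D fun t7 D =>
    stR (okF l K k1 k2 c8 v8) (osF k1 k2 c8) D fun t8 D =>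
    stR (okF l K k1 k2 c9 v9) (osF k1 k2 c9) D fun t9 D =>
    anF (tsF M l c0 c1 c2 c3 c4 c5 c6 c7 c8 c9 v0 v1 v2 v3 v4 v5 v6 v7 v8 v9 t0 t1 t2 t3 t4 t5 t6 t7 t8 t9) (g1F k1 k2 K M c0 c1 c2 c3 c4 c5 c6 c7 c8 c9 v0 v1 v2 v3 v4 v5 v6 v7 v8 v9 D))
    (Nat.ble (nat_lit 2) (ctF (osF k1 k2 c0) (osF k1 k2 c1) (osF k1 k2 c2) (osF k1 k2 c3) (osF k1 k2 c4) (osF k1 k2 c5) (osF k1 k2 c6) (osF k1 k2 c7) (osF k1 k2 c8) (osF k1 k2 c9)))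

/-- all checks of a direction leaf -/
def mnF (k1 k2 K M c0 c1 c2 c3 c4 c5 c6 c7 c8 c9 v0 v1 v2 v3 v4 v5 v6 v7 v8 v9 D : ℕ) : Bool :=
  (Bool.rec (motive := fun _ => Bool) false (Bool.rec (motive := fun _ => Bool) false (Bool.rec (motive := fun _ => Bool) false (Bool.rec (motive := fun _ => Bool) false (Bool.rec (motive := fun _ => Bool) false (Bool.rec (motive := fun _ => Bool) false (Bool.rec (motive := fun _ => Bool) false (Bool.rec (motive := fun _ => Bool) false (Bool.rec (motive := fun _ => Bool) false (Bool.rec (motive := fun _ => Bool) false (Bool.rec (motive := fun _ => Bool) false (Bool.rec (motive := fun _ => Bool) false (g0F k1 k2 K M c0 c1 c2 c3 c4 c5 c6 c7 c8 c9 v0 v1 v2 v3 v4 v5 v6 v7 v8 v9 D) (slF K k1 k2 c9 v9)) (slF K k1 k2 c8 v8)) (slF K k1 k2 c7 v7)) (slF K k1 k2 c6 v6)) (slF K k1 k2 c5 v5)) (slF K k1 k2 c4 v4)) (slF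 K k1 k2 c3 v3)) (slF K k1 k2 c2 v2)) (slF K k1 k2 c1 v1)) (slF K k1 k2 c0 v0)) (Nat.ble (kuF K k2) (nat_lit 16777215))) (Nat.ble k2 (nat_lit 900)))

/-! ### reading -/

/-- cell code `+ 1` -/
def ccA (a b : ℕ) : ℕ :=
  Bool.rec (motive := fun _ => ℕ) (nat_lit 0)
    (Bool.rec (motive := fun _ => ℕ) (nat_lit 0)
      (Nat.succ (Nat.add (Nat.div (Nat.sub a (nat_lit 1280)) (nat_lit 16))
        (Nat.mul (nat_lit 512) (Nat.div (Nat.sub b (nat_lit 1265)) (nat_lit 16)))))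
      (Nat.ble b (nat_lit 6144)))
    (Nat.ble (nat_lit 1280) a)

/-- `cellC` -/
def ccF (g : ℕ) : ℕ := ccA (Nat.mod g (nat_lit 65536)) (Nat.div g (nat_lit 65536))

/-- `crs` from the ends -/
def crA (a b : ℕ) : ℕ :=
  Bool.rec (motive := fun _ => ℕ)
    (Bool.rec (motive := fun _ => ℕ) (nat_lit 0) (nat_lit 1) (Nat.ble (nat_lit 48) b))
    (Bool.rec (motive := fun _ => ℕ) (nat_lit 0) (nat_lit 2) (Nat.beq a (nat_lit 48)))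
    (Nat.ble (nat_lit 48) a)

/-- `crs` -/
def crF (c : ℕ) : ℕ := crA (Nat.mod c (nat_lit 512)) (Nat.div c (nat_lit 512))

/-- the second velocity of a node; `x` = kind of the cell -/
def wdF (tv x E : ℕ) : ℕ :=
  Nat.rec (motive := fun _ => ℕ) (nat_lit 0)
    (fun m _ => Nat.rec (motive := fun _ => ℕ) (nat_lit 0)
      (fun x _ => Nat.rec (motive := fun _ => ℕ) (Nat.mod E (nat_lit 65536)) (fun _ _ => m) x) x) tv

/-- the rest of the payload after a node -/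
def exF (tv x E : ℕ) : ℕ :=
  Nat.rec (motive := fun _ => ℕ) E
    (fun _ _ => Nat.rec (motive := fun _ => ℕ) E
      (fun x _ => Nat.rec (motive := fun _ => ℕ) (Nat.div E (nat_lit 65536)) (fun _ _ => E) x) x) tv

/-- node number `+ 1` from cell and velocities -/
def neF (c P w : ℕ) : ℕ :=
  Bool.rec (motive := fun _ => ℕ) (nat_lit 0)
    (Nat.succ (Nat.add c (Nat.add (Nat.mul (nat_lit 262144) P) (Nat.mul (nat_lit 17179869184) (Nat.add P w)))))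
    (Nat.ble (ty c P w) (nat_lit 3))

/-- node number `+ 1`, `0` if not allowed; `c` = cell code `+ 1` -/
def nnF (tv c E : ℕ) : ℕ :=
  Nat.rec (motive := fun _ => ℕ) (nat_lit 0)
    (fun c _ => neF c (Nat.mod E (nat_lit 65536)) (wdF tv (crF c) (Nat.div E (nat_lit 65536)))) c

/-- the payload after a node -/
def npF (tv c E : ℕ) : ℕ :=
  Nat.rec (motive := fun _ => ℕ) (nat_lit 0)
    (fun c _ => exF tv (crF c) (Nat.div E (nat_lit 65536))) c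

/-- field of a box -/
def fdF (L k : ℕ) : ℕ := Nat.mod (Nat.shiftRight L (Nat.mul (nat_lit 32) k)) (nat_lit 4294967296)

/-- kind of velocities -/
def tvF (r k1 K : ℕ) : ℕ :=
  Nat.rec (motive := fun _ => ℕ) (nat_lit 0)
    (fun _ _ => Nat.rec (motive := fun _ => ℕ)
      (Nat.rec (motive := fun _ => ℕ) (nat_lit 1) (fun _ _ => nat_lit 2) K) (fun _ _ => nat_lit 1) k1)
    (Nat.mod (Nat.div r (nat_lit 8)) (nat_lit 2))

/-- lower tilt number -/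
def b1F (L : ℕ) : ℕ := Nat.sub (Nat.mod (fdF L (nat_lit 1)) (nat_lit 65536)) (nat_lit 32768)

/-- upper tilt number -/
def b2F (L : ℕ) : ℕ := Nat.sub (Nat.div (fdF L (nat_lit 1)) (nat_lit 65536)) (nat_lit 32768)

/-- velocity of the south point -/
def kKF (D : ℕ) : ℕ := Nat.mod (Nat.div D (nat_lit 35184372088832)) (nat_lit 1048576)

/-- the number of all nodes from the sum, the product and the rest of the payload, `+ 1` -/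
def pkF (A B D : ℕ) : ℕ :=
  Nat.rec (motive := fun _ => ℕ) (nat_lit 0)
    (fun _ _ => Nat.succ (Nat.add A (Nat.mul (Nat.pow (nat_lit 2) (nat_lit 640)) D))) B

/-- read node `9`; `c` cell code `+ 1` -/
def rc9F (tv _L c A B D : ℕ) : ℕ := (pkF (Nat.add A (Nat.shiftLeft (nnF tv c D) (nat_lit 576))) (Nat.mul B (nnF tv c D)) (npF tv c D))

/-- read the nodes from `9` on -/
def rd9F (tv L A B D : ℕ) : ℕ := rc9F tv L (ccF (fdF L (nat_lit 11))) A B D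

/-- read node `8`; `c` cell code `+ 1` -/
def rc8F (tv L c A B D : ℕ) : ℕ := (rd9F tv L (Nat.add A (Nat.shiftLeft (nnF tv c D) (nat_lit 512))) (Nat.mul B (nnF tv c D)) (npF tv c D))

/-- read the nodes from `8` on -/
def rd8F (tv L A B D : ℕ) : ℕ := rc8F tv L (ccF (fdF L (nat_lit 10))) A B D

/-- read node `7`; `c` cell code `+ 1` -/
def rc7F (tv L c A B D : ℕ) : ℕ := (rd8F tv L (Nat.add A (Nat.shiftLeft (nnF tv c D) (nat_lit 448))) (Nat.mul B (nnF tv c D)) (npF tv c D))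

/-- read the nodes from `7` on -/
def rd7F (tv L A B D : ℕ) : ℕ := rc7F tv L (ccF (fdF L (nat_lit 9))) A B D

/-- read node `6`; `c` cell code `+ 1` -/
def rc6F (tv L c A B D : ℕ) : ℕ := (rd7F tv L (Nat.add A (Nat.shiftLeft (nnF tv c D) (nat_lit 384))) (Nat.mul B (nnF tv c D)) (npF tv c D))

/-- read the nodes from `6` on -/
def rd6F (tv L A B D : ℕ) : ℕ := rc6F tv L (ccF (fdF L (nat_lit 8))) A B D

/-- read node `5`; `c` cell code `+ 1` -/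
def rc5F (tv L c A B D : ℕ) : ℕ := (rd6F tv L (Nat.add A (Nat.shiftLeft (nnF tv c D) (nat_lit 320))) (Nat.mul B (nnF tv c D)) (npF tv c D))

/-- read the nodes from `5` on -/
def rd5F (tv L A B D : ℕ) : ℕ := rc5F tv L (ccF (fdF L (nat_lit 7))) A B D

/-- read node `4`; `c` cell code `+ 1` -/
def rc4F (tv L c A B D : ℕ) : ℕ := (rd5F tv L (Nat.add A (Nat.shiftLeft (nnF tv c D) (nat_lit 256))) (Nat.mul B (nnF tv c D)) (npF tv c D))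

/-- read the nodes from `4` on -/
def rd4F (tv L A B D : ℕ) : ℕ := rc4F tv L (ccF (fdF L (nat_lit 6))) A B D

/-- read node `3`; `c` cell code `+ 1` -/
def rc3F (tv L c A B D : ℕ) : ℕ := (rd4F tv L (Nat.add A (Nat.shiftLeft (nnF tv c D) (nat_lit 192))) (Nat.mul B (nnF tv c D)) (npF tv c D))

/-- read the nodes from `3` on -/
def rd3F (tv L A B D : ℕ) : ℕ := rc3F tv L (ccF (fdF L (nat_lit 5))) A B D

/-- read node `2`; `c` cell code `+ 1` -/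
def rc2F (tv L c A B D : ℕ) : ℕ := (rd3F tv L (Nat.add A (Nat.shiftLeft (nnF tv c D) (nat_lit 128))) (Nat.mul B (nnF tv c D)) (npF tv c D))

/-- read the nodes from `2` on -/
def rd2F (tv L A B D : ℕ) : ℕ := rc2F tv L (ccF (fdF L (nat_lit 4))) A B D

/-- read node `1`; `c` cell code `+ 1` -/
def rc1F (tv L c A B D : ℕ) : ℕ := (rd2F tv L (Nat.add A (Nat.shiftLeft (nnF tv c D) (nat_lit 64))) (Nat.mul B (nnF tv c D)) (npF tv c D))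

/-- read the nodes from `1` on -/
def rd1F (tv L A B D : ℕ) : ℕ := rc1F tv L (ccF (fdF L (nat_lit 3))) A B D

/-- read node `0`; `c` cell code `+ 1` -/
def rc0F (tv L c A B D : ℕ) : ℕ := (rd1F tv L (Nat.add A (nnF tv c D)) (Nat.mul B (nnF tv c D)) (npF tv c D))

/-- read the nodes from `0` on -/
def rd0F (tv L A B D : ℕ) : ℕ := rc0F tv L (ccF (fdF L (nat_lit 2))) A B D

/-- nodes and the rest of the payload, `+ 1` -/
def nAF (L D r : ℕ) : ℕ :=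
  rd0F (tvF r (b1F L) (kKF D)) L (nat_lit 0) (nat_lit 1) (Nat.div D (Nat.pow (nat_lit 2) (nat_lit 65)))

/-- number of the node `l` (`0 ≤ l ≤ 9`) -/
def nkF (L D r l : ℕ) : ℕ :=
  Nat.pred (Nat.mod (Nat.shiftRight (Nat.pred (nAF L D r)) (Nat.mul (nat_lit 64) l)) (nat_lit 18446744073709551616))

/-- cell of a node number -/
def ncF (n : ℕ) : ℕ := Nat.mod n (nat_lit 262144)

/-- velocity above -/
def npp (n : ℕ) : ℕ := Nat.mod (Nat.div n (nat_lit 262144)) (nat_lit 65536)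

/-- velocity below -/
def nqF (n : ℕ) : ℕ := Nat.div n (nat_lit 17179869184)

/-- velocity code of a node number -/
def nvF (n : ℕ) : ℕ := Nat.add (npp n) (Nat.mul (nat_lit 65536) (Nat.sub (nqF n) (npp n)))

/-- pass the ten node numbers to the checks -/
def rMF (k1 k2 K M n0 n1 n2 n3 n4 n5 n6 n7 n8 n9 D : ℕ) : Bool :=
  fzB (ncF n0) fun c0 =>
  fzB (nvF n0) fun v0 =>
  fzB (ncF n1) fun c1 =>
  fzB (nvF n1) fun v1 =>
  fzB (ncF n2) fun c2 =>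
  fzB (nvF n2) fun v2 =>
  fzB (ncF n3) fun c3 =>
  fzB (nvF n3) fun v3 =>
  fzB (ncF n4) fun c4 =>
  fzB (nvF n4) fun v4 =>
  fzB (ncF n5) fun c5 =>
  fzB (nvF n5) fun v5 =>
  fzB (ncF n6) fun c6 =>
  fzB (nvF n6) fun v6 =>
  fzB (ncF n7) fun c7 =>
  fzB (nvF n7) fun v7 =>
  fzB (ncF n8) fun c8 =>
  fzB (nvF n8) fun v8 =>
  fzB (ncF n9) fun c9 =>
  fzB (nvF n9) fun v9 =>
  mnF k1 k2 K M c0 c1 c2 c3 c4 c5 c6 c7 c8 c9 v0 v1 v2 v3 v4 v5 v6 v7 v8 v9 D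

/-- **the check of a direction leaf** -/
def dlF (L D r : ℕ) : Bool :=
  Nat.rec (motive := fun _ => Bool) false
    (fun X _ => fzB (Nat.div X (Nat.pow (nat_lit 2) (nat_lit 640))) fun D' =>
      fzB (b1F L) fun k1 => fzB (b2F L) fun k2 => fzB (kKF D) fun K =>
      fzB (Nat.mod D (nat_lit 35184372088832)) fun M =>
      rMF k1 k2 K M (nkF L D r (nat_lit 0)) (nkF L D r (nat_lit 1)) (nkF L D r (nat_lit 2)) (nkF L D r (nat_lit 3)) (nkF L D r (nat_lit 4)) (nkF L D r (nat_lit 5)) (nkF L D r (nat_lit 6)) (nkF L D r (nat_lit 7)) (nkF L D r (nat_lit 8)) (nkF L D r (nat_lit 9)) D') (nAF L D r)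

/-! ### the exact pole -/

/-- mark of a touching node -/
def tkA (K v P Q : ℕ) : ℕ :=
  Nat.rec (motive := fun _ => ℕ)
    (Bool.rec (motive := fun _ => ℕ)
      (Bool.rec (motive := fun _ => ℕ) (nat_lit 0) (nat_lit 3) (Nat.beq v (nat_lit 32768))) (nat_lit 2)
      (Nat.ble (nat_lit 32769) P))
    (fun _ _ => Bool.rec (motive := fun _ => ℕ) (nat_lit 0)
      (Bool.rec (motive := fun _ => ℕ) (nat_lit 0) (nat_lit 2) (Nat.ble (nat_lit 32769) Q))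
      (Nat.ble (nat_lit 32768) P)) K

/-- mark from the ends of the cell -/
def tkB (K v a b : ℕ) : ℕ :=
  Bool.rec (motive := fun _ => ℕ) (nat_lit 1)
    (Bool.rec (motive := fun _ => ℕ) (nat_lit 1)
      (tkA K v (Nat.mod v (nat_lit 65536)) (Nat.add (Nat.mod v (nat_lit 65536)) (Nat.div v (nat_lit 65536))))
      (Nat.ble (nat_lit 48) b)) (Nat.ble a (nat_lit 48))

/-- `tmk` -/
def tkF (K c v : ℕ) : ℕ := tkB K v (Nat.mod c (nat_lit 512)) (Nat.div c (nat_lit 512))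

/-- `pq` -/
def pqF (a b L : ℕ) : ℕ :=
  Nat.rec (motive := fun _ => ℕ) (nat_lit 0) (fun a _ => Nat.rec (motive := fun _ => ℕ) (nat_lit 0)
    (fun b _ => Nat.add (Nat.sub (nat_lit 65536) L) (Nat.mul (nat_lit 1048576)
      (Nat.rec (motive := fun _ => ℕ) (nat_lit 4194304) (fun _ _ =>
        Nat.rec (motive := fun _ => ℕ) (nat_lit 4194304) (fun _ _ => nat_lit 8388608) b) a))) b) a

/-- the test of the entries -/
def tqF (M c0 c1 c2 c3 c4 c5 c6 c7 c8 c9 v0 v1 v2 v3 v4 v5 v6 v7 v8 v9 t0 t1 t2 t3 t4 t5 t6 t7 t8 t9 : ℕ) : Bool :=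
  pT (peF M (nat_lit 1) c0 v0 c1 v1) (peF M (nat_lit 2) c0 v0 c2 v2) (peF M (nat_lit 512) c1 v1 c2 v2) (peF M (nat_lit 4) c0 v0 c3 v3) (peF M (nat_lit 1024) c1 v1 c3 v3) (peF M (nat_lit 131072) c2 v2 c3 v3) (peF M (nat_lit 8) c0 v0 c4 v4) (peF M (nat_lit 2048) c1 v1 c4 v4) (peF M (nat_lit 262144) c2 v2 c4 v4) (peF M (nat_lit 16777216) c3 v3 c4 v4) (peF M (nat_lit 16) c0 v0 c5 v5) (peF M (nat_lit 4096) c1 v1 c5 v5) (peF M (nat_lit 524288) c2 v2 c5 v5) (peF M (nat_lit 33554432) c3 v3 c5 v5) (peF M (nat_lit 1073741824) c4 v4 c5 v5) (peF M (nat_lit 32) c0 v0 c6 v6) (peF M (nat_lit 8192) c1 v1 c6 v6) (peF M (nat_lit 1048576) c2 v2 c6 v6) (peF M (nat_lit 67108864) c3 v3 c6 v6) (peF M (nat_lit 2147483648) c4 v4 c6 v6) (peF M (nat_lit 34359738368) c5 v5 c6 v6) (peF M (nat_lit 64) c0 v0 c7 v7) (peF M (nat_lit 16384) c1 v1 c7 v7) (peF M (nat_lit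 2097152) c2 v2 c7 v7) (peF M (nat_lit 134217728) c3 v3 c7 v7) (peF M (nat_lit 4294967296) c4 v4 c7 v7) (peF M (nat_lit 68719476736) c5 v5 c7 v7) (peF M (nat_lit 549755813888) c6 v6 c7 v7) (peF M (nat_lit 128) c0 v0 c8 v8) (peF M (nat_lit 32768) c1 v1 c8 v8) (peF M (nat_lit 4194304) c2 v2 c8 v8) (peF M (nat_lit 268435456) c3 v3 c8 v8) (peF M (nat_lit 8589934592) c4 v4 c8 v8) (peF M (nat_lit 137438953472) c5 v5 c8 v8) (peF M (nat_lit 1099511627776) c6 v6 c8 v8) (peF M (nat_lit 4398046511104) c7 v7 c8 v8) (peF M (nat_lit 256) c0 v0 c9 v9) (peF M (nat_lit 65536) c1 v1 c9 v9) (peF M (nat_lit 8388608) c2 v2 c9 v9) (peF M (nat_lit 536870912) c3 v3 c9 v9) (peF M (nat_lit 17179869184) c4 v4 c9 v9) (peF M (nat_lit 274877906944) c5 v5 c9 v9) (peF M (nat_lit 2199023255552) c6 v6 c9 v9) (peF M (nat_lit 8796093022208) c7 v7 c9 v9) (peF M (nat_lit 17592186044416)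 c8 v8 c9 v9)
    (pqF t0 t1 (lc1 c0 c1)) (pqF t0 t2 (lc2 c0 c1 c2)) (pqF t1 t2 (lc1 c1 c2)) (pqF t0 t3 (lc3 c0 c1 c2 c3)) (pqF t1 t3 (lc2 c1 c2 c3)) (pqF t2 t3 (lc1 c2 c3)) (pqF t0 t4 (lc4 c0 c1 c2 c3 c4)) (pqF t1 t4 (lc3 c1 c2 c3 c4)) (pqF t2 t4 (lc2 c2 c3 c4)) (pqF t3 t4 (lc1 c3 c4)) (pqF t0 t5 (lc5 c0 c1 c2 c3 c4 c5)) (pqF t1 t5 (lc4 c1 c2 c3 c4 c5)) (pqF t2 t5 (lc3 c2 c3 c4 c5)) (pqF t3 t5 (lc2 c3 c4 c5)) (pqF t4 t5 (lc1 c4 c5)) (pqF t0 t6 (lc6 c0 c1 c2 c3 c4 c5 c6)) (pqF t1 t6 (lc5 c1 c2 c3 c4 c5 c6)) (pqF t2 t6 (lc4 c2 c3 c4 c5 c6)) (pqF t3 t6 (lc3 c3 c4 c5 c6)) (pqF t4 t6 (lc2 c4 c5 c6)) (pqF t5 t6 (lc1 c5 c6)) (pqF t0 t7 (lc7 c0 c1 c2 c3 c4 c5 c6 c7)) (pqF t1 t7 (lc6 c1 c2 c3 c4 c5 c6 c7)) (pqF t2 t7 (lc5 c2 c3 c4 c5 c6 c7)) (pqF t3 t7 (lc4 c3 c4 c5 c6 c7)) (pqF t4 t7 (lc3 c4 c5 c6 c7)) (pqF t5 t7 (lc2 c5 c6 c7)) (pqF t6 t7 (lc1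 c6 c7)) (pqF t0 t8 (lc8 c0 c1 c2 c3 c4 c5 c6 c7 c8)) (pqF t1 t8 (lc7 c1 c2 c3 c4 c5 c6 c7 c8)) (pqF t2 t8 (lc6 c2 c3 c4 c5 c6 c7 c8)) (pqF t3 t8 (lc5 c3 c4 c5 c6 c7 c8)) (pqF t4 t8 (lc4 c4 c5 c6 c7 c8)) (pqF t5 t8 (lc3 c5 c6 c7 c8)) (pqF t6 t8 (lc2 c6 c7 c8)) (pqF t7 t8 (lc1 c7 c8)) (pqF t0 t9 (lc9 c0 c1 c2 c3 c4 c5 c6 c7 c8 c9)) (pqF t1 t9 (lc8 c1 c2 c3 c4 c5 c6 c7 c8 c9)) (pqF t2 t9 (lc7 c2 c3 c4 c5 c6 c7 c8 c9)) (pqF t3 t9 (lc6 c3 c4 c5 c6 c7 c8 c9)) (pqF t4 t9 (lc5 c4 c5 c6 c7 c8 c9)) (pqF t5 t9 (lc4 c5 c6 c7 c8 c9)) (pqF t6 t9 (lc3 c6 c7 c8 c9)) (pqF t7 t9 (lc2 c7 c8 c9)) (pqF t8 t9 (lc1 c8 c9))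

/-- `poleD` -/
def pdF (K M c0 c1 c2 c3 c4 c5 c6 c7 c8 c9 v0 v1 v2 v3 v4 v5 v6 v7 v8 v9 : ℕ) : Bool :=
  (Nat.rec (motive := fun _ => Bool) false (fun t0 _ => (Nat.rec (motive := fun _ => Bool) false (fun t1 _ => (Nat.rec (motive := fun _ => Bool) false (fun t2 _ => (Nat.rec (motive := fun _ => Bool) false (fun t3 _ => (Nat.rec (motive := fun _ => Bool) false (fun t4 _ => (Nat.rec (motive := fun _ => Bool) false (fun t5 _ => (Nat.rec (motive := fun _ => Bool) false (fun t6 _ => (Nat.rec (motive := fun _ => Bool) false (fun t7 _ => (Nat.rec (motive := fun _ => Bool) false (fun t8 _ => (Nat.rec (motive := fun _ => Bool) false (fun t9 _ => (Bool.rec (motive := fun _ => Bool) true (tqF M c0 c1 c2 c3 c4 c5 c6 c7 c8 c9 v0 v1 v2 v3 v4 v5 v6 v7 v8 v9 t0 t1 t2 t3 t4 t5 t6 t7 t8 t9) (Nat.ble (nat_lit 2) (ctF t0 t1 t2 t3 t4 t5 t6 t7 t8 t9)))) (tkF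 K c9 v9))) (tkF K c8 v8))) (tkF K c7 v7))) (tkF K c6 v6))) (tkF K c5 v5))) (tkF K c4 v4))) (tkF K c3 v3))) (tkF K c2 v2))) (tkF K c1 v1))) (tkF K c0 v0))

/-- pass the ten node numbers to the pole check -/
def rPF (K M n0 n1 n2 n3 n4 n5 n6 n7 n8 n9 : ℕ) : Bool :=
  fzB (ncF n0) fun c0 =>
  fzB (nvF n0) fun v0 =>
  fzB (ncF n1) fun c1 =>
  fzB (nvF n1) fun v1 =>
  fzB (ncF n2) fun c2 =>
  fzB (nvF n2) fun v2 =>
  fzB (ncF n3) fun c3 =>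
  fzB (nvF n3) fun v3 =>
  fzB (ncF n4) fun c4 =>
  fzB (nvF n4) fun v4 =>
  fzB (ncF n5) fun c5 =>
  fzB (nvF n5) fun v5 =>
  fzB (ncF n6) fun c6 =>
  fzB (nvF n6) fun v6 =>
  fzB (ncF n7) fun c7 =>
  fzB (nvF n7) fun v7 =>
  fzB (ncF n8) fun c8 =>
  fzB (nvF n8) fun v8 =>
  fzB (ncF n9) fun c9 =>
  fzB (nvF n9) fun v9 =>
  pdF K M c0 c1 c2 c3 c4 c5 c6 c7 c8 c9 v0 v1 v2 v3 v4 v5 v6 v7 v8 v9

/-- **the extra check at the exact pole** -/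
def poF (L D r : ℕ) : Bool :=
  fzB (kKF D) fun K => fzB (Nat.mod D (nat_lit 35184372088832)) fun M => rPF K M (nkF L D r (nat_lit 0)) (nkF L D r (nat_lit 1)) (nkF L D r (nat_lit 2)) (nkF L D r (nat_lit 3)) (nkF L D r (nat_lit 4)) (nkF L D r (nat_lit 5)) (nkF L D r (nat_lit 6)) (nkF L D r (nat_lit 7)) (nkF L D r (nat_lit 8)) (nkF L D r (nat_lit 9))

end Pool.Agent.Helper98.FD
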