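import Pool.Agent.Helper98.DL.DS9
import Pool.Agent.Helper91.Kiss.PoleSnd

set_option autoImplicit false

/-! # Direction leaves: the leaf structure, exact pole included -/

namespace Pool.Agent.Helper98.DL

open Real Pool.Agent.Helper98.KT Pool.Agent.Helper65.KR Pool.Agent.Helper66.Kiss
  Pool.Agent.Helper66.Kiss.Pk Pool.Agent.Helper54.KA Pool.Agent.Helper91.Kiss

/-- a box with positive lower tilt number is away from the pole -/
lemma pole_bk1 {L : ℕ} {z : ℕ → ℝ} {Z : Fin 11 → ℝ} (h : InB L z)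
    (hz : ∀ k : Fin 11, z k = Z k) (h0 : Z 0 = -1) : bk1 L = 0 := by
  have h1 := h 0 (by norm_num)
  have e : z 0 = Z 0 := hz 0
  rw [e] at h1
  obtain ⟨hk, -, hlo, hhi⟩ := h1
  rcases hk with ⟨h0, -⟩ | ⟨-, c1, c2⟩
  · exact absurd rfl h0
  · obtain ⟨a, ha, ha'⟩ := isS0_form c1
    rw [← fdK_eq] at ha
    have eb1 : bk1 L = a := by
      have e1 : Nat.mod (fdK L 1) 65536 = 32768 + a := ha
      unfold bk1
      rw [e1]
      exact Nat.add_sub_cancel_left 32768 a
    rw [fdK_eq] at ha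
    rw [ha, hgt_zs, h0] at hlo
    have e0 : zs (0 : ℝ) = -1 := by unfold zs; norm_num
    rw [← e0] at hlo
    have h3 := le_of_zs (le_refl (0 : ℝ)) hlo
    have h4 : (a : ℝ) ≤ 0 := by linarith
    have h5 : a = 0 := by exact_mod_cast le_antisymm h4 (Nat.cast_nonneg a)
    rw [eb1, h5]

/-- **a direction leaf**, exact pole included -/
theorem leafK_of_dleafP {L D r : ℕ} {z : ℕ → ℝ} {Z φ : Fin 11 → ℝ} {ρ : ℝ} (hρ : 0 < ρ)
    (hF : Fe Z φ) (hs : Srtd φ) (hB : InB L z) (hz : ∀ k : Fin 11, z k = Z k)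
    (h : dleaf L D r = true) (hp : bk1 L = 0 → poleL L D r = true) :
    LeafK Z φ (lV ρ L D r) (lW ρ L D r) ((pK D : ℝ) * ρ) ρ (Df (cL L D r)) (lR L D r) := by
  obtain ⟨hbox, -⟩ := box_bridge hB hz
  obtain ⟨-, -, hv, -⟩ := dleaf_spec hρ hbox h
  have eV : ∀ l : Fin 10, vU ρ (vL L D r l) = lV ρ L D r l := fun l => (hv l (by omega)).1
  have eW : ∀ l : Fin 10, vD ρ (vL L D r l) = lW ρ L D r l := fun l => (hv l (by omega)).2.1
  refine leafK_of_dleaf hρ hF hs hB hz h (fun h0 => ?_) (fun h0 m l hml h1 h2 => ?_)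
  · have hk := pole_bk1 hB hz h0
    have hq := (poleL_sound hρ rfl hbox hF hs h (hp hk) hk).1
    simp only [eV, eW] at hq
    exact hq
  · have hk := pole_bk1 hB hz h0
    have hq := (poleL_sound hρ rfl hbox hF hs h (hp hk) hk).2 m l hml h1 h2
    simp only [eV] at hq
    exact hq

end Pool.Agent.Helper98.DL
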