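import Pool.Agent.Helper98.DL.DFun
import Pool.Agent.Helper65.KR.RateN

set_option autoImplicit false

/-! # Direction leaves: bounds of the longitude differences of two cells -/

namespace Pool.Agent.Helper98.DL

open Real Pool.Agent.Helper98.KT Pool.Agent.Helper65.KR Pool.Agent.Helper66.Kiss
  Pool.Agent.Helper66.Kiss.Pk

lemma fz_eq {α : Type} (n : ℕ) (f : ℕ → α) : fz n f = f n := rfl

/-- the same, not by definitional equality -/
lemma fz_pr {α : Type} (n : ℕ) (f : ℕ → α) : fz n f = f n := by cases n <;> rfl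

lemma cb_true {α : Type} (x y : α) : cb true x y = x := rfl

lemma cb_false {α : Type} (x y : α) : cb false x y = y := rfl

lemma nb_zero {α : Type} (x : α) (f : ℕ → α) : nb 0 x f = x := rfl

lemma nb_succ {α : Type} (n : ℕ) (x : α) (f : ℕ → α) : nb (n + 1) x f = f n := rfl

/-- both conditions hold -/
lemma cb_and {b c : Bool} (h : cb b c false = true) : b = true ∧ c = true := by
  cases b
  · exact absurd h (by simp [cb])
  · exact ⟨rfl, h⟩

lemma gc_zz (i : ℕ) : gc i = zz i := rfl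

lemma InC_iff {c : ℕ} {x : ℝ} : InC c x ↔ zz (lo c) ≤ x ∧ x ≤ zz (hi c) := Iff.rfl

lemma RR_gt_one {x y : ℝ} (hx : In x) (hy : In y) (h : 3 / 4 - x ^ 2 - y ^ 2 + x * y < 0) :
    1 < RR x y := by
  have h1 : 1 < RR x y ^ 2 := by
    rw [RR_sq hx hy, lt_div_iff₀ (mul_pos hx.one hy.one)]
    nlinarith
  have h2 := RR_pos hx hy
  nlinarith

lemma qneg_real {i j : ℕ} (h : qneg i j = true) :
    3 / 4 - zz i ^ 2 - zz j ^ 2 + zz i * zz j < 0 := by
  have h1 : 18176 + (i * j + 176 * (i + j)) < i * i + j * j := Nat.le_of_ble_eq_true h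
  clear h
  have h2 : (18176 : ℝ) + (i * j + 176 * (i + j)) < i * i + j * j := by exact_mod_cast h1
  unfold zz
  nlinarith

lemma quad_mono {a d x y : ℝ} (ha : 0 ≤ a) (hd : d ≤ 0) (hx : a ≤ x) (hy : y ≤ d) :
    3 / 4 - x ^ 2 - y ^ 2 + x * y ≤ 3 / 4 - a ^ 2 - d ^ 2 + a * d := by
  nlinarith [mul_nonneg (sub_nonneg.2 hx) (sub_nonneg.2 hy), mul_nonneg ha (sub_nonneg.2 hx),
    mul_nonneg (neg_nonneg.2 hd) (sub_nonneg.2 hy), mul_nonneg ha (sub_nonneg.2 hy),
    mul_nonneg (neg_nonneg.2 hd) (sub_nonneg.2 hx)]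

lemma zz_nonneg {a : ℕ} (h : 176 ≤ a) : 0 ≤ zz a := by
  have : (176 : ℝ) ≤ a := by exact_mod_cast h
  unfold zz; linarith

lemma zz_nonpos {a : ℕ} (h : a ≤ 176) : zz a ≤ 0 := by
  have : (a : ℝ) ≤ 176 := by exact_mod_cast h
  unfold zz; linarith

lemma frd_sound {a b c d : ℕ} {x y : ℝ} (hb : b ≤ 304) (hd : d ≤ 304)
    (h1 : zz a ≤ x) (h2 : x ≤ zz b) (h3 : zz c ≤ y) (h4 : y ≤ zz d) (h : frd a b c d = true) :
    1 < RR x y := by
  have hab : a ≤ b := zz_le (h1.trans h2)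
  have hcd : c ≤ d := zz_le (h3.trans h4)
  have hx : In x := (zz_In (by omega : a ≤ 304)).mid (zz_In hb) h1 h2
  have hy : In y := (zz_In (by omega : c ≤ 304)).mid (zz_In hd) h3 h4
  unfold frd at h
  cases hc : cb (Nat.ble 176 a) (cb (Nat.ble d 176) (qneg a d) false) false with
  | true =>
    obtain ⟨k1, k2⟩ := cb_and hc
    obtain ⟨k2, k3⟩ := cb_and k2
    have e1 : 176 ≤ a := Nat.le_of_ble_eq_true k1
    have e2 : d ≤ 176 := Nat.le_of_ble_eq_true k2
    have e3 := qneg_real k3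
    clear h hc k1 k2 k3
    exact RR_gt_one hx hy (lt_of_le_of_lt (quad_mono (zz_nonneg e1) (zz_nonpos e2) h1 h4) e3)
  | false =>
    rw [hc] at h
    have h' : cb (Nat.ble 176 c) (cb (Nat.ble b 176) (qneg b c) false) false = true := h
    obtain ⟨k1, k2⟩ := cb_and h'
    obtain ⟨k2, k3⟩ := cb_and k2
    have e1 : 176 ≤ c := Nat.le_of_ble_eq_true k1
    have e2 : b ≤ 176 := Nat.le_of_ble_eq_true k2
    have e3 := qneg_real k3
    clear h hc k1 k2 k3 h'
    rw [RR_comm]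
    refine RR_gt_one hy hx (lt_of_le_of_lt (quad_mono (zz_nonneg e1) (zz_nonpos e2) h3 h2) ?_)
    linarith

lemma dplus_eq (c1 c2 : ℕ) : dplus c1 c2 = cb (frd (lo c1) (hi c1) (lo c2) (hi c2)) 0
    (dHi (lo c1) (hi c1) (rowOf (lo c1)) (rowOf (hi c1)) (lo c2) (hi c2) (rowOf (lo c2))
      (rowOf (hi c2))) := rfl

lemma dminus_eq (c1 c2 : ℕ) : dminus c1 c2 =
    dLo (rowOf (lo c1)) (rowOf (hi c1)) (lo c2) (hi c2) := rfl

/-- **the upper bound** -/
theorem dplus_sound {c1 c2 : ℕ} {x y : ℝ} (hb : hi c1 ≤ 304) (hd : hi c2 ≤ 304) (h1 : InC c1 x)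
    (h2 : InC c2 y) : 1 < RR x y ∨ (0 < dplus c1 c2 ∧ wd x y ≤ dplus c1 c2 * (π / 32768)) := by
  rw [InC_iff] at h1 h2
  rw [dplus_eq]
  cases h : frd (lo c1) (hi c1) (lo c2) (hi c2) with
  | true => exact Or.inl (frd_sound hb hd h1.1 h1.2 h2.1 h2.2 h)
  | false =>
    rw [cb_false]
    right
    refine ⟨?_, dHi_sound hb hd h1.1 h1.2 h2.1 h2.2⟩
    unfold dHi
    exact Nat.succ_pos _

lemma dplus_zero {c1 c2 : ℕ} {x y : ℝ} (hb : hi c1 ≤ 304) (hd : hi c2 ≤ 304) (h1 : InC c1 x)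
    (h2 : InC c2 y) (h : dplus c1 c2 = 0) : 1 < RR x y := by
  rcases dplus_sound hb hd h1 h2 with h3 | ⟨h3, -⟩
  · exact h3
  · omega

/-- **the lower bound** -/
theorem dminus_sound {c1 c2 : ℕ} {x y : ℝ} (hb : hi c1 ≤ 304) (hd : hi c2 ≤ 304) (h1 : InC c1 x)
    (h2 : InC c2 y) : (dminus c1 c2 : ℝ) * (π / 32768) ≤ wd x y := by
  rw [InC_iff] at h1 h2
  rw [dminus_eq]
  exact dLo_sound hb hd h1.1 h1.2 h2.1 h2.2

/-- entries of the table are small -/
lemma ent_small {i j : ℕ} (hi : i ≤ 304) (hj : j ≤ 304) : ent16 (rowOf i) j ≤ 15999 := by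
  have hc := ent_chk hi hj
  set e := ent16 (rowOf i) j with he
  clear_value e
  unfold chk1 at hc
  cases hb : Nat.ble (Nat.add 18176 (Nat.add (Nat.mul i j) (Nat.mul 176 (Nat.add i j))))
      (Nat.add (Nat.mul i i) (Nat.mul j j)) with
  | true =>
    rw [hb] at hc
    have he0 : e = 0 := Nat.eq_of_beq_eq_true hc
    rw [he0]; norm_num
  | false =>
    rw [hb] at hc
    clear hb
    unfold chkE at hc
    simp only [fN_eq, Bool.and_eq_true, Bool.or_eq_true] at hc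
    obtain ⟨⟨⟨c1, -⟩, -⟩, -⟩ := hc
    exact Nat.le_of_ble_eq_true c1

lemma dplus_le {c1 c2 : ℕ} (hb : hi c1 ≤ 304) (hd : hi c2 ≤ 304) (h1 : lo c1 ≤ hi c1)
    (h2 : lo c2 ≤ hi c2) : dplus c1 c2 ≤ 2 ^ 15 := by
  rw [dplus_eq]
  cases frd (lo c1) (hi c1) (lo c2) (hi c2) with
  | true => rw [cb_true]; norm_num
  | false =>
    rw [cb_false]
    have k1 := clm_range (c := lo c1) h2
    have k2 := clm_range (c := hi c1) h2
    have k3 := clm_range (c := lo c2) h1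
    have k4 := clm_range (c := hi c2) h1
    have e1 := ent_small (i := lo c1) (j := clm (lo c2) (hi c2) (lo c1)) (by omega) (by omega)
    have e2 := ent_small (i := hi c1) (j := clm (lo c2) (hi c2) (hi c1)) (by omega) (by omega)
    have e3 := ent_small (i := lo c2) (j := clm (lo c1) (hi c1) (lo c2)) (by omega) (by omega)
    have e4 := ent_small (i := hi c2) (j := clm (lo c1) (hi c1) (hi c2)) (by omega) (by omega)
    unfold dHi
    rw [mx_eq, mx_eq, mx_eq]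
    have : (2 : ℕ) ^ 15 = 32768 := by norm_num
    omega

end Pool.Agent.Helper98.DL
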