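import Pool.Agent.Helper98.DL.DTabR

set_option autoImplicit false

/-! # Least and largest longitude differences over a rectangle of heights -/

namespace Pool.Agent.Helper98.DL

open Real Pool.Agent.Helper98.KT Pool.Agent.Helper66.Kiss

/-! ## monotonicity -/

/-- heights in the range of the table (and their negatives) -/
def In (x : ℝ) : Prop := -(11 / 16) ≤ x ∧ x ≤ 11 / 16

lemma In.neg {x : ℝ} (h : In x) : In (-x) := ⟨by linarith [h.2], by linarith [h.1]⟩

lemma In.sq {x : ℝ} (h : In x) : x ^ 2 ≤ 121 / 256 := by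
  obtain ⟨h1, h2⟩ := h
  nlinarith

lemma In.one {x : ℝ} (h : In x) : 0 < 1 - x ^ 2 := by linarith [h.sq]

lemma In.num {x y : ℝ} (hx : In x) (hy : In y) : 0 < 1 / 2 - x * y := by
  nlinarith [hx.sq, hy.sq, sq_nonneg (x - y)]

lemma RR_pos {x y : ℝ} (hx : In x) (hy : In y) : 0 < RR x y := by
  have s1 : 0 < √(1 - x ^ 2) := Real.sqrt_pos.2 hx.one
  have s2 : 0 < √(1 - y ^ 2) := Real.sqrt_pos.2 hy.one
  have := hx.num hy
  unfold RR
  positivity

lemma RR_sq {x y : ℝ} (hx : In x) (hy : In y) :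
    RR x y ^ 2 = (1 / 2 - x * y) ^ 2 / ((1 - x ^ 2) * (1 - y ^ 2)) := by
  unfold RR
  rw [div_pow, mul_pow, Real.sq_sqrt hx.one.le, Real.sq_sqrt hy.one.le]

lemma RR_le_RR {x y x' y' : ℝ} (hx : In x) (hy : In y) (hx' : In x') (hy' : In y')
    (h : (1 / 2 - x * y) ^ 2 * ((1 - x' ^ 2) * (1 - y' ^ 2)) ≤
      (1 / 2 - x' * y') ^ 2 * ((1 - x ^ 2) * (1 - y ^ 2))) : RR x y ≤ RR x' y' := by
  have h1 : RR x y ^ 2 ≤ RR x' y' ^ 2 := by
    rw [RR_sq hx hy, RR_sq hx' hy', div_le_div_iff₀ (mul_pos hx.one hy.one)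
      (mul_pos hx'.one hy'.one)]
    exact h
  exact (pow_le_pow_iff_left₀ (RR_pos hx hy).le (RR_pos hx' hy').le (by norm_num)).1 h1

lemma wd_le_wd {x y x' y' : ℝ} (hx : In x) (hy : In y) (hx' : In x') (hy' : In y')
    (h : (1 / 2 - x * y) ^ 2 * ((1 - x' ^ 2) * (1 - y' ^ 2)) ≤
      (1 / 2 - x' * y') ^ 2 * ((1 - x ^ 2) * (1 - y ^ 2))) : wd x' y' ≤ wd x y :=
  arccos_le_arccos (RR_le_RR hx hy hx' hy' h)

lemma key_h {a b y : ℝ} (ha : In a) (hb : In b) (hy : In y) (h1 : 2 * y ≤ a) (h2 : a ≤ b) :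
    0 ≤ (a + b) * (1 / 4 + y ^ 2) - y * (1 + a * b) := by
  obtain ⟨a1, a2⟩ := ha
  obtain ⟨b1, b2⟩ := hb
  obtain ⟨y1, y2⟩ := hy
  rcases le_total (-(1 / 2)) y with h | h
  · have e : (a + b) * (1 / 4 + y ^ 2) - y * (1 + a * b) =
        ((y - b / 2) ^ 2 + (1 - b ^ 2) / 4) * (a - 2 * y) + (b - 2 * y) * (1 / 4 - y ^ 2) := by ring
    rw [e]
    have k1 : 0 ≤ 1 - b ^ 2 := by nlinarith
    have k2 : 0 ≤ 1 / 4 - y ^ 2 := by nlinarith
    have k3 : 0 ≤ a - 2 * y := by linarith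
    have k4 : 0 ≤ b - 2 * y := by linarith
    positivity
  · have e : (a + b) * (1 / 4 + y ^ 2) - y * (1 + a * b) =
        (-y - 11 / 32) * (1 + 11 / 8 * y) + ((y + 11 / 32) ^ 2 + (1 - (11 / 16) ^ 2) / 4) *
          ((a + 11 / 16) + (b + 11 / 16)) + (-y) * ((a + 11 / 16) * (b + 11 / 16)) := by ring
    rw [e]
    have k1 : 0 ≤ a + 11 / 16 := by linarith
    have k2 : 0 ≤ b + 11 / 16 := by linarith
    have k3 : 0 ≤ -y := by linarith
    have k4 : 0 ≤ -y - 11 / 32 := by linarith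
    have k5 : 0 ≤ 1 + 11 / 8 * y := by linarith
    have k6 : (0 : ℝ) ≤ 1 - (11 / 16) ^ 2 := by norm_num
    positivity

/-- decreasing for `2 y ≤ x` -/
lemma wd_right {a b y : ℝ} (ha : In a) (hb : In b) (hy : In y) (h1 : 2 * y ≤ a) (h2 : a ≤ b) :
    wd b y ≤ wd a y := by
  refine wd_le_wd ha hy hb hy ?_
  have h := mul_nonneg (sub_nonneg.2 h2) (key_h ha hb hy h1 h2)
  have h3 := hy.one
  have e : (1 / 2 - b * y) ^ 2 * ((1 - a ^ 2) * (1 - y ^ 2)) -
      (1 / 2 - a * y) ^ 2 * ((1 - b ^ 2) * (1 - y ^ 2)) =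
      (b - a) * ((a + b) * (1 / 4 + y ^ 2) - y * (1 + a * b)) * (1 - y ^ 2) := by ring
  have := mul_nonneg h h3.le
  linarith

/-- increasing for `x ≤ 2 y` -/
lemma wd_left {a b y : ℝ} (ha : In a) (hb : In b) (hy : In y) (h1 : b ≤ 2 * y) (h2 : a ≤ b) :
    wd a y ≤ wd b y := by
  refine wd_le_wd hb hy ha hy ?_
  have h := mul_nonneg (sub_nonneg.2 h2) (key_h hb.neg ha.neg hy.neg (by linarith) (by linarith))
  have h3 := hy.one
  have e : (1 / 2 - a * y) ^ 2 * ((1 - b ^ 2) * (1 - y ^ 2)) -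
      (1 / 2 - b * y) ^ 2 * ((1 - a ^ 2) * (1 - y ^ 2)) =
      (b - a) * ((-b + -a) * (1 / 4 + (-y) ^ 2) - -y * (1 + -b * -a)) * (1 - y ^ 2) := by ring
  have := mul_nonneg h h3.le
  linarith

/-- along the ridge -/
lemma wd_ridge {x x' : ℝ} (hx : In x) (hx2 : In (2 * x)) (hx' : In x') (hx2' : In (2 * x'))
    (h : x ^ 2 ≤ x' ^ 2) : wd x (2 * x) ≤ wd x' (2 * x') := by
  refine wd_le_wd hx' hx2' hx hx2 ?_
  have e : (1 / 2 - x * (2 * x)) ^ 2 * ((1 - x' ^ 2) * (1 - (2 * x') ^ 2)) -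
      (1 / 2 - x' * (2 * x')) ^ 2 * ((1 - x ^ 2) * (1 - (2 * x) ^ 2)) =
      (3 / 4) * (x' ^ 2 - x ^ 2) * ((1 - (2 * x) ^ 2) * (1 - (2 * x') ^ 2)) := by ring
  have h1 := hx2.one
  have h2 := hx2'.one
  have h3 : 0 ≤ x' ^ 2 - x ^ 2 := by linarith
  have : 0 ≤ (3 / 4) * (x' ^ 2 - x ^ 2) * ((1 - (2 * x) ^ 2) * (1 - (2 * x') ^ 2)) := by positivity
  linarith

lemma In.mid {a b x : ℝ} (ha : In a) (hb : In b) (h1 : a ≤ x) (h2 : x ≤ b) : In x :=
  ⟨ha.1.trans h1, h2.trans hb.2⟩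

/-- the largest value on a horizontal segment -/
lemma wd_edge {a b x y : ℝ} (ha : In a) (hb : In b) (hy : In y) (h1 : a ≤ x) (h2 : x ≤ b) :
    wd x y ≤ wd (max a (min (2 * y) b)) y := by
  have hx := ha.mid hb h1 h2
  rcases le_total (2 * y) a with h | h
  · rw [max_eq_left (min_le_of_left_le h)]
    exact wd_right ha hx hy h h1
  · rcases le_total b (2 * y) with h' | h'
    · rw [min_eq_right h', max_eq_right (h1.trans h2)]
      exact wd_left hx hb hy h' h2
    · rw [min_eq_left h', max_eq_right h]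
      have h2y := ha.mid hb h h'
      rcases le_total x (2 * y) with h3 | h3
      · exact wd_left hx h2y hy le_rfl h3
      · exact wd_right h2y hx hy le_rfl h3

lemma wd_edge' {a b x y : ℝ} (ha : In a) (hb : In b) (hy : In y) (h1 : a ≤ x) (h2 : x ≤ b) :
    wd y x ≤ wd y (max a (min (2 * y) b)) := by
  rw [wd_comm y x, wd_comm y]
  exact wd_edge ha hb hy h1 h2

/-- **the largest value on a rectangle** -/
theorem wd_max {a b c d x y M : ℝ} (ha : In a) (hb : In b) (hc : In c) (hd : In d)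
    (h1 : a ≤ x) (h2 : x ≤ b) (h3 : c ≤ y) (h4 : y ≤ d)
    (m1 : wd a (max c (min (2 * a) d)) ≤ M) (m2 : wd b (max c (min (2 * b) d)) ≤ M)
    (m3 : wd (max a (min (2 * c) b)) c ≤ M) (m4 : wd (max a (min (2 * d) b)) d ≤ M) :
    wd x y ≤ M := by
  have hx := ha.mid hb h1 h2
  have hy := hc.mid hd h3 h4
  rcases le_total (2 * x) c with h | h
  · calc wd x y ≤ wd x c := by rw [wd_comm x y, wd_comm x c]; exact wd_right hc hy hx h h3
      _ ≤ _ := wd_edge ha hb hc h1 h2
      _ ≤ M := m3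
  rcases le_total d (2 * x) with h' | h'
  · calc wd x y ≤ wd x d := by rw [wd_comm x y, wd_comm x d]; exact wd_left hy hd hx h' h4
      _ ≤ _ := wd_edge ha hb hd h1 h2
      _ ≤ M := m4
  have h2x := hc.mid hd h h'
  have s1 : wd x y ≤ wd x (2 * x) := by
    have := wd_edge' hc hd hx h3 h4
    rwa [min_eq_left h', max_eq_right h] at this
  refine s1.trans ?_
  rcases le_total 0 x with h0 | h0
  · rcases le_total (2 * b) d with h5 | h5
    · have hb2 : In (2 * b) := hc.mid hd (by linarith) h5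
      have e : max c (min (2 * b) d) = 2 * b := by
        rw [min_eq_left h5, max_eq_right (by linarith)]
      rw [e] at m2
      exact (wd_ridge hx h2x hb hb2 (by nlinarith)).trans m2
    · have hd2 : In (d / 2) := ha.mid hb (by linarith) (by linarith)
      have e : 2 * (d / 2) = d := by ring
      have k1 := wd_ridge hx h2x hd2 (by rw [e]; exact hd) (by nlinarith)
      rw [e] at k1
      exact (k1.trans (wd_edge ha hb hd (by linarith) (by linarith))).trans m4
  · rcases le_total c (2 * a) with h5 | h5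
    · have ha2 : In (2 * a) := hc.mid hd h5 (by linarith)
      have e : max c (min (2 * a) d) = 2 * a := by
        rw [min_eq_left (by linarith), max_eq_right h5]
      rw [e] at m1
      exact (wd_ridge hx h2x ha ha2 (by nlinarith)).trans m1
    · have hc2 : In (c / 2) := ha.mid hb (by linarith) (by linarith)
      have e : 2 * (c / 2) = c := by ring
      have k1 := wd_ridge hx h2x hc2 (by rw [e]; exact hc) (by nlinarith)
      rw [e] at k1
      exact (k1.trans (wd_edge ha hb hc (by linarith) (by linarith))).trans m3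

/-- the least value on a horizontal segment -/
lemma wd_edge_min {a b x y m : ℝ} (ha : In a) (hb : In b) (hy : In y) (h1 : a ≤ x) (h2 : x ≤ b)
    (m1 : m ≤ wd a y) (m2 : m ≤ wd b y) : m ≤ wd x y := by
  have hx := ha.mid hb h1 h2
  rcases le_total x (2 * y) with h | h
  · exact m1.trans (wd_left ha hx hy h h1)
  · exact m2.trans (wd_right hx hb hy h h2)

/-- **the least value on a rectangle** -/
theorem wd_min {a b c d x y m : ℝ} (ha : In a) (hb : In b) (hc : In c) (hd : In d)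
    (h1 : a ≤ x) (h2 : x ≤ b) (h3 : c ≤ y) (h4 : y ≤ d)
    (m1 : m ≤ wd a c) (m2 : m ≤ wd a d) (m3 : m ≤ wd b c) (m4 : m ≤ wd b d) : m ≤ wd x y := by
  have hy := hc.mid hd h3 h4
  refine wd_edge_min ha hb hy h1 h2 ?_ ?_
  · rw [wd_comm] at m1 m2 ⊢
    exact wd_edge_min hc hd ha h3 h4 m1 m2
  · rw [wd_comm] at m3 m4 ⊢
    exact wd_edge_min hc hd hb h3 h4 m3 m4

/-! ## integer functions -/

/-- maximum -/
def mx (a b : ℕ) : ℕ := Nat.add a (Nat.sub b a)

/-- minimum -/
def mn (a b : ℕ) : ℕ := Nat.sub a (Nat.sub a b)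

lemma mx_eq (a b : ℕ) : mx a b = max a b := by
  show a + (b - a) = max a b
  omega

lemma mn_eq (a b : ℕ) : mn a b = min a b := by
  show a - (a - b) = min a b
  omega

/-- twice the height, cut to the interval `[a, b]` -/
def clm (a b c : ℕ) : ℕ := mx a (mn (Nat.sub (Nat.add c c) 176) b)

/-- upper bound over the cells `[a, b]` (rows `A`, `B`) and `[c, d]` (rows `C`, `D`) -/
def dHi (a b A B c d C D : ℕ) : ℕ :=
  Nat.succ (mx (mx (ent16 A (clm c d a)) (ent16 B (clm c d b)))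
    (mx (ent16 C (clm a b c)) (ent16 D (clm a b d))))

/-- lower bound -/
def dLo (A B c d : ℕ) : ℕ :=
  mn (mn (ent16 A c) (ent16 A d)) (mn (ent16 B c) (ent16 B d))

lemma zz_mono {i j : ℕ} (h : i ≤ j) : zz i ≤ zz j := by
  have : (i : ℝ) ≤ j := by exact_mod_cast h
  unfold zz
  linarith

lemma zz_le {i j : ℕ} (h : zz i ≤ zz j) : i ≤ j := by
  unfold zz at h
  have : (i : ℝ) ≤ j := by linarith
  exact_mod_cast this

lemma zz_In {i : ℕ} (hi : i ≤ 304) : In (zz i) :=
  ⟨(zz_bd hi).1, (zz_bd hi).2.trans (by norm_num)⟩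

lemma clm_range {a b c : ℕ} (h : a ≤ b) : a ≤ clm a b c ∧ clm a b c ≤ b := by
  unfold clm
  rw [mx_eq, mn_eq]
  omega

/-- the cut height is the cut of twice the height -/
lemma zz_clm {a b c : ℕ} (h : a ≤ b) : zz (clm a b c) = max (zz a) (min (2 * zz c) (zz b)) := by
  unfold clm
  rw [mx_eq, mn_eq]
  have hm : ∀ p q : ℕ, zz (max p q) = max (zz p) (zz q) := by
    intro p q
    rcases Nat.le_total p q with h | h
    · rw [max_eq_right h, max_eq_right (zz_mono h)]
    · rw [max_eq_left h, max_eq_left (zz_mono h)]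
  have hn : ∀ p q : ℕ, zz (min p q) = min (zz p) (zz q) := by
    intro p q
    rcases Nat.le_total p q with h | h
    · rw [min_eq_left h, min_eq_left (zz_mono h)]
    · rw [min_eq_right h, min_eq_right (zz_mono h)]
  rw [hm, hn]
  rcases Nat.le_total 176 (c + c) with h1 | h1
  · have e : zz (Nat.sub (Nat.add c c) 176) = 2 * zz c := by
      show zz (c + c - 176) = _
      unfold zz
      rw [Nat.cast_sub h1]
      push_cast
      ring
    rw [e]
  · have e : zz (Nat.sub (Nat.add c c) 176) = zz 0 := by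
      have : Nat.sub (Nat.add c c) 176 = 0 := by
        show c + c - 176 = 0
        omega
      rw [this]
    rw [e]
    have h2 : 2 * zz c ≤ zz 0 := by
      have : (c : ℝ) + c ≤ 176 := by exact_mod_cast h1
      unfold zz
      push_cast
      linarith
    have h3 : zz 0 ≤ zz a := zz_mono (Nat.zero_le _)
    rw [max_eq_left (min_le_of_left_le h3), max_eq_left (min_le_of_left_le (h2.trans h3))]

/-- **both bounds of the least longitude difference** -/
theorem dHi_sound {a b c d : ℕ} {x y : ℝ} (hb : b ≤ 304) (hd : d ≤ 304)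
    (h1 : zz a ≤ x) (h2 : x ≤ zz b) (h3 : zz c ≤ y) (h4 : y ≤ zz d) :
    wd x y ≤ dHi a b (rowOf a) (rowOf b) c d (rowOf c) (rowOf d) * (π / 32768) := by
  have hpi := Real.pi_pos
  have hab : a ≤ b := zz_le (h1.trans h2)
  have hcd : c ≤ d := zz_le (h3.trans h4)
  have k1 := clm_range (c := a) hcd
  have k2 := clm_range (c := b) hcd
  have k3 := clm_range (c := c) hab
  have k4 := clm_range (c := d) hab
  have t1 := (dtab_sound (i := a) (j := clm c d a) (by omega) (by omega)).2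
  have t2 := (dtab_sound (i := b) (j := clm c d b) (by omega) (by omega)).2
  have t3 := (dtab_sound (i := c) (j := clm a b c) (by omega) (by omega)).2
  have t4 := (dtab_sound (i := d) (j := clm a b d) (by omega) (by omega)).2
  rw [zz_clm hcd] at t1 t2
  rw [zz_clm hab] at t3 t4
  have hle : ∀ e : ℕ, e + 1 ≤ dHi a b (rowOf a) (rowOf b) c d (rowOf c) (rowOf d) →
      ((e : ℝ) + 1) * (π / 32768) ≤
        dHi a b (rowOf a) (rowOf b) c d (rowOf c) (rowOf d) * (π / 32768) := by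
    intro e he
    have : ((e + 1 : ℕ) : ℝ) ≤ (dHi a b (rowOf a) (rowOf b) c d (rowOf c) (rowOf d) : ℝ) :=
      Nat.cast_le.2 he
    push_cast at this
    exact mul_le_mul_of_nonneg_right this (by positivity)
  have hD : dHi a b (rowOf a) (rowOf b) c d (rowOf c) (rowOf d) =
      max (max (ent16 (rowOf a) (clm c d a)) (ent16 (rowOf b) (clm c d b)))
        (max (ent16 (rowOf c) (clm a b c)) (ent16 (rowOf d) (clm a b d))) + 1 := by
    unfold dHi
    rw [mx_eq, mx_eq, mx_eq]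
  refine wd_max (zz_In (by omega)) (zz_In hb) (zz_In (by omega)) (zz_In hd) h1 h2 h3 h4
    (t1.trans (hle _ ?_)) (t2.trans (hle _ ?_)) ?_ ?_
  · rw [hD]; omega
  · rw [hD]; omega
  · rw [wd_comm]
    exact t3.trans (hle _ (by rw [hD]; omega))
  · rw [wd_comm]
    exact t4.trans (hle _ (by rw [hD]; omega))

theorem dLo_sound {a b c d : ℕ} {x y : ℝ} (hb : b ≤ 304) (hd : d ≤ 304)
    (h1 : zz a ≤ x) (h2 : x ≤ zz b) (h3 : zz c ≤ y) (h4 : y ≤ zz d) :
    dLo (rowOf a) (rowOf b) c d * (π / 32768) ≤ wd x y := by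
  have hpi := Real.pi_pos
  have hab : a ≤ b := zz_le (h1.trans h2)
  have hcd : c ≤ d := zz_le (h3.trans h4)
  have t1 := (dtab_sound (i := a) (j := c) (by omega) (by omega)).1
  have t2 := (dtab_sound (i := a) (j := d) (by omega) (by omega)).1
  have t3 := (dtab_sound (i := b) (j := c) (by omega) (by omega)).1
  have t4 := (dtab_sound (i := b) (j := d) (by omega) (by omega)).1
  have hD : dLo (rowOf a) (rowOf b) c d =
      min (min (ent16 (rowOf a) c) (ent16 (rowOf a) d))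
        (min (ent16 (rowOf b) c) (ent16 (rowOf b) d)) := by
    unfold dLo
    rw [mn_eq, mn_eq, mn_eq]
  have hle : ∀ e : ℕ, dLo (rowOf a) (rowOf b) c d ≤ e →
      (dLo (rowOf a) (rowOf b) c d : ℝ) * (π / 32768) ≤ (e : ℝ) * (π / 32768) := by
    intro e he
    exact mul_le_mul_of_nonneg_right (Nat.cast_le.2 he) (by positivity)
  refine wd_min (zz_In (by omega)) (zz_In hb) (zz_In (by omega)) (zz_In hd) h1 h2 h3 h4
    ((hle _ ?_).trans t1) ((hle _ ?_).trans t2) ((hle _ ?_).trans t3) ((hle _ ?_).trans t4)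
  all_goals rw [hD]; omega

/-- entries are small -/
lemma ent16_lt (T j : ℕ) : ent16 T j < 65536 := Nat.mod_lt _ (by norm_num)

end Pool.Agent.Helper98.DL
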