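import Pool.Agent.Helper98.DL.HF
import Pool.Agent.Helper98.DL.DCell
import Pool.Agent.Helper66.Kiss.PkB
import Pool.Agent.Helper65.KR.Rup

set_option autoImplicit false

/-! # The check of a direction leaf (computation only) -/

namespace Pool.Agent.Helper98.DL

open Pool.Agent.Helper98.KT Pool.Agent.Helper65.KR Pool.Agent.Helper66.Kiss.Pk

/-- forcing of a number to a literal -/
noncomputable def fz {α : Type} (n : ℕ) (f : ℕ → α) : α :=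
  Nat.rec (motive := fun _ => α) (f 0) (fun m _ => f m) (Nat.succ n)

/-- value `x` if `b` is true -/
noncomputable def cb {α : Type} (b : Bool) (x y : α) : α := Bool.rec (motive := fun _ => α) y x b

/-- value `x` at zero, `f m` at `m + 1` -/
noncomputable def nb {α : Type} (n : ℕ) (x : α) (f : ℕ → α) : α :=
  Nat.rec (motive := fun _ => α) x (fun m _ => f m) n

/-! ### cells: `c = lo + 512 * hi` -/

/-- lower end -/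
def lo (c : ℕ) : ℕ := Nat.mod c 512

/-- upper end -/
def hi (c : ℕ) : ℕ := Nat.div c 512

/-- negative radicand at a point of the grid -/
def qneg (i j : ℕ) : Bool :=
  Nat.ble (Nat.succ (Nat.add 18176 (Nat.add (Nat.mul i j) (Nat.mul 176 (Nat.add i j)))))
    (Nat.add (Nat.mul i i) (Nat.mul j j))

/-- no contact possible between the cells `[a, b]` and `[c, d]` -/
noncomputable def frd (a b c d : ℕ) : Bool :=
  cb (cb (Nat.ble 176 a) (cb (Nat.ble d 176) (qneg a d) false) false) true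
    (cb (Nat.ble 176 c) (cb (Nat.ble b 176) (qneg b c) false) false)

/-- upper bound of the least longitude difference, `0` if no contact is possible -/
noncomputable def dplus (c1 c2 : ℕ) : ℕ :=
  fz (lo c1) fun a => fz (hi c1) fun b => fz (lo c2) fun c => fz (hi c2) fun d =>
  cb (frd a b c d) 0 (dHi a b (rowOf a) (rowOf b) c d (rowOf c) (rowOf d))

/-- lower bound of the least longitude difference -/
noncomputable def dminus (c1 c2 : ℕ) : ℕ :=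
  fz (lo c1) fun a => fz (hi c1) fun b => fz (lo c2) fun c => fz (hi c2) fun d =>
  dLo (rowOf a) (rowOf b) c d

/-! ### longest paths -/

/-- longest path, one step -/
noncomputable def lb1 (c0 c1 : ℕ) : ℕ := dminus c0 c1

/-- longest path over 2 steps -/
noncomputable def lb2 (c0 c1 c2 : ℕ) : ℕ :=
  mx (dminus c0 c2) (Nat.add (lb1 c0 c1) (dminus c1 c2))

/-- longest path over 3 steps -/
noncomputable def lb3 (c0 c1 c2 c3 : ℕ) : ℕ :=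
  mx (mx (dminus c0 c3) (Nat.add (lb1 c0 c1) (dminus c1 c3))) (Nat.add (lb2 c0 c1 c2) (dminus c2 c3))

/-- longest path over 4 steps -/
noncomputable def lb4 (c0 c1 c2 c3 c4 : ℕ) : ℕ :=
  mx (mx (mx (dminus c0 c4) (Nat.add (lb1 c0 c1) (dminus c1 c4))) (Nat.add (lb2 c0 c1 c2) (dminus c2 c4))) (Nat.add (lb3 c0 c1 c2 c3) (dminus c3 c4))

/-- longest path over 5 steps -/
noncomputable def lb5 (c0 c1 c2 c3 c4 c5 : ℕ) : ℕ :=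
  mx (mx (mx (mx (dminus c0 c5) (Nat.add (lb1 c0 c1) (dminus c1 c5))) (Nat.add (lb2 c0 c1 c2) (dminus c2 c5))) (Nat.add (lb3 c0 c1 c2 c3) (dminus c3 c5))) (Nat.add (lb4 c0 c1 c2 c3 c4) (dminus c4 c5))

/-- longest path over 6 steps -/
noncomputable def lb6 (c0 c1 c2 c3 c4 c5 c6 : ℕ) : ℕ :=
  mx (mx (mx (mx (mx (dminus c0 c6) (Nat.add (lb1 c0 c1) (dminus c1 c6))) (Nat.add (lb2 c0 c1 c2) (dminus c2 c6))) (Nat.add (lb3 c0 c1 c2 c3) (dminus c3 c6))) (Nat.add (lb4 c0 c1 c2 c3 c4) (dminus c4 c6))) (Nat.add (lb5 c0 c1 c2 c3 c4 c5) (dminus c5 c6))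

/-- longest path over 7 steps -/
noncomputable def lb7 (c0 c1 c2 c3 c4 c5 c6 c7 : ℕ) : ℕ :=
  mx (mx (mx (mx (mx (mx (dminus c0 c7) (Nat.add (lb1 c0 c1) (dminus c1 c7))) (Nat.add (lb2 c0 c1 c2) (dminus c2 c7))) (Nat.add (lb3 c0 c1 c2 c3) (dminus c3 c7))) (Nat.add (lb4 c0 c1 c2 c3 c4) (dminus c4 c7))) (Nat.add (lb5 c0 c1 c2 c3 c4 c5) (dminus c5 c7))) (Nat.add (lb6 c0 c1 c2 c3 c4 c5 c6) (dminus c6 c7))

/-- longest path over 8 steps -/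
noncomputable def lb8 (c0 c1 c2 c3 c4 c5 c6 c7 c8 : ℕ) : ℕ :=
  mx (mx (mx (mx (mx (mx (mx (dminus c0 c8) (Nat.add (lb1 c0 c1) (dminus c1 c8))) (Nat.add (lb2 c0 c1 c2) (dminus c2 c8))) (Nat.add (lb3 c0 c1 c2 c3) (dminus c3 c8))) (Nat.add (lb4 c0 c1 c2 c3 c4) (dminus c4 c8))) (Nat.add (lb5 c0 c1 c2 c3 c4 c5) (dminus c5 c8))) (Nat.add (lb6 c0 c1 c2 c3 c4 c5 c6) (dminus c6 c8))) (Nat.add (lb7 c0 c1 c2 c3 c4 c5 c6 c7) (dminus c7 c8))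

/-- longest path over 9 steps -/
noncomputable def lb9 (c0 c1 c2 c3 c4 c5 c6 c7 c8 c9 : ℕ) : ℕ :=
  mx (mx (mx (mx (mx (mx (mx (mx (dminus c0 c9) (Nat.add (lb1 c0 c1) (dminus c1 c9))) (Nat.add (lb2 c0 c1 c2) (dminus c2 c9))) (Nat.add (lb3 c0 c1 c2 c3) (dminus c3 c9))) (Nat.add (lb4 c0 c1 c2 c3 c4) (dminus c4 c9))) (Nat.add (lb5 c0 c1 c2 c3 c4 c5) (dminus c5 c9))) (Nat.add (lb6 c0 c1 c2 c3 c4 c5 c6) (dminus c6 c9))) (Nat.add (lb7 c0 c1 c2 c3 c4 c5 c6 c7) (dminus c7 c9))) (Nat.add (lb8 c0 c1 c2 c3 c4 c5 c6 c7 c8) (dminus c8 c9))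

/-! ### nodes: velocity code `v = P + 65536 * w` -/

/-- velocity above -/
def vP (v : ℕ) : ℕ := Nat.mod v 65536

/-- difference of the velocities -/
def vW (v : ℕ) : ℕ := Nat.div v 65536

/-- number of a pair -/
noncomputable def rupV (c v c' v' : ℕ) : ℕ :=
  fz (vP v) fun P => fz (vW v) fun w => fz (vP v') fun P' => fz (vW v') fun w' => rup c P w c' P' w'

/-- entry of a pair: `M` mask, `q` power of two of the pair -/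
noncomputable def pe (M q c v c' v' : ℕ) : ℕ :=
  nb (dplus c c') 0 fun d => Nat.add (Nat.succ d) (Nat.mul 1048576
    (nb (Nat.mod (Nat.div M q) 2) 14680064 fun _ => rupV c v c' v'))

/-! ### contacts of the south point -/

/-- shallow option of a cell: `0` no contact, else angle `+ 1` -/
noncomputable def osh (k1 k2 c : ℕ) : ℕ :=
  fz (lo c) fun a => fz (hi c) fun b => cb (Nat.ble 48 b) (aSh k1 k2 (mx 48 a)) 0

/-- deep option of a cell -/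
noncomputable def odp (k1 c : ℕ) : ℕ :=
  fz (lo c) fun a => fz (hi c) fun b => cb (Nat.ble 48 a) 0 (aDq k1 a (mn b 48))

/-- a static point and a static south point -/
noncomputable def stt (K v M : ℕ) : Bool :=
  cb (Nat.beq K 0) (cb (Nat.beq v 32768) (Nat.ble 8388597 M) false) false

/-- check of the shallow option: slope `l`, angle `m`, constant `M - 2 ^ 23` -/
noncomputable def okS (l K k1 k2 c v m M : ℕ) : Bool :=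
  cb (stt K v M) true (fz (lo c) fun a => fz (hi c) fun b =>
    conSC (hopP l K) (hopN (kUof K k2)) (Nat.add (Nat.mul 403 l) (Nat.mul 20 (kUof K k2)))
      (kTof K k2) k1 k2 (mx 48 a) b (Nat.sub (vP v) 32768) (Nat.sub 32768 (vP v))
      (Nat.sub M 8388608) (Nat.sub 8388608 M) m)

/-- check of the deep option -/
noncomputable def okD (l K k1 k2 c v m M : ℕ) : Bool :=
  cb (stt K v M) true (fz (lo c) fun a => fz (hi c) fun b =>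
    conDC (hopP l K) (hopN (kUof K k2)) (Nat.add (Nat.mul 403 l) (Nat.mul 20 (kUof K k2)))
      (kTof K k2) (gAll k2) k1 a (mn b 48) (Nat.sub (Nat.add (vP v) (vW v)) 32768)
      (Nat.sub 32768 (Nat.add (vP v) (vW v))) (Nat.sub M 8388608) (Nat.sub 8388608 M) m)

/-- the self check: a deep contact with the angle `π` -/
noncomputable def slf (K k1 k2 c v : ℕ) : Bool :=
  nb (odp k1 c) true fun m => cb (Nat.ble m 511) true (okD 0 K k1 k2 c v m 9437184)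

/-! ### entries of a class; touch number `t = M + 1 + 2 ^ 25 * m` -/

/-- entry of two touch numbers, `L` lower bound of the gap -/
noncomputable def pr (l t t' L : ℕ) : ℕ :=
  nb t 0 fun a => nb t' 0 fun b => fz (Nat.add a b) fun s =>
    fz (mn (Nat.mul 64 (Nat.div s 33554432)) (Nat.sub 65536 L)) fun A =>
    Nat.add A (Nat.mul 1048576 (mn (mx (Nat.sub (Nat.add (Nat.div (Nat.add (Nat.mul l A) 1023) 1024)
      (Nat.add (Nat.mod s 33554432) 20)) 8388608) 4194304) 14680064))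

/-- the larger of two entries -/
noncomputable def comb (e e' : ℕ) : ℕ :=
  nb e e' fun _ => nb e' e fun _ => Nat.add (mx (Nat.mod e 1048576) (Nat.mod e' 1048576))
    (Nat.mul 1048576 (mx (Nat.div e 1048576) (Nat.div e' 1048576)))

/-- read a constant of an option -/
noncomputable def stC (ok : ℕ → ℕ → Bool) (o D : ℕ) (k : ℕ → ℕ → Bool) : Bool :=
  nb o (k 0 D) fun m => fz (Nat.mod D 16777216) fun M => cb (ok m M)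
    (fz (Nat.div D 16777216) fun D' => fz (Nat.add (Nat.succ M) (Nat.mul 33554432 m)) fun t => k t D')
    false

/-- the two tests, one class -/
noncomputable def tst (M l c0 c1 c2 c3 c4 c5 c6 c7 c8 c9 v0 v1 v2 v3 v4 v5 v6 v7 v8 v9 t0 t1 t2 t3 t4 t5 t6 t7 t8 t9 : ℕ) : Bool :=
  pT (pe M 1 c0 v0 c1 v1) (pe M 2 c0 v0 c2 v2) (pe M 512 c1 v1 c2 v2) (pe M 4 c0 v0 c3 v3) (pe M 1024 c1 v1 c3 v3) (pe M 131072 c2 v2 c3 v3) (pe M 8 c0 v0 c4 v4) (pe M 2048 c1 v1 c4 v4) (pe M 262144 c2 v2 c4 v4) (pe M 16777216 c3 v3 c4 v4) (pe M 16 c0 v0 c5 v5) (pe M 4096 c1 v1 c5 v5) (pe M 524288 c2 v2 c5 v5) (pe M 33554432 c3 v3 c5 v5) (pe M 1073741824 c4 v4 c5 v5) (pe M 32 c0 v0 c6 v6) (pe M 8192 c1 v1 c6 v6) (pe M 1048576 c2 v2 c6 v6) (pe M 67108864 c3 v3 c6 v6) (pe M 2147483648 c4 v4 c6 v6) (pe M 34359738368 c5 v5 c6 v6) (pe M 64 c0 v0 c7 v7) (pe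 M 16384 c1 v1 c7 v7) (pe M 2097152 c2 v2 c7 v7) (pe M 134217728 c3 v3 c7 v7) (pe M 4294967296 c4 v4 c7 v7) (pe M 68719476736 c5 v5 c7 v7) (pe M 549755813888 c6 v6 c7 v7) (pe M 128 c0 v0 c8 v8) (pe M 32768 c1 v1 c8 v8) (pe M 4194304 c2 v2 c8 v8) (pe M 268435456 c3 v3 c8 v8) (pe M 8589934592 c4 v4 c8 v8) (pe M 137438953472 c5 v5 c8 v8) (pe M 1099511627776 c6 v6 c8 v8) (pe M 4398046511104 c7 v7 c8 v8) (pe M 256 c0 v0 c9 v9) (pe M 65536 c1 v1 c9 v9) (pe M 8388608 c2 v2 c9 v9) (pe M 536870912 c3 v3 c9 v9) (pe M 17179869184 c4 v4 c9 v9) (pe M 274877906944 c5 v5 c9 v9) (pe M 2199023255552 c6 v6 c9 v9) (pe M 8796093022208 c7 v7 c9 v9) (pe M 17592186044416 c8 v8 c9 v9)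
    (pr l t0 t1 (lb1 c0 c1)) (pr l t0 t2 (lb2 c0 c1 c2)) (pr l t1 t2 (lb1 c1 c2)) (pr l t0 t3 (lb3 c0 c1 c2 c3)) (pr l t1 t3 (lb2 c1 c2 c3)) (pr l t2 t3 (lb1 c2 c3)) (pr l t0 t4 (lb4 c0 c1 c2 c3 c4)) (pr l t1 t4 (lb3 c1 c2 c3 c4)) (pr l t2 t4 (lb2 c2 c3 c4)) (pr l t3 t4 (lb1 c3 c4)) (pr l t0 t5 (lb5 c0 c1 c2 c3 c4 c5)) (pr l t1 t5 (lb4 c1 c2 c3 c4 c5)) (pr l t2 t5 (lb3 c2 c3 c4 c5)) (pr l t3 t5 (lb2 c3 c4 c5)) (pr l t4 t5 (lb1 c4 c5)) (pr l t0 t6 (lb6 c0 c1 c2 c3 c4 c5 c6)) (pr l t1 t6 (lb5 c1 c2 c3 c4 c5 c6)) (pr l t2 t6 (lb4 c2 c3 c4 c5 c6)) (pr l t3 t6 (lb3 c3 c4 c5 c6)) (pr l t4 t6 (lb2 c4 c5 c6)) (pr l t5 t6 (lb1 c5 c6)) (pr l t0 t7 (lb7 c0 c1 c2 c3 c4 c5 c6 c7)) (pr l t1 t7 (lb6 c1 c2 c3 c4 c5 c6 c7)) (pr l t2 t7 (lb5 c2 c3 c4 c5 c6 c7)) (pr l t3 t7 (lb4 c3 c4 c5 c6 c7)) (pr l t4 t7 (lb3 c4 c5 c6 c7)) (pr l t5 t7 (lb2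 c5 c6 c7)) (pr l t6 t7 (lb1 c6 c7)) (pr l t0 t8 (lb8 c0 c1 c2 c3 c4 c5 c6 c7 c8)) (pr l t1 t8 (lb7 c1 c2 c3 c4 c5 c6 c7 c8)) (pr l t2 t8 (lb6 c2 c3 c4 c5 c6 c7 c8)) (pr l t3 t8 (lb5 c3 c4 c5 c6 c7 c8)) (pr l t4 t8 (lb4 c4 c5 c6 c7 c8)) (pr l t5 t8 (lb3 c5 c6 c7 c8)) (pr l t6 t8 (lb2 c6 c7 c8)) (pr l t7 t8 (lb1 c7 c8)) (pr l t0 t9 (lb9 c0 c1 c2 c3 c4 c5 c6 c7 c8 c9)) (pr l t1 t9 (lb8 c1 c2 c3 c4 c5 c6 c7 c8 c9)) (pr l t2 t9 (lb7 c2 c3 c4 c5 c6 c7 c8 c9)) (pr l t3 t9 (lb6 c3 c4 c5 c6 c7 c8 c9)) (pr l t4 t9 (lb5 c4 c5 c6 c7 c8 c9)) (pr l t5 t9 (lb4 c5 c6 c7 c8 c9)) (pr l t6 t9 (lb3 c6 c7 c8 c9)) (pr l t7 t9 (lb2 c7 c8 c9)) (pr l t8 t9 (lb1 c8 c9))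

/-- the two tests, mixed class -/
noncomputable def tsm (M l c0 c1 c2 c3 c4 c5 c6 c7 c8 c9 v0 v1 v2 v3 v4 v5 v6 v7 v8 v9 s0 s1 s2 s3 s4 s5 s6 s7 s8 s9 d0 d1 d2 d3 d4 d5 d6 d7 d8 d9 : ℕ) : Bool :=
  pT (pe M 1 c0 v0 c1 v1) (pe M 2 c0 v0 c2 v2) (pe M 512 c1 v1 c2 v2) (pe M 4 c0 v0 c3 v3) (pe M 1024 c1 v1 c3 v3) (pe M 131072 c2 v2 c3 v3) (pe M 8 c0 v0 c4 v4) (pe M 2048 c1 v1 c4 v4) (pe M 262144 c2 v2 c4 v4) (pe M 16777216 c3 v3 c4 v4) (pe M 16 c0 v0 c5 v5) (pe M 4096 c1 v1 c5 v5) (pe M 524288 c2 v2 c5 v5) (pe M 33554432 c3 v3 c5 v5) (pe M 1073741824 c4 v4 c5 v5) (pe M 32 c0 v0 c6 v6) (pe M 8192 c1 v1 c6 v6) (pe M 1048576 c2 v2 c6 v6) (pe M 67108864 c3 v3 c6 v6) (pe M 2147483648 c4 v4 c6 v6) (pe M 34359738368 c5 v5 c6 v6) (pe M 64 c0 v0 c7 v7) (pe M 16384 c1 v1 c7 v7) (pe M 2097152 c2 v2 c7 v7) (pe M 134217728 c3 v3 c7 v7) (pe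 M 4294967296 c4 v4 c7 v7) (pe M 68719476736 c5 v5 c7 v7) (pe M 549755813888 c6 v6 c7 v7) (pe M 128 c0 v0 c8 v8) (pe M 32768 c1 v1 c8 v8) (pe M 4194304 c2 v2 c8 v8) (pe M 268435456 c3 v3 c8 v8) (pe M 8589934592 c4 v4 c8 v8) (pe M 137438953472 c5 v5 c8 v8) (pe M 1099511627776 c6 v6 c8 v8) (pe M 4398046511104 c7 v7 c8 v8) (pe M 256 c0 v0 c9 v9) (pe M 65536 c1 v1 c9 v9) (pe M 8388608 c2 v2 c9 v9) (pe M 536870912 c3 v3 c9 v9) (pe M 17179869184 c4 v4 c9 v9) (pe M 274877906944 c5 v5 c9 v9) (pe M 2199023255552 c6 v6 c9 v9) (pe M 8796093022208 c7 v7 c9 v9) (pe M 17592186044416 c8 v8 c9 v9)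
    (comb (pr l s0 d1 (lb1 c0 c1)) (pr l d0 s1 (lb1 c0 c1))) (comb (pr l s0 d2 (lb2 c0 c1 c2)) (pr l d0 s2 (lb2 c0 c1 c2))) (comb (pr l s1 d2 (lb1 c1 c2)) (pr l d1 s2 (lb1 c1 c2))) (comb (pr l s0 d3 (lb3 c0 c1 c2 c3)) (pr l d0 s3 (lb3 c0 c1 c2 c3))) (comb (pr l s1 d3 (lb2 c1 c2 c3)) (pr l d1 s3 (lb2 c1 c2 c3))) (comb (pr l s2 d3 (lb1 c2 c3)) (pr l d2 s3 (lb1 c2 c3))) (comb (pr l s0 d4 (lb4 c0 c1 c2 c3 c4)) (pr l d0 s4 (lb4 c0 c1 c2 c3 c4))) (comb (pr l s1 d4 (lb3 c1 c2 c3 c4)) (pr l d1 s4 (lb3 c1 c2 c3 c4))) (comb (pr l s2 d4 (lb2 c2 c3 c4)) (pr l d2 s4 (lb2 c2 c3 c4))) (comb (pr l s3 d4 (lb1 c3 c4)) (pr l d3 s4 (lb1 c3 c4))) (comb (pr l s0 d5 (lb5 c0 c1 c2 c3 c4 c5)) (pr l d0 s5 (lb5 c0 c1 c2 c3 c4 c5))) (comb (pr l s1 d5 (lb4 c1 c2 c3 c4 c5)) (pr l d1 s5 (lb4 c1 c2 c3 c4 c5))) (comb (pr l s2 d5 (lb3 c2 c3 c4 c5)) (pr l d2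 s5 (lb3 c2 c3 c4 c5))) (comb (pr l s3 d5 (lb2 c3 c4 c5)) (pr l d3 s5 (lb2 c3 c4 c5))) (comb (pr l s4 d5 (lb1 c4 c5)) (pr l d4 s5 (lb1 c4 c5))) (comb (pr l s0 d6 (lb6 c0 c1 c2 c3 c4 c5 c6)) (pr l d0 s6 (lb6 c0 c1 c2 c3 c4 c5 c6))) (comb (pr l s1 d6 (lb5 c1 c2 c3 c4 c5 c6)) (pr l d1 s6 (lb5 c1 c2 c3 c4 c5 c6))) (comb (pr l s2 d6 (lb4 c2 c3 c4 c5 c6)) (pr l d2 s6 (lb4 c2 c3 c4 c5 c6))) (comb (pr l s3 d6 (lb3 c3 c4 c5 c6)) (pr l d3 s6 (lb3 c3 c4 c5 c6))) (comb (pr l s4 d6 (lb2 c4 c5 c6)) (pr l d4 s6 (lb2 c4 c5 c6))) (comb (pr l s5 d6 (lb1 c5 c6)) (pr l d5 s6 (lb1 c5 c6))) (comb (pr l s0 d7 (lb7 c0 c1 c2 c3 c4 c5 c6 c7)) (pr l d0 s7 (lb7 c0 c1 c2 c3 c4 c5 c6 c7))) (comb (pr l s1 d7 (lb6 c1 c2 c3 c4 c5 c6 c7)) (pr l d1 s7 (lb6 c1 c2 c3 c4 c5 c6 c7))) (comb (pr l s2 d7 (lb5 c2 c3 c4 c5 c6 c7)) (pr l d2 s7 (lb5 c2 c3 c4 c5 c6 c7)))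 (comb (pr l s3 d7 (lb4 c3 c4 c5 c6 c7)) (pr l d3 s7 (lb4 c3 c4 c5 c6 c7))) (comb (pr l s4 d7 (lb3 c4 c5 c6 c7)) (pr l d4 s7 (lb3 c4 c5 c6 c7))) (comb (pr l s5 d7 (lb2 c5 c6 c7)) (pr l d5 s7 (lb2 c5 c6 c7))) (comb (pr l s6 d7 (lb1 c6 c7)) (pr l d6 s7 (lb1 c6 c7))) (comb (pr l s0 d8 (lb8 c0 c1 c2 c3 c4 c5 c6 c7 c8)) (pr l d0 s8 (lb8 c0 c1 c2 c3 c4 c5 c6 c7 c8))) (comb (pr l s1 d8 (lb7 c1 c2 c3 c4 c5 c6 c7 c8)) (pr l d1 s8 (lb7 c1 c2 c3 c4 c5 c6 c7 c8))) (comb (pr l s2 d8 (lb6 c2 c3 c4 c5 c6 c7 c8)) (pr l d2 s8 (lb6 c2 c3 c4 c5 c6 c7 c8))) (comb (pr l s3 d8 (lb5 c3 c4 c5 c6 c7 c8)) (pr l d3 s8 (lb5 c3 c4 c5 c6 c7 c8))) (comb (pr l s4 d8 (lb4 c4 c5 c6 c7 c8)) (pr l d4 s8 (lb4 c4 c5 c6 c7 c8))) (comb (pr l s5 d8 (lb3 c5 c6 c7 c8)) (pr l d5 s8 (lb3 c5 c6 c7 c8))) (comb (pr l s6 d8 (lb2 c6 c7 c8)) (pr l d6 s8 (lb2 c6 c7 c8))) (comb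 (pr l s7 d8 (lb1 c7 c8)) (pr l d7 s8 (lb1 c7 c8))) (comb (pr l s0 d9 (lb9 c0 c1 c2 c3 c4 c5 c6 c7 c8 c9)) (pr l d0 s9 (lb9 c0 c1 c2 c3 c4 c5 c6 c7 c8 c9))) (comb (pr l s1 d9 (lb8 c1 c2 c3 c4 c5 c6 c7 c8 c9)) (pr l d1 s9 (lb8 c1 c2 c3 c4 c5 c6 c7 c8 c9))) (comb (pr l s2 d9 (lb7 c2 c3 c4 c5 c6 c7 c8 c9)) (pr l d2 s9 (lb7 c2 c3 c4 c5 c6 c7 c8 c9))) (comb (pr l s3 d9 (lb6 c3 c4 c5 c6 c7 c8 c9)) (pr l d3 s9 (lb6 c3 c4 c5 c6 c7 c8 c9))) (comb (pr l s4 d9 (lb5 c4 c5 c6 c7 c8 c9)) (pr l d4 s9 (lb5 c4 c5 c6 c7 c8 c9))) (comb (pr l s5 d9 (lb4 c5 c6 c7 c8 c9)) (pr l d5 s9 (lb4 c5 c6 c7 c8 c9))) (comb (pr l s6 d9 (lb3 c6 c7 c8 c9)) (pr l d6 s9 (lb3 c6 c7 c8 c9))) (comb (pr l s7 d9 (lb2 c7 c8 c9)) (pr l d7 s9 (lb2 c7 c8 c9))) (comb (pr l s8 d9 (lb1 c8 c9)) (pr l d8 s9 (lb1 c8 c9)))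

/-- sign of a number -/
def sg (n : ℕ) : ℕ := Nat.sub 1 (Nat.sub 1 n)

/-- number of options -/
def cnt (o0 o1 o2 o3 o4 o5 o6 o7 o8 o9 : ℕ) : ℕ :=
  Nat.add (sg o0) (Nat.add (sg o1) (Nat.add (sg o2) (Nat.add (sg o3) (Nat.add (sg o4)
    (Nat.add (sg o5) (Nat.add (sg o6) (Nat.add (sg o7) (Nat.add (sg o8) (sg o9)))))))))

/-- number of nodes with both options -/
def cnb (o0 o1 o2 o3 o4 o5 o6 o7 o8 o9 p0 p1 p2 p3 p4 p5 p6 p7 p8 p9 : ℕ) : ℕ :=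
  cnt (Nat.mul o0 p0) (Nat.mul o1 p1) (Nat.mul o2 p2) (Nat.mul o3 p3) (Nat.mul o4 p4)
    (Nat.mul o5 p5) (Nat.mul o6 p6) (Nat.mul o7 p7) (Nat.mul o8 p8) (Nat.mul o9 p9)

/-- the class of two deep contacts -/
noncomputable def cls2 (k1 k2 K M c0 c1 c2 c3 c4 c5 c6 c7 c8 c9 v0 v1 v2 v3 v4 v5 v6 v7 v8 v9 D : ℕ) : Bool :=
  cb (Nat.ble 2 (cnt (odp k1 c0) (odp k1 c1) (odp k1 c2) (odp k1 c3) (odp k1 c4) (odp k1 c5) (odp k1 c6) (odp k1 c7) (odp k1 c8) (odp k1 c9)))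
    (fz (Nat.mod D 1048576) fun l => fz (Nat.div D 1048576) fun D =>
    stC (okD l K k1 k2 c0 v0) (odp k1 c0) D fun t0 D =>
    stC (okD l K k1 k2 c1 v1) (odp k1 c1) D fun t1 D =>
    stC (okD l K k1 k2 c2 v2) (odp k1 c2) D fun t2 D =>
    stC (okD l K k1 k2 c3 v3) (odp k1 c3) D fun t3 D =>
    stC (okD l K k1 k2 c4 v4) (odp k1 c4) D fun t4 D =>
    stC (okD l K k1 k2 c5 v5) (odp k1 c5) D fun t5 D =>
    stC (okD l K k1 k2 c6 v6) (odp k1 c6) D fun t6 D =>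
    stC (okD l K k1 k2 c7 v7) (odp k1 c7) D fun t7 D =>
    stC (okD l K k1 k2 c8 v8) (odp k1 c8) D fun t8 D =>
    stC (okD l K k1 k2 c9 v9) (odp k1 c9) D fun t9 D =>
    tst M l c0 c1 c2 c3 c4 c5 c6 c7 c8 c9 v0 v1 v2 v3 v4 v5 v6 v7 v8 v9 t0 t1 t2 t3 t4 t5 t6 t7 t8 t9)
    true

/-- the mixed class -/
noncomputable def cls1 (k1 k2 K M c0 c1 c2 c3 c4 c5 c6 c7 c8 c9 v0 v1 v2 v3 v4 v5 v6 v7 v8 v9 D : ℕ) : Bool :=
  cb (Nat.ble (Nat.mul (cnt (osh k1 k2 c0) (osh k1 k2 c1) (osh k1 k2 c2) (osh k1 k2 c3) (osh k1 k2 c4) (osh k1 k2 c5) (osh k1 k2 c6) (osh k1 k2 c7) (osh k1 k2 c8) (osh k1 k2 c9))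
      (cnt (odp k1 c0) (odp k1 c1) (odp k1 c2) (odp k1 c3) (odp k1 c4) (odp k1 c5) (odp k1 c6) (odp k1 c7) (odp k1 c8) (odp k1 c9)))
      (cnb (osh k1 k2 c0) (osh k1 k2 c1) (osh k1 k2 c2) (osh k1 k2 c3) (osh k1 k2 c4) (osh k1 k2 c5) (osh k1 k2 c6) (osh k1 k2 c7) (osh k1 k2 c8) (osh k1 k2 c9) (odp k1 c0) (odp k1 c1) (odp k1 c2) (odp k1 c3) (odp k1 c4) (odp k1 c5) (odp k1 c6) (odp k1 c7) (odp k1 c8) (odp k1 c9)))
    (cls2 k1 k2 K M c0 c1 c2 c3 c4 c5 c6 c7 c8 c9 v0 v1 v2 v3 v4 v5 v6 v7 v8 v9 D)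
    (fz (Nat.mod D 1048576) fun l => fz (Nat.div D 1048576) fun D =>
    stC (okS l K k1 k2 c0 v0) (osh k1 k2 c0) D fun s0 D =>
    stC (okD l K k1 k2 c0 v0) (odp k1 c0) D fun d0 D =>
    stC (okS l K k1 k2 c1 v1) (osh k1 k2 c1) D fun s1 D =>
    stC (okD l K k1 k2 c1 v1) (odp k1 c1) D fun d1 D =>
    stC (okS l K k1 k2 c2 v2) (osh k1 k2 c2) D fun s2 D =>
    stC (okD l K k1 k2 c2 v2) (odp k1 c2) D fun d2 D =>
    stC (okS l K k1 k2 c3 v3) (osh k1 k2 c3) D fun s3 D =>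
    stC (okD l K k1 k2 c3 v3) (odp k1 c3) D fun d3 D =>
    stC (okS l K k1 k2 c4 v4) (osh k1 k2 c4) D fun s4 D =>
    stC (okD l K k1 k2 c4 v4) (odp k1 c4) D fun d4 D =>
    stC (okS l K k1 k2 c5 v5) (osh k1 k2 c5) D fun s5 D =>
    stC (okD l K k1 k2 c5 v5) (odp k1 c5) D fun d5 D =>
    stC (okS l K k1 k2 c6 v6) (osh k1 k2 c6) D fun s6 D =>
    stC (okD l K k1 k2 c6 v6) (odp k1 c6) D fun d6 D =>
    stC (okS l K k1 k2 c7 v7) (osh k1 k2 c7) D fun s7 D =>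
    stC (okD l K k1 k2 c7 v7) (odp k1 c7) D fun d7 D =>
    stC (okS l K k1 k2 c8 v8) (osh k1 k2 c8) D fun s8 D =>
    stC (okD l K k1 k2 c8 v8) (odp k1 c8) D fun d8 D =>
    stC (okS l K k1 k2 c9 v9) (osh k1 k2 c9) D fun s9 D =>
    stC (okD l K k1 k2 c9 v9) (odp k1 c9) D fun d9 D =>
    cb (tsm M l c0 c1 c2 c3 c4 c5 c6 c7 c8 c9 v0 v1 v2 v3 v4 v5 v6 v7 v8 v9 s0 s1 s2 s3 s4 s5 s6 s7 s8 s9 d0 d1 d2 d3 d4 d5 d6 d7 d8 d9)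
      (cls2 k1 k2 K M c0 c1 c2 c3 c4 c5 c6 c7 c8 c9 v0 v1 v2 v3 v4 v5 v6 v7 v8 v9 D) false)

/-- the class of two shallow contacts -/
noncomputable def cls0 (k1 k2 K M c0 c1 c2 c3 c4 c5 c6 c7 c8 c9 v0 v1 v2 v3 v4 v5 v6 v7 v8 v9 D : ℕ) : Bool :=
  cb (Nat.ble 2 (cnt (osh k1 k2 c0) (osh k1 k2 c1) (osh k1 k2 c2) (osh k1 k2 c3) (osh k1 k2 c4) (osh k1 k2 c5) (osh k1 k2 c6) (osh k1 k2 c7) (osh k1 k2 c8) (osh k1 k2 c9)))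
    (fz (Nat.mod D 1048576) fun l => fz (Nat.div D 1048576) fun D =>
    stC (okS l K k1 k2 c0 v0) (osh k1 k2 c0) D fun t0 D =>
    stC (okS l K k1 k2 c1 v1) (osh k1 k2 c1) D fun t1 D =>
    stC (okS l K k1 k2 c2 v2) (osh k1 k2 c2) D fun t2 D =>
    stC (okS l K k1 k2 c3 v3) (osh k1 k2 c3) D fun t3 D =>
    stC (okS l K k1 k2 c4 v4) (osh k1 k2 c4) D fun t4 D =>
    stC (okS l K k1 k2 c5 v5) (osh k1 k2 c5) D fun t5 D =>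
    stC (okS l K k1 k2 c6 v6) (osh k1 k2 c6) D fun t6 D =>
    stC (okS l K k1 k2 c7 v7) (osh k1 k2 c7) D fun t7 D =>
    stC (okS l K k1 k2 c8 v8) (osh k1 k2 c8) D fun t8 D =>
    stC (okS l K k1 k2 c9 v9) (osh k1 k2 c9) D fun t9 D =>
    cb (tst M l c0 c1 c2 c3 c4 c5 c6 c7 c8 c9 v0 v1 v2 v3 v4 v5 v6 v7 v8 v9 t0 t1 t2 t3 t4 t5 t6 t7 t8 t9)
      (cls1 k1 k2 K M c0 c1 c2 c3 c4 c5 c6 c7 c8 c9 v0 v1 v2 v3 v4 v5 v6 v7 v8 v9 D) false)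
    (cb (tst M 0 c0 c1 c2 c3 c4 c5 c6 c7 c8 c9 v0 v1 v2 v3 v4 v5 v6 v7 v8 v9 0 0 0 0 0 0 0 0 0 0)
      (cls1 k1 k2 K M c0 c1 c2 c3 c4 c5 c6 c7 c8 c9 v0 v1 v2 v3 v4 v5 v6 v7 v8 v9 D) false)

/-- all checks after reading the nodes -/
noncomputable def mainD (k1 k2 K M c0 c1 c2 c3 c4 c5 c6 c7 c8 c9 v0 v1 v2 v3 v4 v5 v6 v7 v8 v9 D : ℕ) : Bool :=
  cb (Nat.ble k2 900) (cb (Nat.ble (kUof K k2) 16777215)
    (cb (slf K k1 k2 c0 v0) (cb (slf K k1 k2 c1 v1) (cb (slf K k1 k2 c2 v2) (cb (slf K k1 k2 c3 v3) (cb (slf K k1 k2 c4 v4) (cb (slf K k1 k2 c5 v5) (cb (slf K k1 k2 c6 v6) (cb (slf K k1 k2 c7 v7) (cb (slf K k1 k2 c8 v8) (cb (slf K k1 k2 c9 v9) (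
      cls0 k1 k2 K M c0 c1 c2 c3 c4 c5 c6 c7 c8 c9 v0 v1 v2 v3 v4 v5 v6 v7 v8 v9 D
    ) false) false) false) false) false) false) false) false) false) false)
    false) false

/-! ### reading the box and the payload -/

/-- cell code `+ 1` of a field of the box, `0` if not allowed -/
noncomputable def cellC (g : ℕ) : ℕ :=
  fz (Nat.mod g 65536) fun a => fz (Nat.div g 65536) fun b =>
  cb (Nat.ble 1280 a) (cb (Nat.ble b 6144)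
    (Nat.succ (Nat.add (Nat.div (Nat.sub a 1280) 16) (Nat.mul 512 (Nat.div (Nat.sub b 1265) 16))))
    0) 0

/-- position of a cell: `1` if it crosses `-1/2`, `2` if it begins there, else `0` -/
noncomputable def crs (c : ℕ) : ℕ :=
  cb (Nat.ble 48 (lo c)) (cb (Nat.beq (lo c) 48) 2 0) (cb (Nat.ble 48 (hi c)) 1 0)

/-- the end of a node: the check of the type; node number: cell, velocity above, velocity below -/
noncomputable def ndE (c P w D : ℕ) (k : ℕ → ℕ → ℕ) : ℕ :=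
  cb (Nat.ble (ty c P w) 3) (fz (Nat.add c (Nat.add (Nat.mul 262144 P)
    (Nat.mul 17179869184 (Nat.add P w)))) fun n => k n D) 0

/-- read a node: `tv = 0` plain, `1`, `2` with two velocities -/
noncomputable def ndS (tv g D : ℕ) (k : ℕ → ℕ → ℕ) : ℕ :=
  nb (cellC g) 0 fun c => fz (Nat.mod D 65536) fun P => fz (Nat.div D 65536) fun D =>
  nb tv (ndE c P 0 D k) fun m => nb (crs c) (ndE c P 0 D k) fun x =>
    nb x (fz (Nat.mod D 65536) fun w => fz (Nat.div D 65536) fun D => ndE c P w D k)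
      fun _ => ndE c P m D k

/-- field `k` of a tagged box -/
def fdK (L k : ℕ) : ℕ := Nat.mod (Nat.shiftRight L (Nat.mul 32 k)) 4294967296

/-- read the nodes: `1 +` the ten node numbers (64 bits each) and the rest, or `0` -/
noncomputable def rdN (tv L D : ℕ) : ℕ :=
  fz (fdK L 2) fun g => ndS tv g D fun n0 D =>
  fz (fdK L 3) fun g => ndS tv g D fun n1 D =>
  fz (fdK L 4) fun g => ndS tv g D fun n2 D =>
  fz (fdK L 5) fun g => ndS tv g D fun n3 D =>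
  fz (fdK L 6) fun g => ndS tv g D fun n4 D =>
  fz (fdK L 7) fun g => ndS tv g D fun n5 D =>
  fz (fdK L 8) fun g => ndS tv g D fun n6 D =>
  fz (fdK L 9) fun g => ndS tv g D fun n7 D =>
  fz (fdK L 10) fun g => ndS tv g D fun n8 D =>
  fz (fdK L 11) fun g => ndS tv g D fun n9 D =>
  Nat.succ (Nat.add (Nat.add n0 (Nat.mul 18446744073709551616 (Nat.add n1 (Nat.mul 18446744073709551616 (Nat.add n2 (Nat.mul 18446744073709551616 (Nat.add n3 (Nat.mul 18446744073709551616 (Nat.add n4 (Nat.mul 18446744073709551616 (Nat.add n5 (Nat.mul 18446744073709551616 (Nat.add n6 (Nat.mul 18446744073709551616 (Nat.add n7 (Nat.mul 18446744073709551616 (Nat.add n8 (Nat.mul 18446744073709551616 n9))))))))))))))))))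
    (Nat.mul (Nat.pow 2 640) D))

/-- kind of velocities -/
noncomputable def tvM (r k1 K : ℕ) : ℕ :=
  nb (Nat.mod (Nat.div r 8) 2) 0 fun _ => nb k1 (nb K 1 fun _ => 2) fun _ => 1

/-- lower tilt number of the box -/
def bk1 (L : ℕ) : ℕ := Nat.sub (Nat.mod (fdK L 1) 65536) 32768

/-- upper tilt number of the box -/
def bk2 (L : ℕ) : ℕ := Nat.sub (Nat.div (fdK L 1) 65536) 32768

/-- velocity of the south point -/
def pK (D : ℕ) : ℕ := Nat.mod (Nat.div D 35184372088832) 1048576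

/-- nodes and the rest of the payload, `+ 1` -/
noncomputable def ndA (L D r : ℕ) : ℕ :=
  fz (tvM r (bk1 L) (pK D)) fun tv => fz (Nat.div D (Nat.pow 2 65)) fun D => rdN tv L D

/-- number of the node `l` (`0 ≤ l ≤ 9`) -/
noncomputable def nd (L D r l : ℕ) : ℕ :=
  Nat.mod (Nat.div (Nat.pred (ndA L D r)) (Nat.pow 2 (Nat.mul 64 l))) 18446744073709551616

/-- cell of a node number -/
def ndc (n : ℕ) : ℕ := Nat.mod n 262144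

/-- velocity above -/
def ndp (n : ℕ) : ℕ := Nat.mod (Nat.div n 262144) 65536

/-- velocity below -/
def ndq (n : ℕ) : ℕ := Nat.div n 17179869184

/-- velocity code of a node number -/
def ndv (n : ℕ) : ℕ := Nat.add (ndp n) (Nat.mul 65536 (Nat.sub (ndq n) (ndp n)))

/-- pass the ten node numbers to the checks -/
noncomputable def rdM (k1 k2 K M n0 n1 n2 n3 n4 n5 n6 n7 n8 n9 D : ℕ) : Bool :=
  fz (ndc n0) fun c0 => fz (ndv n0) fun v0 => fz (ndc n1) fun c1 => fz (ndv n1) fun v1 =>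
  fz (ndc n2) fun c2 => fz (ndv n2) fun v2 => fz (ndc n3) fun c3 => fz (ndv n3) fun v3 =>
  fz (ndc n4) fun c4 => fz (ndv n4) fun v4 => fz (ndc n5) fun c5 => fz (ndv n5) fun v5 =>
  fz (ndc n6) fun c6 => fz (ndv n6) fun v6 => fz (ndc n7) fun c7 => fz (ndv n7) fun v7 =>
  fz (ndc n8) fun c8 => fz (ndv n8) fun v8 => fz (ndc n9) fun c9 => fz (ndv n9) fun v9 =>
  mainD k1 k2 K M c0 c1 c2 c3 c4 c5 c6 c7 c8 c9 v0 v1 v2 v3 v4 v5 v6 v7 v8 v9 D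

/-- **the check of a direction leaf** -/
noncomputable def dleaf (L D r : ℕ) : Bool :=
  nb (ndA L D r) false fun X => fz (Nat.div X (Nat.pow 2 640)) fun D' =>
  fz (bk1 L) fun k1 => fz (bk2 L) fun k2 => fz (pK D) fun K => fz (Nat.mod D 35184372088832) fun M =>
  fz (nd L D r 0) fun n0 => fz (nd L D r 1) fun n1 =>
  fz (nd L D r 2) fun n2 => fz (nd L D r 3) fun n3 =>
  fz (nd L D r 4) fun n4 => fz (nd L D r 5) fun n5 =>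
  fz (nd L D r 6) fun n6 => fz (nd L D r 7) fun n7 =>
  fz (nd L D r 8) fun n8 => fz (nd L D r 9) fun n9 =>
  rdM k1 k2 K M n0 n1 n2 n3 n4 n5 n6 n7 n8 n9 D'

end Pool.Agent.Helper98.DL
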