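import Pool.Agent.Helper98.DL.DFun

set_option autoImplicit false

/-! # Direction leaves: longest paths of lower bounds -/

namespace Pool.Agent.Helper98.DL

open Real

/-- lower bounds of the gaps -/
def GapOK (c : ℕ → ℕ) (g : ℕ → ℝ) : Prop :=
  ∀ i j, i < j → j ≤ 9 → (dminus (c i) (c j) : ℝ) * (π / 32768) ≤ g j - g i

lemma mx_real {a b : ℕ} {X : ℝ} (h1 : (a : ℝ) * (π / 32768) ≤ X) (h2 : (b : ℝ) * (π / 32768) ≤ X) :
    ((mx a b : ℕ) : ℝ) * (π / 32768) ≤ X := by
  rw [mx_eq]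
  rcases Nat.le_total a b with h | h
  · rw [max_eq_right h]; exact h2
  · rw [max_eq_left h]; exact h1

lemma add_real {a b : ℕ} {X Y Z : ℝ} (h1 : (a : ℝ) * (π / 32768) ≤ Y - X)
    (h2 : (b : ℝ) * (π / 32768) ≤ Z - Y) : ((Nat.add a b : ℕ) : ℝ) * (π / 32768) ≤ Z - X := by
  have e : ((Nat.add a b : ℕ) : ℝ) = a + b := Nat.cast_add a b
  rw [e]
  linarith

variable {c : ℕ → ℕ} {g : ℕ → ℝ}

lemma lb1_s (H : GapOK c g) (i : ℕ) (hi : i + 1 ≤ 9) :
    (lb1 (c i) (c (i + 1)) : ℝ) * (π / 32768) ≤ g (i + 1) - g i := H i (i + 1) (by omega) hi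

lemma lb2_s (H : GapOK c g) (i : ℕ) (hi : i + 2 ≤ 9) :
    (lb2 (c i) (c (i + 1)) (c (i + 2)) : ℝ) * (π / 32768) ≤
      g (i + 2) - g i := by
  unfold lb2
  exact mx_real (H i (i + 2) (by omega) (by omega)) (add_real (lb1_s H i (by omega)) (H (i + 1) (i + 2) (by omega) (by omega)))

lemma lb3_s (H : GapOK c g) (i : ℕ) (hi : i + 3 ≤ 9) :
    (lb3 (c i) (c (i + 1)) (c (i + 2)) (c (i + 3)) : ℝ) * (π / 32768) ≤
      g (i + 3) - g i := by
  unfold lb3
  exact mx_real (mx_real (H i (i + 3) (by omega) (by omega)) (add_real (lb1_s H i (by omega)) (H (i + 1) (i + 3) (by omega) (by omega)))) (add_real (lb2_s H i (by omega)) (H (i + 2) (i + 3) (by omega) (by omega)))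

lemma lb4_s (H : GapOK c g) (i : ℕ) (hi : i + 4 ≤ 9) :
    (lb4 (c i) (c (i + 1)) (c (i + 2)) (c (i + 3)) (c (i + 4)) : ℝ) * (π / 32768) ≤
      g (i + 4) - g i := by
  unfold lb4
  exact mx_real (mx_real (mx_real (H i (i + 4) (by omega) (by omega)) (add_real (lb1_s H i (by omega)) (H (i + 1) (i + 4) (by omega) (by omega)))) (add_real (lb2_s H i (by omega)) (H (i + 2) (i + 4) (by omega) (by omega)))) (add_real (lb3_s H i (by omega)) (H (i + 3) (i + 4) (by omega) (by omega)))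

lemma lb5_s (H : GapOK c g) (i : ℕ) (hi : i + 5 ≤ 9) :
    (lb5 (c i) (c (i + 1)) (c (i + 2)) (c (i + 3)) (c (i + 4)) (c (i + 5)) : ℝ) * (π / 32768) ≤
      g (i + 5) - g i := by
  unfold lb5
  exact mx_real (mx_real (mx_real (mx_real (H i (i + 5) (by omega) (by omega)) (add_real (lb1_s H i (by omega)) (H (i + 1) (i + 5) (by omega) (by omega)))) (add_real (lb2_s H i (by omega)) (H (i + 2) (i + 5) (by omega) (by omega)))) (add_real (lb3_s H i (by omega)) (H (i + 3) (i + 5) (by omega) (by omega)))) (add_real (lb4_s H i (by omega)) (H (i + 4) (i + 5) (by omega) (by omega)))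

lemma lb6_s (H : GapOK c g) (i : ℕ) (hi : i + 6 ≤ 9) :
    (lb6 (c i) (c (i + 1)) (c (i + 2)) (c (i + 3)) (c (i + 4)) (c (i + 5)) (c (i + 6)) : ℝ) * (π / 32768) ≤
      g (i + 6) - g i := by
  unfold lb6
  exact mx_real (mx_real (mx_real (mx_real (mx_real (H i (i + 6) (by omega) (by omega)) (add_real (lb1_s H i (by omega)) (H (i + 1) (i + 6) (by omega) (by omega)))) (add_real (lb2_s H i (by omega)) (H (i + 2) (i + 6) (by omega) (by omega)))) (add_real (lb3_s H i (by omega)) (H (i + 3) (i + 6) (by omega) (by omega)))) (add_real (lb4_s H i (by omega)) (H (i + 4) (i + 6) (by omega) (by omega)))) (add_real (lb5_s H i (by omega)) (H (i + 5) (i + 6) (by omega) (by omega)))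

lemma lb7_s (H : GapOK c g) (i : ℕ) (hi : i + 7 ≤ 9) :
    (lb7 (c i) (c (i + 1)) (c (i + 2)) (c (i + 3)) (c (i + 4)) (c (i + 5)) (c (i + 6)) (c (i + 7)) : ℝ) * (π / 32768) ≤
      g (i + 7) - g i := by
  unfold lb7
  exact mx_real (mx_real (mx_real (mx_real (mx_real (mx_real (H i (i + 7) (by omega) (by omega)) (add_real (lb1_s H i (by omega)) (H (i + 1) (i + 7) (by omega) (by omega)))) (add_real (lb2_s H i (by omega)) (H (i + 2) (i + 7) (by omega) (by omega)))) (add_real (lb3_s H i (by omega)) (H (i + 3) (i + 7) (by omega) (by omega)))) (add_real (lb4_s H i (by omega)) (H (i + 4) (i + 7) (by omega) (by omega)))) (add_real (lb5_s H i (by omega)) (H (i + 5) (i + 7) (by omega) (by omega)))) (add_real (lb6_s H i (by omega)) (H (i + 6) (i + 7) (by omega) (by omega)))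

lemma lb8_s (H : GapOK c g) (i : ℕ) (hi : i + 8 ≤ 9) :
    (lb8 (c i) (c (i + 1)) (c (i + 2)) (c (i + 3)) (c (i + 4)) (c (i + 5)) (c (i + 6)) (c (i + 7)) (c (i + 8)) : ℝ) * (π / 32768) ≤
      g (i + 8) - g i := by
  unfold lb8
  exact mx_real (mx_real (mx_real (mx_real (mx_real (mx_real (mx_real (H i (i + 8) (by omega) (by omega)) (add_real (lb1_s H i (by omega)) (H (i + 1) (i + 8) (by omega) (by omega)))) (add_real (lb2_s H i (by omega)) (H (i + 2) (i + 8) (by omega) (by omega)))) (add_real (lb3_s H i (by omega)) (H (i + 3) (i + 8) (by omega) (by omega)))) (add_real (lb4_s H i (by omega)) (H (i + 4) (i + 8) (by omega) (by omega)))) (add_real (lb5_s H i (by omega)) (H (i + 5) (i + 8) (by omega) (by omega)))) (add_real (lb6_s H i (by omega)) (H (i + 6) (i + 8) (by omega) (by omega)))) (add_real (lb7_s H i (by omega)) (H (i + 7) (i + 8) (by omega) (by omega)))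

lemma lb9_s (H : GapOK c g) (i : ℕ) (hi : i + 9 ≤ 9) :
    (lb9 (c i) (c (i + 1)) (c (i + 2)) (c (i + 3)) (c (i + 4)) (c (i + 5)) (c (i + 6)) (c (i + 7)) (c (i + 8)) (c (i + 9)) : ℝ) * (π / 32768) ≤
      g (i + 9) - g i := by
  unfold lb9
  exact mx_real (mx_real (mx_real (mx_real (mx_real (mx_real (mx_real (mx_real (H i (i + 9) (by omega) (by omega)) (add_real (lb1_s H i (by omega)) (H (i + 1) (i + 9) (by omega) (by omega)))) (add_real (lb2_s H i (by omega)) (H (i + 2) (i + 9) (by omega) (by omega)))) (add_real (lb3_s H i (by omega)) (H (i + 3) (i + 9) (by omega) (by omega)))) (add_real (lb4_s H i (by omega)) (H (i + 4) (i + 9) (by omega) (by omega)))) (add_real (lb5_s H i (by omega)) (H (i + 5) (i + 9) (by omega) (by omega)))) (add_real (lb6_s H i (by omega)) (H (i + 6) (i + 9) (by omega) (by omega)))) (add_real (lb7_s H i (by omega)) (H (i + 7) (i + 9) (by omega) (by omega)))) (add_real (lb8_s H i (by omega)) (H (i + 8) (i + 9) (by omega) (by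 omega)))

end Pool.Agent.Helper98.DL
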