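import Pool.Agent.Helper98.DL.DS1
import Pool.Agent.Helper66.Kiss.LeafC

set_option autoImplicit false

/-! # Direction leaves: contacts of the south point -/

namespace Pool.Agent.Helper98.DL

open Real Pool.Agent.Helper98.KT Pool.Agent.Helper65.KR Pool.Agent.Helper66.Kiss
  Pool.Agent.Helper66.Kiss.Pk

/-- velocity above -/
noncomputable def vU (ρ : ℝ) (v : ℕ) : ℝ := vel ρ (vP v)

/-- velocity below -/
noncomputable def vD (ρ : ℝ) (v : ℕ) : ℝ := vel ρ (vP v + vW v)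

/-- bound of a contact -/
noncomputable def hq (ρ : ℝ) (l M : ℕ) (α : ℝ) : ℝ :=
  l * ρ * (α / (π / 32)) + ((M : ℝ) - 8388608) * ρ + 10 * ρ

lemma sub_sub_real (a b : ℕ) : ((Nat.sub a b : ℕ) : ℝ) - ((Nat.sub b a : ℕ) : ℝ) = a - b := by
  show ((a - b : ℕ) : ℝ) - ((b - a : ℕ) : ℝ) = a - b
  rcases Nat.le_total a b with h | h
  · rw [Nat.sub_eq_zero_of_le h, Nat.cast_sub h]
    push_cast; ring
  · rw [Nat.sub_eq_zero_of_le h, Nat.cast_sub h]
    push_cast; ring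

lemma zz48 : zz 48 = -(1 / 2) := by unfold zz; norm_num

lemma zz304 : zz 304 = 1 / 2 := by unfold zz; norm_num

section

variable {K k1 k2 l c v m M : ℕ} {t y ρ κ : ℝ}

/-- the shallow part of the cell -/
lemma sh_part (h : InC c y) (hy : -(1 / 2) ≤ y) :
    48 ≤ hi c ∧ zz (mx 48 (lo c)) ≤ y ∧ y ≤ zz (hi c) := by
  rw [InC_iff] at h
  refine ⟨zz_le ?_, ?_, h.2⟩
  · rw [zz48]; exact hy.trans h.2
  · rw [mx_eq]
    rcases Nat.le_total 48 (lo c) with h1 | h1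
    · rw [max_eq_right h1]; exact h.1
    · rw [max_eq_left h1, zz48]; exact hy

/-- the deep part of the cell -/
lemma dp_part (h : InC c y) (hy : y < -(1 / 2)) :
    lo c < 48 ∧ zz (lo c) ≤ y ∧ y ≤ zz (mn (hi c) 48) := by
  rw [InC_iff] at h
  refine ⟨?_, h.1, ?_⟩
  · by_contra hcon
    have h1 : zz 48 ≤ zz (lo c) := zz_mono (not_lt.1 hcon)
    rw [zz48] at h1
    linarith [h.1]
  · rw [mn_eq]
    rcases Nat.le_total (hi c) 48 with h1 | h1
    · rw [min_eq_left h1]; exact h.2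
    · rw [min_eq_right h1, zz48]; exact hy.le

lemma osh_eq (k1 k2 c : ℕ) :
    osh k1 k2 c = cb (Nat.ble 48 (hi c)) (aSh k1 k2 (mx 48 (lo c))) 0 := rfl

lemma odp_eq (k1 c : ℕ) :
    odp k1 c = cb (Nat.ble 48 (lo c)) 0 (aDq k1 (lo c) (mn (hi c) 48)) := rfl

lemma osh_sh (h : 48 ≤ hi c) : osh k1 k2 c = aSh k1 k2 (mx 48 (lo c)) := by
  rw [osh_eq, Nat.ble_eq_true_of_le h, cb_true]

lemma odp_dp (h : lo c < 48) : odp k1 c = aDq k1 (lo c) (mn (hi c) 48) := by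
  have : Nat.ble 48 (lo c) = false := by
    cases hb : Nat.ble 48 (lo c) with
    | false => rfl
    | true => have := Nat.le_of_ble_eq_true hb; omega
  rw [odp_eq, this, cb_false]

lemma mx48_ge (c : ℕ) : 48 ≤ mx 48 (lo c) := by rw [mx_eq]; exact le_max_left _ _

lemma mx48_le (hc : hi c ≤ 304) (h : InC c y) (hy : -(1 / 2) ≤ y) : mx 48 (lo c) ≤ 304 := by
  obtain ⟨h1, h2, h3⟩ := sh_part h hy
  exact (zz_le (h2.trans h3)).trans hc

lemma mn48_le (c : ℕ) : mn (hi c) 48 ≤ 48 := by rw [mn_eq]; exact min_le_right _ _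

/-- a shallow contact has the option -/
theorem osh_sound (ht0 : 0 < t) (ht1 : (k1 : ℝ) / 4096 ≤ t) (ht2 : t ≤ (k2 : ℝ) / 4096)
    (hk : k2 ≤ 900) (hc : hi c ≤ 304) (h : InC c y) (hy : -(1 / 2) ≤ y)
    (hR : RR (zs t) y ≤ 1) : ∃ m, osh k1 k2 c = m + 1 ∧ wd (zs t) y ≤ m * (π / 512) := by
  obtain ⟨h1, h2, h3⟩ := sh_part h hy
  have hy' : y ≤ 1 / 2 := by rw [← zz304]; exact h3.trans (zz_mono hc)
  have key := aSh_sound ht0 ht1 ht2 hk (mx48_ge c) (mx48_le hc h hy) h2 hy'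
  rw [← osh_sh h1] at key
  cases ho : osh k1 k2 c with
  | zero =>
    have := key.1 ho
    linarith
  | succ m => exact ⟨m, rfl, key.2 m ho⟩

/-- a deep contact has the option -/
theorem odp_sound (ht1 : (k1 : ℝ) / 4096 ≤ t) (ht2 : t < 1)
    (h : InC c y) (hy : y < -(1 / 2)) (hR : RR (zs t) y ≤ 1) :
    ∃ m, odp k1 c = m + 1 ∧ wd (zs t) y ≤ m * (π / 512) := by
  obtain ⟨h1, h2, h3⟩ := dp_part h hy
  have key := aDq_sound ht1 ht2 (mn48_le c) h2 h3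
  rw [← odp_dp h1] at key
  cases ho : odp k1 c with
  | zero =>
    have := key.1 ho
    linarith
  | succ m => exact ⟨m, rfl, key.2 m ho⟩

lemma okS_eq (l K k1 k2 c v m M : ℕ) : okS l K k1 k2 c v m M =
    cb (stt K v M) true (conSC (hopP l K) (hopN (kUof K k2))
      (Nat.add (Nat.mul 403 l) (Nat.mul 20 (kUof K k2)))
      (kTof K k2) k1 k2 (mx 48 (lo c)) (hi c) (Nat.sub (vP v) 32768) (Nat.sub 32768 (vP v))
      (Nat.sub M 8388608) (Nat.sub 8388608 M) m) := by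
  unfold okS
  rw [fz_pr, fz_pr]

lemma okD_eq (l K k1 k2 c v m M : ℕ) : okD l K k1 k2 c v m M =
    cb (stt K v M) true (conDC (hopP l K) (hopN (kUof K k2))
      (Nat.add (Nat.mul 403 l) (Nat.mul 20 (kUof K k2)))
      (kTof K k2) (gAll k2) k1 (lo c) (mn (hi c) 48) (Nat.sub (Nat.add (vP v) (vW v)) 32768)
      (Nat.sub 32768 (Nat.add (vP v) (vW v))) (Nat.sub M 8388608) (Nat.sub 8388608 M) m) := by
  unfold okD
  rw [fz_pr, fz_pr]

lemma stt_spec (h : stt K v M = true) : K = 0 ∧ v = 32768 ∧ 8388597 ≤ M := by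
  unfold stt at h
  obtain ⟨h1, h2⟩ := cb_and h
  obtain ⟨h2, h3⟩ := cb_and h2
  exact ⟨Nat.eq_of_beq_eq_true h1, Nat.eq_of_beq_eq_true h2, Nat.le_of_ble_eq_true h3⟩

lemma vU_static : vU ρ 32768 = 0 := by
  have : vP 32768 = 32768 := rfl
  unfold vU vel
  rw [this]
  norm_num

lemma vD_static : vD ρ 32768 = 0 := by
  have h1 : vP 32768 = 32768 := rfl
  have h2 : vW 32768 = 0 := rfl
  unfold vD vel
  rw [h1, h2]
  norm_num

/-- the static alternative -/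
lemma stt_sound (hρ : 0 < ρ) (hκ : κ = K * ρ) (h : stt K v M = true) :
    EBq (zs t) y (-κ) (-κ) (vU ρ v) (vD ρ v) ρ (hq ρ l M (wd (zs t) y)) := by
  obtain ⟨h1, h2, h3⟩ := stt_spec h
  left
  have hk : κ = 0 := by rw [hκ, h1]; push_cast; ring
  refine ⟨by rw [hk]; ring, by rw [hk]; ring, by rw [h2, vU_static], by rw [h2, vD_static], ?_⟩
  have hα : 0 ≤ wd (zs t) y := arccos_nonneg _
  have h4 : (8388597 : ℝ) ≤ M := by exact_mod_cast h3
  have hpi := Real.pi_pos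
  have h5 : 0 ≤ (l : ℝ) * ρ * (wd (zs t) y / (π / 32)) := by positivity
  unfold hq
  nlinarith

lemma hb_hq (ρ : ℝ) (l M : ℕ) (α : ℝ) :
    hb ρ l (Nat.sub M 8388608) (Nat.sub 8388608 M) α = hq ρ l M α - 10 * ρ := by
  unfold hb hq
  rw [sub_sub_real]
  push_cast
  ring

/-- **a shallow contact** -/
theorem okS_sound (hρ : 0 < ρ) (hκ : κ = K * ρ) (ht0 : 0 < t) (ht1 : (k1 : ℝ) / 4096 ≤ t)
    (ht : t ≤ (k2 : ℝ) / 4096) (hk : k2 ≤ 900) (hK : K < 2 ^ 24) (hku : kUof K k2 < 2 ^ 24)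
    (hl : l < 2 ^ 24) (hc : hi c ≤ 304) (hvw : VW (vU ρ v) (vD ρ v))
    (hm : osh k1 k2 c = m + 1) (h : okS l K k1 k2 c v m M = true)
    (hy : InC c y) (hys : -(1 / 2) ≤ y) (hR1 : -1 ≤ RR (zs t) y) (hR2 : RR (zs t) y ≤ 1) :
    EBq (zs t) y (-κ) (-κ) (vU ρ v) (vD ρ v) ρ (hq ρ l M (wd (zs t) y)) := by
  rw [okS_eq] at h
  cases hs : stt K v M with
  | true => exact stt_sound hρ hκ hs
  | false =>
    rw [hs, cb_false] at h
    obtain ⟨h1, h2, h3⟩ := sh_part hy hys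
    rw [osh_sh h1] at hm
    right; left
    rw [← hb_hq]
    refine conSC_sound hρ hκ ht0 ht1 ht hk (mx48_ge c) hc h2 h3 hl hK hku rfl hm h ?_ hvw hR1 hR2
    rw [sub_sub_real]
    unfold vU vel
    push_cast
    exact le_rfl

/-- **a deep contact** -/
theorem okD_sound (hρ : 0 < ρ) (hκ : κ = K * ρ) (ht0 : 0 < t) (ht1 : (k1 : ℝ) / 4096 ≤ t)
    (ht : t ≤ (k2 : ℝ) / 4096) (hk : k2 ≤ 900) (hK : K < 2 ^ 24) (hku : kUof K k2 < 2 ^ 24)
    (hl : l < 2 ^ 24)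
    (hm : odp k1 c = m + 1) (h : okD l K k1 k2 c v m M = true)
    (hy : InC c y) (hys : y < -(1 / 2)) (hR1 : -1 ≤ RR (zs t) y) (hR2 : RR (zs t) y ≤ 1) :
    EBq (zs t) y (-κ) (-κ) (vU ρ v) (vD ρ v) ρ (hq ρ l M (wd (zs t) y)) := by
  rw [okD_eq] at h
  cases hs : stt K v M with
  | true => exact stt_sound hρ hκ hs
  | false =>
    rw [hs, cb_false] at h
    obtain ⟨h1, h2, h3⟩ := dp_part hy hys
    rw [odp_dp h1] at hm
    right; left
    rw [← hb_hq]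
    refine conDC_sound hρ hκ ht0 ht1 ht hk (mn48_le c) h2 h3 hys hl hK hku rfl hm h ?_ hR1 hR2
    rw [sub_sub_real]
    unfold vD vel
    have e : ((Nat.add (vP v) (vW v) : ℕ) : ℝ) = ((vP v + vW v : ℕ) : ℝ) := rfl
    rw [e]
    push_cast
    exact le_rfl

/-- the bound at the angle `π` may be replaced by any bound -/
lemma EBq_of_neg_one {x y v w v' w' ρ c c' : ℝ} (hρ : 0 < ρ) (h : EBq x y v w v' w' ρ c)
    (hR : RR x y = -1) (hc' : -ρ ≤ c') (hne : ¬ (v = 0 ∧ w = 0 ∧ v' = 0 ∧ w' = 0) →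
      EBp x y v w v' w' (c - 10 * ρ)) : EBq x y v w v' w' ρ c' := by
  by_cases h0 : v = 0 ∧ w = 0 ∧ v' = 0 ∧ w' = 0
  · exact Or.inl ⟨h0.1, h0.2.1, h0.2.2.1, h0.2.2.2, hc'⟩
  · rcases hne h0 with ⟨-, h2⟩ | ⟨h1, h2, h3, h4, -⟩
    · right; left; left
      refine ⟨fun h5 => ?_, h2⟩
      rw [hR] at h5
      norm_num at h5
    · exact absurd ⟨h1, h2, h3, h4⟩ h0

/-- **the self contact** -/
theorem slf_sound (hρ : 0 < ρ) (hκ : κ = K * ρ) (ht0 : 0 < t) (ht1 : (k1 : ℝ) / 4096 ≤ t)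
    (ht : t ≤ (k2 : ℝ) / 4096) (hk : k2 ≤ 900) (hK : K < 2 ^ 24) (hku : kUof K k2 < 2 ^ 24)
    (hc : hi c ≤ 304) (h : slf K k1 k2 c v = true)
    (hy : InC c y) (hR1 : -1 ≤ RR (zs t) y) (hR2 : RR (zs t) y ≤ -1) :
    ∃ d < 0, EBq (zs t) y (-κ) (-κ) (vU ρ v) (vD ρ v) ρ d := by
  have hR : RR (zs t) y = -1 := le_antisymm hR2 hR1
  obtain ⟨htl, htsq⟩ := t_facts ht0 ht hk
  have hpi := Real.pi_pos
  have hw : wd (zs t) y = π := by
    show arccos (RR (zs t) y) = π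
    rw [hR, arccos_neg_one]
  have hyd : y < -(1 / 2) := by
    by_contra hcon
    push Not at hcon
    have hy' : y ≤ 1 / 2 := by rw [← zz304]; exact (InC_iff.1 hy).2.trans (zz_mono hc)
    have hy0 : -1 < y ∧ y < 1 := ⟨by linarith, by linarith⟩
    rw [RR_zs ht0 htl] at hR
    have h1 : 0 < √(1 - y ^ 2) := Real.sqrt_pos.2 (by nlinarith [hy0.1, hy0.2])
    have h2 : 0 ≤ ((1 / 2 + y) / t + t * (1 / 2 - y)) / (2 * √(1 - y ^ 2)) := by
      have : 0 ≤ 1 / 2 + y := by linarith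
      have : 0 ≤ 1 / 2 - y := by linarith
      positivity
    linarith
  obtain ⟨m, hm, hle⟩ := odp_sound (c := c) ht1 htl hy hyd (by linarith)
  have hm512 : 511 < m := by
    by_contra hcon
    have h1 : (m : ℝ) ≤ 511 := by exact_mod_cast not_lt.1 hcon
    rw [hw] at hle
    nlinarith
  have h' : okD 0 K k1 k2 c v m 9437184 = true := by
    unfold slf at h
    rw [hm, nb_succ] at h
    have : Nat.ble m 511 = false := by
      cases hb : Nat.ble m 511 with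
      | false => rfl
      | true => have := Nat.le_of_ble_eq_true hb; omega
    rwa [this, cb_false] at h
  have key := okD_sound (l := 0) (M := 9437184) hρ hκ ht0 ht1 ht hk hK hku (by norm_num) hm h' hy hyd
    hR1 (by linarith)
  refine ⟨-ρ / 2, by linarith, ?_⟩
  refine EBq_of_neg_one hρ key hR (by linarith) fun h0 => ?_
  rw [okD_eq] at h'
  cases hs : stt K v 9437184 with
  | true =>
    obtain ⟨h1, h2, -⟩ := stt_spec hs
    have hκ0 : -κ = 0 := by rw [hκ, h1]; push_cast; ring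
    exact absurd ⟨hκ0, hκ0, by rw [h2, vU_static], by rw [h2, vD_static]⟩ h0
  | false =>
    rw [hs, cb_false] at h'
    obtain ⟨h1, h2, h3⟩ := dp_part hy hyd
    rw [odp_dp h1] at hm
    rw [← hb_hq]
    refine conDC_sound hρ hκ ht0 ht1 ht hk (mn48_le c) h2 h3 hyd (by norm_num) hK hku rfl hm h' ?_
      hR1 (by linarith)
    rw [sub_sub_real]
    unfold vD vel
    have e : ((Nat.add (vP v) (vW v) : ℕ) : ℝ) = ((vP v + vW v : ℕ) : ℝ) := rfl
    rw [e]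
    push_cast
    exact le_rfl

end

end Pool.Agent.Helper98.DL
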