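import Pool.Agent.Helper98.DL.DS3
import Pool.Agent.Helper65.KR.RupB

set_option autoImplicit false

/-! # Direction leaves: entries of the tests -/

namespace Pool.Agent.Helper98.DL

open Real Pool.Agent.Helper98.KT Pool.Agent.Helper65.KR Pool.Agent.Helper66.Kiss
  Pool.Agent.Helper66.Kiss.Pk

/-! ## entries of classes -/

/-- first part -/
def prA (a b L : ℕ) : ℕ := min (64 * ((a + b) / 33554432)) (65536 - L)

/-- second part -/
def prB (l a b L : ℕ) : ℕ :=
  min (max ((l * prA a b L + 1023) / 1024 + ((a + b) % 33554432 + 20) - 8388608) 4194304) 14680064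

lemma pr_eq (l a b L : ℕ) : pr l (a + 1) (b + 1) L = prA a b L + 1048576 * prB l a b L := by
  unfold pr
  rw [nb_succ, nb_succ, fz_pr, fz_pr, mn_eq, mn_eq, mx_eq]
  rfl

lemma pr_zero_left (l t L : ℕ) : pr l 0 t L = 0 := rfl

lemma pr_zero_right (l t L : ℕ) : pr l t 0 L = 0 := by
  unfold pr
  cases t with
  | zero => rfl
  | succ t => rw [nb_succ, nb_zero]

lemma prA_le (a b L : ℕ) : prA a b L ≤ 65536 := by unfold prA; omega

lemma prB_le (l a b L : ℕ) : prB l a b L ≤ 14680064 := min_le_right _ _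

lemma prB_ge (l a b L : ℕ) : 4194304 ≤ prB l a b L := by
  unfold prB
  exact le_min (le_max_right _ _) (by norm_num)

/-- admissible entries -/
def EntOK (e : ℕ) : Prop := e % 1048576 ≤ 131072 ∧ e / 1048576 ≤ 16777216

lemma entOK_zero : EntOK 0 := ⟨by norm_num, by norm_num⟩

lemma ent_parts {A B : ℕ} (hA : A ≤ 65536) :
    (A + 1048576 * B) % 1048576 = A ∧ (A + 1048576 * B) / 1048576 = B := by
  constructor
  · omega
  · omega

lemma pr_parts (l a b L : ℕ) : pr l (a + 1) (b + 1) L % 1048576 = prA a b L ∧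
    pr l (a + 1) (b + 1) L / 1048576 = prB l a b L := by
  rw [pr_eq]
  exact ent_parts (prA_le _ _ _)

lemma pr_ok (l t t' L : ℕ) : EntOK (pr l t t' L) := by
  cases t with
  | zero => rw [pr_zero_left]; exact entOK_zero
  | succ a =>
    cases t' with
    | zero => rw [pr_zero_right]; exact entOK_zero
    | succ b =>
      unfold EntOK
      rw [(pr_parts l a b L).1, (pr_parts l a b L).2]
      exact ⟨(prA_le _ _ _).trans (by norm_num), (prB_le _ _ _ _).trans (by norm_num)⟩

lemma comb_ok {e e' : ℕ} (h : EntOK e) (h' : EntOK e') : EntOK (comb e e') := by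
  unfold comb
  cases e with
  | zero => exact h'
  | succ x =>
    cases e' with
    | zero => rw [nb_succ, nb_zero]; exact h
    | succ y =>
      rw [nb_succ, nb_succ, mx_eq, mx_eq]
      show EntOK (max ((x + 1) % 1048576) ((y + 1) % 1048576) +
        1048576 * max ((x + 1) / 1048576) ((y + 1) / 1048576))
      obtain ⟨h1, h2⟩ := h
      obtain ⟨h3, h4⟩ := h'
      unfold EntOK
      constructor
      · omega
      · omega

/-- the combined entry is larger in both parts -/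
lemma comb_ge {e e' : ℕ} (h : EntOK e) (h' : EntOK e') :
    (e % 1048576 ≤ comb e e' % 1048576 ∧ e / 1048576 ≤ comb e e' / 1048576) ∧
    (e' % 1048576 ≤ comb e e' % 1048576 ∧ e' / 1048576 ≤ comb e e' / 1048576) := by
  unfold comb
  cases e with
  | zero => rw [nb_zero]; exact ⟨⟨by simp, by simp⟩, le_rfl, le_rfl⟩
  | succ x =>
    cases e' with
    | zero => rw [nb_succ, nb_zero]; exact ⟨⟨le_rfl, le_rfl⟩, by simp, by simp⟩
    | succ y =>
      rw [nb_succ, nb_succ, mx_eq, mx_eq]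
      show ((x + 1) % 1048576 ≤ (max ((x + 1) % 1048576) ((y + 1) % 1048576) +
        1048576 * max ((x + 1) / 1048576) ((y + 1) / 1048576)) % 1048576 ∧
        (x + 1) / 1048576 ≤ (max ((x + 1) % 1048576) ((y + 1) % 1048576) +
        1048576 * max ((x + 1) / 1048576) ((y + 1) / 1048576)) / 1048576) ∧
        ((y + 1) % 1048576 ≤ (max ((x + 1) % 1048576) ((y + 1) % 1048576) +
        1048576 * max ((x + 1) / 1048576) ((y + 1) / 1048576)) % 1048576 ∧
        (y + 1) / 1048576 ≤ (max ((x + 1) % 1048576) ((y + 1) % 1048576) +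
        1048576 * max ((x + 1) / 1048576) ((y + 1) / 1048576)) / 1048576)
      obtain ⟨h1, h2⟩ := h
      obtain ⟨h3, h4⟩ := h'
      omega

/-! ## what an entry of two contacts means -/

/-- touch number of angle `m` and constant `M` -/
def TN (m M : ℕ) : ℕ := M + 33554432 * m

lemma prA_TN {m M m' M' L : ℕ} (h : M < 16777216) (h' : M' < 16777216) :
    prA (TN m M) (TN m' M') L = min (64 * (m + m')) (65536 - L) := by
  unfold prA TN
  have : (M + 33554432 * m + (M' + 33554432 * m')) / 33554432 = m + m' := by omega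
  rw [this]

lemma prB_TN {l m M m' M' L : ℕ} (h : M < 16777216) (h' : M' < 16777216) :
    prB l (TN m M) (TN m' M') L =
    min (max ((l * prA (TN m M) (TN m' M') L + 1023) / 1024 + (M + M' + 20) - 8388608) 4194304)
      14680064 := by
  unfold prB
  have : (TN m M + TN m' M') % 33554432 = M + M' := by unfold TN; omega
  rw [this]

/-- **the entry bounds the angles and the rates** -/
theorem pr_real {ρ α1 α2 G : ℝ} (hρ : 0 < ρ) {l m M m' M' L : ℕ} (h : M < 16777216)
    (h' : M' < 16777216) (h0 : 0 ≤ α1) (h0' : 0 ≤ α2) (h1 : α1 ≤ m * (π / 512))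
    (h2 : α2 ≤ m' * (π / 512)) (h3 : α1 + α2 ≤ 2 * π - G) (h4 : (L : ℝ) * (π / 32768) ≤ G) :
    α1 + α2 ≤ prA (TN m M) (TN m' M') L * (π / 32768) ∧
    (14680064 ≤ prB l (TN m M) (TN m' M') L ∨
      hq ρ l M α1 + hq ρ l M' α2 ≤ ((prB l (TN m M) (TN m' M') L : ℝ) - 2 ^ 23) * ρ) := by
  have hpi := Real.pi_pos
  have hA : α1 + α2 ≤ prA (TN m M) (TN m' M') L * (π / 32768) := by
    rw [prA_TN h h']
    rcases Nat.le_total (64 * (m + m')) (65536 - L) with k | k
    · rw [min_eq_left k]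
      push_cast
      nlinarith
    · rw [min_eq_right k]
      rcases Nat.le_total L 65536 with k2 | k2
      · rw [Nat.cast_sub k2]
        push_cast
        nlinarith
      · have k3 : (65536 : ℝ) ≤ L := by exact_mod_cast k2
        have k4 : 0 ≤ ((65536 - L : ℕ) : ℝ) * (π / 32768) := by positivity
        nlinarith
  refine ⟨hA, ?_⟩
  rw [prB_TN h h']
  set A := prA (TN m M) (TN m' M') L with hAd
  set X := (l * A + 1023) / 1024 + (M + M' + 20) with hX
  rcases Nat.le_total 14680064 (max (X - 8388608) 4194304) with k | k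
  · left
    rw [min_eq_right k]
  · right
    rw [min_eq_left k]
    have k1 : l * A ≤ (l * A + 1023) / 1024 * 1024 := by omega
    have k2 : (l : ℝ) * A ≤ ((l * A + 1023) / 1024 : ℕ) * 1024 := by exact_mod_cast k1
    have k3 : X ≤ max (X - 8388608) 4194304 + 8388608 := by omega
    have k4 : (X : ℝ) ≤ ((max (X - 8388608) 4194304 : ℕ) : ℝ) + 8388608 := by exact_mod_cast k3
    have k5 : (X : ℝ) = ((l * A + 1023) / 1024 : ℕ) + (M + M' + 20) := by
      rw [hX]; push_cast; ring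
    have hl : (0 : ℝ) ≤ l := Nat.cast_nonneg l
    have e1 : hq ρ l M α1 + hq ρ l M' α2 =
        ρ * (l * ((α1 + α2) / (π / 32)) + ((M : ℝ) + M' - 16777216 + 20)) := by
      unfold hq; field_simp; ring
    have e2 : (α1 + α2) / (π / 32) ≤ A / 1024 := by
      rw [div_le_iff₀ (by positivity)]
      calc α1 + α2 ≤ A * (π / 32768) := hA
        _ = _ := by ring
    have e3 : (l : ℝ) * ((α1 + α2) / (π / 32)) ≤ l * (A / 1024) :=
      mul_le_mul_of_nonneg_left e2 hl
    rw [e1]
    have e4 : (l : ℝ) * ((α1 + α2) / (π / 32)) + ((M : ℝ) + M' - 16777216 + 20) ≤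
        ((max (X - 8388608) 4194304 : ℕ) : ℝ) - 2 ^ 23 := by
      have e5 : (2 : ℝ) ^ 23 = 8388608 := by norm_num
      rw [e5]
      linarith
    calc _ ≤ ρ * (((max (X - 8388608) 4194304 : ℕ) : ℝ) - 2 ^ 23) :=
          mul_le_mul_of_nonneg_left e4 hρ.le
      _ = _ := by ring

/-! ## entries of pairs -/

/-- second part of the entry of a pair -/
noncomputable def peR (M q c v c' v' : ℕ) : ℕ :=
  nb (dplus c c') 0 fun _ => nb (Nat.mod (Nat.div M q) 2) 14680064 fun _ => rupV c v c' v'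

lemma pe_eq (M q c v c' v' : ℕ) : pe M q c v c' v' = dplus c c' + peR M q c v c' v' * 2 ^ 20 := by
  unfold pe peR
  cases dplus c c' with
  | zero => rw [nb_zero, nb_zero]; norm_num
  | succ d =>
    rw [nb_succ, nb_succ]
    show d + 1 + 1048576 * _ = _
    ring

lemma rupV_eq (c v c' v' : ℕ) : rupV c v c' v' = rup c (vP v) (vW v) c' (vP v') (vW v') := rfl

lemma peR_le {M q c v c' v' : ℕ} (hc : hi c ≤ 304) (hc' : hi c' ≤ 304) :
    peR M q c v c' v' ≤ 2 ^ 24 := by
  unfold peR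
  cases dplus c c' with
  | zero => rw [nb_zero]; norm_num
  | succ d =>
    rw [nb_succ]
    cases Nat.mod (Nat.div M q) 2 with
    | zero => rw [nb_zero]; norm_num
    | succ d =>
      rw [nb_succ, rupV_eq]
      have h1 : vP v ≤ 65535 := Nat.le_of_lt_succ (Nat.mod_lt _ (by norm_num))
      have h2 : vP v' ≤ 65535 := Nat.le_of_lt_succ (Nat.mod_lt _ (by norm_num))
      exact rup_le hc hc' h1 h2

/-- **the entry of a pair** -/
theorem pe_sound {ρ x y : ℝ} {M q c v c' v' : ℕ} (hρ : 0 < ρ) (hx : -1 < x) (hx' : x ≤ 1 / 2)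
    (hy : -1 < y) (hy' : y ≤ 1 / 2) (hc : hi c ≤ 304) (hc' : hi c' ≤ 304)
    (h1 : InC c x) (h2 : InC c' y) :
    1 < RR x y ∨ (wd x y ≤ dplus c c' * (π / 32768) ∧
      (2 ^ 23 + 2 ^ 22 + 2 ^ 21 ≤ peR M q c v c' v' ∨ (2 ^ 23 - 2 ^ 18 ≤ peR M q c v c' v' ∧
        EBq x y (vU ρ v) (vD ρ v) (vU ρ v') (vD ρ v') ρ
          (((peR M q c v c' v' : ℝ) - 2 ^ 23) * ρ)))) := by
  rcases dplus_sound hc hc' h1 h2 with h3 | ⟨h3, h4⟩
  · exact Or.inl h3
  rcases lt_or_ge 1 (RR x y) with h5 | h5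
  · exact Or.inl h5
  refine Or.inr ⟨h4, ?_⟩
  obtain ⟨d, hd⟩ := Nat.exists_eq_succ_of_ne_zero h3.ne'
  unfold peR
  rw [hd]
  show (2 ^ 23 + 2 ^ 22 + 2 ^ 21 ≤ nb (Nat.mod (Nat.div M q) 2) 14680064 fun _ => rupV c v c' v') ∨
    (2 ^ 23 - 2 ^ 18 ≤ (nb (Nat.mod (Nat.div M q) 2) 14680064 fun _ => rupV c v c' v') ∧ EBq x y
      (vU ρ v) (vD ρ v) (vU ρ v') (vD ρ v') ρ
      ((((nb (Nat.mod (Nat.div M q) 2) 14680064 fun _ => rupV c v c' v' : ℕ) : ℝ) - 2 ^ 23) * ρ))
  cases Nat.mod (Nat.div M q) 2 with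
  | zero => rw [nb_zero]; left; norm_num
  | succ d =>
    rw [nb_succ, rupV_eq]
    exact rup_sound hρ hx hx' hy hy' h1 h2 h5

end Pool.Agent.Helper98.DL
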