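import Pool.Agent.Helper98.DL.DS4
import Pool.Agent.Helper98.DL.DS2

set_option autoImplicit false

/-! # Direction leaves: the tests and the classes -/

namespace Pool.Agent.Helper98.DL

open Real Pool.Agent.Helper98.KT Pool.Agent.Helper65.KR Pool.Agent.Helper66.Kiss
  Pool.Agent.Helper66.Kiss.Pk

/-- number of the pair in the mask -/
def ixf (i j : ℕ) : ℕ := i * (19 - i) / 2 + (j - i - 1)

/-- entries of pairs -/
noncomputable def wE (M : ℕ) (c v : ℕ → ℕ) (i j : ℕ) : ℕ := pe M (2 ^ ixf i j) (c i) (v i) (c j) (v j)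

/-- widths -/
noncomputable def Df (c : ℕ → ℕ) (i j : ℕ) : ℕ := dplus (c i) (c j)

/-- rates -/
noncomputable def Rf (M : ℕ) (c v : ℕ → ℕ) (i j : ℕ) : ℕ :=
  peR M (2 ^ ixf i j) (c i) (v i) (c j) (v j)

/-- longest path of the lower bounds -/
noncomputable def LBf (c : ℕ → ℕ) (i j : ℕ) : ℕ := match j - i with
  | 1 => lb1 (c i) (c (i + 1))
  | 2 => lb2 (c i) (c (i + 1)) (c (i + 2))
  | 3 => lb3 (c i) (c (i + 1)) (c (i + 2)) (c (i + 3))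
  | 4 => lb4 (c i) (c (i + 1)) (c (i + 2)) (c (i + 3)) (c (i + 4))
  | 5 => lb5 (c i) (c (i + 1)) (c (i + 2)) (c (i + 3)) (c (i + 4)) (c (i + 5))
  | 6 => lb6 (c i) (c (i + 1)) (c (i + 2)) (c (i + 3)) (c (i + 4)) (c (i + 5)) (c (i + 6))
  | 7 => lb7 (c i) (c (i + 1)) (c (i + 2)) (c (i + 3)) (c (i + 4)) (c (i + 5)) (c (i + 6)) (c (i + 7))
  | 8 => lb8 (c i) (c (i + 1)) (c (i + 2)) (c (i + 3)) (c (i + 4)) (c (i + 5)) (c (i + 6)) (c (i + 7)) (c (i + 8))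
  | 9 => lb9 (c i) (c (i + 1)) (c (i + 2)) (c (i + 3)) (c (i + 4)) (c (i + 5)) (c (i + 6)) (c (i + 7)) (c (i + 8)) (c (i + 9))
  | _ => 0

lemma LBf_sound {c : ℕ → ℕ} {g : ℕ → ℝ} (H : GapOK c g) {i j : ℕ} (hij : i < j) (hj : j ≤ 9) :
    (LBf c i j : ℝ) * (π / 32768) ≤ g j - g i := by
  obtain ⟨k, rfl⟩ : ∃ k, j = i + k := ⟨j - i, by omega⟩
  have hk : 0 < k := by omega
  have hk9 : k ≤ 9 := by omega
  have e : i + k - i = k := by omega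
  unfold LBf
  rw [e]
  clear e hij
  interval_cases k
  · exact lb1_s H i hj
  · exact lb2_s H i hj
  · exact lb3_s H i hj
  · exact lb4_s H i hj
  · exact lb5_s H i hj
  · exact lb6_s H i hj
  · exact lb7_s H i hj
  · exact lb8_s H i hj
  · exact lb9_s H i hj

/-- good cells -/
def CellOK (c : ℕ → ℕ) : Prop := ∀ i ≤ 9, lo (c i) ≤ hi (c i) ∧ hi (c i) ≤ 304

section

variable {M l : ℕ} {c v : ℕ → ℕ}

lemma WC_self (hc : CellOK c) : WC 10 (wE M c v) (wE M c v) (Df c) (Rf M c v) (Df c) (Rf M c v) := by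
  have hD : ∀ i j, i < j → j < 10 → Df c i j ≤ 2 ^ 15 := fun i j hi hj =>
    dplus_le (hc i (by omega)).2 (hc j (by omega)).2 (hc i (by omega)).1 (hc j (by omega)).1
  have hR : ∀ i j, i < j → j < 10 → Rf M c v i j ≤ 2 ^ 24 := fun i j hi hj =>
    peR_le (hc i (by omega)).2 (hc j (by omega)).2
  exact ⟨fun i j _ _ => pe_eq _ _ _ _ _ _, fun i j _ _ => pe_eq _ _ _ _ _ _, hD, hR,
    fun i j hi hj => (hD i j hi hj).trans (by norm_num), hR⟩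

lemma WC_ent (hc : CellOK c) {e : ℕ → ℕ → ℕ} (he : ∀ i j, i < j → j < 10 → EntOK (e i j)) :
    WC 10 (wE M c v) e (Df c) (Rf M c v) (fun i j => e i j % 1048576)
      (fun i j => e i j / 1048576) := by
  have h := WC_self (M := M) (v := v) hc
  refine ⟨h.we, fun i j _ _ => ?_, h.dl, h.rl, fun i j hi hj => ?_, fun i j hi hj => ?_⟩
  · have e1 : (2 : ℕ) ^ 20 = 1048576 := by norm_num
    rw [e1]
    omega
  · have := (he i j hi hj).1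
    have e1 : (2 : ℕ) ^ 17 = 131072 := by norm_num
    rw [e1]; exact this
  · have := (he i j hi hj).2
    have e1 : (2 : ℕ) ^ 24 = 16777216 := by norm_num
    rw [e1]; exact this

/-- entries of an unmixed class -/
noncomputable def eC (l : ℕ) (c t : ℕ → ℕ) (i j : ℕ) : ℕ := pr l (t i) (t j) (LBf c i j)

/-- entries of the mixed class -/
noncomputable def eM (l : ℕ) (c s d : ℕ → ℕ) (i j : ℕ) : ℕ :=
  comb (pr l (s i) (d j) (LBf c i j)) (pr l (d i) (s j) (LBf c i j))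

theorem tst_sound (hc : CellOK c) {t : ℕ → ℕ}
    (h : tst M l (c 0) (c 1) (c 2) (c 3) (c 4) (c 5) (c 6) (c 7) (c 8) (c 9) (v 0) (v 1) (v 2) (v 3) (v 4) (v 5) (v 6) (v 7) (v 8) (v 9)
      (t 0) (t 1) (t 2) (t 3) (t 4) (t 5) (t 6) (t 7) (t 8) (t 9) = true) :
    IncOK 10 (Df c) (Rf M c v) (Df c) (Rf M c v) ∧ IncOK 10 (Df c) (Rf M c v)
      (fun i j => eC l c t i j % 1048576) (fun i j => eC l c t i j / 1048576) :=
  pT_sound (w := wE M c v) (c := eC l c t) (WC_self hc) (WC_ent hc fun _ _ _ _ => pr_ok _ _ _ _) h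

theorem tsm_sound (hc : CellOK c) {s d : ℕ → ℕ}
    (h : tsm M l (c 0) (c 1) (c 2) (c 3) (c 4) (c 5) (c 6) (c 7) (c 8) (c 9) (v 0) (v 1) (v 2) (v 3) (v 4) (v 5) (v 6) (v 7) (v 8) (v 9)
      (s 0) (s 1) (s 2) (s 3) (s 4) (s 5) (s 6) (s 7) (s 8) (s 9) (d 0) (d 1) (d 2) (d 3) (d 4) (d 5) (d 6) (d 7) (d 8) (d 9) = true) :
    IncOK 10 (Df c) (Rf M c v) (Df c) (Rf M c v) ∧ IncOK 10 (Df c) (Rf M c v)
      (fun i j => eM l c s d i j % 1048576) (fun i j => eM l c s d i j / 1048576) :=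
  pT_sound (w := wE M c v) (c := eM l c s d) (WC_self hc)
    (WC_ent hc fun _ _ _ _ => comb_ok (pr_ok _ _ _ _) (pr_ok _ _ _ _)) h

end

/-! ## reading constants -/

/-- meaning of a touch number -/
def TS (ok : ℕ → ℕ → Bool) (o t : ℕ) : Prop :=
  (o = 0 ∧ t = 0) ∨ ∃ m M, o = m + 1 ∧ M < 16777216 ∧ ok m M = true ∧ t = TN m M + 1

lemma stC_spec {ok : ℕ → ℕ → Bool} {o D : ℕ} {k : ℕ → ℕ → Bool} (h : stC ok o D k = true) :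
    ∃ t D', TS ok o t ∧ k t D' = true := by
  unfold stC at h
  cases o with
  | zero => exact ⟨0, D, Or.inl ⟨rfl, rfl⟩, h⟩
  | succ m =>
    rw [nb_succ, fz_pr] at h
    obtain ⟨h1, h2⟩ := cb_and h
    rw [fz_pr, fz_pr] at h2
    refine ⟨_, _, Or.inr ⟨m, _, rfl, Nat.mod_lt _ (by norm_num), h1, ?_⟩, h2⟩
    show Nat.mod D 16777216 + 1 + 33554432 * m = (Nat.mod D 16777216 + 33554432 * m) + 1
    ring

/-- ten numbers as a function -/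
def v10 (t0 t1 t2 t3 t4 t5 t6 t7 t8 t9 : ℕ) (i : ℕ) : ℕ := match i with
  | 0 => t0
  | 1 => t1
  | 2 => t2
  | 3 => t3
  | 4 => t4
  | 5 => t5
  | 6 => t6
  | 7 => t7
  | 8 => t8
  | 9 => t9
  | _ => 0

lemma v10_all {Q : ℕ → ℕ → Prop} {t0 t1 t2 t3 t4 t5 t6 t7 t8 t9 : ℕ} (h0 : Q 0 t0) (h1 : Q 1 t1)
    (h2 : Q 2 t2) (h3 : Q 3 t3) (h4 : Q 4 t4) (h5 : Q 5 t5) (h6 : Q 6 t6) (h7 : Q 7 t7)
    (h8 : Q 8 t8) (h9 : Q 9 t9) : ∀ i ≤ 9, Q i (v10 t0 t1 t2 t3 t4 t5 t6 t7 t8 t9 i) := by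
  intro i hi
  interval_cases i
  · exact h0
  · exact h1
  · exact h2
  · exact h3
  · exact h4
  · exact h5
  · exact h6
  · exact h7
  · exact h8
  · exact h9

/-! ## counting options -/

lemma sg_pos {n : ℕ} (h : n ≠ 0) : sg n = 1 := by
  show 1 - (1 - n) = 1
  omega

lemma sg_mul (a b : ℕ) : sg (Nat.mul a b) = sg a * sg b := by
  rcases Nat.eq_zero_or_pos a with h | h
  · subst h
    have : Nat.mul 0 b = 0 := Nat.zero_mul b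
    rw [this]
    show 1 - (1 - 0) = (1 - (1 - 0)) * sg b
    simp
  · rcases Nat.eq_zero_or_pos b with h' | h'
    · subst h'
      have : Nat.mul a 0 = 0 := Nat.mul_zero a
      rw [this]
      show 1 - (1 - 0) = sg a * (1 - (1 - 0))
      simp
    · have : Nat.mul a b ≠ 0 := (Nat.mul_pos h h').ne'
      rw [sg_pos this, sg_pos h.ne', sg_pos h'.ne']

lemma cnt_sum (o : ℕ → ℕ) : cnt (o 0) (o 1) (o 2) (o 3) (o 4) (o 5) (o 6) (o 7) (o 8) (o 9) =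
    ∑ i ∈ Finset.range 10, sg (o i) := by
  unfold cnt
  simp only [Finset.sum_range_succ, Finset.sum_range_zero]
  show sg (o 0) + (sg (o 1) + (sg (o 2) + (sg (o 3) + (sg (o 4) + (sg (o 5) + (sg (o 6) +
    (sg (o 7) + (sg (o 8) + sg (o 9))))))))) = _
  ring

lemma two_le_cnt {o : ℕ → ℕ} {i j : ℕ} (hij : i < j) (hj : j ≤ 9) (h1 : o i ≠ 0) (h2 : o j ≠ 0) :
    2 ≤ cnt (o 0) (o 1) (o 2) (o 3) (o 4) (o 5) (o 6) (o 7) (o 8) (o 9) := by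
  rw [cnt_sum]
  have hs : ({i, j} : Finset ℕ) ⊆ Finset.range 10 := by
    intro x hx
    simp only [Finset.mem_insert, Finset.mem_singleton] at hx
    rw [Finset.mem_range]
    omega
  have h3 := Finset.sum_le_sum_of_subset (f := fun i => sg (o i)) hs
  rw [Finset.sum_pair hij.ne] at h3
  simp only [sg_pos h1, sg_pos h2] at h3
  exact h3

lemma mixed_cnt {o p : ℕ → ℕ} {i j : ℕ} (hij : i ≠ j) (hi : i ≤ 9) (hj : j ≤ 9) (h1 : o i ≠ 0)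
    (h2 : p j ≠ 0) :
    cnb (o 0) (o 1) (o 2) (o 3) (o 4) (o 5) (o 6) (o 7) (o 8) (o 9) (p 0) (p 1) (p 2) (p 3) (p 4) (p 5) (p 6) (p 7) (p 8) (p 9) <
    Nat.mul (cnt (o 0) (o 1) (o 2) (o 3) (o 4) (o 5) (o 6) (o 7) (o 8) (o 9))
      (cnt (p 0) (p 1) (p 2) (p 3) (p 4) (p 5) (p 6) (p 7) (p 8) (p 9)) := by
  have e1 : cnb (o 0) (o 1) (o 2) (o 3) (o 4) (o 5) (o 6) (o 7) (o 8) (o 9) (p 0) (p 1) (p 2) (p 3) (p 4) (p 5) (p 6) (p 7) (p 8) (p 9) =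
      ∑ a ∈ Finset.range 10, sg (o a) * sg (p a) := by
    unfold cnb
    rw [cnt_sum (fun a => Nat.mul (o a) (p a))]
    exact Finset.sum_congr rfl fun a _ => sg_mul _ _
  have e2 : Nat.mul (cnt (o 0) (o 1) (o 2) (o 3) (o 4) (o 5) (o 6) (o 7) (o 8) (o 9))
      (cnt (p 0) (p 1) (p 2) (p 3) (p 4) (p 5) (p 6) (p 7) (p 8) (p 9)) =
      ∑ a ∈ Finset.range 10, sg (o a) * ∑ b ∈ Finset.range 10, sg (p b) := by
    show cnt _ _ _ _ _ _ _ _ _ _ * cnt _ _ _ _ _ _ _ _ _ _ = _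
    rw [cnt_sum, cnt_sum, Finset.sum_mul]
  rw [e1, e2]
  have hmi : i ∈ Finset.range 10 := Finset.mem_range.2 (by omega)
  have hmj : j ∈ Finset.range 10 := Finset.mem_range.2 (by omega)
  refine Finset.sum_lt_sum (fun a ha => Nat.mul_le_mul_left _ ?_) ⟨i, hmi, ?_⟩
  · exact Finset.single_le_sum (f := fun b => sg (p b)) (fun _ _ => Nat.zero_le _) ha
  · rw [sg_pos h1, one_mul, one_mul]
    have hs : ({i, j} : Finset ℕ) ⊆ Finset.range 10 := by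
      intro x hx
      simp only [Finset.mem_insert, Finset.mem_singleton] at hx
      rcases hx with rfl | rfl
      · exact hmi
      · exact hmj
    have h3 := Finset.sum_le_sum_of_subset (f := fun b => sg (p b)) hs
    rw [Finset.sum_pair hij] at h3
    simp only [sg_pos h2] at h3
    exact lt_of_lt_of_le (Nat.lt_succ_self _) h3

/-! ## the classes -/

section

variable {k1 k2 K M D : ℕ} {c v : ℕ → ℕ}

/-- shallow options -/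
noncomputable def oS (k1 k2 : ℕ) (c : ℕ → ℕ) (i : ℕ) : ℕ := osh k1 k2 (c i)

/-- deep options -/
noncomputable def oD (k1 : ℕ) (c : ℕ → ℕ) (i : ℕ) : ℕ := odp k1 (c i)

theorem cls2_spec (h : cls2 k1 k2 K M (c 0) (c 1) (c 2) (c 3) (c 4) (c 5) (c 6) (c 7) (c 8) (c 9) (v 0) (v 1) (v 2) (v 3) (v 4) (v 5) (v 6) (v 7) (v 8) (v 9) D = true)
    {i j : ℕ} (hij : i < j) (hj : j ≤ 9) (h1 : oD k1 c i ≠ 0) (h2 : oD k1 c j ≠ 0) :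
    ∃ l < 1048576, ∃ t : ℕ → ℕ, (∀ i ≤ 9, TS (okD l K k1 k2 (c i) (v i)) (oD k1 c i) (t i)) ∧
      tst M l (c 0) (c 1) (c 2) (c 3) (c 4) (c 5) (c 6) (c 7) (c 8) (c 9) (v 0) (v 1) (v 2) (v 3) (v 4) (v 5) (v 6) (v 7) (v 8) (v 9)
        (t 0) (t 1) (t 2) (t 3) (t 4) (t 5) (t 6) (t 7) (t 8) (t 9) = true := by
  unfold cls2 at h
  have hn : Nat.ble 2 (cnt (odp k1 (c 0)) (odp k1 (c 1)) (odp k1 (c 2)) (odp k1 (c 3)) (odp k1 (c 4)) (odp k1 (c 5)) (odp k1 (c 6)) (odp k1 (c 7)) (odp k1 (c 8)) (odp k1 (c 9))) = true :=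
    Nat.ble_eq_true_of_le (two_le_cnt (o := oD k1 c) hij hj h1 h2)
  rw [hn, cb_true, fz_pr, fz_pr] at h
  obtain ⟨t0, D0, e0, h⟩ := stC_spec h
  obtain ⟨t1, D1, e1, h⟩ := stC_spec h
  obtain ⟨t2, D2, e2, h⟩ := stC_spec h
  obtain ⟨t3, D3, e3, h⟩ := stC_spec h
  obtain ⟨t4, D4, e4, h⟩ := stC_spec h
  obtain ⟨t5, D5, e5, h⟩ := stC_spec h
  obtain ⟨t6, D6, e6, h⟩ := stC_spec h
  obtain ⟨t7, D7, e7, h⟩ := stC_spec h
  obtain ⟨t8, D8, e8, h⟩ := stC_spec h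
  obtain ⟨t9, D9, e9, h⟩ := stC_spec h
  refine ⟨_, Nat.mod_lt _ (by norm_num), v10 t0 t1 t2 t3 t4 t5 t6 t7 t8 t9, ?_, h⟩
  exact v10_all e0 e1 e2 e3 e4 e5 e6 e7 e8 e9

theorem cls1_next (h : cls1 k1 k2 K M (c 0) (c 1) (c 2) (c 3) (c 4) (c 5) (c 6) (c 7) (c 8) (c 9) (v 0) (v 1) (v 2) (v 3) (v 4) (v 5) (v 6) (v 7) (v 8) (v 9) D = true) :
    ∃ D', cls2 k1 k2 K M (c 0) (c 1) (c 2) (c 3) (c 4) (c 5) (c 6) (c 7) (c 8) (c 9) (v 0) (v 1) (v 2) (v 3) (v 4) (v 5) (v 6) (v 7) (v 8) (v 9) D' = true := by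
  unfold cls1 at h
  revert h
  generalize Nat.ble _ _ = b
  intro h
  cases b with
  | true => exact ⟨D, h⟩
  | false =>
    rw [cb_false, fz_pr, fz_pr] at h
    obtain ⟨s0, A0, a0, h⟩ := stC_spec h
    obtain ⟨d0, D0, e0, h⟩ := stC_spec h
    obtain ⟨s1, A1, a1, h⟩ := stC_spec h
    obtain ⟨d1, D1, e1, h⟩ := stC_spec h
    obtain ⟨s2, A2, a2, h⟩ := stC_spec h
    obtain ⟨d2, D2, e2, h⟩ := stC_spec h
    obtain ⟨s3, A3, a3, h⟩ := stC_spec h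
    obtain ⟨d3, D3, e3, h⟩ := stC_spec h
    obtain ⟨s4, A4, a4, h⟩ := stC_spec h
    obtain ⟨d4, D4, e4, h⟩ := stC_spec h
    obtain ⟨s5, A5, a5, h⟩ := stC_spec h
    obtain ⟨d5, D5, e5, h⟩ := stC_spec h
    obtain ⟨s6, A6, a6, h⟩ := stC_spec h
    obtain ⟨d6, D6, e6, h⟩ := stC_spec h
    obtain ⟨s7, A7, a7, h⟩ := stC_spec h
    obtain ⟨d7, D7, e7, h⟩ := stC_spec h
    obtain ⟨s8, A8, a8, h⟩ := stC_spec h
    obtain ⟨d8, D8, e8, h⟩ := stC_spec h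
    obtain ⟨s9, A9, a9, h⟩ := stC_spec h
    obtain ⟨d9, D9, e9, h⟩ := stC_spec h
    exact ⟨_, (cb_and h).2⟩

theorem cls1_spec (h : cls1 k1 k2 K M (c 0) (c 1) (c 2) (c 3) (c 4) (c 5) (c 6) (c 7) (c 8) (c 9) (v 0) (v 1) (v 2) (v 3) (v 4) (v 5) (v 6) (v 7) (v 8) (v 9) D = true)
    {i j : ℕ} (hij : i ≠ j) (hi : i ≤ 9) (hj : j ≤ 9) (h1 : oS k1 k2 c i ≠ 0)
    (h2 : oD k1 c j ≠ 0) :
    ∃ l < 1048576, ∃ s d : ℕ → ℕ, (∀ i ≤ 9, TS (okS l K k1 k2 (c i) (v i)) (oS k1 k2 c i) (s i)) ∧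
      (∀ i ≤ 9, TS (okD l K k1 k2 (c i) (v i)) (oD k1 c i) (d i)) ∧
      tsm M l (c 0) (c 1) (c 2) (c 3) (c 4) (c 5) (c 6) (c 7) (c 8) (c 9) (v 0) (v 1) (v 2) (v 3) (v 4) (v 5) (v 6) (v 7) (v 8) (v 9)
        (s 0) (s 1) (s 2) (s 3) (s 4) (s 5) (s 6) (s 7) (s 8) (s 9) (d 0) (d 1) (d 2) (d 3) (d 4) (d 5) (d 6) (d 7) (d 8) (d 9) = true := by
  unfold cls1 at h
  have hn : Nat.ble (Nat.mul (cnt (osh k1 k2 (c 0)) (osh k1 k2 (c 1)) (osh k1 k2 (c 2)) (osh k1 k2 (c 3)) (osh k1 k2 (c 4)) (osh k1 k2 (c 5)) (osh k1 k2 (c 6)) (osh k1 k2 (c 7)) (osh k1 k2 (c 8)) (osh k1 k2 (c 9)))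
      (cnt (odp k1 (c 0)) (odp k1 (c 1)) (odp k1 (c 2)) (odp k1 (c 3)) (odp k1 (c 4)) (odp k1 (c 5)) (odp k1 (c 6)) (odp k1 (c 7)) (odp k1 (c 8)) (odp k1 (c 9))))
      (cnb (osh k1 k2 (c 0)) (osh k1 k2 (c 1)) (osh k1 k2 (c 2)) (osh k1 k2 (c 3)) (osh k1 k2 (c 4)) (osh k1 k2 (c 5)) (osh k1 k2 (c 6)) (osh k1 k2 (c 7)) (osh k1 k2 (c 8)) (osh k1 k2 (c 9)) (odp k1 (c 0)) (odp k1 (c 1)) (odp k1 (c 2)) (odp k1 (c 3)) (odp k1 (c 4)) (odp k1 (c 5)) (odp k1 (c 6)) (odp k1 (c 7)) (odp k1 (c 8)) (odp k1 (c 9))) = false := by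
    have := mixed_cnt (o := oS k1 k2 c) (p := oD k1 c) hij hi hj h1 h2
    rw [Bool.eq_false_iff]
    intro hcon
    exact absurd (Nat.le_of_ble_eq_true hcon) (not_le.2 this)
  rw [hn, cb_false, fz_pr, fz_pr] at h
  obtain ⟨s0, A0, a0, h⟩ := stC_spec h
  obtain ⟨d0, D0, e0, h⟩ := stC_spec h
  obtain ⟨s1, A1, a1, h⟩ := stC_spec h
  obtain ⟨d1, D1, e1, h⟩ := stC_spec h
  obtain ⟨s2, A2, a2, h⟩ := stC_spec h
  obtain ⟨d2, D2, e2, h⟩ := stC_spec h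
  obtain ⟨s3, A3, a3, h⟩ := stC_spec h
  obtain ⟨d3, D3, e3, h⟩ := stC_spec h
  obtain ⟨s4, A4, a4, h⟩ := stC_spec h
  obtain ⟨d4, D4, e4, h⟩ := stC_spec h
  obtain ⟨s5, A5, a5, h⟩ := stC_spec h
  obtain ⟨d5, D5, e5, h⟩ := stC_spec h
  obtain ⟨s6, A6, a6, h⟩ := stC_spec h
  obtain ⟨d6, D6, e6, h⟩ := stC_spec h
  obtain ⟨s7, A7, a7, h⟩ := stC_spec h
  obtain ⟨d7, D7, e7, h⟩ := stC_spec h
  obtain ⟨s8, A8, a8, h⟩ := stC_spec h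
  obtain ⟨d8, D8, e8, h⟩ := stC_spec h
  obtain ⟨s9, A9, a9, h⟩ := stC_spec h
  obtain ⟨d9, D9, e9, h⟩ := stC_spec h
  exact ⟨_, Nat.mod_lt _ (by norm_num), v10 s0 s1 s2 s3 s4 s5 s6 s7 s8 s9, v10 d0 d1 d2 d3 d4 d5 d6 d7 d8 d9,
    v10_all a0 a1 a2 a3 a4 a5 a6 a7 a8 a9, v10_all e0 e1 e2 e3 e4 e5 e6 e7 e8 e9, (cb_and h).1⟩

theorem cls0_next (h : cls0 k1 k2 K M (c 0) (c 1) (c 2) (c 3) (c 4) (c 5) (c 6) (c 7) (c 8) (c 9) (v 0) (v 1) (v 2) (v 3) (v 4) (v 5) (v 6) (v 7) (v 8) (v 9) D = true) :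
    (∃ D', cls1 k1 k2 K M (c 0) (c 1) (c 2) (c 3) (c 4) (c 5) (c 6) (c 7) (c 8) (c 9) (v 0) (v 1) (v 2) (v 3) (v 4) (v 5) (v 6) (v 7) (v 8) (v 9) D' = true) ∧
    ∃ l, ∃ t : ℕ → ℕ, tst M l (c 0) (c 1) (c 2) (c 3) (c 4) (c 5) (c 6) (c 7) (c 8) (c 9) (v 0) (v 1) (v 2) (v 3) (v 4) (v 5) (v 6) (v 7) (v 8) (v 9)
        (t 0) (t 1) (t 2) (t 3) (t 4) (t 5) (t 6) (t 7) (t 8) (t 9) = true := by
  unfold cls0 at h
  revert h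
  generalize Nat.ble _ _ = b
  intro h
  cases b with
  | false =>
    rw [cb_false] at h
    obtain ⟨h1, h2⟩ := cb_and h
    exact ⟨⟨D, h2⟩, 0, fun _ => 0, h1⟩
  | true =>
    rw [cb_true, fz_pr, fz_pr] at h
    obtain ⟨t0, D0, e0, h⟩ := stC_spec h
    obtain ⟨t1, D1, e1, h⟩ := stC_spec h
    obtain ⟨t2, D2, e2, h⟩ := stC_spec h
    obtain ⟨t3, D3, e3, h⟩ := stC_spec h
    obtain ⟨t4, D4, e4, h⟩ := stC_spec h
    obtain ⟨t5, D5, e5, h⟩ := stC_spec h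
    obtain ⟨t6, D6, e6, h⟩ := stC_spec h
    obtain ⟨t7, D7, e7, h⟩ := stC_spec h
    obtain ⟨t8, D8, e8, h⟩ := stC_spec h
    obtain ⟨t9, D9, e9, h⟩ := stC_spec h
    obtain ⟨h1, h2⟩ := cb_and h
    exact ⟨⟨_, h2⟩, _, v10 t0 t1 t2 t3 t4 t5 t6 t7 t8 t9, h1⟩

theorem cls0_spec (h : cls0 k1 k2 K M (c 0) (c 1) (c 2) (c 3) (c 4) (c 5) (c 6) (c 7) (c 8) (c 9) (v 0) (v 1) (v 2) (v 3) (v 4) (v 5) (v 6) (v 7) (v 8) (v 9) D = true)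
    {i j : ℕ} (hij : i < j) (hj : j ≤ 9) (h1 : oS k1 k2 c i ≠ 0) (h2 : oS k1 k2 c j ≠ 0) :
    ∃ l < 1048576, ∃ t : ℕ → ℕ, (∀ i ≤ 9, TS (okS l K k1 k2 (c i) (v i)) (oS k1 k2 c i) (t i)) ∧
      tst M l (c 0) (c 1) (c 2) (c 3) (c 4) (c 5) (c 6) (c 7) (c 8) (c 9) (v 0) (v 1) (v 2) (v 3) (v 4) (v 5) (v 6) (v 7) (v 8) (v 9)
        (t 0) (t 1) (t 2) (t 3) (t 4) (t 5) (t 6) (t 7) (t 8) (t 9) = true := by
  unfold cls0 at h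
  have hn : Nat.ble 2 (cnt (osh k1 k2 (c 0)) (osh k1 k2 (c 1)) (osh k1 k2 (c 2)) (osh k1 k2 (c 3)) (osh k1 k2 (c 4)) (osh k1 k2 (c 5)) (osh k1 k2 (c 6)) (osh k1 k2 (c 7)) (osh k1 k2 (c 8)) (osh k1 k2 (c 9))) = true :=
    Nat.ble_eq_true_of_le (two_le_cnt (o := oS k1 k2 c) hij hj h1 h2)
  rw [hn, cb_true, fz_pr, fz_pr] at h
  obtain ⟨t0, D0, e0, h⟩ := stC_spec h
  obtain ⟨t1, D1, e1, h⟩ := stC_spec h
  obtain ⟨t2, D2, e2, h⟩ := stC_spec h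
  obtain ⟨t3, D3, e3, h⟩ := stC_spec h
  obtain ⟨t4, D4, e4, h⟩ := stC_spec h
  obtain ⟨t5, D5, e5, h⟩ := stC_spec h
  obtain ⟨t6, D6, e6, h⟩ := stC_spec h
  obtain ⟨t7, D7, e7, h⟩ := stC_spec h
  obtain ⟨t8, D8, e8, h⟩ := stC_spec h
  obtain ⟨t9, D9, e9, h⟩ := stC_spec h
  exact ⟨_, Nat.mod_lt _ (by norm_num), v10 t0 t1 t2 t3 t4 t5 t6 t7 t8 t9, v10_all e0 e1 e2 e3 e4 e5 e6 e7 e8 e9, (cb_and h).1⟩

end

end Pool.Agent.Helper98.DL
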