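import Pool.Agent.Helper98.DL.DS5
import Pool.Agent.Helper66.Kiss.PkC
import Pool.Agent.Helper98.KT.GapLB

set_option autoImplicit false

/-! # Direction leaves: the fields of the leaf structure away from the pole -/

namespace Pool.Agent.Helper98.DL

open Real Pool.Agent.Helper98.KT Pool.Agent.Helper65.KR Pool.Agent.Helper66.Kiss
  Pool.Agent.Helper66.Kiss.Pk

section

variable {k1 k2 K M D : ℕ} {c v : ℕ → ℕ} {z φ : Fin 11 → ℝ} {ρ : ℝ}

lemma mainD_spec (h : mainD k1 k2 K M (c 0) (c 1) (c 2) (c 3) (c 4) (c 5) (c 6) (c 7) (c 8) (c 9)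
    (v 0) (v 1) (v 2) (v 3) (v 4) (v 5) (v 6) (v 7) (v 8) (v 9) D = true) :
    k2 ≤ 900 ∧ kUof K k2 < 2 ^ 24 ∧ (∀ i ≤ 9, slf K k1 k2 (c i) (v i) = true) ∧
    cls0 k1 k2 K M (c 0) (c 1) (c 2) (c 3) (c 4) (c 5) (c 6) (c 7) (c 8) (c 9)
      (v 0) (v 1) (v 2) (v 3) (v 4) (v 5) (v 6) (v 7) (v 8) (v 9) D = true := by
  unfold mainD at h
  obtain ⟨h1, h⟩ := cb_and h
  obtain ⟨h2, h⟩ := cb_and h
  obtain ⟨s0, h⟩ := cb_and h
  obtain ⟨s1, h⟩ := cb_and h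
  obtain ⟨s2, h⟩ := cb_and h
  obtain ⟨s3, h⟩ := cb_and h
  obtain ⟨s4, h⟩ := cb_and h
  obtain ⟨s5, h⟩ := cb_and h
  obtain ⟨s6, h⟩ := cb_and h
  obtain ⟨s7, h⟩ := cb_and h
  obtain ⟨s8, h⟩ := cb_and h
  obtain ⟨s9, h⟩ := cb_and h
  refine ⟨Nat.le_of_ble_eq_true h1, ?_, ?_, h⟩
  · have := Nat.le_of_ble_eq_true h2
    have e1 : (2 : ℕ) ^ 24 = 16777216 := by norm_num
    rw [e1]
    omega
  · intro i hi
    interval_cases i
    · exact s0
    · exact s1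
    · exact s2
    · exact s3
    · exact s4
    · exact s5
    · exact s6
    · exact s7
    · exact s8
    · exact s9

/-- longitudes as a function of the number of the node -/
noncomputable def gF (φ : Fin 11 → ℝ) (i : ℕ) : ℝ :=
  if h : i < 10 then φ (⟨i, h⟩ : Fin 10).succ else 0

lemma gF_eq (φ : Fin 11 → ℝ) (l : Fin 10) : gF φ l = φ l.succ := by
  unfold gF
  rw [dif_pos l.isLt]

/-- heights of the ten nodes are in their cells -/
def CellIn (c : ℕ → ℕ) (z : Fin 11 → ℝ) : Prop := ∀ l : Fin 10, InC (c l) (z l.succ)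

lemma cell_gt (hc : CellOK c) (hin : CellIn c z) (l : Fin 10) : -1 < z l.succ := by
  have h := InC_iff.1 (hin l)
  have h1 := zz_bd (i := lo (c l)) (by
    have := hc l (by omega)
    omega)
  linarith [h1.1, h.1]

lemma gapOK_of (hc : CellOK c) (hin : CellIn c z) (hF : Fe z φ) (hs : Srtd φ) :
    GapOK c (gF φ) := by
  intro i j hij hj
  have hi10 : i < 10 := by omega
  have hj10 : j < 10 := by omega
  have e1 : gF φ i = φ (⟨i, hi10⟩ : Fin 10).succ := gF_eq φ ⟨i, hi10⟩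
  have e2 : gF φ j = φ (⟨j, hj10⟩ : Fin 10).succ := gF_eq φ ⟨j, hj10⟩
  rw [e1, e2]
  have h1 := gap_bounds hF hs (i := (⟨i, hi10⟩ : Fin 10).succ) (j := (⟨j, hj10⟩ : Fin 10).succ)
    (by rw [Fin.succ_lt_succ_iff]; exact hij) (cell_gt hc hin _) (cell_gt hc hin _)
  have h2 := dminus_sound (hc i (by omega)).2 (hc j hj).2 (hin ⟨i, hi10⟩) (hin ⟨j, hj10⟩)
  exact h2.trans h1.1

/-- **the field of pairs** -/
theorem pair_field (hρ : 0 < ρ) (hc : CellOK c) (hin : CellIn c z) (hF : Fe z φ) (l m : Fin 10) :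
    1 < RR (z l.succ) (z m.succ) ∨
    (wd (z l.succ) (z m.succ) ≤ Df c l m * (π / 32768) ∧
      (2 ^ 23 + 2 ^ 22 + 2 ^ 21 ≤ Rf M c v l m ∨ (2 ^ 23 - 2 ^ 18 ≤ Rf M c v l m ∧
        EBq (z l.succ) (z m.succ) (vU ρ (v l)) (vD ρ (v l)) (vU ρ (v m)) (vD ρ (v m)) ρ
          (((Rf M c v l m : ℝ) - 2 ^ 23) * ρ)))) := by
  exact pe_sound hρ (cell_gt hc hin l) (hF.1 _).2 (cell_gt hc hin m) (hF.1 _).2
    (hc l (by omega)).2 (hc m (by omega)).2 (hin l) (hin m)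

/-- what is known about the tilt -/
structure TiltOK (k1 k2 : ℕ) (z : Fin 11 → ℝ) (t : ℝ) : Prop where
  pos : 0 < t
  eq : z 0 = zs t
  lo : (k1 : ℝ) / 4096 ≤ t
  hi : t ≤ (k2 : ℝ) / 4096

lemma RR_ge_neg_one (hc : CellOK c) (hin : CellIn c z) (hF : Fe z φ) (hs : Srtd φ)
    (hz0 : -1 < z 0) (l : Fin 10) : -1 ≤ RR (z 0) (z l.succ) :=
  (gap_bounds hF hs (Fin.succ_pos l) hz0 (cell_gt hc hin l)).2.2

/-- two contacts and an admissible entry give the field of hops -/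
theorem hop_of_entry (hρ : 0 < ρ) {κ : ℝ} {l m M' m' M'' : ℕ} {a b : Fin 10} (hab : a < b)
    (hc : CellOK c) (hin : CellIn c z) (hF : Fe z φ) (hs : Srtd φ) (hz0 : -1 < z 0)
    (hM' : M' < 16777216) (hM'' : M'' < 16777216)
    (h1 : wd (z 0) (z a.succ) ≤ m * (π / 512)) (h2 : wd (z 0) (z b.succ) ≤ m' * (π / 512))
    (q1 : EBq (z 0) (z a.succ) (-κ) (-κ) (vU ρ (v a)) (vD ρ (v a)) ρ
      (hq ρ l M' (wd (z 0) (z a.succ))))
    (q2 : EBq (z 0) (z b.succ) (-κ) (-κ) (vU ρ (v b)) (vD ρ (v b)) ρ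
      (hq ρ l M'' (wd (z 0) (z b.succ))))
    (hH : HopI (Df c) (Rf M c v) a b (prA (TN m M') (TN m' M'') (LBf c a b))
      (prB l (TN m M') (TN m' M'') (LBf c a b))) :
    ∃ A B : ℕ, HopI (Df c) (Rf M c v) a b A B ∧ 2 ^ 22 ≤ B ∧
      wd (z 0) (z a.succ) + wd (z 0) (z b.succ) ≤ A * (π / 32768) ∧
      (2 ^ 23 + 2 ^ 22 + 2 ^ 21 ≤ B ∨ ∃ c1 c2 : ℝ,
        EBq (z 0) (z a.succ) (-κ) (-κ) (vU ρ (v a)) (vD ρ (v a)) ρ c1 ∧
        EBq (z 0) (z b.succ) (-κ) (-κ) (vU ρ (v b)) (vD ρ (v b)) ρ c2 ∧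
        c1 + c2 ≤ ((B : ℝ) - 2 ^ 23) * ρ) := by
  have hzall : ∀ k, -1 < z k := by
    intro k
    rcases Fin.eq_zero_or_eq_succ k with rfl | ⟨l, rfl⟩
    · exact hz0
    · exact cell_gt hc hin l
  have hgap := hop_gap hF hs hzall (m := a.succ) (l := b.succ) (Fin.succ_pos a)
    (Fin.succ_lt_succ_iff.2 hab)
  have hL := LBf_sound (gapOK_of hc hin hF hs) (i := a) (j := b) hab (by omega)
  rw [gF_eq, gF_eq] at hL
  obtain ⟨r1, r2⟩ := pr_real (l := l) (L := LBf c a b) hρ hM' hM'' (arccos_nonneg _)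
    (arccos_nonneg _) h1 h2 hgap hL
  refine ⟨_, _, hH, ?_, r1, ?_⟩
  · have := prB_ge l (TN m M') (TN m' M'') (LBf c a b)
    have e1 : (2 : ℕ) ^ 22 = 4194304 := by norm_num
    rw [e1]; exact this
  · rcases r2 with r2 | r2
    · left
      have e1 : (2 : ℕ) ^ 23 + 2 ^ 22 + 2 ^ 21 = 14680064 := by norm_num
      rw [e1]; exact r2
    · right
      exact ⟨_, _, q1, q2, r2⟩

/-- entries of touch numbers -/
lemma eC_parts {l : ℕ} {c t : ℕ → ℕ} {i j x y : ℕ} (h1 : t i = x + 1) (h2 : t j = y + 1) :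
    eC l c t i j % 1048576 = prA x y (LBf c i j) ∧
    eC l c t i j / 1048576 = prB l x y (LBf c i j) := by
  unfold eC
  rw [h1, h2]
  exact pr_parts _ _ _ _

lemma TS_pos {ok : ℕ → ℕ → Bool} {o t m : ℕ} (h : TS ok o t) (ho : o = m + 1) :
    ∃ M, M < 16777216 ∧ ok m M = true ∧ t = TN m M + 1 := by
  rcases h with ⟨h1, -⟩ | ⟨m', M, h1, h2, h3, h4⟩
  · omega
  · have : m' = m := by omega
    subst this
    exact ⟨M, h2, h3, h4⟩

lemma two24 {n : ℕ} (h : n < 1048576) : n < 2 ^ 24 := h.trans (by norm_num)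

/-- **the field of hops** -/
theorem hop_field (hρ : 0 < ρ) {κ t : ℝ} (hκ : κ = K * ρ) (hK : K < 1048576)
    (hc : CellOK c) (hin : CellIn c z) (hF : Fe z φ) (hs : Srtd φ) (ht : TiltOK k1 k2 z t)
    (hvw : ∀ l ≤ 9, VW (vU ρ (v l)) (vD ρ (v l)))
    (h : mainD k1 k2 K M (c 0) (c 1) (c 2) (c 3) (c 4) (c 5) (c 6) (c 7) (c 8) (c 9)
      (v 0) (v 1) (v 2) (v 3) (v 4) (v 5) (v 6) (v 7) (v 8) (v 9) D = true)
    {a b : Fin 10} (hab : a < b) (ha : RR (z 0) (z a.succ) ≤ 1) (hb : RR (z 0) (z b.succ) ≤ 1) :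
    ∃ A B : ℕ, HopI (Df c) (Rf M c v) a b A B ∧ 2 ^ 22 ≤ B ∧
      wd (z 0) (z a.succ) + wd (z 0) (z b.succ) ≤ A * (π / 32768) ∧
      (2 ^ 23 + 2 ^ 22 + 2 ^ 21 ≤ B ∨ ∃ c1 c2 : ℝ,
        EBq (z 0) (z a.succ) (-κ) (-κ) (vU ρ (v a)) (vD ρ (v a)) ρ c1 ∧
        EBq (z 0) (z b.succ) (-κ) (-κ) (vU ρ (v b)) (vD ρ (v b)) ρ c2 ∧
        c1 + c2 ≤ ((B : ℝ) - 2 ^ 23) * ρ) := by
  obtain ⟨hk, hku, -, h0⟩ := mainD_spec h
  obtain ⟨ht0, hz, ht1, ht2⟩ := ht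
  obtain ⟨htl, htsq⟩ := t_facts ht0 ht2 hk
  have hz0 : -1 < z 0 := by rw [hz]; exact (zs_mem ht0 htl).1
  have ha1 := RR_ge_neg_one hc hin hF hs hz0 a
  have hb1 := RR_ge_neg_one hc hin hF hs hz0 b
  have ka := hc a (by omega)
  have kb := hc b (by omega)
  have hab' : (a : ℕ) < b := hab
  have e12 : (10 : ℕ) = 9 + 1 := rfl
  obtain ⟨⟨D1, h1⟩, -⟩ := cls0_next h0
  obtain ⟨D2, h2⟩ := cls1_next h1
  rcases le_or_gt (-(1 / 2)) (z a.succ) with sa | sa <;>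
    rcases le_or_gt (-(1 / 2)) (z b.succ) with sb | sb
  · -- two shallow contacts
    obtain ⟨m, hm, wm⟩ := osh_sound ht0 ht1 ht2 hk ka.2 (hin a) sa (by rw [← hz]; exact ha)
    obtain ⟨m', hm', wm'⟩ := osh_sound ht0 ht1 ht2 hk kb.2 (hin b) sb (by rw [← hz]; exact hb)
    obtain ⟨l, hl, t', hts, htst⟩ := cls0_spec h0 hab' (by omega)
      (by show osh k1 k2 (c a) ≠ 0; omega) (by show osh k1 k2 (c b) ≠ 0; omega)
    obtain ⟨Ma, hMa, oka, ta⟩ := TS_pos (hts a (by omega)) hm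
    obtain ⟨Mb, hMb, okb, tb⟩ := TS_pos (hts b (by omega)) hm'
    have hI := (tst_sound hc htst).2.hopI (m := a) (l := b) (by omega)
    simp only [(eC_parts ta tb).1, (eC_parts ta tb).2] at hI
    rw [← hz] at wm wm'
    refine hop_of_entry hρ hab hc hin hF hs hz0 hMa hMb wm wm' ?_ ?_ hI
    · rw [hz]
      exact okS_sound hρ hκ ht0 ht1 ht2 hk (two24 hK) hku (two24 hl) ka.2 (hvw a (by omega)) hm oka
        (hin a) sa (by rw [← hz]; exact ha1) (by rw [← hz]; exact ha)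
    · rw [hz]
      exact okS_sound hρ hκ ht0 ht1 ht2 hk (two24 hK) hku (two24 hl) kb.2 (hvw b (by omega)) hm' okb
        (hin b) sb (by rw [← hz]; exact hb1) (by rw [← hz]; exact hb)
  · -- shallow and deep
    obtain ⟨m, hm, wm⟩ := osh_sound ht0 ht1 ht2 hk ka.2 (hin a) sa (by rw [← hz]; exact ha)
    obtain ⟨m', hm', wm'⟩ := odp_sound ht1 htl (hin b) sb (by rw [← hz]; exact hb)
    obtain ⟨l, hl, s, d, hts, htd, htst⟩ := cls1_spec h1 hab'.ne (by omega) (by omega)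
      (by show osh k1 k2 (c a) ≠ 0; omega) (by show odp k1 (c b) ≠ 0; omega)
    obtain ⟨Ma, hMa, oka, ta⟩ := TS_pos (hts a (by omega)) hm
    obtain ⟨Mb, hMb, okb, tb⟩ := TS_pos (htd b (by omega)) hm'
    have hI := (tsm_sound hc htst).2.hopI (m := a) (l := b) (by omega)
    have hge := (comb_ge (pr_ok l (s a) (d b) (LBf c a b)) (pr_ok l (d a) (s b) (LBf c a b))).1
    have hI' := hI.mono hge.1 hge.2
    rw [ta, tb] at hI'
    simp only [(pr_parts l (TN m Ma) (TN m' Mb) (LBf c a b)).1,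
      (pr_parts l (TN m Ma) (TN m' Mb) (LBf c a b)).2] at hI'
    rw [← hz] at wm wm'
    refine hop_of_entry hρ hab hc hin hF hs hz0 hMa hMb wm wm' ?_ ?_ hI'
    · rw [hz]
      exact okS_sound hρ hκ ht0 ht1 ht2 hk (two24 hK) hku (two24 hl) ka.2 (hvw a (by omega)) hm oka
        (hin a) sa (by rw [← hz]; exact ha1) (by rw [← hz]; exact ha)
    · rw [hz]
      exact okD_sound hρ hκ ht0 ht1 ht2 hk (two24 hK) hku (two24 hl) hm' okb
        (hin b) sb (by rw [← hz]; exact hb1) (by rw [← hz]; exact hb)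
  · -- deep and shallow
    obtain ⟨m, hm, wm⟩ := odp_sound ht1 htl (hin a) sa (by rw [← hz]; exact ha)
    obtain ⟨m', hm', wm'⟩ := osh_sound ht0 ht1 ht2 hk kb.2 (hin b) sb (by rw [← hz]; exact hb)
    obtain ⟨l, hl, s, d, hts, htd, htst⟩ := cls1_spec h1 hab'.ne' (by omega) (by omega)
      (by show osh k1 k2 (c b) ≠ 0; omega) (by show odp k1 (c a) ≠ 0; omega)
    obtain ⟨Ma, hMa, oka, ta⟩ := TS_pos (htd a (by omega)) hm
    obtain ⟨Mb, hMb, okb, tb⟩ := TS_pos (hts b (by omega)) hm'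
    have hI := (tsm_sound hc htst).2.hopI (m := a) (l := b) (by omega)
    have hge := (comb_ge (pr_ok l (s a) (d b) (LBf c a b)) (pr_ok l (d a) (s b) (LBf c a b))).2
    have hI' := hI.mono hge.1 hge.2
    rw [ta, tb] at hI'
    simp only [(pr_parts l (TN m Ma) (TN m' Mb) (LBf c a b)).1,
      (pr_parts l (TN m Ma) (TN m' Mb) (LBf c a b)).2] at hI'
    rw [← hz] at wm wm'
    refine hop_of_entry hρ hab hc hin hF hs hz0 hMa hMb wm wm' ?_ ?_ hI'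
    · rw [hz]
      exact okD_sound hρ hκ ht0 ht1 ht2 hk (two24 hK) hku (two24 hl) hm oka
        (hin a) sa (by rw [← hz]; exact ha1) (by rw [← hz]; exact ha)
    · rw [hz]
      exact okS_sound hρ hκ ht0 ht1 ht2 hk (two24 hK) hku (two24 hl) kb.2 (hvw b (by omega)) hm' okb
        (hin b) sb (by rw [← hz]; exact hb1) (by rw [← hz]; exact hb)
  · -- two deep contacts
    obtain ⟨m, hm, wm⟩ := odp_sound ht1 htl (hin a) sa (by rw [← hz]; exact ha)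
    obtain ⟨m', hm', wm'⟩ := odp_sound ht1 htl (hin b) sb (by rw [← hz]; exact hb)
    obtain ⟨l, hl, t', hts, htst⟩ := cls2_spec h2 hab' (by omega)
      (by show odp k1 (c a) ≠ 0; omega) (by show odp k1 (c b) ≠ 0; omega)
    obtain ⟨Ma, hMa, oka, ta⟩ := TS_pos (hts a (by omega)) hm
    obtain ⟨Mb, hMb, okb, tb⟩ := TS_pos (hts b (by omega)) hm'
    have hI := (tst_sound hc htst).2.hopI (m := a) (l := b) (by omega)
    simp only [(eC_parts ta tb).1, (eC_parts ta tb).2] at hI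
    rw [← hz] at wm wm'
    refine hop_of_entry hρ hab hc hin hF hs hz0 hMa hMb wm wm' ?_ ?_ hI
    · rw [hz]
      exact okD_sound hρ hκ ht0 ht1 ht2 hk (two24 hK) hku (two24 hl) hm oka
        (hin a) sa (by rw [← hz]; exact ha1) (by rw [← hz]; exact ha)
    · rw [hz]
      exact okD_sound hρ hκ ht0 ht1 ht2 hk (two24 hK) hku (two24 hl) hm' okb
        (hin b) sb (by rw [← hz]; exact hb1) (by rw [← hz]; exact hb)

/-- **the field of walks** -/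
theorem walks_field (hc : CellOK c)
    (h : mainD k1 k2 K M (c 0) (c 1) (c 2) (c 3) (c 4) (c 5) (c 6) (c 7) (c 8) (c 9)
      (v 0) (v 1) (v 2) (v 3) (v 4) (v 5) (v 6) (v 7) (v 8) (v 9) D = true) :
    IncOK 10 (Df c) (Rf M c v) (Df c) (Rf M c v) := by
  obtain ⟨-, -, -, h0⟩ := mainD_spec h
  obtain ⟨-, l, t, h1⟩ := cls0_next h0
  exact (tst_sound hc h1).1

/-- **the field of self contacts** -/
theorem self_field (hρ : 0 < ρ) {κ t : ℝ} (hκ : κ = K * ρ) (hK : K < 1048576)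
    (hc : CellOK c) (hin : CellIn c z) (hF : Fe z φ) (hs : Srtd φ) (ht : TiltOK k1 k2 z t)
    (h : mainD k1 k2 K M (c 0) (c 1) (c 2) (c 3) (c 4) (c 5) (c 6) (c 7) (c 8) (c 9)
      (v 0) (v 1) (v 2) (v 3) (v 4) (v 5) (v 6) (v 7) (v 8) (v 9) D = true) (l : Fin 10)
    (hR : RR (z 0) (z l.succ) ≤ -1) :
    ∃ d < 0, EBq (z 0) (z l.succ) (-κ) (-κ) (vU ρ (v l)) (vD ρ (v l)) ρ d := by
  obtain ⟨hk, hku, hsl, -⟩ := mainD_spec h
  obtain ⟨ht0, hz, ht1, ht2⟩ := ht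
  obtain ⟨htl, htsq⟩ := t_facts ht0 ht2 hk
  have hz0 : -1 < z 0 := by rw [hz]; exact (zs_mem ht0 htl).1
  have h1 := RR_ge_neg_one hc hin hF hs hz0 l
  rw [hz] at hR h1 ⊢
  exact slf_sound hρ hκ ht0 ht1 ht2 hk (two24 hK) hku (hc l (by omega)).2 (hsl l (by omega)) (hin l)
    h1 hR

end

end Pool.Agent.Helper98.DL
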