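import Pool.Agent.Helper98.DL.DS6

set_option autoImplicit false

/-! # Direction leaves: reading the box and the payload -/

namespace Pool.Agent.Helper98.DL

open Real Pool.Agent.Helper98.KT Pool.Agent.Helper65.KR Pool.Agent.Helper66.Kiss
  Pool.Agent.Helper66.Kiss.Pk

/-- meaning of a node number read for the field `g` -/
def NS (g n : ℕ) : Prop := ∃ c P w, cellC g = c + 1 ∧ P < 65536 ∧ ty c P w ≤ 3 ∧
  n = c + (262144 * P + 17179869184 * (P + w))

lemma ndE_spec {c P w D : ℕ} {k : ℕ → ℕ → ℕ} {X : ℕ} (h : ndE c P w D k = X + 1) :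
    ty c P w ≤ 3 ∧ k (c + (262144 * P + 17179869184 * (P + w))) D = X + 1 := by
  unfold ndE at h
  cases hb : Nat.ble (ty c P w) 3 with
  | false =>
    rw [hb, cb_false] at h
    exact absurd h (Nat.succ_ne_zero X).symm
  | true =>
    rw [hb, cb_true, fz_pr] at h
    exact ⟨Nat.le_of_ble_eq_true hb, h⟩

lemma ndS_spec {tv g D : ℕ} {k : ℕ → ℕ → ℕ} {X : ℕ} (h : ndS tv g D k = X + 1) :
    ∃ n D', NS g n ∧ k n D' = X + 1 := by
  unfold ndS at h
  cases hg : cellC g with
  | zero =>
    rw [hg, nb_zero] at h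
    exact absurd h (Nat.succ_ne_zero X).symm
  | succ c =>
    rw [hg, nb_succ, fz_pr, fz_pr] at h
    have hP : Nat.mod D 65536 < 65536 := Nat.mod_lt _ (by norm_num)
    cases tv with
    | zero =>
      rw [nb_zero] at h
      obtain ⟨h1, h2⟩ := ndE_spec h
      exact ⟨_, _, ⟨c, _, _, hg, hP, h1, rfl⟩, h2⟩
    | succ m =>
      rw [nb_succ] at h
      cases hx : crs c with
      | zero =>
        rw [hx, nb_zero] at h
        obtain ⟨h1, h2⟩ := ndE_spec h
        exact ⟨_, _, ⟨c, _, _, hg, hP, h1, rfl⟩, h2⟩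
      | succ x =>
        rw [hx, nb_succ] at h
        cases x with
        | zero =>
          rw [nb_zero, fz_pr, fz_pr] at h
          obtain ⟨h1, h2⟩ := ndE_spec h
          exact ⟨_, _, ⟨c, _, _, hg, hP, h1, rfl⟩, h2⟩
        | succ y =>
          rw [nb_succ] at h
          obtain ⟨h1, h2⟩ := ndE_spec h
          exact ⟨_, _, ⟨c, _, _, hg, hP, h1, rfl⟩, h2⟩

/-- the cell of a field -/
lemma cellC_spec {g c : ℕ} {x : ℝ} (h : cellC g = c + 1)
    (h1 : ((g % 65536 : ℕ) : ℝ) / 4096 - 1 ≤ x) (h2 : x ≤ ((g / 65536 : ℕ) : ℝ) / 4096 - 1) :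
    (lo c ≤ hi c ∧ hi c ≤ 304) ∧ InC c x ∧ c < 262144 := by
  have hab : g % 65536 ≤ g / 65536 := by
    have : ((g % 65536 : ℕ) : ℝ) ≤ ((g / 65536 : ℕ) : ℝ) := by linarith
    exact_mod_cast this
  unfold cellC at h
  rw [fz_pr, fz_pr] at h
  change cb (Nat.ble 1280 (g % 65536)) (cb (Nat.ble (g / 65536) 6144)
    (Nat.succ (Nat.add (Nat.div (Nat.sub (g % 65536) 1280) 16)
      (Nat.mul 512 (Nat.div (Nat.sub (g / 65536) 1265) 16)))) 0) 0 = c + 1 at h
  generalize g % 65536 = a at h h1 hab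
  generalize g / 65536 = b at h h2 hab
  cases hb1 : Nat.ble 1280 a with
  | false =>
    rw [hb1, cb_false] at h
    exact absurd h (Nat.succ_ne_zero c).symm
  | true =>
    rw [hb1, cb_true] at h
    cases hb2 : Nat.ble b 6144 with
    | false =>
      rw [hb2, cb_false] at h
      exact absurd h (Nat.succ_ne_zero c).symm
    | true =>
      rw [hb2, cb_true] at h
      have k1 : 1280 ≤ a := Nat.le_of_ble_eq_true hb1
      have k2 : b ≤ 6144 := Nat.le_of_ble_eq_true hb2
      clear hb1 hb2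
      have hc : (a - 1280) / 16 + 512 * ((b - 1265) / 16) = c := Nat.succ.inj h
      clear h
      have e1 : lo c = (a - 1280) / 16 := by
        show c % 512 = _
        rw [← hc]; omega
      have e2 : hi c = (b - 1265) / 16 := by
        show c / 512 = _
        rw [← hc]; omega
      refine ⟨⟨by rw [e1, e2]; omega, by rw [e2]; omega⟩, ?_, by rw [← hc]; omega⟩
      rw [InC_iff, e1, e2]
      constructor
      · have k3 : (a - 1280) / 16 * 16 + 1280 ≤ a := by omega
        have k4 : (((a - 1280) / 16 : ℕ) : ℝ) * 16 + 1280 ≤ a := by exact_mod_cast k3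
        unfold zz
        linarith
      · have k3 : b ≤ (b - 1265) / 16 * 16 + 1280 := by omega
        have k4 : (b : ℝ) ≤ (((b - 1265) / 16 : ℕ) : ℝ) * 16 + 1280 := by exact_mod_cast k3
        unfold zz
        linarith

/-- what a node number gives -/
lemma NS_spec {g n : ℕ} {x ρ : ℝ} (hρ : 0 < ρ) (h : NS g n)
    (h1 : ((g % 65536 : ℕ) : ℝ) / 4096 - 1 ≤ x) (h2 : x ≤ ((g / 65536 : ℕ) : ℝ) / 4096 - 1) :
    (lo (ndc n) ≤ hi (ndc n) ∧ hi (ndc n) ≤ 304) ∧ InC (ndc n) x ∧
    vU ρ (ndv n) = vel ρ (ndp n) ∧ vD ρ (ndv n) = vel ρ (ndq n) ∧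
    VW (vU ρ (ndv n)) (vD ρ (ndv n)) ∧ n < 18446744073709551616 := by
  obtain ⟨c, P, w, hc, hP, hty, rfl⟩ := h
  obtain ⟨h3, h4, h5⟩ := cellC_spec hc h1 h2
  have hPw : P + w ≤ 65535 := by
    rcases ty_cases c P w with ⟨-, h6, -⟩ | ⟨-, h6, -⟩ | ⟨-, h6, -⟩ | ⟨-, -, -, h6, -⟩ | h6
    · omega
    · omega
    · omega
    · exact h6
    · omega
  have e1 : ndc (c + (262144 * P + 17179869184 * (P + w))) = c := by
    show (c + (262144 * P + 17179869184 * (P + w))) % 262144 = c
    omega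
  have e2 : ndp (c + (262144 * P + 17179869184 * (P + w))) = P := by
    show (c + (262144 * P + 17179869184 * (P + w))) / 262144 % 65536 = P
    omega
  have e3 : ndq (c + (262144 * P + 17179869184 * (P + w))) = P + w := by
    show (c + (262144 * P + 17179869184 * (P + w))) / 17179869184 = P + w
    omega
  have e4 : ndv (c + (262144 * P + 17179869184 * (P + w))) = P + 65536 * w := by
    show ndp _ + 65536 * (ndq _ - ndp _) = _
    rw [e2, e3]
    omega
  have e5 : vP (P + 65536 * w) = P := by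
    show (P + 65536 * w) % 65536 = P
    omega
  have e6 : vW (P + 65536 * w) = w := by
    show (P + 65536 * w) / 65536 = w
    omega
  rw [e1, e2, e3, e4]
  refine ⟨h3, h4, ?_, ?_, ?_, by omega⟩
  · unfold vU
    rw [e5]
  · unfold vD
    rw [e5, e6]
  · unfold vU vD
    rw [e5, e6]
    exact ty_vw hρ (c := c) (by omega)

/-! ### the list of the nodes -/

lemma digit {n Y Y' : ℕ} (h : Y = n + 18446744073709551616 * Y') (hn : n < 18446744073709551616) :
    Y / 18446744073709551616 = Y' ∧ Y % 18446744073709551616 = n := by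
  subst h
  constructor <;> omega

lemma div_step (X i : ℕ) : X / 2 ^ (64 * (i + 1)) = X / 2 ^ (64 * i) / 18446744073709551616 := by
  rw [Nat.div_div_eq_div_mul, mul_add, pow_add]
  norm_num

lemma digits10 {X E n0 n1 n2 n3 n4 n5 n6 n7 n8 n9 : ℕ}
    (h : X = n0 + 18446744073709551616 * (n1 + 18446744073709551616 * (n2 + 18446744073709551616 * (n3 + 18446744073709551616 * (n4 + 18446744073709551616 * (n5 + 18446744073709551616 * (n6 + 18446744073709551616 * (n7 + 18446744073709551616 * (n8 + 18446744073709551616 * (n9 + 18446744073709551616 * E))))))))))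
    (h0 : n0 < 18446744073709551616)
    (h1 : n1 < 18446744073709551616)
    (h2 : n2 < 18446744073709551616)
    (h3 : n3 < 18446744073709551616)
    (h4 : n4 < 18446744073709551616)
    (h5 : n5 < 18446744073709551616)
    (h6 : n6 < 18446744073709551616)
    (h7 : n7 < 18446744073709551616)
    (h8 : n8 < 18446744073709551616)
    (h9 : n9 < 18446744073709551616) :
    ∀ i ≤ 9, X / 2 ^ (64 * i) % 18446744073709551616 = v10 n0 n1 n2 n3 n4 n5 n6 n7 n8 n9 i := by
  obtain ⟨a1, b0⟩ := digit h h0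
  obtain ⟨a2, b1⟩ := digit (Y := (n1 + 18446744073709551616 * (n2 + 18446744073709551616 * (n3 + 18446744073709551616 * (n4 + 18446744073709551616 * (n5 + 18446744073709551616 * (n6 + 18446744073709551616 * (n7 + 18446744073709551616 * (n8 + 18446744073709551616 * (n9 + 18446744073709551616 * E)))))))))) rfl h1
  obtain ⟨a3, b2⟩ := digit (Y := (n2 + 18446744073709551616 * (n3 + 18446744073709551616 * (n4 + 18446744073709551616 * (n5 + 18446744073709551616 * (n6 + 18446744073709551616 * (n7 + 18446744073709551616 * (n8 + 18446744073709551616 * (n9 + 18446744073709551616 * E))))))))) rfl h2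
  obtain ⟨a4, b3⟩ := digit (Y := (n3 + 18446744073709551616 * (n4 + 18446744073709551616 * (n5 + 18446744073709551616 * (n6 + 18446744073709551616 * (n7 + 18446744073709551616 * (n8 + 18446744073709551616 * (n9 + 18446744073709551616 * E)))))))) rfl h3
  obtain ⟨a5, b4⟩ := digit (Y := (n4 + 18446744073709551616 * (n5 + 18446744073709551616 * (n6 + 18446744073709551616 * (n7 + 18446744073709551616 * (n8 + 18446744073709551616 * (n9 + 18446744073709551616 * E))))))) rfl h4
  obtain ⟨a6, b5⟩ := digit (Y := (n5 + 18446744073709551616 * (n6 + 18446744073709551616 * (n7 + 18446744073709551616 * (n8 + 18446744073709551616 * (n9 + 18446744073709551616 * E)))))) rfl h5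
  obtain ⟨a7, b6⟩ := digit (Y := (n6 + 18446744073709551616 * (n7 + 18446744073709551616 * (n8 + 18446744073709551616 * (n9 + 18446744073709551616 * E))))) rfl h6
  obtain ⟨a8, b7⟩ := digit (Y := (n7 + 18446744073709551616 * (n8 + 18446744073709551616 * (n9 + 18446744073709551616 * E)))) rfl h7
  obtain ⟨a9, b8⟩ := digit (Y := (n8 + 18446744073709551616 * (n9 + 18446744073709551616 * E))) rfl h8
  obtain ⟨a10, b9⟩ := digit (Y := (n9 + 18446744073709551616 * E)) rfl h9
  have d0 : X / 2 ^ (64 * 0) = X := by simp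
  have d1 : X / 2 ^ (64 * 1) = (n1 + 18446744073709551616 * (n2 + 18446744073709551616 * (n3 + 18446744073709551616 * (n4 + 18446744073709551616 * (n5 + 18446744073709551616 * (n6 + 18446744073709551616 * (n7 + 18446744073709551616 * (n8 + 18446744073709551616 * (n9 + 18446744073709551616 * E))))))))) := by
    rw [div_step X 0, d0, a1]
  have d2 : X / 2 ^ (64 * 2) = (n2 + 18446744073709551616 * (n3 + 18446744073709551616 * (n4 + 18446744073709551616 * (n5 + 18446744073709551616 * (n6 + 18446744073709551616 * (n7 + 18446744073709551616 * (n8 + 18446744073709551616 * (n9 + 18446744073709551616 * E)))))))) := by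
    rw [div_step X 1, d1, a2]
  have d3 : X / 2 ^ (64 * 3) = (n3 + 18446744073709551616 * (n4 + 18446744073709551616 * (n5 + 18446744073709551616 * (n6 + 18446744073709551616 * (n7 + 18446744073709551616 * (n8 + 18446744073709551616 * (n9 + 18446744073709551616 * E))))))) := by
    rw [div_step X 2, d2, a3]
  have d4 : X / 2 ^ (64 * 4) = (n4 + 18446744073709551616 * (n5 + 18446744073709551616 * (n6 + 18446744073709551616 * (n7 + 18446744073709551616 * (n8 + 18446744073709551616 * (n9 + 18446744073709551616 * E)))))) := by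
    rw [div_step X 3, d3, a4]
  have d5 : X / 2 ^ (64 * 5) = (n5 + 18446744073709551616 * (n6 + 18446744073709551616 * (n7 + 18446744073709551616 * (n8 + 18446744073709551616 * (n9 + 18446744073709551616 * E))))) := by
    rw [div_step X 4, d4, a5]
  have d6 : X / 2 ^ (64 * 6) = (n6 + 18446744073709551616 * (n7 + 18446744073709551616 * (n8 + 18446744073709551616 * (n9 + 18446744073709551616 * E)))) := by
    rw [div_step X 5, d5, a6]
  have d7 : X / 2 ^ (64 * 7) = (n7 + 18446744073709551616 * (n8 + 18446744073709551616 * (n9 + 18446744073709551616 * E))) := by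
    rw [div_step X 6, d6, a7]
  have d8 : X / 2 ^ (64 * 8) = (n8 + 18446744073709551616 * (n9 + 18446744073709551616 * E)) := by
    rw [div_step X 7, d7, a8]
  have d9 : X / 2 ^ (64 * 9) = (n9 + 18446744073709551616 * E) := by
    rw [div_step X 8, d8, a9]
  intro i hi
  interval_cases i
  · rw [d0]; exact b0
  · rw [d1]; exact b1
  · rw [d2]; exact b2
  · rw [d3]; exact b3
  · rw [d4]; exact b4
  · rw [d5]; exact b5
  · rw [d6]; exact b6
  · rw [d7]; exact b7
  · rw [d8]; exact b8
  · rw [d9]; exact b9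

lemma rdN_spec {tv L D X : ℕ} (h : rdN tv L D = X + 1)
    (hn : ∀ l ≤ 9, ∀ n, NS (fdK L (l + 2)) n → n < 18446744073709551616) :
    ∀ l ≤ 9, NS (fdK L (l + 2)) (X / 2 ^ (64 * l) % 18446744073709551616) := by
  unfold rdN at h
  rw [fz_pr] at h
  obtain ⟨n0, D0, e0, h⟩ := ndS_spec h
  rw [fz_pr] at h
  obtain ⟨n1, D1, e1, h⟩ := ndS_spec h
  rw [fz_pr] at h
  obtain ⟨n2, D2, e2, h⟩ := ndS_spec h
  rw [fz_pr] at h
  obtain ⟨n3, D3, e3, h⟩ := ndS_spec h
  rw [fz_pr] at h
  obtain ⟨n4, D4, e4, h⟩ := ndS_spec h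
  rw [fz_pr] at h
  obtain ⟨n5, D5, e5, h⟩ := ndS_spec h
  rw [fz_pr] at h
  obtain ⟨n6, D6, e6, h⟩ := ndS_spec h
  rw [fz_pr] at h
  obtain ⟨n7, D7, e7, h⟩ := ndS_spec h
  rw [fz_pr] at h
  obtain ⟨n8, D8, e8, h⟩ := ndS_spec h
  rw [fz_pr] at h
  obtain ⟨n9, D9, e9, h⟩ := ndS_spec h
  have hX : X = n0 + 18446744073709551616 * (n1 + 18446744073709551616 * (n2 + 18446744073709551616 * (n3 + 18446744073709551616 * (n4 + 18446744073709551616 * (n5 + 18446744073709551616 * (n6 + 18446744073709551616 * (n7 + 18446744073709551616 * (n8 + 18446744073709551616 * (n9 + 18446744073709551616 * D9))))))))) := by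
    have h' : n0 + 18446744073709551616 * (n1 + 18446744073709551616 * (n2 + 18446744073709551616 * (n3 + 18446744073709551616 * (n4 + 18446744073709551616 * (n5 + 18446744073709551616 * (n6 + 18446744073709551616 * (n7 + 18446744073709551616 * (n8 + 18446744073709551616 * n9)))))))) + 2 ^ 640 * D9 = X := Nat.succ.inj h
    have e640 : (2 : ℕ) ^ 640 = 18446744073709551616 ^ 10 := by
      rw [show (18446744073709551616 : ℕ) = 2 ^ 64 by norm_num, ← pow_mul]
    rw [← h', e640]
    ring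
  have key := digits10 hX (hn 0 (by norm_num) _ e0) (hn 1 (by norm_num) _ e1) (hn 2 (by norm_num) _ e2) (hn 3 (by norm_num) _ e3) (hn 4 (by norm_num) _ e4) (hn 5 (by norm_num) _ e5) (hn 6 (by norm_num) _ e6) (hn 7 (by norm_num) _ e7) (hn 8 (by norm_num) _ e8) (hn 9 (by norm_num) _ e9)
  intro l hl
  rw [key l hl]
  revert l
  exact v10_all e0 e1 e2 e3 e4 e5 e6 e7 e8 e9

/-! ### the whole leaf -/

/-- the box -/
structure BoxIn (L : ℕ) (z : Fin 11 → ℝ) : Prop where
  lo : ∀ l : Fin 10, ((fdK L (l + 2) % 65536 : ℕ) : ℝ) / 4096 - 1 ≤ z l.succ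
  hi : ∀ l : Fin 10, z l.succ ≤ ((fdK L (l + 2) / 65536 : ℕ) : ℝ) / 4096 - 1

/-- cells of the leaf -/
noncomputable def cL (L D r l : ℕ) : ℕ := ndc (nd L D r l)

/-- velocity codes of the leaf -/
noncomputable def vL (L D r l : ℕ) : ℕ := ndv (nd L D r l)

theorem dleaf_spec {L D r : ℕ} {z : Fin 11 → ℝ} {ρ : ℝ} (hρ : 0 < ρ) (hB : BoxIn L z)
    (h : dleaf L D r = true) :
    CellOK (cL L D r) ∧ CellIn (cL L D r) z ∧
    (∀ l ≤ 9, vU ρ (vL L D r l) = vel ρ (ndp (nd L D r l)) ∧
      vD ρ (vL L D r l) = vel ρ (ndq (nd L D r l)) ∧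
      VW (vU ρ (vL L D r l)) (vD ρ (vL L D r l))) ∧
    ∃ D', mainD (bk1 L) (bk2 L) (pK D) (Nat.mod D 35184372088832)
      (cL L D r 0) (cL L D r 1) (cL L D r 2) (cL L D r 3) (cL L D r 4) (cL L D r 5) (cL L D r 6) (cL L D r 7) (cL L D r 8) (cL L D r 9)
      (vL L D r 0) (vL L D r 1) (vL L D r 2) (vL L D r 3) (vL L D r 4) (vL L D r 5) (vL L D r 6) (vL L D r 7) (vL L D r 8) (vL L D r 9) D' = true := by
  unfold dleaf at h
  cases hA : ndA L D r with
  | zero =>
    rw [hA, nb_zero] at h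
    exact absurd h (by simp)
  | succ X =>
    rw [hA, nb_succ] at h
    rw [fz_pr, fz_pr, fz_pr, fz_pr, fz_pr, fz_pr, fz_pr, fz_pr, fz_pr, fz_pr, fz_pr, fz_pr, fz_pr, fz_pr, fz_pr] at h
    unfold rdM at h
    rw [fz_pr, fz_pr, fz_pr, fz_pr, fz_pr, fz_pr, fz_pr, fz_pr, fz_pr, fz_pr, fz_pr, fz_pr, fz_pr, fz_pr, fz_pr, fz_pr, fz_pr, fz_pr, fz_pr, fz_pr] at h
    have hnd : ∀ l, nd L D r l = X / 2 ^ (64 * l) % 18446744073709551616 := by
      intro l
      unfold nd
      rw [hA]
      rfl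
    have hA' : rdN (tvM r (bk1 L) (pK D)) L (Nat.div D (Nat.pow 2 65)) = X + 1 := by
      unfold ndA at hA
      rw [fz_pr, fz_pr] at hA
      exact hA
    have hns := rdN_spec hA' (fun l hl n hn => (NS_spec hρ hn (hB.lo ⟨l, by omega⟩)
      (hB.hi ⟨l, by omega⟩)).2.2.2.2.2)
    have hsp : ∀ l, (hl : l ≤ 9) → _ := fun l hl =>
      NS_spec hρ (hns l hl) (hB.lo ⟨l, by omega⟩) (hB.hi ⟨l, by omega⟩)
    refine ⟨fun l hl => ?_, fun l => ?_, fun l hl => ?_, _, h⟩
    · unfold cL
      rw [hnd]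
      exact (hsp l hl).1
    · unfold cL
      rw [hnd]
      exact (hsp l (by omega)).2.1
    · unfold vL
      rw [hnd]
      exact ⟨(hsp l hl).2.2.1, (hsp l hl).2.2.2.1, (hsp l hl).2.2.2.2.1⟩

end Pool.Agent.Helper98.DL
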