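import Pool.Agent.Helper98.DL.DS7
import Pool.Agent.Helper54.KA.RunS

set_option autoImplicit false

/-! # Direction leaves: boxes of the runner -/

namespace Pool.Agent.Helper98.DL

open Real Pool.Agent.Helper98.KT Pool.Agent.Helper54.KA

lemma zs_lt {a b : ℝ} (ha : 0 ≤ a) (hab : a < b) : zs a < zs b := by
  unfold zs
  rw [neg_lt_neg_iff, div_lt_div_iff₀ (by positivity) (by positivity)]
  nlinarith [mul_self_lt_mul_self ha hab]

lemma le_of_zs {a b : ℝ} (hb : 0 ≤ b) (h : zs a ≤ zs b) : a ≤ b := by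
  by_contra hcon
  push Not at hcon
  exact absurd (zs_lt hb hcon) (not_lt.2 h)

lemma hgt_zs (k : ℕ) : hgt (32768 + k) = zs ((k : ℝ) / 4096) := by
  rw [hgt_S]
  unfold zs
  ring

lemma fdK_eq (L k : ℕ) : fdK L k = fd L k := rfl

/-- **the box of the runner is the box of the leaf** -/
theorem box_bridge {L : ℕ} {z : ℕ → ℝ} {Z : Fin 11 → ℝ} (h : InB L z)
    (hz : ∀ k : Fin 11, z k = Z k) :
    BoxIn L Z ∧ (-1 < Z 0 → ∃ t, TiltOK (bk1 L) (bk2 L) Z t) := by
  constructor
  · have key : ∀ l : Fin 10, ((fdK L (l + 2) % 65536 : ℕ) : ℝ) / 4096 - 1 ≤ Z l.succ ∧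
        Z l.succ ≤ ((fdK L (l + 2) / 65536 : ℕ) : ℝ) / 4096 - 1 := by
      intro l
      have h1 := h ((l : ℕ) + 1) (by omega)
      have e : z ((l : ℕ) + 1) = Z l.succ := by
        rw [← hz]
        rfl
      rw [e] at h1
      rw [fdK_eq]
      have e2 : (l : ℕ) + 1 + 1 = l + 2 := by ring
      rw [e2] at h1
      obtain ⟨hk, -, hlo, hhi⟩ := h1
      rcases hk with ⟨-, c1, c2⟩ | ⟨h0, -⟩
      · rw [hgt_C c1] at hlo
        rw [hgt_C c2] at hhi
        exact ⟨hlo, hhi⟩
      · omega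
    exact ⟨fun l => (key l).1, fun l => (key l).2⟩
  · intro hZ
    have h1 := h 0 (by norm_num)
    have e : z 0 = Z 0 := hz 0
    rw [e] at h1
    obtain ⟨hk, -, hlo, hhi⟩ := h1
    rcases hk with ⟨h0, -⟩ | ⟨-, c1, c2⟩
    · exact absurd rfl h0
    · obtain ⟨a, ha, ha'⟩ := isS0_form c1
      obtain ⟨b, hb, hb'⟩ := isS0_form c2
      rw [← fdK_eq] at ha hb
      have eb1 : bk1 L = a := by
        have e1 : Nat.mod (fdK L 1) 65536 = 32768 + a := ha
        unfold bk1
        rw [e1]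
        exact Nat.add_sub_cancel_left 32768 a
      have eb2 : bk2 L = b := by
        have e1 : Nat.div (fdK L 1) 65536 = 32768 + b := hb
        unfold bk2
        rw [e1]
        exact Nat.add_sub_cancel_left 32768 b
      rw [fdK_eq] at ha hb
      rw [ha, hgt_zs] at hlo
      rw [hb, hgt_zs] at hhi
      rw [eb1, eb2]
      clear eb1 eb2 ha hb c1 c2
      have hb1 : (b : ℝ) ≤ 1023 := by exact_mod_cast hb'
      have hb0 : (0 : ℝ) ≤ (b : ℝ) / 4096 := by positivity
      have hneg : Z 0 < 0 := by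
        refine lt_of_le_of_lt hhi ?_
        have h2 : (b : ℝ) / 4096 < 1 := by rw [div_lt_one (by norm_num)]; linarith
        unfold zs
        rw [neg_lt_zero]
        have h3 : 0 < 1 - ((b : ℝ) / 4096) ^ 2 := by nlinarith
        positivity
      obtain ⟨t, ht0, ht1, hzt, -⟩ := exists_t hZ hneg
      refine ⟨t, ht0, hzt.symm, ?_, ?_⟩
      · exact le_of_zs ht0.le (by rw [hzt]; exact hlo)
      · exact le_of_zs hb0 (by rw [hzt]; exact hhi)

end Pool.Agent.Helper98.DL
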