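import Pool.Agent.Helper98.DL.DS8
import Pool.Agent.Helper66.Kiss.LeafK

set_option autoImplicit false

/-! # Direction leaves: the leaf structure -/

namespace Pool.Agent.Helper98.DL

open Real Pool.Agent.Helper98.KT Pool.Agent.Helper65.KR Pool.Agent.Helper66.Kiss
  Pool.Agent.Helper66.Kiss.Pk Pool.Agent.Helper54.KA

/-- velocities above of the leaf -/
noncomputable def lV (ρ : ℝ) (L D r : ℕ) (l : Fin 10) : ℝ := vel ρ (ndp (nd L D r l))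

/-- velocities below of the leaf -/
noncomputable def lW (ρ : ℝ) (L D r : ℕ) (l : Fin 10) : ℝ := vel ρ (ndq (nd L D r l))

/-- rates of the leaf -/
noncomputable def lR (L D r : ℕ) : ℕ → ℕ → ℕ :=
  Rf (Nat.mod D 35184372088832) (cL L D r) (vL L D r)

lemma pK_lt (D : ℕ) : pK D < 1048576 := Nat.mod_lt _ (by norm_num)

/-- **a direction leaf** in a box of the runner; the two fields of the exact pole are hypotheses -/
theorem leafK_of_dleaf {L D r : ℕ} {z : ℕ → ℝ} {Z φ : Fin 11 → ℝ} {ρ : ℝ} (hρ : 0 < ρ)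
    (hF : Fe Z φ) (hs : Srtd φ) (hB : InB L z) (hz : ∀ k : Fin 11, z k = Z k)
    (h : dleaf L D r = true)
    (touch : Z 0 = -1 →
      (0 < (pK D : ℝ) * ρ ∧ ∀ l : Fin 10, Z l.succ = -(1 / 2) →
        0 ≤ lV ρ L D r l ∧ lV ρ L D r l ≤ lW ρ L D r l ∧ 0 < lW ρ L D r l) ∨
      ((pK D : ℝ) * ρ = 0 ∧ ∀ l : Fin 10, Z l.succ = -(1 / 2) → 0 < lV ρ L D r l ∨
        (lV ρ L D r l = 0 ∧ lW ρ L D r l = 0)))
    (hopP : Z 0 = -1 → ∀ m l : Fin 10, m < l → Z m.succ = -(1 / 2) → Z l.succ = -(1 / 2) →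
      (∃ A B : ℕ, HopI (Df (cL L D r)) (lR L D r) m l A B ∧
        2 * π - (φ l.succ - φ m.succ) ≤ A * (π / 32768) ∧ 2 ^ 22 ≤ B) ∧
      (0 < lV ρ L D r m ∨ 0 < lV ρ L D r l ∨
        (∃ A B : ℕ, HopI (Df (cL L D r)) (lR L D r) m l A B ∧
          2 * π - (φ l.succ - φ m.succ) ≤ A * (π / 32768) ∧ 2 ^ 23 ≤ B) ∨
        (0 < (pK D : ℝ) * ρ ∧ ∀ θ, 0 < θ → θ ≤ π / 2 → 2 * θ ≤ 2 * π - (φ l.succ - φ m.succ) →
          ∃ A B : ℕ, HopI (Df (cL L D r)) (lR L D r) m l A B ∧ 2 * θ ≤ A * (π / 32768) ∧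
          -(2 * ((pK D : ℝ) * ρ) * cos θ) ≤ ((B : ℝ) - 2 ^ 23) * ρ * sin θ))) :
    LeafK Z φ (lV ρ L D r) (lW ρ L D r) ((pK D : ℝ) * ρ) ρ (Df (cL L D r)) (lR L D r) := by
  obtain ⟨hbox, htilt⟩ := box_bridge hB hz
  obtain ⟨hc, hin, hv, D', hm⟩ := dleaf_spec hρ hbox h
  have eV : ∀ l : Fin 10, vU ρ (vL L D r l) = lV ρ L D r l := fun l => (hv l (by omega)).1
  have eW : ∀ l : Fin 10, vD ρ (vL L D r l) = lW ρ L D r l := fun l => (hv l (by omega)).2.1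
  refine ⟨by positivity, hρ, fun l => ?_, cell_gt hc hin, fun l m _ => ?_, walks_field hc hm,
    fun hz0 m l hml h1 h2 => ?_, fun hz0 l hR => ?_, touch, hopP⟩
  · rw [← eV, ← eW]
    exact (hv l (by omega)).2.2
  · rw [← eV, ← eW, ← eV, ← eW]
    exact pair_field hρ hc hin hF l m
  · obtain ⟨t, ht⟩ := htilt hz0
    rw [← eV, ← eW, ← eV, ← eW]
    exact hop_field hρ rfl (pK_lt D) hc hin hF hs ht (fun l hl => (hv l hl).2.2) hm hml h1 h2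
  · obtain ⟨t, ht⟩ := htilt hz0
    rw [← eV, ← eW]
    exact self_field hρ rfl (pK_lt D) hc hin hF hs ht hm l hR

/-- **a direction leaf away from the pole** -/
theorem leafK_of_dleaf' {L D r : ℕ} {z : ℕ → ℝ} {Z φ : Fin 11 → ℝ} {ρ : ℝ} (hρ : 0 < ρ)
    (hF : Fe Z φ) (hs : Srtd φ) (hB : InB L z) (hz : ∀ k : Fin 11, z k = Z k) (hz0 : -1 < Z 0)
    (h : dleaf L D r = true) :
    LeafK Z φ (lV ρ L D r) (lW ρ L D r) ((pK D : ℝ) * ρ) ρ (Df (cL L D r)) (lR L D r) :=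
  leafK_of_dleaf hρ hF hs hB hz h (fun h => absurd h hz0.ne') (fun h => absurd h hz0.ne')

/-- the cells of the leaf contain the heights -/
theorem cells_of_dleaf {L D r : ℕ} {z : ℕ → ℝ} {Z : Fin 11 → ℝ} (hB : InB L z)
    (hz : ∀ k : Fin 11, z k = Z k) (h : dleaf L D r = true) :
    CellOK (cL L D r) ∧ CellIn (cL L D r) Z := by
  obtain ⟨hbox, -⟩ := box_bridge hB hz
  obtain ⟨hc, hin, -⟩ := dleaf_spec one_pos hbox h
  exact ⟨hc, hin⟩

end Pool.Agent.Helper98.DL
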