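import Pool.Agent.Helper98.DL.DTabD

set_option autoImplicit false

/-! # The table of least longitude differences: rows 244 to 304 -/

namespace Pool.Agent.Helper98.DL

lemma rows4 : ∀ i < 61, (fN (rowOf (Nat.add 244 i)) fun T => chkR (Nat.add 244 i) 305 0 T) = true := by
  decide +kernel

end Pool.Agent.Helper98.DL
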