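import Pool.Agent.Helper98.DL.DTab0
import Pool.Agent.Helper98.DL.DTab1
import Pool.Agent.Helper98.DL.DTab2
import Pool.Agent.Helper98.DL.DTab3
import Pool.Agent.Helper98.DL.DTab4

set_option autoImplicit false

/-! # The table of least longitude differences is correct -/

namespace Pool.Agent.Helper98.DL

open Real Pool.Agent.Helper98.KT Pool.Agent.Helper66.Kiss

lemma rows_all : ∀ i < 305, (fN (rowOf i) fun T => chkR i 305 0 T) = true := by
  intro i hi
  rcases lt_or_ge i 61 with h | h
  · have := rows0 i h
    rwa [Nat.add_eq, zero_add] at this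
  rcases lt_or_ge i 122 with h1 | h1
  · have := rows1 (i - 61) (by omega)
    rwa [Nat.add_eq, show 61 + (i - 61) = i by omega] at this
  rcases lt_or_ge i 183 with h2 | h2
  · have := rows2 (i - 122) (by omega)
    rwa [Nat.add_eq, show 122 + (i - 122) = i by omega] at this
  rcases lt_or_ge i 244 with h3 | h3
  · have := rows3 (i - 183) (by omega)
    rwa [Nat.add_eq, show 183 + (i - 183) = i by omega] at this
  · have := rows4 (i - 244) (by omega)
    rwa [Nat.add_eq, show 244 + (i - 244) = i by omega] at this

lemma ent_chk {i j : ℕ} (hi : i ≤ 304) (hj : j ≤ 304) : chk1 i j (ent16 (rowOf i) j) = true := by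
  have h := rows_all i (by omega)
  rw [fN_eq] at h
  have h1 := chkR_all i 305 0 _ h j (by omega)
  rw [zero_add] at h1
  exact h1

end Pool.Agent.Helper98.DL
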