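import Pool.Agent.Helper98.DL.CosU
import Pool.Agent.Helper98.DL.DT
import Pool.Agent.Helper66.Kiss.Basic

set_option autoImplicit false

/-! # The table of least longitude differences: the check -/

namespace Pool.Agent.Helper98.DL

open Real Pool.Agent.Helper98.KT Pool.Agent.Helper66.Kiss

/-- evaluate a number before using it -/
def fN {α : Type} (n : ℕ) (k : ℕ → α) : α :=
  @Nat.rec (fun _ => α) (k 0) (fun m _ => k (Nat.succ m)) n

lemma fN_eq {α : Type} (n : ℕ) (k : ℕ → α) : fN n k = k n := by
  cases n <;> rfl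

/-- check of an entry of the region of contacts -/
def chkE (e P R n : ℕ) : Bool :=
  fN (Nat.mul P R) fun PR => fN (Nat.mul (Nat.mul n n) (Nat.pow 2 160)) fun N =>
  fN (Nat.add (cuM e) (cuE e)) fun a => fN (cuP e) fun b =>
  fN (Nat.add (cuP (Nat.succ e)) (cuE (Nat.succ e))) fun c => fN (cuM (Nat.succ e)) fun d =>
  fN (Nat.sub b a) fun s => fN (Nat.sub c d) fun t =>
  Nat.ble e 15999 && Nat.ble d c && Nat.ble (Nat.mul (Nat.mul t t) PR) N &&
    (Nat.beq e 0 || (Nat.ble a b && Nat.ble N (Nat.mul (Nat.mul s s) PR)))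

/-- check of an entry -/
def chk1 (i j e : ℕ) : Bool :=
  match Nat.ble (Nat.add 18176 (Nat.add (Nat.mul i j) (Nat.mul 176 (Nat.add i j))))
      (Nat.add (Nat.mul i i) (Nat.mul j j)) with
  | true => Nat.beq e 0
  | false => chkE e (Nat.sub (Nat.add 34560 (Nat.mul 352 i)) (Nat.mul i i))
      (Nat.sub (Nat.add 34560 (Nat.mul 352 j)) (Nat.mul j j))
      (Nat.sub (Nat.add 1792 (Nat.mul 176 (Nat.add i j))) (Nat.mul i j))

/-- check of the first `n` entries of a row from the entry `j` on -/
def chkR (i n : ℕ) : ℕ → ℕ → Bool :=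
  @Nat.rec (fun _ => ℕ → ℕ → Bool) (fun _ _ => true)
    (fun _ ih j T => match chk1 i j (Nat.mod T 65536) with
      | false => false
      | true => fN (Nat.succ j) fun j' => fN (Nat.shiftRight T 16) fun T' => ih j' T') n

lemma chkR_succ (i n j T : ℕ) : chkR i (n + 1) j T = true →
    chk1 i j (T % 65536) = true ∧ chkR i n (j + 1) (T >>> 16) = true := by
  intro h
  have h' : (match chk1 i j (Nat.mod T 65536) with
      | false => false
      | true => fN (Nat.succ j) fun j' => fN (Nat.shiftRight T 16) fun T' => chkR i n j' T') = true := h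
  change chk1 i j (Nat.mod T 65536) = true ∧ _
  cases hb : chk1 i j (Nat.mod T 65536) with
  | false => rw [hb] at h'; exact absurd h' (by simp)
  | true =>
    rw [hb] at h'
    simp only [fN_eq] at h'
    exact ⟨rfl, h'⟩

lemma chkR_all (i : ℕ) : ∀ n j T, chkR i n j T = true → ∀ p < n,
    chk1 i (j + p) ((T >>> (16 * p)) % 65536) = true := by
  intro n
  induction n with
  | zero => intro j T _ p hp; omega
  | succ n ih =>
    intro j T h p hp
    obtain ⟨h1, h2⟩ := chkR_succ i n j T h
    cases p with
    | zero => simpa using h1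
    | succ p =>
      have h3 := ih (j + 1) (T >>> 16) h2 p (by omega)
      rw [← Nat.shiftRight_add] at h3
      rw [show j + (p + 1) = j + 1 + p by ring, show 16 * (p + 1) = 16 + 16 * p by ring]
      exact h3

end Pool.Agent.Helper98.DL
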