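import Pool.Agent.Helper98.DL.DTab
import Pool.Agent.Helper66.Kiss.LLEdge

set_option autoImplicit false

/-! # The table of least longitude differences: real form -/

namespace Pool.Agent.Helper98.DL

open Real Pool.Agent.Helper98.KT Pool.Agent.Helper66.Kiss

/-- height of the index `i` of the fine grid -/
noncomputable def zz (i : ℕ) : ℝ := ((i : ℝ) - 176) / 256

lemma zz_bd {i : ℕ} (hi : i ≤ 304) : -(11 / 16) ≤ zz i ∧ zz i ≤ 1 / 2 := by
  have h : (i : ℝ) ≤ 304 := by exact_mod_cast hi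
  have h0 : (0 : ℝ) ≤ i := Nat.cast_nonneg i
  unfold zz
  constructor <;> linarith

/-- the cosine as a quotient -/
lemma RR_grid {x y : ℝ} (hx : -(11 / 16) ≤ x ∧ x ≤ 1 / 2) (hy : -(11 / 16) ≤ y ∧ y ≤ 1 / 2) {c : ℝ}
    (hc : 0 ≤ c) :
    0 < RR x y ∧ (RR x y ≤ c ↔ (1 / 2 - x * y) ^ 2 ≤ c ^ 2 * ((1 - x ^ 2) * (1 - y ^ 2))) ∧
    (c ≤ RR x y ↔ c ^ 2 * ((1 - x ^ 2) * (1 - y ^ 2)) ≤ (1 / 2 - x * y) ^ 2) := by
  have h1 : 0 < 1 - x ^ 2 := by nlinarith [hx.1, hx.2]
  have h2 : 0 < 1 - y ^ 2 := by nlinarith [hy.1, hy.2]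
  have h3 : 0 < 1 / 2 - x * y := by
    rcases le_total 0 x with h | h
    · nlinarith [mul_nonneg h (sub_nonneg.2 hy.2), hx.2]
    · nlinarith [mul_nonneg (neg_nonneg.2 h) (sub_nonneg.2 hy.1), hx.1]
  have s1 : 0 < √(1 - x ^ 2) := Real.sqrt_pos.2 h1
  have s2 : 0 < √(1 - y ^ 2) := Real.sqrt_pos.2 h2
  have q : (c * (√(1 - x ^ 2) * √(1 - y ^ 2))) ^ 2 = c ^ 2 * ((1 - x ^ 2) * (1 - y ^ 2)) := by
    rw [mul_pow, mul_pow, Real.sq_sqrt h1.le, Real.sq_sqrt h2.le]
  have hp : 0 ≤ c * (√(1 - x ^ 2) * √(1 - y ^ 2)) := by positivity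
  unfold RR
  refine ⟨by positivity, ?_, ?_⟩
  · rw [div_le_iff₀ (by positivity), ← q]
    exact (pow_le_pow_iff_left₀ h3.le hp (by norm_num)).symm
  · rw [le_div_iff₀ (by positivity), ← q]
    exact (pow_le_pow_iff_left₀ hp h3.le (by norm_num)).symm

/-- scaled cosine of a multiple of the unit -/
lemma cu_up {e : ℕ} (he : e ≤ 16384) {s : ℕ} (hs : s + cuM e = cuP e + cuE e) :
    cos (e * (π / 32768)) ≤ (s : ℝ) / 2 ^ 80 := by
  have h := (abs_le.1 (cu_sound he)).2
  have h1 : (s : ℝ) + cuM e = cuP e + cuE e := by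
    rw [← Nat.cast_add, hs, Nat.cast_add]
  rw [le_div_iff₀ (by positivity)]
  linarith

lemma cu_dn {e : ℕ} (he : e ≤ 16384) {s : ℕ} (hs : s + (cuM e + cuE e) = cuP e) :
    (s : ℝ) / 2 ^ 80 ≤ cos (e * (π / 32768)) := by
  have h := (abs_le.1 (cu_sound he)).1
  have h1 : (s : ℝ) + (cuM e + cuE e) = cuP e := by
    rw [← Nat.cast_add, ← Nat.cast_add, hs]
  rw [div_le_iff₀ (by positivity)]
  linarith

/-- **the table is correct** -/
theorem dtab_sound {i j : ℕ} (hi : i ≤ 304) (hj : j ≤ 304) :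
    (ent16 (rowOf i) j : ℝ) * (π / 32768) ≤ wd (zz i) (zz j) ∧
    wd (zz i) (zz j) ≤ ((ent16 (rowOf i) j : ℝ) + 1) * (π / 32768) := by
  have hpi := Real.pi_pos
  have hc := ent_chk hi hj
  set e := ent16 (rowOf i) j with he
  clear_value e
  have hx := zz_bd hi
  have hy := zz_bd hj
  have hi' : (i : ℝ) ≤ 304 := by exact_mod_cast hi
  have hj' : (j : ℝ) ≤ 304 := by exact_mod_cast hj
  have i0 : (0 : ℝ) ≤ i := Nat.cast_nonneg i
  have j0 : (0 : ℝ) ≤ j := Nat.cast_nonneg j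
  have hw : wd (zz i) (zz j) = arccos (RR (zz i) (zz j)) := rfl
  have eP : (((34560 + 352 * i) - i * i : ℕ) : ℝ) = 65536 * (1 - zz i ^ 2) := by
    have hle : i * i ≤ 34560 + 352 * i := by nlinarith
    rw [Nat.cast_sub hle]
    unfold zz
    push_cast
    ring
  have eR : (((34560 + 352 * j) - j * j : ℕ) : ℝ) = 65536 * (1 - zz j ^ 2) := by
    have hle : j * j ≤ 34560 + 352 * j := by nlinarith
    rw [Nat.cast_sub hle]
    unfold zz
    push_cast
    ring
  have en : (((1792 + 176 * (i + j)) - i * j : ℕ) : ℝ) = 65536 * (1 / 2 - zz i * zz j) := by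
    have hle : i * j ≤ 1792 + 176 * (i + j) := by
      rcases Nat.le_total i 176 with h | h
      · have := Nat.mul_le_mul_right j h; omega
      · obtain ⟨a, rfl⟩ := Nat.exists_eq_add_of_le h
        have h3 : a * j ≤ a * 304 := Nat.mul_le_mul_left a hj
        have h2 : (176 + a) * j = 176 * j + a * j := by ring
        rw [h2]
        omega
    rw [Nat.cast_sub hle]
    unfold zz
    push_cast
    ring
  unfold chk1 at hc
  cases hb : Nat.ble (Nat.add 18176 (Nat.add (Nat.mul i j) (Nat.mul 176 (Nat.add i j))))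
      (Nat.add (Nat.mul i i) (Nat.mul j j)) with
  | true =>
    rw [hb] at hc
    have he0 : e = 0 := Nat.eq_of_beq_eq_true hc
    have hle : 18176 + (i * j + 176 * (i + j)) ≤ i * i + j * j := Nat.le_of_ble_eq_true hb
    clear hb hc
    have hr : (18176 : ℝ) + (i * j + 176 * (i + j)) ≤ i * i + j * j := by exact_mod_cast hle
    have h1 : 1 ≤ RR (zz i) (zz j) := by
      rw [(RR_grid hx hy (c := 1) (by norm_num)).2.2]
      unfold zz
      nlinarith
    rw [hw, arccos_of_one_le h1, he0]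
    push_cast
    constructor
    · simp
    · positivity
  | false =>
    rw [hb] at hc
    clear hb
    unfold chkE at hc
    simp only [fN_eq, Bool.and_eq_true, Bool.or_eq_true] at hc
    obtain ⟨⟨⟨c1, c2⟩, c3⟩, c4⟩ := hc
    have k1 : e ≤ 15999 := Nat.le_of_ble_eq_true c1
    have k2 : cuM (e + 1) ≤ cuP (e + 1) + cuE (e + 1) := Nat.le_of_ble_eq_true c2
    have k3 := Nat.cast_le (α := ℝ).2 (Nat.le_of_ble_eq_true c3)
    clear c1 c2 c3
    obtain ⟨t, ht⟩ : ∃ t, cuP (e + 1) + cuE (e + 1) = t + cuM (e + 1) :=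
      ⟨cuP (e + 1) + cuE (e + 1) - cuM (e + 1), by omega⟩
    have t1 : Nat.sub (Nat.add (cuP (Nat.succ e)) (cuE (Nat.succ e))) (cuM (Nat.succ e)) = t := by
      show cuP (e + 1) + cuE (e + 1) - cuM (e + 1) = t
      omega
    have hup := cu_up (e := e + 1) (by omega) ht.symm
    have eN : ((Nat.mul (Nat.mul (Nat.sub (Nat.add 1792 (Nat.mul 176 (Nat.add i j))) (Nat.mul i j))
        (Nat.sub (Nat.add 1792 (Nat.mul 176 (Nat.add i j))) (Nat.mul i j))) (Nat.pow 2 160) : ℕ) : ℝ) =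
        (65536 * (1 / 2 - zz i * zz j)) ^ 2 * 2 ^ 160 := by
      show (((((1792 + 176 * (i + j)) - i * j) * ((1792 + 176 * (i + j)) - i * j)) * 2 ^ 160 : ℕ) : ℝ) = _
      rw [Nat.cast_mul, Nat.cast_mul, en]
      push_cast
      ring
    have ePR : ∀ s : ℕ, ((Nat.mul (Nat.mul s s) (Nat.mul
        (Nat.sub (Nat.add 34560 (Nat.mul 352 i)) (Nat.mul i i))
        (Nat.sub (Nat.add 34560 (Nat.mul 352 j)) (Nat.mul j j))) : ℕ) : ℝ) =
        (s : ℝ) ^ 2 * ((65536 * (1 - zz i ^ 2)) * (65536 * (1 - zz j ^ 2))) := by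
      intro s
      show (((s * s) * (((34560 + 352 * i) - i * i) * ((34560 + 352 * j) - j * j)) : ℕ) : ℝ) = _
      rw [Nat.cast_mul, Nat.cast_mul, Nat.cast_mul, eP, eR]
      ring
    rw [t1, ePR, eN] at k3
    have hupper : wd (zz i) (zz j) ≤ ((e : ℝ) + 1) * (π / 32768) := by
      rw [hw]
      have h1 : (t : ℝ) / 2 ^ 80 ≤ RR (zz i) (zz j) := by
        rw [(RR_grid hx hy (c := (t : ℝ) / 2 ^ 80) (by positivity)).2.2, div_pow, div_mul_eq_mul_div, div_le_iff₀ (by positivity)]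
        have : (t : ℝ) ^ 2 * ((1 - zz i ^ 2) * (1 - zz j ^ 2)) * 65536 ^ 2 ≤
            (1 / 2 - zz i * zz j) ^ 2 * (2 ^ 80) ^ 2 * 65536 ^ 2 := by
          calc _ = (t : ℝ) ^ 2 * ((65536 * (1 - zz i ^ 2)) * (65536 * (1 - zz j ^ 2))) := by ring
            _ ≤ _ := k3
            _ = _ := by ring
        exact le_of_mul_le_mul_right this (by positivity)
      have h2 : cos (((e : ℝ) + 1) * (π / 32768)) ≤ RR (zz i) (zz j) := by
        refine le_trans ?_ h1
        have := hup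
        push_cast at this
        exact this
      have he' : (e : ℝ) ≤ 15999 := by exact_mod_cast k1
      have e0 : (0 : ℝ) ≤ e := Nat.cast_nonneg e
      calc arccos (RR (zz i) (zz j)) ≤ arccos (cos (((e : ℝ) + 1) * (π / 32768))) :=
            arccos_le_arccos h2
        _ = _ := arccos_cos (by positivity) (by nlinarith)
    refine ⟨?_, hupper⟩
    rcases c4 with c4 | ⟨c4, c5⟩
    · have he0 : e = 0 := Nat.eq_of_beq_eq_true c4
      rw [he0, hw]
      push_cast
      rw [zero_mul]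
      exact arccos_nonneg _
    · have k4 : cuM e + cuE e ≤ cuP e := Nat.le_of_ble_eq_true c4
      have k5 := Nat.cast_le (α := ℝ).2 (Nat.le_of_ble_eq_true c5)
      clear c4 c5
      obtain ⟨s, hs⟩ : ∃ s, cuP e = s + (cuM e + cuE e) := ⟨cuP e - (cuM e + cuE e), by omega⟩
      have s1 : Nat.sub (cuP e) (Nat.add (cuM e) (cuE e)) = s := by
        show cuP e - (cuM e + cuE e) = s
        omega
      have hdn := cu_dn (e := e) (by omega) hs.symm
      rw [s1, ePR, eN] at k5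
      rw [hw]
      have h1 : RR (zz i) (zz j) ≤ (s : ℝ) / 2 ^ 80 := by
        rw [(RR_grid hx hy (c := (s : ℝ) / 2 ^ 80) (by positivity)).2.1, div_pow, div_mul_eq_mul_div, le_div_iff₀ (by positivity)]
        have : (1 / 2 - zz i * zz j) ^ 2 * (2 ^ 80) ^ 2 * 65536 ^ 2 ≤
            (s : ℝ) ^ 2 * ((1 - zz i ^ 2) * (1 - zz j ^ 2)) * 65536 ^ 2 := by
          calc _ = (65536 * (1 / 2 - zz i * zz j)) ^ 2 * 2 ^ 160 := by ring
            _ ≤ _ := k5
            _ = _ := by ring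
        exact le_of_mul_le_mul_right this (by positivity)
      have he' : (e : ℝ) ≤ 15999 := by exact_mod_cast k1
      have e0 : (0 : ℝ) ≤ e := Nat.cast_nonneg e
      calc (e : ℝ) * (π / 32768) = arccos (cos ((e : ℝ) * (π / 32768))) :=
            (arccos_cos (by positivity) (by nlinarith)).symm
        _ ≤ _ := arccos_le_arccos (h1.trans hdn)

end Pool.Agent.Helper98.DL
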