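import Pool.Agent.Helper98.DL.FEqE

/-! # Direction leaves: light check and check, collected

`dlF_k : dlF L D r = true → dleaf L D r = true`,
`nkF_k : dlF L D r = true → l ≤ 9 → nkF L D r l = nd L D r l`,
`poF_k : dlF L D r = true → poF L D r = true → poleL L D r = true`,
`b1F_k b2F_k kKF_k fdF_k ncF_k npp_k nqF_k nvF_k` (equalities of the parts). -/
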