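import Pool.Agent.Helper98.DL.FPk
import Pool.Agent.Helper66.Kiss.PkB

set_option autoImplicit false
set_option maxRecDepth 100000

/-! # The packed test of helper66: the light copy is equal -/

namespace Pool.Agent.Helper98.FD

open Pool.Agent.Helper66.Kiss

lemma rI1_e (a0 : ℕ) : rI1 a0 = Pk.rI1 a0 := rfl
lemma rJ1_e (a0 : ℕ) : rJ1 a0 = Pk.rJ1 a0 := rfl
lemma rI2_e (a0 a1 : ℕ) : rI2 a0 a1 = Pk.rI2 a0 a1 := rfl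
lemma rJ2_e (a0 a1 : ℕ) : rJ2 a0 a1 = Pk.rJ2 a0 a1 := rfl
lemma rI3_e (a0 a1 a2 : ℕ) : rI3 a0 a1 a2 = Pk.rI3 a0 a1 a2 := rfl
lemma rJ3_e (a0 a1 a2 : ℕ) : rJ3 a0 a1 a2 = Pk.rJ3 a0 a1 a2 := rfl
lemma rI4_e (a0 a1 a2 a3 : ℕ) : rI4 a0 a1 a2 a3 = Pk.rI4 a0 a1 a2 a3 := rfl
lemma rJ4_e (a0 a1 a2 a3 : ℕ) : rJ4 a0 a1 a2 a3 = Pk.rJ4 a0 a1 a2 a3 := rfl
lemma rI5_e (a0 a1 a2 a3 a4 : ℕ) : rI5 a0 a1 a2 a3 a4 = Pk.rI5 a0 a1 a2 a3 a4 := rfl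
lemma rJ5_e (a0 a1 a2 a3 a4 : ℕ) : rJ5 a0 a1 a2 a3 a4 = Pk.rJ5 a0 a1 a2 a3 a4 := rfl
lemma rI6_e (a0 a1 a2 a3 a4 a5 : ℕ) : rI6 a0 a1 a2 a3 a4 a5 = Pk.rI6 a0 a1 a2 a3 a4 a5 := rfl
lemma rJ6_e (a0 a1 a2 a3 a4 a5 : ℕ) : rJ6 a0 a1 a2 a3 a4 a5 = Pk.rJ6 a0 a1 a2 a3 a4 a5 := rfl
lemma rI7_e (a0 a1 a2 a3 a4 a5 a6 : ℕ) : rI7 a0 a1 a2 a3 a4 a5 a6 = Pk.rI7 a0 a1 a2 a3 a4 a5 a6 := rfl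
lemma rJ7_e (a0 a1 a2 a3 a4 a5 a6 : ℕ) : rJ7 a0 a1 a2 a3 a4 a5 a6 = Pk.rJ7 a0 a1 a2 a3 a4 a5 a6 := rfl
lemma rI8_e (a0 a1 a2 a3 a4 a5 a6 a7 : ℕ) : rI8 a0 a1 a2 a3 a4 a5 a6 a7 = Pk.rI8 a0 a1 a2 a3 a4 a5 a6 a7 := rfl
lemma rJ8_e (a0 a1 a2 a3 a4 a5 a6 a7 : ℕ) : rJ8 a0 a1 a2 a3 a4 a5 a6 a7 = Pk.rJ8 a0 a1 a2 a3 a4 a5 a6 a7 := rfl
lemma rI9_e (a0 a1 a2 a3 a4 a5 a6 a7 a8 : ℕ) : rI9 a0 a1 a2 a3 a4 a5 a6 a7 a8 = Pk.rI9 a0 a1 a2 a3 a4 a5 a6 a7 a8 := rfl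
lemma rJ9_e (a0 a1 a2 a3 a4 a5 a6 a7 a8 : ℕ) : rJ9 a0 a1 a2 a3 a4 a5 a6 a7 a8 = Pk.rJ9 a0 a1 a2 a3 a4 a5 a6 a7 a8 := rfl

lemma tb_e (Y : ℕ) : tb Y = Pk.tb Y := rfl

lemma both_e (a b : Bool) : both a b = Pk.both a b := by cases a <;> rfl

theorem pT_e (a01 a02 a12 a03 a13 a23 a04 a14 a24 a34 a05 a15 a25 a35 a45 a06 a16 a26 a36 a46 a56 a07 a17 a27 a37 a47 a57 a67 a08 a18 a28 a38 a48 a58 a68 a78 a09 a19 a29 a39 a49 a59 a69 a79 a89 b01 b02 b12 b03 b13 b23 b04 b14 b24 b34 b05 b15 b25 b35 b45 b06 b16 b26 b36 b46 b56 b07 b17 b27 b37 b47 b57 b67 b08 b18 b28 b38 b48 b58 b68 b78 b09 b19 b29 b39 b49 b59 b69 b79 b89 : ℕ) :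
    pT a01 a02 a12 a03 a13 a23 a04 a14 a24 a34 a05 a15 a25 a35 a45 a06 a16 a26 a36 a46 a56 a07 a17 a27 a37 a47 a57 a67 a08 a18 a28 a38 a48 a58 a68 a78 a09 a19 a29 a39 a49 a59 a69 a79 a89 b01 b02 b12 b03 b13 b23 b04 b14 b24 b34 b05 b15 b25 b35 b45 b06 b16 b26 b36 b46 b56 b07 b17 b27 b37 b47 b57 b67 b08 b18 b28 b38 b48 b58 b68 b78 b09 b19 b29 b39 b49 b59 b69 b79 b89 =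
    Pk.pT a01 a02 a12 a03 a13 a23 a04 a14 a24 a34 a05 a15 a25 a35 a45 a06 a16 a26 a36 a46 a56 a07 a17 a27 a37 a47 a57 a67 a08 a18 a28 a38 a48 a58 a68 a78 a09 a19 a29 a39 a49 a59 a69 a79 a89 b01 b02 b12 b03 b13 b23 b04 b14 b24 b34 b05 b15 b25 b35 b45 b06 b16 b26 b36 b46 b56 b07 b17 b27 b37 b47 b57 b67 b08 b18 b28 b38 b48 b58 b68 b78 b09 b19 b29 b39 b49 b59 b69 b79 b89 := by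
  unfold pT Pk.pT
  simp only [rI1_e, rI2_e, rI3_e, rI4_e, rI5_e, rI6_e, rI7_e, rI8_e, rI9_e, rJ1_e, rJ2_e, rJ3_e, rJ4_e, rJ5_e, rJ6_e, rJ7_e, rJ8_e, rJ9_e, both_e, tb_e]
  rfl

end Pool.Agent.Helper98.FD
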