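import Pool.Agent.Helper98.DL.FDef
import Pool.Agent.Helper98.DL.FPkE
import Pool.Agent.Helper91.Kiss.PoleFun
import Pool.Agent.Helper98.DL.DS1

set_option autoImplicit false
set_option maxRecDepth 100000
set_option exponentiation.threshold 5000

/-! # The light check of a direction leaf is equal to the check, part 1 -/

namespace Pool.Agent.Helper98.FD

open Pool.Agent.Helper98 Pool.Agent.Helper98.DL Pool.Agent.Helper65

lemma fT_k : FD.fT = KR.fT := rfl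
lemma fRow_k : FD.fRow = KR.fRow := by
  delta FD.fRow KR.fRow; simp only [fT_k]
lemma fCol_k : FD.fCol = KR.fCol := by
  delta FD.fCol KR.fCol; rfl
lemma fL_k : FD.fL = KR.fL := by
  delta FD.fL KR.fL; simp only [fRow_k, fCol_k]
lemma q1_k : FD.q1 = KR.q1 := by
  delta FD.q1 KR.q1; simp only [fL_k]
lemma ff_k : FD.ff = KR.ff := by
  delta FD.ff KR.ff; rfl
lemma mn_k : FD.mn = KR.mn := by
  delta FD.mn KR.mn; rfl
lemma cQ_k : FD.cQ = KR.cQ := by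
  delta FD.cQ KR.cQ; simp only [ff_k]
lemma q2_k : FD.q2 = KR.q2 := by
  delta FD.q2 KR.q2; simp only [fL_k, mn_k, cQ_k]
lemma nP_k : FD.nP = KR.nP := by
  delta FD.nP KR.nP; rfl
lemma nN_k : FD.nN = KR.nN := by
  delta FD.nN KR.nN; rfl
lemma rG_k : FD.rG = KR.rG := by
  delta FD.rG KR.rG; rfl
lemma rp_k : FD.rp = KR.rp := by
  delta FD.rp KR.rp; simp only [q1_k, q2_k, nP_k, nN_k, rG_k]
lemma ty_k : FD.ty = KR.ty := by
  delta FD.ty KR.ty; rfl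
lemma mx_k : FD.mx = KR.mx := by
  delta FD.mx KR.mx; rfl
lemma sh_k : FD.sh = KR.sh := by
  delta FD.sh KR.sh; rfl
lemma dp_k : FD.dp = KR.dp := by
  delta FD.dp KR.dp; rfl
lemma wop_k : FD.wop = KR.wop := by
  delta FD.wop KR.wop; simp only [rp_k, sh_k]
lemma wst_k : FD.wst = KR.wst := by
  delta FD.wst KR.wst; simp only [rp_k, sh_k]
lemma sel_k : FD.sel = KR.sel := by
  delta FD.sel KR.sel; rfl
lemma gte_k : FD.gte = KR.gte := by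
  delta FD.gte KR.gte; rfl
lemma wsp_k : FD.wsp = KR.wsp := by
  delta FD.wsp KR.wsp; simp only [rp_k, mx_k, sh_k, dp_k, gte_k]
lemma spw_k : FD.spw = KR.spw := by
  delta FD.spw KR.spw; simp only [rp_k, mx_k, sh_k, dp_k, gte_k]
lemma rup0_k : FD.rup0 = KR.rup0 := by
  delta FD.rup0 KR.rup0; simp only [rp_k, ty_k, mx_k, sh_k, dp_k, wop_k, sel_k]
lemma rup1_k : FD.rup1 = KR.rup1 := by
  delta FD.rup1 KR.rup1; simp only [rp_k, ty_k, mx_k, sh_k, dp_k, wst_k, sel_k]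
lemma rup2_k : FD.rup2 = KR.rup2 := by
  delta FD.rup2 KR.rup2; simp only [rp_k, ty_k, mx_k, wop_k, wst_k, sel_k, wsp_k]
lemma rup3_k : FD.rup3 = KR.rup3 := by
  delta FD.rup3 KR.rup3; simp only [rp_k, ty_k, mx_k, sh_k, dp_k, sel_k, spw_k]
lemma rup_k : FD.rup = KR.rup := by
  delta FD.rup KR.rup; simp only [ty_k, sel_k, rup0_k, rup1_k, rup2_k, rup3_k]

/-! ### tables -/

lemma tB0_k : tB0 = dB0 := rfl
lemma tB1_k : tB1 = dB1 := rfl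
lemma tB2_k : tB2 = dB2 := rfl
lemma tB3_k : tB3 = dB3 := rfl
lemma tB4_k : tB4 = dB4 := rfl
lemma tB5_k : tB5 = dB5 := rfl
lemma tB6_k : tB6 = dB6 := rfl
lemma tB7_k : tB7 = dB7 := rfl
lemma tB8_k : tB8 = dB8 := rfl
lemma tB9_k : tB9 = dB9 := rfl
lemma tB10_k : tB10 = dB10 := rfl
lemma tB11_k : tB11 = dB11 := rfl
lemma tB12_k : tB12 = dB12 := rfl
lemma tB13_k : tB13 = dB13 := rfl
lemma tB14_k : tB14 = dB14 := rfl
lemma tB15_k : tB15 = dB15 := rfl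
lemma tB16_k : tB16 = dB16 := rfl
lemma tB17_k : tB17 = dB17 := rfl
lemma tB18_k : tB18 = dB18 := rfl
lemma tB19_k : tB19 = dB19 := rfl
lemma tAU_k : tAU = KT.acTabU := rfl
lemma tAL_k : tAL = KT.acTabL := rfl
lemma tSL_k : tSL = KT.vSL := rfl
lemma tSU_k : tSU = KT.vSU := rfl
lemma tCP_k : tCP = KT.vCP := rfl
lemma tCM_k : tCM = KT.vCM := rfl
lemma tJS_k : tJS = KT.vJS := rfl
lemma tOne_k : tOne = KT.vOne := rfl
lemma tMask_k : tMask = KT.vMask := rfl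
lemma tIL_k : tIL = ivL := rfl
lemma tIU_k : tIU = ivU := rfl

/-! ### cells -/

lemma enF_k (T j : ℕ) : enF T j = ent16 T j := rfl
lemma enF_t (T j : ℕ) : enF T j = KT.ent T j := rfl

lemma br {b : Bool} {x y x' y' : ℕ} (hx : x = x') (hy : y = y') :
    (Bool.rec (motive := fun _ => ℕ) y x b : ℕ) = (match b with | true => x' | false => y') := by
  cases b
  · exact hy
  · exact hx

lemma blF_k (k : ℕ) : blF k = blk k := by
  unfold blF blk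
  exact (br (br (br (br tB0_k tB1_k) (br tB2_k (br tB3_k tB4_k))) (br (br tB5_k tB6_k) (br tB7_k (br tB8_k tB9_k)))) (br (br (br tB10_k tB11_k) (br tB12_k (br tB13_k tB14_k))) (br (br tB15_k tB16_k) (br tB17_k (br tB18_k tB19_k)))))

lemma rwF_k (i : ℕ) : rwF i = rowOf i := by
  unfold rwF rowOf; rw [blF_k]


lemma mx_d (a b : ℕ) : FD.mx a b = DL.mx a b := rfl
lemma mn_d (a b : ℕ) : FD.mn a b = DL.mn a b := rfl
lemma qneF_k (i j : ℕ) : qneF i j = qneg i j := rfl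

lemma frF_k (a b c d : ℕ) : frF a b c d = frd a b c d := by
  unfold frF frA frB frd cb; rfl

lemma clF_k (a b c : ℕ) : clF a b c = clm a b c := rfl

lemma dHF_k (a b c d : ℕ) :
    dHF a b c d = dHi a b (rowOf a) (rowOf b) c d (rowOf c) (rowOf d) := by
  unfold dHF dHi
  rw [rwF_k, rwF_k, rwF_k, rwF_k]
  rfl

lemma dLF_k (A B c d : ℕ) : dLF A B c d = dLo A B c d := rfl

lemma dpF_k (c1 c2 : ℕ) : dpF c1 c2 = dplus c1 c2 := by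
  rw [dplus_eq, ← frF_k, ← dHF_k]; rfl

lemma dmF_k (c1 c2 : ℕ) : dmF c1 c2 = dminus c1 c2 := by
  rw [dminus_eq, ← rwF_k, ← rwF_k]; rfl

lemma lc1_k (c0 c1 : ℕ) : lc1 c0 c1 = lb1 c0 c1 := dmF_k c0 c1

lemma lc2_k (c0 c1 c2 : ℕ) : lc2 c0 c1 c2 = lb2 c0 c1 c2 := by
  unfold lc2 lb2; simp only [dmF_k, mx_d, lc1_k]

lemma lc3_k (c0 c1 c2 c3 : ℕ) : lc3 c0 c1 c2 c3 = lb3 c0 c1 c2 c3 := by
  unfold lc3 lb3; simp only [dmF_k, mx_d, lc1_k, lc2_k]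

lemma lc4_k (c0 c1 c2 c3 c4 : ℕ) : lc4 c0 c1 c2 c3 c4 = lb4 c0 c1 c2 c3 c4 := by
  unfold lc4 lb4; simp only [dmF_k, mx_d, lc1_k, lc2_k, lc3_k]

lemma lc5_k (c0 c1 c2 c3 c4 c5 : ℕ) : lc5 c0 c1 c2 c3 c4 c5 = lb5 c0 c1 c2 c3 c4 c5 := by
  unfold lc5 lb5; simp only [dmF_k, mx_d, lc1_k, lc2_k, lc3_k, lc4_k]

lemma lc6_k (c0 c1 c2 c3 c4 c5 c6 : ℕ) : lc6 c0 c1 c2 c3 c4 c5 c6 = lb6 c0 c1 c2 c3 c4 c5 c6 := by
  unfold lc6 lb6; simp only [dmF_k, mx_d, lc1_k, lc2_k, lc3_k, lc4_k, lc5_k]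

lemma lc7_k (c0 c1 c2 c3 c4 c5 c6 c7 : ℕ) : lc7 c0 c1 c2 c3 c4 c5 c6 c7 = lb7 c0 c1 c2 c3 c4 c5 c6 c7 := by
  unfold lc7 lb7; simp only [dmF_k, mx_d, lc1_k, lc2_k, lc3_k, lc4_k, lc5_k, lc6_k]

lemma lc8_k (c0 c1 c2 c3 c4 c5 c6 c7 c8 : ℕ) : lc8 c0 c1 c2 c3 c4 c5 c6 c7 c8 = lb8 c0 c1 c2 c3 c4 c5 c6 c7 c8 := by
  unfold lc8 lb8; simp only [dmF_k, mx_d, lc1_k, lc2_k, lc3_k, lc4_k, lc5_k, lc6_k, lc7_k]

lemma lc9_k (c0 c1 c2 c3 c4 c5 c6 c7 c8 c9 : ℕ) : lc9 c0 c1 c2 c3 c4 c5 c6 c7 c8 c9 = lb9 c0 c1 c2 c3 c4 c5 c6 c7 c8 c9 := by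
  unfold lc9 lb9; simp only [dmF_k, mx_d, lc1_k, lc2_k, lc3_k, lc4_k, lc5_k, lc6_k, lc7_k, lc8_k]

end Pool.Agent.Helper98.FD
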