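import Pool.Agent.Helper98.DL.FEqA

set_option autoImplicit false
set_option maxRecDepth 100000
set_option exponentiation.threshold 5000

/-! # The light check of a direction leaf is equal to the check, part 2: entries and contacts -/

namespace Pool.Agent.Helper98.FD

open Pool.Agent.Helper98 Pool.Agent.Helper98.DL Pool.Agent.Helper65

/-- congruence, Bool -/
lemma cc {α : Type} {b b' : Bool} {x x' y y' : α} (h : b = b') (hx : x = x') (hy : y = y') :
    (Bool.rec (motive := fun _ => α) y x b : α) = cb b' x' y' := by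
  subst h hx hy; rfl

/-- congruence, Nat -/
lemma nc {α : Type} {n n' : ℕ} {x x' : α} {f f' : ℕ → α} (h : n = n') (hx : x = x')
    (hf : ∀ m, f m = f' m) :
    (Nat.rec (motive := fun _ => α) x (fun m _ => f m) n : α) = nb n' x' f' := by
  obtain rfl : f = f' := funext hf
  subst h hx; rfl

/-- congruence, forcing -/
lemma fc {n n' : ℕ} {f f' : ℕ → Bool} (h : n = n') (hf : ∀ m, f m = f' m) :
    fzB n f = fz n' f' := by
  obtain rfl : f = f' := funext hf
  subst h; rfl

lemma rvF_k (c v c' v' : ℕ) : rvF c v c' v' = rupV c v c' v' := by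
  unfold rvF; rw [rup_k]; rfl

lemma land_bit (M b : ℕ) :
    Nat.land M (2 ^ b) = 0 ↔ Nat.mod (Nat.div M (2 ^ b)) 2 = 0 := by
  have h1 : Nat.land M (2 ^ b) = (M.testBit b).toNat * 2 ^ b := Nat.and_two_pow M b
  have h2 : M.testBit b = decide (M / 2 ^ b % 2 = 1) := Nat.testBit_eq_decide_div_mod_eq
  have h3 : Nat.mod (Nat.div M (2 ^ b)) 2 = M / 2 ^ b % 2 := rfl
  rw [h1, h3, h2]
  have h4 : M / 2 ^ b % 2 < 2 := Nat.mod_lt _ (by norm_num)
  have h5 : 0 < 2 ^ b := by positivity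
  rcases Nat.lt_or_ge (M / 2 ^ b % 2) 1 with h | h
  · have h6 : M / 2 ^ b % 2 = 0 := by omega
    rw [h6]; simp
  · have h6 : M / 2 ^ b % 2 = 1 := by omega
    rw [h6]; simp

lemma peF_e {q b : ℕ} (hq : q = 2 ^ b) (M c v c' v' : ℕ) :
    peF M q c v c' v' = pe M q c v c' v' := by
  have h := land_bit M b
  rw [← hq] at h
  unfold peF pe
  rw [dpF_k]
  generalize dplus c c' = d
  generalize Nat.land M q = m at h ⊢
  generalize Nat.mod (Nat.div M q) 2 = m' at h ⊢
  cases d with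
  | zero => rfl
  | succ d =>
    rw [nb_succ]
    cases m with
    | zero =>
      have h0 : m' = 0 := h.1 rfl
      rw [h0, nb_zero]
      show Nat.add (d + 1) (nat_lit 15393162788864) = Nat.add (d + 1) (Nat.mul 1048576 14680064)
      have : (nat_lit 15393162788864) = Nat.mul 1048576 14680064 := by decide
      rw [this]
    | succ m =>
      cases m' with
      | zero => exact absurd (h.2 rfl) (by simp)
      | succ m' =>
        rw [nb_succ, ← rvF_k]
        rfl

lemma pe_0 (M c v c' v' : ℕ) : peF M (nat_lit 1) c v c' v' = pe M 1 c v c' v' :=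
  peF_e (b := 0) (by norm_num) M c v c' v'
lemma pe_1 (M c v c' v' : ℕ) : peF M (nat_lit 2) c v c' v' = pe M 2 c v c' v' :=
  peF_e (b := 1) (by norm_num) M c v c' v'
lemma pe_2 (M c v c' v' : ℕ) : peF M (nat_lit 4) c v c' v' = pe M 4 c v c' v' :=
  peF_e (b := 2) (by norm_num) M c v c' v'
lemma pe_3 (M c v c' v' : ℕ) : peF M (nat_lit 8) c v c' v' = pe M 8 c v c' v' :=
  peF_e (b := 3) (by norm_num) M c v c' v'
lemma pe_4 (M c v c' v' : ℕ) : peF M (nat_lit 16) c v c' v' = pe M 16 c v c' v' :=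
  peF_e (b := 4) (by norm_num) M c v c' v'
lemma pe_5 (M c v c' v' : ℕ) : peF M (nat_lit 32) c v c' v' = pe M 32 c v c' v' :=
  peF_e (b := 5) (by norm_num) M c v c' v'
lemma pe_6 (M c v c' v' : ℕ) : peF M (nat_lit 64) c v c' v' = pe M 64 c v c' v' :=
  peF_e (b := 6) (by norm_num) M c v c' v'
lemma pe_7 (M c v c' v' : ℕ) : peF M (nat_lit 128) c v c' v' = pe M 128 c v c' v' :=
  peF_e (b := 7) (by norm_num) M c v c' v'
lemma pe_8 (M c v c' v' : ℕ) : peF M (nat_lit 256) c v c' v' = pe M 256 c v c' v' :=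
  peF_e (b := 8) (by norm_num) M c v c' v'
lemma pe_9 (M c v c' v' : ℕ) : peF M (nat_lit 512) c v c' v' = pe M 512 c v c' v' :=
  peF_e (b := 9) (by norm_num) M c v c' v'
lemma pe_10 (M c v c' v' : ℕ) : peF M (nat_lit 1024) c v c' v' = pe M 1024 c v c' v' :=
  peF_e (b := 10) (by norm_num) M c v c' v'
lemma pe_11 (M c v c' v' : ℕ) : peF M (nat_lit 2048) c v c' v' = pe M 2048 c v c' v' :=
  peF_e (b := 11) (by norm_num) M c v c' v'
lemma pe_12 (M c v c' v' : ℕ) : peF M (nat_lit 4096) c v c' v' = pe M 4096 c v c' v' :=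
  peF_e (b := 12) (by norm_num) M c v c' v'
lemma pe_13 (M c v c' v' : ℕ) : peF M (nat_lit 8192) c v c' v' = pe M 8192 c v c' v' :=
  peF_e (b := 13) (by norm_num) M c v c' v'
lemma pe_14 (M c v c' v' : ℕ) : peF M (nat_lit 16384) c v c' v' = pe M 16384 c v c' v' :=
  peF_e (b := 14) (by norm_num) M c v c' v'
lemma pe_15 (M c v c' v' : ℕ) : peF M (nat_lit 32768) c v c' v' = pe M 32768 c v c' v' :=
  peF_e (b := 15) (by norm_num) M c v c' v'
lemma pe_16 (M c v c' v' : ℕ) : peF M (nat_lit 65536) c v c' v' = pe M 65536 c v c' v' :=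
  peF_e (b := 16) (by norm_num) M c v c' v'
lemma pe_17 (M c v c' v' : ℕ) : peF M (nat_lit 131072) c v c' v' = pe M 131072 c v c' v' :=
  peF_e (b := 17) (by norm_num) M c v c' v'
lemma pe_18 (M c v c' v' : ℕ) : peF M (nat_lit 262144) c v c' v' = pe M 262144 c v c' v' :=
  peF_e (b := 18) (by norm_num) M c v c' v'
lemma pe_19 (M c v c' v' : ℕ) : peF M (nat_lit 524288) c v c' v' = pe M 524288 c v c' v' :=
  peF_e (b := 19) (by norm_num) M c v c' v'
lemma pe_20 (M c v c' v' : ℕ) : peF M (nat_lit 1048576) c v c' v' = pe M 1048576 c v c' v' :=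
  peF_e (b := 20) (by norm_num) M c v c' v'
lemma pe_21 (M c v c' v' : ℕ) : peF M (nat_lit 2097152) c v c' v' = pe M 2097152 c v c' v' :=
  peF_e (b := 21) (by norm_num) M c v c' v'
lemma pe_22 (M c v c' v' : ℕ) : peF M (nat_lit 4194304) c v c' v' = pe M 4194304 c v c' v' :=
  peF_e (b := 22) (by norm_num) M c v c' v'
lemma pe_23 (M c v c' v' : ℕ) : peF M (nat_lit 8388608) c v c' v' = pe M 8388608 c v c' v' :=
  peF_e (b := 23) (by norm_num) M c v c' v'
lemma pe_24 (M c v c' v' : ℕ) : peF M (nat_lit 16777216) c v c' v' = pe M 16777216 c v c' v' :=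
  peF_e (b := 24) (by norm_num) M c v c' v'
lemma pe_25 (M c v c' v' : ℕ) : peF M (nat_lit 33554432) c v c' v' = pe M 33554432 c v c' v' :=
  peF_e (b := 25) (by norm_num) M c v c' v'
lemma pe_26 (M c v c' v' : ℕ) : peF M (nat_lit 67108864) c v c' v' = pe M 67108864 c v c' v' :=
  peF_e (b := 26) (by norm_num) M c v c' v'
lemma pe_27 (M c v c' v' : ℕ) : peF M (nat_lit 134217728) c v c' v' = pe M 134217728 c v c' v' :=
  peF_e (b := 27) (by norm_num) M c v c' v'
lemma pe_28 (M c v c' v' : ℕ) : peF M (nat_lit 268435456) c v c' v' = pe M 268435456 c v c' v' :=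
  peF_e (b := 28) (by norm_num) M c v c' v'
lemma pe_29 (M c v c' v' : ℕ) : peF M (nat_lit 536870912) c v c' v' = pe M 536870912 c v c' v' :=
  peF_e (b := 29) (by norm_num) M c v c' v'
lemma pe_30 (M c v c' v' : ℕ) : peF M (nat_lit 1073741824) c v c' v' = pe M 1073741824 c v c' v' :=
  peF_e (b := 30) (by norm_num) M c v c' v'
lemma pe_31 (M c v c' v' : ℕ) : peF M (nat_lit 2147483648) c v c' v' = pe M 2147483648 c v c' v' :=
  peF_e (b := 31) (by norm_num) M c v c' v'
lemma pe_32 (M c v c' v' : ℕ) : peF M (nat_lit 4294967296) c v c' v' = pe M 4294967296 c v c' v' :=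
  peF_e (b := 32) (by norm_num) M c v c' v'
lemma pe_33 (M c v c' v' : ℕ) : peF M (nat_lit 8589934592) c v c' v' = pe M 8589934592 c v c' v' :=
  peF_e (b := 33) (by norm_num) M c v c' v'
lemma pe_34 (M c v c' v' : ℕ) : peF M (nat_lit 17179869184) c v c' v' = pe M 17179869184 c v c' v' :=
  peF_e (b := 34) (by norm_num) M c v c' v'
lemma pe_35 (M c v c' v' : ℕ) : peF M (nat_lit 34359738368) c v c' v' = pe M 34359738368 c v c' v' :=
  peF_e (b := 35) (by norm_num) M c v c' v'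
lemma pe_36 (M c v c' v' : ℕ) : peF M (nat_lit 68719476736) c v c' v' = pe M 68719476736 c v c' v' :=
  peF_e (b := 36) (by norm_num) M c v c' v'
lemma pe_37 (M c v c' v' : ℕ) : peF M (nat_lit 137438953472) c v c' v' = pe M 137438953472 c v c' v' :=
  peF_e (b := 37) (by norm_num) M c v c' v'
lemma pe_38 (M c v c' v' : ℕ) : peF M (nat_lit 274877906944) c v c' v' = pe M 274877906944 c v c' v' :=
  peF_e (b := 38) (by norm_num) M c v c' v'
lemma pe_39 (M c v c' v' : ℕ) : peF M (nat_lit 549755813888) c v c' v' = pe M 549755813888 c v c' v' :=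
  peF_e (b := 39) (by norm_num) M c v c' v'
lemma pe_40 (M c v c' v' : ℕ) : peF M (nat_lit 1099511627776) c v c' v' = pe M 1099511627776 c v c' v' :=
  peF_e (b := 40) (by norm_num) M c v c' v'
lemma pe_41 (M c v c' v' : ℕ) : peF M (nat_lit 2199023255552) c v c' v' = pe M 2199023255552 c v c' v' :=
  peF_e (b := 41) (by norm_num) M c v c' v'
lemma pe_42 (M c v c' v' : ℕ) : peF M (nat_lit 4398046511104) c v c' v' = pe M 4398046511104 c v c' v' :=
  peF_e (b := 42) (by norm_num) M c v c' v'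
lemma pe_43 (M c v c' v' : ℕ) : peF M (nat_lit 8796093022208) c v c' v' = pe M 8796093022208 c v c' v' :=
  peF_e (b := 43) (by norm_num) M c v c' v'
lemma pe_44 (M c v c' v' : ℕ) : peF M (nat_lit 17592186044416) c v c' v' = pe M 17592186044416 c v c' v' :=
  peF_e (b := 44) (by norm_num) M c v c' v'

/-! ### contacts -/

lemma alA_k (r : ℕ) : alA r = KT.alS1 r := by
  unfold alA KT.alS1
  generalize Nat.ble r 16384 = b
  cases b <;> rfl

lemma alB_k (r : ℕ) : alB r = KT.alS2 r := by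
  unfold alB KT.alS2
  generalize Nat.ble r 16384 = b
  cases b <;> rfl

lemma gmF_k (i : ℕ) : gmF i = gm i := rfl

lemma rsA_k (k1 k2 x y i : ℕ) : rsA k1 k2 x y i =
    (match Nat.ble (Nat.mul (Nat.mul k2 k2) y) x with
    | true => Nat.div (Nat.mul (Nat.add x (Nat.mul (Nat.mul k2 k2) y)) i) (Nat.mul k2 33554432)
    | false => Nat.div (Nat.mul (Nat.add x (Nat.mul (Nat.mul k1 k2) y)) i) (Nat.mul k2 33554432)) := by
  unfold rsA
  generalize Nat.ble (Nat.mul (Nat.mul k2 k2) y) x = b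
  cases b <;> rfl

lemma rsF_k (k1 k2 n i : ℕ) : rsF k1 k2 n i = KT.rSh k1 k2 n i :=
  (show rsF k1 k2 n i = rsA k1 k2 (Nat.mul 16777216 (Nat.sub n 2048)) (Nat.sub 6144 n) i from
    rfl).trans ((rsA_k _ _ _ _ _).trans (by unfold KT.rSh; rfl))

lemma asA_k (r : ℕ) : asA r = (match r with | 0 => 257 | r + 1 => KT.alS1 (r + 1)) := by
  cases r with
  | zero => rfl
  | succ r => exact alA_k (r + 1)

lemma asF_k (k1 k2 i : ℕ) : asF k1 k2 i = aSh k1 k2 i := by
  have h : asF k1 k2 i = asA (rsF k1 k2 (gm i) (KT.ent ivL i)) := rfl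
  rw [h, rsF_k]
  exact asA_k _

lemma pc (b : Bool) (r s : ℕ) : (Bool.rec (motive := fun _ => ℕ) (alB s) (alA r) b : ℕ) =
    (match (match b with | true => (true, r) | false => (false, s)) with
    | (true, r) => KT.alS1 r
    | (false, r) => KT.alS2 r) := by
  cases b
  · exact alB_k s
  · exact alA_k r

lemma adB_k (k x y i j : ℕ) : adB k x y i j =
    (match (match Nat.ble x y with
      | true => (true, Nat.div (Nat.mul (Nat.sub y x) i) (Nat.mul k 33554432))
      | false => (false, Nat.succ (Nat.div (Nat.mul (Nat.sub x y) j) (Nat.mul k 33554432)))) with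
    | (true, r) => KT.alS1 r
    | (false, r) => KT.alS2 r) := pc _ _ _

lemma adA_k (k i1 i2 : ℕ) : adA k (gmF i1) (enF tIL i2) (enF tIU i1) = aDp k i1 i2 := by
  have h : adA k (gmF i1) (enF tIL i2) (enF tIU i1) =
    adB k (Nat.mul 16777216 (Nat.sub 2048 (gm i1))) (Nat.mul (Nat.mul k k) (Nat.sub 6144 (gm i1)))
      (KT.ent ivL i2) (KT.ent ivU i1) := rfl
  rw [h, adB_k]
  unfold aDp KT.rDp
  rfl

lemma adF_k (k i1 i2 : ℕ) : adF k i1 i2 = aDq k i1 i2 := by
  cases k with
  | zero => rfl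
  | succ k => exact adA_k (k + 1) i1 i2

lemma osA_k (k1 k2 a b : ℕ) : osA k1 k2 a b = cb (Nat.ble 48 b) (aSh k1 k2 (DL.mx 48 a)) 0 :=
  cc rfl (asF_k _ _ _) rfl

lemma osF_k (k1 k2 c : ℕ) : osF k1 k2 c = osh k1 k2 c := by
  have h : osF k1 k2 c = osA k1 k2 (lo c) (hi c) := rfl
  rw [h, osA_k]
  unfold osh
  rw [fz_pr, fz_pr]

lemma odA_k (k1 a b : ℕ) : odA k1 a b = cb (Nat.ble 48 a) 0 (aDq k1 a (DL.mn b 48)) :=
  cc rfl rfl (adF_k _ _ _)

lemma odF_k (k1 c : ℕ) : odF k1 c = odp k1 c := by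
  have h : odF k1 c = odA k1 (lo c) (hi c) := rfl
  rw [h, odA_k]
  unfold odp
  rw [fz_pr, fz_pr]

lemma kuF_k (K k2 : ℕ) : kuF K k2 = KT.kUof K k2 := rfl

lemma ktF_k (K k2 : ℕ) : ktF K k2 = KT.kTof K k2 := rfl

lemma glF_k (k n i : ℕ) : glF k n i = KT.gLo k n i := rfl

lemma gaF_k (k : ℕ) : gaF k = KT.gAll k := rfl

lemma gvF_k (vn k1 n j : ℕ) : gvF vn k1 n j = gvT vn k1 n j := by
  cases vn with
  | zero => rfl
  | succ v =>
    cases k1 with
    | zero => rfl
    | succ k => rfl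

lemma jtF_k (a b : ℕ) : jtF a b = jT a b := by
  unfold jtF jT
  generalize Nat.ble (Nat.add a b) 352 = x
  cases x <;> rfl


end Pool.Agent.Helper98.FD
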