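import Pool.Agent.Helper98.DL.FEqB

set_option autoImplicit false
set_option maxRecDepth 100000
set_option exponentiation.threshold 5000

/-! # The light check of a direction leaf is equal to the check, part 3: checks after reading -/

namespace Pool.Agent.Helper98.FD

open Pool.Agent.Helper98 Pool.Agent.Helper98.DL Pool.Agent.Helper65

lemma an {b b' x x' : Bool} (h : b = b') (hx : x = x') : anF b x = cb b' x' false := by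
  subst h hx; rfl

lemma chB_k (X M : ℕ) : chB X M =
    (match M with | 0 => false | M + 1 => Nat.beq (Nat.land X (M + 1)) (M + 1)) := by
  cases M <;> rfl

lemma chA_k (l K ku mp mn cp cn J : ℕ) :
    chA l K ku mp mn cp cn J = KT.hopChk (KT.hopP l K) (KT.hopN ku) mp mn cp cn J := by
  have h : chA l K ku mp mn cp cn J = chB (Nat.sub (Nat.add (KT.hopP l K)
      (Nat.add (Nat.mul mp KT.vSL) (Nat.mul cp KT.vOne)))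
      (Nat.add (KT.hopN ku) (Nat.add (Nat.mul mn KT.vSU) (Nat.mul cn KT.vOne))))
      (Nat.mod KT.vMask (Nat.pow 2 (Nat.mul 48 (Nat.succ J)))) := rfl
  rw [h, chB_k]
  unfold KT.hopChk
  generalize Nat.mod KT.vMask (Nat.pow 2 (Nat.mul 48 (Nat.succ J))) = M
  cases M <;> rfl

/-- four conditions -/
def rec4 (b1 b2 b3 b4 x : Bool) : Bool :=
  Bool.rec (motive := fun _ => Bool) false (Bool.rec (motive := fun _ => Bool) false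
    (Bool.rec (motive := fun _ => Bool) false (Bool.rec (motive := fun _ => Bool) false x b4) b3) b2) b1

lemma m4c {b1 b1' b2 b2' b3 b3' b4 b4' x x' : Bool} (h1 : b1 = b1') (h2 : b2 = b2') (h3 : b3 = b3')
    (h4 : b4 = b4') (hx : x = x') :
    (Bool.rec (motive := fun _ => Bool) false (Bool.rec (motive := fun _ => Bool) false
      (Bool.rec (motive := fun _ => Bool) false (Bool.rec (motive := fun _ => Bool) false x b4) b3) b2)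
      b1 : Bool) = rec4 b1' b2' b3' b4' x' := by
  subst h1 h2 h3 h4 hx
  rfl

lemma rec4_m (b1 b2 b3 b4 x : Bool) : rec4 b1 b2 b3 b4 x =
    (match b1 with
    | false => false
    | true => match b2 with
      | false => false
      | true => match b3 with
        | false => false
        | true => match b4 with
          | false => false
          | true => x) := by
  cases b1 <;> cases b2 <;> cases b3 <;> cases b4 <;> rfl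

lemma cnA_k (l K ku KT' g1 g2 j vp vn mp mn J : ℕ) : cnA l K ku KT' g1 g2 j vp vn mp mn J =
    KT.hopN1 (KT.hopP l K) (KT.hopN ku) (Nat.add (Nat.mul 403 l) (Nat.mul 20 ku)) KT' g1 g2 j vp vn
      mp mn J := by
  have h : cnA l K ku KT' g1 g2 j vp vn mp mn J = cnB l K ku mp mn (Nat.mul vp g1)
    (Nat.add (Nat.mul vn g2) (Nat.add (KT.ckap KT' j)
      (Nat.add (Nat.add (Nat.mul 403 l) (Nat.mul 20 ku)) (Nat.mul 20 mn)))) J := rfl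
  rw [h]
  unfold cnB KT.hopN1
  refine (m4c (b1' := Nat.ble (Nat.mul vp g1) 35184372088831) (b2' := Nat.ble (Nat.add (Nat.mul vn g2)
    (Nat.add (KT.ckap KT' j) (Nat.add (Nat.add (Nat.mul 403 l) (Nat.mul 20 ku)) (Nat.mul 20 mn))))
    35184372088831) (b3' := Nat.ble (Nat.lor mp mn) 16777215) (b4' := Nat.ble J 32)
    rfl rfl rfl rfl (chA_k _ _ _ _ _ _ _ _)).trans (rec4_m _ _ _ _ _)

lemma stF_k (K v M : ℕ) : stF K v M = stt K v M := cc rfl (cc rfl rfl rfl) rfl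

lemma okA_k (l K k1 k2 a b P m M : ℕ) : okA l K k1 k2 a b P m M =
    conSC (KT.hopP l K) (KT.hopN (KT.kUof K k2))
      (Nat.add (Nat.mul 403 l) (Nat.mul 20 (KT.kUof K k2)))
      (KT.kTof K k2) k1 k2 a b (Nat.sub P 32768) (Nat.sub 32768 P)
      (Nat.sub M 8388608) (Nat.sub 8388608 M) m := by
  unfold okA conSC
  rw [cnA_k, gvF_k, jtF_k]
  rfl

lemma okF_k (l K k1 k2 c v m M : ℕ) : okF l K k1 k2 c v m M = okS l K k1 k2 c v m M := by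
  unfold okF okS
  rw [fz_pr, fz_pr]
  exact cc (stF_k _ _ _) rfl (okA_k l K k1 k2 (DL.mx 48 (lo c)) (hi c) (vP v) m M)

lemma oeA_k (l K k1 k2 a b Q m M : ℕ) : oeA l K k1 k2 a b Q m M =
    conDC (KT.hopP l K) (KT.hopN (KT.kUof K k2))
      (Nat.add (Nat.mul 403 l) (Nat.mul 20 (KT.kUof K k2)))
      (KT.kTof K k2) (KT.gAll k2) k1 a b (Nat.sub Q 32768) (Nat.sub 32768 Q)
      (Nat.sub M 8388608) (Nat.sub 8388608 M) m := by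
  unfold oeA conDC
  rw [cnA_k, gvF_k]
  rfl

lemma oeF_k (l K k1 k2 c v m M : ℕ) : oeF l K k1 k2 c v m M = okD l K k1 k2 c v m M := by
  unfold oeF okD
  rw [fz_pr, fz_pr]
  exact cc (stF_k _ _ _) rfl (oeA_k l K k1 k2 (lo c) (DL.mn (hi c) 48) (Nat.add (vP v) (vW v)) m M)

lemma slF_k (K k1 k2 c v : ℕ) : slF K k1 k2 c v = slf K k1 k2 c v := by
  unfold slF slA slf
  exact nc (odF_k _ _) rfl fun m => cc rfl rfl (oeF_k _ _ _ _ _ _ _ _)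

/-! ### entries of a class -/

lemma prC_k (l s A : ℕ) : prC l s A =
    Nat.add A (Nat.mul 1048576 (DL.mn (DL.mx (Nat.sub (Nat.add (Nat.div (Nat.add (Nat.mul l A) 1023) 1024)
      (Nat.add (Nat.mod s 33554432) 20)) 8388608) 4194304) 14680064)) := rfl

lemma prF_k (l t t' L : ℕ) : prF l t t' L = pr l t t' L := by
  unfold prF pr
  refine nc rfl rfl fun a => nc rfl rfl fun b => ?_
  rw [fz_pr, fz_pr, ← prC_k]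
  rfl

lemma coF_k (e e' : ℕ) : coF e e' = comb e e' := by
  unfold coF comb
  exact nc rfl rfl fun _ => nc rfl rfl fun _ => rfl

lemma stR_k {ok ok' : ℕ → ℕ → Bool} (hok : ∀ m M, ok m M = ok' m M) {o o' : ℕ} (ho : o = o')
    (D : ℕ) {k k' : ℕ → ℕ → Bool} (hk : ∀ t D, k t D = k' t D) : stR ok o D k = stC ok' o' D k' := by
  unfold stR stC
  refine nc ho (hk _ _) fun m => ?_
  rw [fz_pr]
  exact cc (hok _ _) (fc rfl fun D' => fc rfl fun t => hk t D') rfl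

lemma ctF_k (o0 o1 o2 o3 o4 o5 o6 o7 o8 o9 : ℕ) :
    ctF o0 o1 o2 o3 o4 o5 o6 o7 o8 o9 = cnt o0 o1 o2 o3 o4 o5 o6 o7 o8 o9 := rfl

lemma pr_zz (L : ℕ) : pr 0 0 0 L = 0 := rfl

lemma tsF_k (M l c0 c1 c2 c3 c4 c5 c6 c7 c8 c9 v0 v1 v2 v3 v4 v5 v6 v7 v8 v9 t0 t1 t2 t3 t4 t5 t6 t7 t8 t9 : ℕ) :
    tsF M l c0 c1 c2 c3 c4 c5 c6 c7 c8 c9 v0 v1 v2 v3 v4 v5 v6 v7 v8 v9 t0 t1 t2 t3 t4 t5 t6 t7 t8 t9 = tst M l c0 c1 c2 c3 c4 c5 c6 c7 c8 c9 v0 v1 v2 v3 v4 v5 v6 v7 v8 v9 t0 t1 t2 t3 t4 t5 t6 t7 t8 t9 := by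
  unfold tsF tst
  rw [pT_e]
  simp only [pe_0, pe_1, pe_2, pe_3, pe_4, pe_5, pe_6, pe_7, pe_8, pe_9, pe_10, pe_11, pe_12, pe_13, pe_14, pe_15, pe_16, pe_17, pe_18, pe_19, pe_20, pe_21, pe_22, pe_23, pe_24, pe_25, pe_26, pe_27, pe_28, pe_29, pe_30, pe_31, pe_32, pe_33, pe_34, pe_35, pe_36, pe_37, pe_38, pe_39, pe_40, pe_41, pe_42, pe_43, pe_44, prF_k, lc1_k, lc2_k, lc3_k, lc4_k, lc5_k, lc6_k, lc7_k, lc8_k, lc9_k]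

lemma tzF_k (M c0 c1 c2 c3 c4 c5 c6 c7 c8 c9 v0 v1 v2 v3 v4 v5 v6 v7 v8 v9 : ℕ) :
    tzF M c0 c1 c2 c3 c4 c5 c6 c7 c8 c9 v0 v1 v2 v3 v4 v5 v6 v7 v8 v9 = tst M 0 c0 c1 c2 c3 c4 c5 c6 c7 c8 c9 v0 v1 v2 v3 v4 v5 v6 v7 v8 v9 0 0 0 0 0 0 0 0 0 0 := by
  unfold tzF tst
  rw [pT_e]
  simp only [pe_0, pe_1, pe_2, pe_3, pe_4, pe_5, pe_6, pe_7, pe_8, pe_9, pe_10, pe_11, pe_12, pe_13, pe_14, pe_15, pe_16, pe_17, pe_18, pe_19, pe_20, pe_21, pe_22, pe_23, pe_24, pe_25, pe_26, pe_27, pe_28, pe_29, pe_30, pe_31, pe_32, pe_33, pe_34, pe_35, pe_36, pe_37, pe_38, pe_39, pe_40, pe_41, pe_42, pe_43, pe_44, pr_zz]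

lemma tmF_k (M l c0 c1 c2 c3 c4 c5 c6 c7 c8 c9 v0 v1 v2 v3 v4 v5 v6 v7 v8 v9 s0 s1 s2 s3 s4 s5 s6 s7 s8 s9 d0 d1 d2 d3 d4 d5 d6 d7 d8 d9 : ℕ) :
    tmF M l c0 c1 c2 c3 c4 c5 c6 c7 c8 c9 v0 v1 v2 v3 v4 v5 v6 v7 v8 v9 s0 s1 s2 s3 s4 s5 s6 s7 s8 s9 d0 d1 d2 d3 d4 d5 d6 d7 d8 d9 = tsm M l c0 c1 c2 c3 c4 c5 c6 c7 c8 c9 v0 v1 v2 v3 v4 v5 v6 v7 v8 v9 s0 s1 s2 s3 s4 s5 s6 s7 s8 s9 d0 d1 d2 d3 d4 d5 d6 d7 d8 d9 := by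
  unfold tmF tsm
  rw [pT_e]
  simp only [pe_0, pe_1, pe_2, pe_3, pe_4, pe_5, pe_6, pe_7, pe_8, pe_9, pe_10, pe_11, pe_12, pe_13, pe_14, pe_15, pe_16, pe_17, pe_18, pe_19, pe_20, pe_21, pe_22, pe_23, pe_24, pe_25, pe_26, pe_27, pe_28, pe_29, pe_30, pe_31, pe_32, pe_33, pe_34, pe_35, pe_36, pe_37, pe_38, pe_39, pe_40, pe_41, pe_42, pe_43, pe_44, prF_k, coF_k, lc1_k, lc2_k, lc3_k, lc4_k, lc5_k, lc6_k, lc7_k, lc8_k, lc9_k]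

lemma b1_k (k1 k2 c0 c1 c2 c3 c4 c5 c6 c7 c8 c9 : ℕ) :
    Nat.ble (Nat.mul (ctF (osF k1 k2 c0) (osF k1 k2 c1) (osF k1 k2 c2) (osF k1 k2 c3) (osF k1 k2 c4) (osF k1 k2 c5) (osF k1 k2 c6) (osF k1 k2 c7) (osF k1 k2 c8) (osF k1 k2 c9)) (ctF (odF k1 c0) (odF k1 c1) (odF k1 c2) (odF k1 c3) (odF k1 c4) (odF k1 c5) (odF k1 c6) (odF k1 c7) (odF k1 c8) (odF k1 c9))) (ctF (Nat.mul (osF k1 k2 c0) (odF k1 c0)) (Nat.mul (osF k1 k2 c1) (odF k1 c1)) (Nat.mul (osF k1 k2 c2) (odF k1 c2)) (Nat.mul (osF k1 k2 c3) (odF k1 c3)) (Nat.mul (osF k1 k2 c4) (odF k1 c4)) (Nat.mul (osF k1 k2 c5) (odF k1 c5)) (Nat.mul (osF k1 k2 c6) (odF k1 c6)) (Nat.mul (osF k1 k2 c7) (odF k1 c7)) (Nat.mul (osF k1 k2 c8) (odF k1 c8)) (Nat.mul (osF k1 k2 c9) (odF k1 c9))) =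
    Nat.ble (Nat.mul (cnt (osh k1 k2 c0) (osh k1 k2 c1) (osh k1 k2 c2) (osh k1 k2 c3) (osh k1 k2 c4) (osh k1 k2 c5) (osh k1 k2 c6) (osh k1 k2 c7) (osh k1 k2 c8) (osh k1 k2 c9)) (cnt (odp k1 c0) (odp k1 c1) (odp k1 c2) (odp k1 c3) (odp k1 c4) (odp k1 c5) (odp k1 c6) (odp k1 c7) (odp k1 c8) (odp k1 c9))) (cnb (osh k1 k2 c0) (osh k1 k2 c1) (osh k1 k2 c2) (osh k1 k2 c3) (osh k1 k2 c4) (osh k1 k2 c5) (osh k1 k2 c6) (osh k1 k2 c7) (osh k1 k2 c8) (osh k1 k2 c9) (odp k1 c0) (odp k1 c1) (odp k1 c2) (odp k1 c3) (odp k1 c4) (odp k1 c5) (odp k1 c6) (odp k1 c7) (odp k1 c8) (odp k1 c9)) := by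
  unfold cnb
  simp only [odF_k, osF_k, ctF_k]

lemma b2_k (k1 c0 c1 c2 c3 c4 c5 c6 c7 c8 c9 : ℕ) : Nat.ble (nat_lit 2) (ctF (odF k1 c0) (odF k1 c1) (odF k1 c2) (odF k1 c3) (odF k1 c4) (odF k1 c5) (odF k1 c6) (odF k1 c7) (odF k1 c8) (odF k1 c9)) = Nat.ble 2 (cnt (odp k1 c0) (odp k1 c1) (odp k1 c2) (odp k1 c3) (odp k1 c4) (odp k1 c5) (odp k1 c6) (odp k1 c7) (odp k1 c8) (odp k1 c9)) := by
  simp only [odF_k, ctF_k]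

lemma b0_k (k1 k2 c0 c1 c2 c3 c4 c5 c6 c7 c8 c9 : ℕ) : Nat.ble (nat_lit 2) (ctF (osF k1 k2 c0) (osF k1 k2 c1) (osF k1 k2 c2) (osF k1 k2 c3) (osF k1 k2 c4) (osF k1 k2 c5) (osF k1 k2 c6) (osF k1 k2 c7) (osF k1 k2 c8) (osF k1 k2 c9)) = Nat.ble 2 (cnt (osh k1 k2 c0) (osh k1 k2 c1) (osh k1 k2 c2) (osh k1 k2 c3) (osh k1 k2 c4) (osh k1 k2 c5) (osh k1 k2 c6) (osh k1 k2 c7) (osh k1 k2 c8) (osh k1 k2 c9)) := by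
  simp only [osF_k, ctF_k]

lemma g2F_k (k1 k2 K M c0 c1 c2 c3 c4 c5 c6 c7 c8 c9 v0 v1 v2 v3 v4 v5 v6 v7 v8 v9 D : ℕ) : g2F k1 k2 K M c0 c1 c2 c3 c4 c5 c6 c7 c8 c9 v0 v1 v2 v3 v4 v5 v6 v7 v8 v9 D = cls2 k1 k2 K M c0 c1 c2 c3 c4 c5 c6 c7 c8 c9 v0 v1 v2 v3 v4 v5 v6 v7 v8 v9 D := by
  unfold g2F cls2
  refine cc (b2_k _ _ _ _ _ _ _ _ _ _ _) ?_ rfl
  refine fc rfl fun l => fc rfl fun D => 
    stR_k (oeF_k l K k1 k2 c0 v0) (odF_k k1 c0) _ fun t0 D => 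
    stR_k (oeF_k l K k1 k2 c1 v1) (odF_k k1 c1) _ fun t1 D => 
    stR_k (oeF_k l K k1 k2 c2 v2) (odF_k k1 c2) _ fun t2 D => 
    stR_k (oeF_k l K k1 k2 c3 v3) (odF_k k1 c3) _ fun t3 D => 
    stR_k (oeF_k l K k1 k2 c4 v4) (odF_k k1 c4) _ fun t4 D => 
    stR_k (oeF_k l K k1 k2 c5 v5) (odF_k k1 c5) _ fun t5 D => 
    stR_k (oeF_k l K k1 k2 c6 v6) (odF_k k1 c6) _ fun t6 D => 
    stR_k (oeF_k l K k1 k2 c7 v7) (odF_k k1 c7) _ fun t7 D => 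
    stR_k (oeF_k l K k1 k2 c8 v8) (odF_k k1 c8) _ fun t8 D => 
    stR_k (oeF_k l K k1 k2 c9 v9) (odF_k k1 c9) _ fun t9 D => tsF_k M l c0 c1 c2 c3 c4 c5 c6 c7 c8 c9 v0 v1 v2 v3 v4 v5 v6 v7 v8 v9 t0 t1 t2 t3 t4 t5 t6 t7 t8 t9

lemma g1F_k (k1 k2 K M c0 c1 c2 c3 c4 c5 c6 c7 c8 c9 v0 v1 v2 v3 v4 v5 v6 v7 v8 v9 D : ℕ) : g1F k1 k2 K M c0 c1 c2 c3 c4 c5 c6 c7 c8 c9 v0 v1 v2 v3 v4 v5 v6 v7 v8 v9 D = cls1 k1 k2 K M c0 c1 c2 c3 c4 c5 c6 c7 c8 c9 v0 v1 v2 v3 v4 v5 v6 v7 v8 v9 D := by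
  unfold g1F cls1
  refine cc (b1_k _ _ _ _ _ _ _ _ _ _ _ _) (g2F_k _ _ _ _ _ _ _ _ _ _ _ _ _ _  _ _ _ _ _ _ _ _ _ _  _) ?_
  refine fc rfl fun l => fc rfl fun D => 
    stR_k (okF_k l K k1 k2 c0 v0) (osF_k k1 k2 c0) _ fun s0 D => 
    stR_k (oeF_k l K k1 k2 c0 v0) (odF_k k1 c0) _ fun d0 D => 
    stR_k (okF_k l K k1 k2 c1 v1) (osF_k k1 k2 c1) _ fun s1 D => 
    stR_k (oeF_k l K k1 k2 c1 v1) (odF_k k1 c1) _ fun d1 D => 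
    stR_k (okF_k l K k1 k2 c2 v2) (osF_k k1 k2 c2) _ fun s2 D => 
    stR_k (oeF_k l K k1 k2 c2 v2) (odF_k k1 c2) _ fun d2 D => 
    stR_k (okF_k l K k1 k2 c3 v3) (osF_k k1 k2 c3) _ fun s3 D => 
    stR_k (oeF_k l K k1 k2 c3 v3) (odF_k k1 c3) _ fun d3 D => 
    stR_k (okF_k l K k1 k2 c4 v4) (osF_k k1 k2 c4) _ fun s4 D => 
    stR_k (oeF_k l K k1 k2 c4 v4) (odF_k k1 c4) _ fun d4 D => 
    stR_k (okF_k l K k1 k2 c5 v5) (osF_k k1 k2 c5) _ fun s5 D => 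
    stR_k (oeF_k l K k1 k2 c5 v5) (odF_k k1 c5) _ fun d5 D => 
    stR_k (okF_k l K k1 k2 c6 v6) (osF_k k1 k2 c6) _ fun s6 D => 
    stR_k (oeF_k l K k1 k2 c6 v6) (odF_k k1 c6) _ fun d6 D => 
    stR_k (okF_k l K k1 k2 c7 v7) (osF_k k1 k2 c7) _ fun s7 D => 
    stR_k (oeF_k l K k1 k2 c7 v7) (odF_k k1 c7) _ fun d7 D => 
    stR_k (okF_k l K k1 k2 c8 v8) (osF_k k1 k2 c8) _ fun s8 D => 
    stR_k (oeF_k l K k1 k2 c8 v8) (odF_k k1 c8) _ fun d8 D => 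
    stR_k (okF_k l K k1 k2 c9 v9) (osF_k k1 k2 c9) _ fun s9 D => 
    stR_k (oeF_k l K k1 k2 c9 v9) (odF_k k1 c9) _ fun d9 D => 
    an (tmF_k M l c0 c1 c2 c3 c4 c5 c6 c7 c8 c9 v0 v1 v2 v3 v4 v5 v6 v7 v8 v9 s0 s1 s2 s3 s4 s5 s6 s7 s8 s9 d0 d1 d2 d3 d4 d5 d6 d7 d8 d9) (g2F_k k1 k2 K M c0 c1 c2 c3 c4 c5 c6 c7 c8 c9 v0 v1 v2 v3 v4 v5 v6 v7 v8 v9 D)

lemma g0F_k (k1 k2 K M c0 c1 c2 c3 c4 c5 c6 c7 c8 c9 v0 v1 v2 v3 v4 v5 v6 v7 v8 v9 D : ℕ) : g0F k1 k2 K M c0 c1 c2 c3 c4 c5 c6 c7 c8 c9 v0 v1 v2 v3 v4 v5 v6 v7 v8 v9 D = cls0 k1 k2 K M c0 c1 c2 c3 c4 c5 c6 c7 c8 c9 v0 v1 v2 v3 v4 v5 v6 v7 v8 v9 D := by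
  unfold g0F cls0
  refine cc (b0_k _ _ _ _ _ _ _ _ _ _ _ _) ?_ (an (tzF_k M c0 c1 c2 c3 c4 c5 c6 c7 c8 c9 v0 v1 v2 v3 v4 v5 v6 v7 v8 v9) (g1F_k k1 k2 K M c0 c1 c2 c3 c4 c5 c6 c7 c8 c9 v0 v1 v2 v3 v4 v5 v6 v7 v8 v9 D))
  refine fc rfl fun l => fc rfl fun D => 
    stR_k (okF_k l K k1 k2 c0 v0) (osF_k k1 k2 c0) _ fun t0 D => 
    stR_k (okF_k l K k1 k2 c1 v1) (osF_k k1 k2 c1) _ fun t1 D => 
    stR_k (okF_k l K k1 k2 c2 v2) (osF_k k1 k2 c2) _ fun t2 D => 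
    stR_k (okF_k l K k1 k2 c3 v3) (osF_k k1 k2 c3) _ fun t3 D => 
    stR_k (okF_k l K k1 k2 c4 v4) (osF_k k1 k2 c4) _ fun t4 D => 
    stR_k (okF_k l K k1 k2 c5 v5) (osF_k k1 k2 c5) _ fun t5 D => 
    stR_k (okF_k l K k1 k2 c6 v6) (osF_k k1 k2 c6) _ fun t6 D => 
    stR_k (okF_k l K k1 k2 c7 v7) (osF_k k1 k2 c7) _ fun t7 D => 
    stR_k (okF_k l K k1 k2 c8 v8) (osF_k k1 k2 c8) _ fun t8 D => 
    stR_k (okF_k l K k1 k2 c9 v9) (osF_k k1 k2 c9) _ fun t9 D => 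
    an (tsF_k M l c0 c1 c2 c3 c4 c5 c6 c7 c8 c9 v0 v1 v2 v3 v4 v5 v6 v7 v8 v9 t0 t1 t2 t3 t4 t5 t6 t7 t8 t9) (g1F_k k1 k2 K M c0 c1 c2 c3 c4 c5 c6 c7 c8 c9 v0 v1 v2 v3 v4 v5 v6 v7 v8 v9 D)

lemma mnF_k (k1 k2 K M c0 c1 c2 c3 c4 c5 c6 c7 c8 c9 v0 v1 v2 v3 v4 v5 v6 v7 v8 v9 D : ℕ) : mnF k1 k2 K M c0 c1 c2 c3 c4 c5 c6 c7 c8 c9 v0 v1 v2 v3 v4 v5 v6 v7 v8 v9 D = mainD k1 k2 K M c0 c1 c2 c3 c4 c5 c6 c7 c8 c9 v0 v1 v2 v3 v4 v5 v6 v7 v8 v9 D := by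
  unfold mnF mainD
  exact cc rfl (cc rfl (cc (slF_k K k1 k2 c0 v0) (cc (slF_k K k1 k2 c1 v1) (cc (slF_k K k1 k2 c2 v2) (cc (slF_k K k1 k2 c3 v3) (cc (slF_k K k1 k2 c4 v4) (cc (slF_k K k1 k2 c5 v5) (cc (slF_k K k1 k2 c6 v6) (cc (slF_k K k1 k2 c7 v7) (cc (slF_k K k1 k2 c8 v8) (cc (slF_k K k1 k2 c9 v9) (g0F_k k1 k2 K M c0 c1 c2 c3 c4 c5 c6 c7 c8 c9 v0 v1 v2 v3 v4 v5 v6 v7 v8 v9 D) rfl) rfl) rfl) rfl) rfl) rfl) rfl) rfl) rfl) rfl) rfl) rfl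


end Pool.Agent.Helper98.FD
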