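import Pool.Agent.Helper98.DL.FEqC
import Pool.Agent.Helper98.DL.DS7

set_option autoImplicit false
set_option maxRecDepth 100000
set_option exponentiation.threshold 5000

/-! # The light check of a direction leaf is equal to the check, part 4: reading -/

namespace Pool.Agent.Helper98.FD

open Pool.Agent.Helper98 Pool.Agent.Helper98.DL Pool.Agent.Helper65

lemma neF_k (c P w : ℕ) : neF c P w = cb (Nat.ble (KR.ty c P w) 3)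
    (Nat.succ (Nat.add c (Nat.add (Nat.mul 262144 P) (Nat.mul 17179869184 (Nat.add P w))))) 0 :=
  cc (congrArg (fun f => Nat.ble (f c P w) 3) ty_k) rfl rfl

lemma ndE_k (c P w D : ℕ) (k : ℕ → ℕ → ℕ) :
    ndE c P w D k = nb (neF c P w) 0 (fun n => k n D) := by
  rw [neF_k]
  unfold ndE
  generalize Nat.ble (KR.ty c P w) 3 = b
  cases b
  · rfl
  · rw [cb_true, cb_true, fz_pr]; rfl

lemma crA_k (a b : ℕ) : crA a b = cb (Nat.ble 48 a) (cb (Nat.beq a 48) 2 0) (cb (Nat.ble 48 b) 1 0) :=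
  cc rfl (cc rfl rfl rfl) (cc rfl rfl rfl)

lemma crF_k (c : ℕ) : crF c = crs c := by
  unfold crs
  exact crA_k (lo c) (hi c)

lemma ccA_k (a b : ℕ) : ccA a b = cb (Nat.ble 1280 a) (cb (Nat.ble b 6144)
    (Nat.succ (Nat.add (Nat.div (Nat.sub a 1280) 16) (Nat.mul 512 (Nat.div (Nat.sub b 1265) 16))))
    0) 0 := cc rfl (cc rfl rfl rfl) rfl

lemma ccF_k (g : ℕ) : ccF g = cellC g := by
  unfold cellC
  rw [fz_pr, fz_pr]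
  exact ccA_k (Nat.mod g 65536) (Nat.div g 65536)

lemma tvF_k (r k1 K : ℕ) : tvF r k1 K = tvM r k1 K :=
  nc rfl rfl fun _ => nc rfl (nc rfl rfl fun _ => rfl) fun _ => rfl

lemma fdF_k (L k : ℕ) : fdF L k = fdK L k := rfl

lemma b1F_k (L : ℕ) : b1F L = bk1 L :=
  congrArg (fun x => Nat.sub (Nat.mod x 65536) 32768) (fdF_k L 1)

lemma b2F_k (L : ℕ) : b2F L = bk2 L :=
  congrArg (fun x => Nat.sub (Nat.div x 65536) 32768) (fdF_k L 1)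

lemma kKF_k (D : ℕ) : kKF D = pK D := rfl

lemma ndS_k (tv g D : ℕ) (k : ℕ → ℕ → ℕ) : ndS tv g D k =
    nb (nnF tv (cellC g) D) 0 (fun n => k n (npF tv (cellC g) D)) := by
  unfold ndS
  generalize cellC g = c'
  cases c' with
  | zero => rfl
  | succ c =>
    rw [nb_succ, fz_pr, fz_pr]
    have h1 : nnF tv (c + 1) D = neF c (Nat.mod D 65536) (wdF tv (crF c) (Nat.div D 65536)) := rfl
    have h2 : npF tv (c + 1) D = exF tv (crF c) (Nat.div D 65536) := rfl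
    rw [h1, h2, crF_k]
    generalize Nat.mod D 65536 = P
    generalize Nat.div D 65536 = E
    generalize crs c = x
    cases tv with
    | zero => rw [nb_zero, ndE_k]; rfl
    | succ m =>
      rw [nb_succ]
      cases x with
      | zero => rw [nb_zero, ndE_k]; rfl
      | succ x =>
        rw [nb_succ]
        cases x with
        | zero => rw [nb_zero, fz_pr, fz_pr, ndE_k]; rfl
        | succ y => rw [nb_succ, ndE_k]; rfl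

lemma ne_NS {c P w n : ℕ} (h : neF c P w = n + 1) :
    KR.ty c P w ≤ 3 ∧ n = c + (262144 * P + 17179869184 * (P + w)) := by
  rw [neF_k] at h
  cases hb : Nat.ble (KR.ty c P w) 3 with
  | false => rw [hb, cb_false] at h; exact absurd h (Nat.succ_ne_zero n).symm
  | true =>
    rw [hb, cb_true] at h
    exact ⟨Nat.le_of_ble_eq_true hb, (Nat.succ.inj h).symm⟩

lemma nn_NS {tv g D n : ℕ} (h : nnF tv (cellC g) D = n + 1) : NS g n := by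
  cases hg : cellC g with
  | zero => rw [hg] at h; exact absurd h (Nat.succ_ne_zero n).symm
  | succ c =>
    rw [hg] at h
    have h1 : nnF tv (c + 1) D = neF c (Nat.mod D 65536) (wdF tv (crF c) (Nat.div D 65536)) := rfl
    rw [h1] at h
    obtain ⟨h2, h3⟩ := ne_NS h
    exact ⟨c, _, _, hg, Nat.mod_lt _ (by norm_num), h2, h3⟩

lemma NS_lt {g n : ℕ} (h : NS g n) : n + 1 < 18446744073709551616 := by
  obtain ⟨c, P, w, hc, hP, hty, rfl⟩ := h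
  have h4 : c < 262144 := by
    unfold cellC at hc
    rw [fz_pr, fz_pr] at hc
    have ha : g % 65536 < 65536 := Nat.mod_lt _ (by norm_num)
    change cb (Nat.ble 1280 (g % 65536)) (cb (Nat.ble (g / 65536) 6144)
      (Nat.succ (Nat.add (Nat.div (Nat.sub (g % 65536) 1280) 16)
        (Nat.mul 512 (Nat.div (Nat.sub (g / 65536) 1265) 16)))) 0) 0 = c + 1 at hc
    generalize g % 65536 = a at hc ha
    generalize g / 65536 = b at hc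
    cases hb1 : Nat.ble 1280 a with
    | false => rw [hb1, cb_false] at hc; exact absurd hc (Nat.succ_ne_zero c).symm
    | true =>
      rw [hb1, cb_true] at hc
      cases hb2 : Nat.ble b 6144 with
      | false => rw [hb2, cb_false] at hc; exact absurd hc (Nat.succ_ne_zero c).symm
      | true =>
        rw [hb2, cb_true] at hc
        have k1 : 1280 ≤ a := Nat.le_of_ble_eq_true hb1
        have k2 : b ≤ 6144 := Nat.le_of_ble_eq_true hb2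
        clear hb1 hb2
        have hc' : (a - 1280) / 16 + 512 * ((b - 1265) / 16) = c := Nat.succ.inj hc
        clear hc
        omega
  have hPw : P + w ≤ 65535 := by
    rcases KR.ty_cases c P w with ⟨-, h6, -⟩ | ⟨-, h6, -⟩ | ⟨-, h6, -⟩ | ⟨-, -, -, h6, -⟩ | h6
    · omega
    · omega
    · omega
    · exact h6
    · omega
  omega

lemma pk_ne {A B D Y : ℕ} (h : pkF A B D = Y + 1) : B ≠ 0 ∧ Y = A + 2 ^ 640 * D := by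
  cases B with
  | zero => exact absurd h (Nat.succ_ne_zero Y).symm
  | succ b =>
    have h' : Nat.succ (Nat.add A (Nat.mul (Nat.pow 2 640) D)) = Y + 1 := h
    exact ⟨Nat.succ_ne_zero b, (Nat.succ.inj h').symm⟩

lemma st_ne {A m s B : ℕ} (h : Nat.mul B m ≠ 0) :
    B ≠ 0 ∧ (∃ n, m = n + 1) ∧ Nat.add A (Nat.shiftLeft m s) = A + m * 2 ^ s := by
  have h' : B * m ≠ 0 := h
  refine ⟨left_ne_zero_of_mul h', Nat.exists_eq_succ_of_ne_zero (right_ne_zero_of_mul h'), ?_⟩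
  exact congrArg (A + ·) (Nat.shiftLeft_eq m s)

lemma r9 {tv L A B D Y : ℕ} (h : rd9F tv L A B D = Y + 1) : B ≠ 0 ∧ ∃ n9 E10, nnF tv (cellC (fdK L 11)) D = n9 + 1 ∧
    npF tv (cellC (fdK L 11)) D = E10 ∧
    Y = A + (n9 + 1) * 2 ^ 576 + 2 ^ 640 * E10 := by
  have h0 : rd9F tv L A B D = pkF (Nat.add A (Nat.shiftLeft (nnF tv (cellC (fdK L 11)) D) 576)) (Nat.mul B (nnF tv (cellC (fdK L 11)) D)) (npF tv (cellC (fdK L 11)) D) := by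
    unfold rd9F rc9F
    rw [ccF_k, fdF_k]
  rw [h0] at h
  obtain ⟨hB, hY⟩ := pk_ne h
  obtain ⟨h1, ⟨n9, hn⟩, h2⟩ := st_ne (A := A) (s := 576) hB
  rw [h2, hn] at hY
  exact ⟨h1, n9, _, hn, rfl, hY⟩

lemma r8 {tv L A B D Y : ℕ} (h : rd8F tv L A B D = Y + 1) : B ≠ 0 ∧ ∃ n8 n9 E9 E10, nnF tv (cellC (fdK L 10)) D = n8 + 1 ∧
    npF tv (cellC (fdK L 10)) D = E9 ∧
    nnF tv (cellC (fdK L 11)) E9 = n9 + 1 ∧
    npF tv (cellC (fdK L 11)) E9 = E10 ∧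
    Y = A + (n8 + 1) * 2 ^ 512 + (n9 + 1) * 2 ^ 576 + 2 ^ 640 * E10 := by
  have h0 : rd8F tv L A B D = rd9F tv L (Nat.add A (Nat.shiftLeft (nnF tv (cellC (fdK L 10)) D) 512)) (Nat.mul B (nnF tv (cellC (fdK L 10)) D)) (npF tv (cellC (fdK L 10)) D) := by
    unfold rd8F rc8F
    rw [ccF_k, fdF_k]
  rw [h0] at h
  obtain ⟨hB, n9, E10, a9, b9, hY⟩ := r9 h
  obtain ⟨h1, ⟨n8, hn⟩, h2⟩ := st_ne (A := A) (s := 512) hB
  rw [h2, hn] at hY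
  exact ⟨h1, n8, n9, _, E10, hn, rfl, a9, b9, hY⟩

lemma r7 {tv L A B D Y : ℕ} (h : rd7F tv L A B D = Y + 1) : B ≠ 0 ∧ ∃ n7 n8 n9 E8 E9 E10, nnF tv (cellC (fdK L 9)) D = n7 + 1 ∧
    npF tv (cellC (fdK L 9)) D = E8 ∧
    nnF tv (cellC (fdK L 10)) E8 = n8 + 1 ∧
    npF tv (cellC (fdK L 10)) E8 = E9 ∧
    nnF tv (cellC (fdK L 11)) E9 = n9 + 1 ∧
    npF tv (cellC (fdK L 11)) E9 = E10 ∧
    Y = A + (n7 + 1) * 2 ^ 448 + (n8 + 1) * 2 ^ 512 + (n9 + 1) * 2 ^ 576 + 2 ^ 640 * E10 := by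
  have h0 : rd7F tv L A B D = rd8F tv L (Nat.add A (Nat.shiftLeft (nnF tv (cellC (fdK L 9)) D) 448)) (Nat.mul B (nnF tv (cellC (fdK L 9)) D)) (npF tv (cellC (fdK L 9)) D) := by
    unfold rd7F rc7F
    rw [ccF_k, fdF_k]
  rw [h0] at h
  obtain ⟨hB, n8, n9, E9, E10, a8, b8, a9, b9, hY⟩ := r8 h
  obtain ⟨h1, ⟨n7, hn⟩, h2⟩ := st_ne (A := A) (s := 448) hB
  rw [h2, hn] at hY
  exact ⟨h1, n7, n8, n9, _, E9, E10, hn, rfl, a8, b8, a9, b9, hY⟩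

lemma r6 {tv L A B D Y : ℕ} (h : rd6F tv L A B D = Y + 1) : B ≠ 0 ∧ ∃ n6 n7 n8 n9 E7 E8 E9 E10, nnF tv (cellC (fdK L 8)) D = n6 + 1 ∧
    npF tv (cellC (fdK L 8)) D = E7 ∧
    nnF tv (cellC (fdK L 9)) E7 = n7 + 1 ∧
    npF tv (cellC (fdK L 9)) E7 = E8 ∧
    nnF tv (cellC (fdK L 10)) E8 = n8 + 1 ∧
    npF tv (cellC (fdK L 10)) E8 = E9 ∧
    nnF tv (cellC (fdK L 11)) E9 = n9 + 1 ∧
    npF tv (cellC (fdK L 11)) E9 = E10 ∧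
    Y = A + (n6 + 1) * 2 ^ 384 + (n7 + 1) * 2 ^ 448 + (n8 + 1) * 2 ^ 512 + (n9 + 1) * 2 ^ 576 + 2 ^ 640 * E10 := by
  have h0 : rd6F tv L A B D = rd7F tv L (Nat.add A (Nat.shiftLeft (nnF tv (cellC (fdK L 8)) D) 384)) (Nat.mul B (nnF tv (cellC (fdK L 8)) D)) (npF tv (cellC (fdK L 8)) D) := by
    unfold rd6F rc6F
    rw [ccF_k, fdF_k]
  rw [h0] at h
  obtain ⟨hB, n7, n8, n9, E8, E9, E10, a7, b7, a8, b8, a9, b9, hY⟩ := r7 h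
  obtain ⟨h1, ⟨n6, hn⟩, h2⟩ := st_ne (A := A) (s := 384) hB
  rw [h2, hn] at hY
  exact ⟨h1, n6, n7, n8, n9, _, E8, E9, E10, hn, rfl, a7, b7, a8, b8, a9, b9, hY⟩

lemma r5 {tv L A B D Y : ℕ} (h : rd5F tv L A B D = Y + 1) : B ≠ 0 ∧ ∃ n5 n6 n7 n8 n9 E6 E7 E8 E9 E10, nnF tv (cellC (fdK L 7)) D = n5 + 1 ∧
    npF tv (cellC (fdK L 7)) D = E6 ∧
    nnF tv (cellC (fdK L 8)) E6 = n6 + 1 ∧
    npF tv (cellC (fdK L 8)) E6 = E7 ∧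
    nnF tv (cellC (fdK L 9)) E7 = n7 + 1 ∧
    npF tv (cellC (fdK L 9)) E7 = E8 ∧
    nnF tv (cellC (fdK L 10)) E8 = n8 + 1 ∧
    npF tv (cellC (fdK L 10)) E8 = E9 ∧
    nnF tv (cellC (fdK L 11)) E9 = n9 + 1 ∧
    npF tv (cellC (fdK L 11)) E9 = E10 ∧
    Y = A + (n5 + 1) * 2 ^ 320 + (n6 + 1) * 2 ^ 384 + (n7 + 1) * 2 ^ 448 + (n8 + 1) * 2 ^ 512 + (n9 + 1) * 2 ^ 576 + 2 ^ 640 * E10 := by
  have h0 : rd5F tv L A B D = rd6F tv L (Nat.add A (Nat.shiftLeft (nnF tv (cellC (fdK L 7)) D) 320)) (Nat.mul B (nnF tv (cellC (fdK L 7)) D)) (npF tv (cellC (fdK L 7)) D) := by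
    unfold rd5F rc5F
    rw [ccF_k, fdF_k]
  rw [h0] at h
  obtain ⟨hB, n6, n7, n8, n9, E7, E8, E9, E10, a6, b6, a7, b7, a8, b8, a9, b9, hY⟩ := r6 h
  obtain ⟨h1, ⟨n5, hn⟩, h2⟩ := st_ne (A := A) (s := 320) hB
  rw [h2, hn] at hY
  exact ⟨h1, n5, n6, n7, n8, n9, _, E7, E8, E9, E10, hn, rfl, a6, b6, a7, b7, a8, b8, a9, b9, hY⟩

lemma r4 {tv L A B D Y : ℕ} (h : rd4F tv L A B D = Y + 1) : B ≠ 0 ∧ ∃ n4 n5 n6 n7 n8 n9 E5 E6 E7 E8 E9 E10, nnF tv (cellC (fdK L 6)) D = n4 + 1 ∧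
    npF tv (cellC (fdK L 6)) D = E5 ∧
    nnF tv (cellC (fdK L 7)) E5 = n5 + 1 ∧
    npF tv (cellC (fdK L 7)) E5 = E6 ∧
    nnF tv (cellC (fdK L 8)) E6 = n6 + 1 ∧
    npF tv (cellC (fdK L 8)) E6 = E7 ∧
    nnF tv (cellC (fdK L 9)) E7 = n7 + 1 ∧
    npF tv (cellC (fdK L 9)) E7 = E8 ∧
    nnF tv (cellC (fdK L 10)) E8 = n8 + 1 ∧
    npF tv (cellC (fdK L 10)) E8 = E9 ∧
    nnF tv (cellC (fdK L 11)) E9 = n9 + 1 ∧
    npF tv (cellC (fdK L 11)) E9 = E10 ∧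
    Y = A + (n4 + 1) * 2 ^ 256 + (n5 + 1) * 2 ^ 320 + (n6 + 1) * 2 ^ 384 + (n7 + 1) * 2 ^ 448 + (n8 + 1) * 2 ^ 512 + (n9 + 1) * 2 ^ 576 + 2 ^ 640 * E10 := by
  have h0 : rd4F tv L A B D = rd5F tv L (Nat.add A (Nat.shiftLeft (nnF tv (cellC (fdK L 6)) D) 256)) (Nat.mul B (nnF tv (cellC (fdK L 6)) D)) (npF tv (cellC (fdK L 6)) D) := by
    unfold rd4F rc4F
    rw [ccF_k, fdF_k]
  rw [h0] at h
  obtain ⟨hB, n5, n6, n7, n8, n9, E6, E7, E8, E9, E10, a5, b5, a6, b6, a7, b7, a8, b8, a9, b9, hY⟩ := r5 h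
  obtain ⟨h1, ⟨n4, hn⟩, h2⟩ := st_ne (A := A) (s := 256) hB
  rw [h2, hn] at hY
  exact ⟨h1, n4, n5, n6, n7, n8, n9, _, E6, E7, E8, E9, E10, hn, rfl, a5, b5, a6, b6, a7, b7, a8, b8, a9, b9, hY⟩

lemma r3 {tv L A B D Y : ℕ} (h : rd3F tv L A B D = Y + 1) : B ≠ 0 ∧ ∃ n3 n4 n5 n6 n7 n8 n9 E4 E5 E6 E7 E8 E9 E10, nnF tv (cellC (fdK L 5)) D = n3 + 1 ∧
    npF tv (cellC (fdK L 5)) D = E4 ∧
    nnF tv (cellC (fdK L 6)) E4 = n4 + 1 ∧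
    npF tv (cellC (fdK L 6)) E4 = E5 ∧
    nnF tv (cellC (fdK L 7)) E5 = n5 + 1 ∧
    npF tv (cellC (fdK L 7)) E5 = E6 ∧
    nnF tv (cellC (fdK L 8)) E6 = n6 + 1 ∧
    npF tv (cellC (fdK L 8)) E6 = E7 ∧
    nnF tv (cellC (fdK L 9)) E7 = n7 + 1 ∧
    npF tv (cellC (fdK L 9)) E7 = E8 ∧
    nnF tv (cellC (fdK L 10)) E8 = n8 + 1 ∧
    npF tv (cellC (fdK L 10)) E8 = E9 ∧
    nnF tv (cellC (fdK L 11)) E9 = n9 + 1 ∧
    npF tv (cellC (fdK L 11)) E9 = E10 ∧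
    Y = A + (n3 + 1) * 2 ^ 192 + (n4 + 1) * 2 ^ 256 + (n5 + 1) * 2 ^ 320 + (n6 + 1) * 2 ^ 384 + (n7 + 1) * 2 ^ 448 + (n8 + 1) * 2 ^ 512 + (n9 + 1) * 2 ^ 576 + 2 ^ 640 * E10 := by
  have h0 : rd3F tv L A B D = rd4F tv L (Nat.add A (Nat.shiftLeft (nnF tv (cellC (fdK L 5)) D) 192)) (Nat.mul B (nnF tv (cellC (fdK L 5)) D)) (npF tv (cellC (fdK L 5)) D) := by
    unfold rd3F rc3F
    rw [ccF_k, fdF_k]
  rw [h0] at h
  obtain ⟨hB, n4, n5, n6, n7, n8, n9, E5, E6, E7, E8, E9, E10, a4, b4, a5, b5, a6, b6, a7, b7, a8, b8, a9, b9, hY⟩ := r4 h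
  obtain ⟨h1, ⟨n3, hn⟩, h2⟩ := st_ne (A := A) (s := 192) hB
  rw [h2, hn] at hY
  exact ⟨h1, n3, n4, n5, n6, n7, n8, n9, _, E5, E6, E7, E8, E9, E10, hn, rfl, a4, b4, a5, b5, a6, b6, a7, b7, a8, b8, a9, b9, hY⟩

lemma r2 {tv L A B D Y : ℕ} (h : rd2F tv L A B D = Y + 1) : B ≠ 0 ∧ ∃ n2 n3 n4 n5 n6 n7 n8 n9 E3 E4 E5 E6 E7 E8 E9 E10, nnF tv (cellC (fdK L 4)) D = n2 + 1 ∧
    npF tv (cellC (fdK L 4)) D = E3 ∧
    nnF tv (cellC (fdK L 5)) E3 = n3 + 1 ∧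
    npF tv (cellC (fdK L 5)) E3 = E4 ∧
    nnF tv (cellC (fdK L 6)) E4 = n4 + 1 ∧
    npF tv (cellC (fdK L 6)) E4 = E5 ∧
    nnF tv (cellC (fdK L 7)) E5 = n5 + 1 ∧
    npF tv (cellC (fdK L 7)) E5 = E6 ∧
    nnF tv (cellC (fdK L 8)) E6 = n6 + 1 ∧
    npF tv (cellC (fdK L 8)) E6 = E7 ∧
    nnF tv (cellC (fdK L 9)) E7 = n7 + 1 ∧
    npF tv (cellC (fdK L 9)) E7 = E8 ∧
    nnF tv (cellC (fdK L 10)) E8 = n8 + 1 ∧
    npF tv (cellC (fdK L 10)) E8 = E9 ∧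
    nnF tv (cellC (fdK L 11)) E9 = n9 + 1 ∧
    npF tv (cellC (fdK L 11)) E9 = E10 ∧
    Y = A + (n2 + 1) * 2 ^ 128 + (n3 + 1) * 2 ^ 192 + (n4 + 1) * 2 ^ 256 + (n5 + 1) * 2 ^ 320 + (n6 + 1) * 2 ^ 384 + (n7 + 1) * 2 ^ 448 + (n8 + 1) * 2 ^ 512 + (n9 + 1) * 2 ^ 576 + 2 ^ 640 * E10 := by
  have h0 : rd2F tv L A B D = rd3F tv L (Nat.add A (Nat.shiftLeft (nnF tv (cellC (fdK L 4)) D) 128)) (Nat.mul B (nnF tv (cellC (fdK L 4)) D)) (npF tv (cellC (fdK L 4)) D) := by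
    unfold rd2F rc2F
    rw [ccF_k, fdF_k]
  rw [h0] at h
  obtain ⟨hB, n3, n4, n5, n6, n7, n8, n9, E4, E5, E6, E7, E8, E9, E10, a3, b3, a4, b4, a5, b5, a6, b6, a7, b7, a8, b8, a9, b9, hY⟩ := r3 h
  obtain ⟨h1, ⟨n2, hn⟩, h2⟩ := st_ne (A := A) (s := 128) hB
  rw [h2, hn] at hY
  exact ⟨h1, n2, n3, n4, n5, n6, n7, n8, n9, _, E4, E5, E6, E7, E8, E9, E10, hn, rfl, a3, b3, a4, b4, a5, b5, a6, b6, a7, b7, a8, b8, a9, b9, hY⟩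

lemma r1 {tv L A B D Y : ℕ} (h : rd1F tv L A B D = Y + 1) : B ≠ 0 ∧ ∃ n1 n2 n3 n4 n5 n6 n7 n8 n9 E2 E3 E4 E5 E6 E7 E8 E9 E10, nnF tv (cellC (fdK L 3)) D = n1 + 1 ∧
    npF tv (cellC (fdK L 3)) D = E2 ∧
    nnF tv (cellC (fdK L 4)) E2 = n2 + 1 ∧
    npF tv (cellC (fdK L 4)) E2 = E3 ∧
    nnF tv (cellC (fdK L 5)) E3 = n3 + 1 ∧
    npF tv (cellC (fdK L 5)) E3 = E4 ∧
    nnF tv (cellC (fdK L 6)) E4 = n4 + 1 ∧
    npF tv (cellC (fdK L 6)) E4 = E5 ∧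
    nnF tv (cellC (fdK L 7)) E5 = n5 + 1 ∧
    npF tv (cellC (fdK L 7)) E5 = E6 ∧
    nnF tv (cellC (fdK L 8)) E6 = n6 + 1 ∧
    npF tv (cellC (fdK L 8)) E6 = E7 ∧
    nnF tv (cellC (fdK L 9)) E7 = n7 + 1 ∧
    npF tv (cellC (fdK L 9)) E7 = E8 ∧
    nnF tv (cellC (fdK L 10)) E8 = n8 + 1 ∧
    npF tv (cellC (fdK L 10)) E8 = E9 ∧
    nnF tv (cellC (fdK L 11)) E9 = n9 + 1 ∧
    npF tv (cellC (fdK L 11)) E9 = E10 ∧
    Y = A + (n1 + 1) * 2 ^ 64 + (n2 + 1) * 2 ^ 128 + (n3 + 1) * 2 ^ 192 + (n4 + 1) * 2 ^ 256 + (n5 + 1) * 2 ^ 320 + (n6 + 1) * 2 ^ 384 + (n7 + 1) * 2 ^ 448 + (n8 + 1) * 2 ^ 512 + (n9 + 1) * 2 ^ 576 + 2 ^ 640 * E10 := by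
  have h0 : rd1F tv L A B D = rd2F tv L (Nat.add A (Nat.shiftLeft (nnF tv (cellC (fdK L 3)) D) 64)) (Nat.mul B (nnF tv (cellC (fdK L 3)) D)) (npF tv (cellC (fdK L 3)) D) := by
    unfold rd1F rc1F
    rw [ccF_k, fdF_k]
  rw [h0] at h
  obtain ⟨hB, n2, n3, n4, n5, n6, n7, n8, n9, E3, E4, E5, E6, E7, E8, E9, E10, a2, b2, a3, b3, a4, b4, a5, b5, a6, b6, a7, b7, a8, b8, a9, b9, hY⟩ := r2 h
  obtain ⟨h1, ⟨n1, hn⟩, h2⟩ := st_ne (A := A) (s := 64) hB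
  rw [h2, hn] at hY
  exact ⟨h1, n1, n2, n3, n4, n5, n6, n7, n8, n9, _, E3, E4, E5, E6, E7, E8, E9, E10, hn, rfl, a2, b2, a3, b3, a4, b4, a5, b5, a6, b6, a7, b7, a8, b8, a9, b9, hY⟩

lemma r0 {tv L A B D Y : ℕ} (h : rd0F tv L A B D = Y + 1) : B ≠ 0 ∧ ∃ n0 n1 n2 n3 n4 n5 n6 n7 n8 n9 E1 E2 E3 E4 E5 E6 E7 E8 E9 E10, nnF tv (cellC (fdK L 2)) D = n0 + 1 ∧
    npF tv (cellC (fdK L 2)) D = E1 ∧
    nnF tv (cellC (fdK L 3)) E1 = n1 + 1 ∧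
    npF tv (cellC (fdK L 3)) E1 = E2 ∧
    nnF tv (cellC (fdK L 4)) E2 = n2 + 1 ∧
    npF tv (cellC (fdK L 4)) E2 = E3 ∧
    nnF tv (cellC (fdK L 5)) E3 = n3 + 1 ∧
    npF tv (cellC (fdK L 5)) E3 = E4 ∧
    nnF tv (cellC (fdK L 6)) E4 = n4 + 1 ∧
    npF tv (cellC (fdK L 6)) E4 = E5 ∧
    nnF tv (cellC (fdK L 7)) E5 = n5 + 1 ∧
    npF tv (cellC (fdK L 7)) E5 = E6 ∧
    nnF tv (cellC (fdK L 8)) E6 = n6 + 1 ∧
    npF tv (cellC (fdK L 8)) E6 = E7 ∧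
    nnF tv (cellC (fdK L 9)) E7 = n7 + 1 ∧
    npF tv (cellC (fdK L 9)) E7 = E8 ∧
    nnF tv (cellC (fdK L 10)) E8 = n8 + 1 ∧
    npF tv (cellC (fdK L 10)) E8 = E9 ∧
    nnF tv (cellC (fdK L 11)) E9 = n9 + 1 ∧
    npF tv (cellC (fdK L 11)) E9 = E10 ∧
    Y = A + (n0 + 1) * 2 ^ 0 + (n1 + 1) * 2 ^ 64 + (n2 + 1) * 2 ^ 128 + (n3 + 1) * 2 ^ 192 + (n4 + 1) * 2 ^ 256 + (n5 + 1) * 2 ^ 320 + (n6 + 1) * 2 ^ 384 + (n7 + 1) * 2 ^ 448 + (n8 + 1) * 2 ^ 512 + (n9 + 1) * 2 ^ 576 + 2 ^ 640 * E10 := by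
  have h0 : rd0F tv L A B D = rd1F tv L (Nat.add A (nnF tv (cellC (fdK L 2)) D)) (Nat.mul B (nnF tv (cellC (fdK L 2)) D)) (npF tv (cellC (fdK L 2)) D) := by
    unfold rd0F rc0F
    rw [ccF_k, fdF_k]
  rw [h0] at h
  obtain ⟨hB, n1, n2, n3, n4, n5, n6, n7, n8, n9, E2, E3, E4, E5, E6, E7, E8, E9, E10, a1, b1, a2, b2, a3, b3, a4, b4, a5, b5, a6, b6, a7, b7, a8, b8, a9, b9, hY⟩ := r1 h
  obtain ⟨h1, ⟨n0, hn⟩, -⟩ := st_ne (A := A) (s := 0) hB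
  rw [hn] at hY
  have h3 : Nat.add A (n0 + 1) = A + (n0 + 1) * 2 ^ 0 := by rw [pow_zero, mul_one]; rfl
  rw [h3] at hY
  exact ⟨h1, n0, n1, n2, n3, n4, n5, n6, n7, n8, n9, _, E2, E3, E4, E5, E6, E7, E8, E9, E10, hn, rfl, a1, b1, a2, b2, a3, b3, a4, b4, a5, b5, a6, b6, a7, b7, a8, b8, a9, b9, hY⟩

lemma core {tv L E Y : ℕ} (h : rd0F tv L 0 1 E = Y + 1) : ∃ n0 n1 n2 n3 n4 n5 n6 n7 n8 n9 E', (NS (fdK L 2) n0 ∧ NS (fdK L 3) n1 ∧ NS (fdK L 4) n2 ∧ NS (fdK L 5) n3 ∧ NS (fdK L 6) n4 ∧ NS (fdK L 7) n5 ∧ NS (fdK L 8) n6 ∧ NS (fdK L 9) n7 ∧ NS (fdK L 10) n8 ∧ NS (fdK L 11) n9) ∧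
    Y = (n0 + 1) + 18446744073709551616 * ((n1 + 1) + 18446744073709551616 * ((n2 + 1) + 18446744073709551616 * ((n3 + 1) + 18446744073709551616 * ((n4 + 1) + 18446744073709551616 * ((n5 + 1) + 18446744073709551616 * ((n6 + 1) + 18446744073709551616 * ((n7 + 1) + 18446744073709551616 * ((n8 + 1) + 18446744073709551616 * ((n9 + 1) + 18446744073709551616 * E'))))))))) ∧
    rdN tv L E = (n0 + 18446744073709551616 * (n1 + 18446744073709551616 * (n2 + 18446744073709551616 * (n3 + 18446744073709551616 * (n4 + 18446744073709551616 * (n5 + 18446744073709551616 * (n6 + 18446744073709551616 * (n7 + 18446744073709551616 * (n8 + 18446744073709551616 * (n9 + 18446744073709551616 * E')))))))))) + 1 := by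
  obtain ⟨-, n0, n1, n2, n3, n4, n5, n6, n7, n8, n9, E1, E2, E3, E4, E5, E6, E7, E8, E9, E10, a0, b0, a1, b1, a2, b2, a3, b3, a4, b4, a5, b5, a6, b6, a7, b7, a8, b8, a9, b9, hY⟩ := r0 h
  have e : ∀ k, (2 : ℕ) ^ (64 * k) = 18446744073709551616 ^ k := fun k => by
    rw [show (18446744073709551616 : ℕ) = 2 ^ 64 by norm_num, ← pow_mul]
  refine ⟨n0, n1, n2, n3, n4, n5, n6, n7, n8, n9, E10, ⟨nn_NS a0, nn_NS a1, nn_NS a2, nn_NS a3, nn_NS a4, nn_NS a5, nn_NS a6, nn_NS a7, nn_NS a8, nn_NS a9⟩, ?_, ?_⟩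
  · rw [hY]
    rw [show (2 : ℕ) ^ 64 = 18446744073709551616 ^ 1 from e 1]
    rw [show (2 : ℕ) ^ 128 = 18446744073709551616 ^ 2 from e 2]
    rw [show (2 : ℕ) ^ 192 = 18446744073709551616 ^ 3 from e 3]
    rw [show (2 : ℕ) ^ 256 = 18446744073709551616 ^ 4 from e 4]
    rw [show (2 : ℕ) ^ 320 = 18446744073709551616 ^ 5 from e 5]
    rw [show (2 : ℕ) ^ 384 = 18446744073709551616 ^ 6 from e 6]
    rw [show (2 : ℕ) ^ 448 = 18446744073709551616 ^ 7 from e 7]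
    rw [show (2 : ℕ) ^ 512 = 18446744073709551616 ^ 8 from e 8]
    rw [show (2 : ℕ) ^ 576 = 18446744073709551616 ^ 9 from e 9]
    rw [show (2 : ℕ) ^ 640 = 18446744073709551616 ^ 10 from e 10]
    ring
  · unfold rdN
    rw [fz_pr, ndS_k, a0, nb_succ, b0]
    rw [fz_pr, ndS_k, a1, nb_succ, b1]
    rw [fz_pr, ndS_k, a2, nb_succ, b2]
    rw [fz_pr, ndS_k, a3, nb_succ, b3]
    rw [fz_pr, ndS_k, a4, nb_succ, b4]
    rw [fz_pr, ndS_k, a5, nb_succ, b5]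
    rw [fz_pr, ndS_k, a6, nb_succ, b6]
    rw [fz_pr, ndS_k, a7, nb_succ, b7]
    rw [fz_pr, ndS_k, a8, nb_succ, b8]
    rw [fz_pr, ndS_k, a9, nb_succ, b9]
    show (n0 + 18446744073709551616 * (n1 + 18446744073709551616 * (n2 + 18446744073709551616 * (n3 + 18446744073709551616 * (n4 + 18446744073709551616 * (n5 + 18446744073709551616 * (n6 + 18446744073709551616 * (n7 + 18446744073709551616 * (n8 + 18446744073709551616 * n9))))))))) + 2 ^ 640 * E10 + 1 = _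
    rw [show (2 : ℕ) ^ 640 = 18446744073709551616 ^ 10 from e 10]
    ring

end Pool.Agent.Helper98.FD
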