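import Pool.Agent.Helper98.DL.FEqD

set_option autoImplicit false
set_option maxRecDepth 100000
set_option exponentiation.threshold 5000

/-! # The light check of a direction leaf implies the check -/

namespace Pool.Agent.Helper98.FD

open Pool.Agent.Helper98 Pool.Agent.Helper98.DL Pool.Agent.Helper65 Pool.Agent.Helper91.Kiss

lemma div10 {X E n0 n1 n2 n3 n4 n5 n6 n7 n8 n9 : ℕ} (h : X = n0 + 18446744073709551616 * (n1 + 18446744073709551616 * (n2 + 18446744073709551616 * (n3 + 18446744073709551616 * (n4 + 18446744073709551616 * (n5 + 18446744073709551616 * (n6 + 18446744073709551616 * (n7 + 18446744073709551616 * (n8 + 18446744073709551616 * (n9 + 18446744073709551616 * E))))))))))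
    (h0 : n0 < 18446744073709551616)
    (h1 : n1 < 18446744073709551616)
    (h2 : n2 < 18446744073709551616)
    (h3 : n3 < 18446744073709551616)
    (h4 : n4 < 18446744073709551616)
    (h5 : n5 < 18446744073709551616)
    (h6 : n6 < 18446744073709551616)
    (h7 : n7 < 18446744073709551616)
    (h8 : n8 < 18446744073709551616)
    (h9 : n9 < 18446744073709551616)
    : X / 2 ^ 640 = E := by
  have d0 : X / 2 ^ (64 * 0) = n0 + 18446744073709551616 * (n1 + 18446744073709551616 * (n2 + 18446744073709551616 * (n3 + 18446744073709551616 * (n4 + 18446744073709551616 * (n5 + 18446744073709551616 * (n6 + 18446744073709551616 * (n7 + 18446744073709551616 * (n8 + 18446744073709551616 * (n9 + 18446744073709551616 * E))))))))) := by rw [h]; simp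
  have d1 : X / 2 ^ (64 * 1) = n1 + 18446744073709551616 * (n2 + 18446744073709551616 * (n3 + 18446744073709551616 * (n4 + 18446744073709551616 * (n5 + 18446744073709551616 * (n6 + 18446744073709551616 * (n7 + 18446744073709551616 * (n8 + 18446744073709551616 * (n9 + 18446744073709551616 * E)))))))) := by
    rw [div_step X 0, d0]; exact (digit rfl h0).1
  have d2 : X / 2 ^ (64 * 2) = n2 + 18446744073709551616 * (n3 + 18446744073709551616 * (n4 + 18446744073709551616 * (n5 + 18446744073709551616 * (n6 + 18446744073709551616 * (n7 + 18446744073709551616 * (n8 + 18446744073709551616 * (n9 + 18446744073709551616 * E))))))) := by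
    rw [div_step X 1, d1]; exact (digit rfl h1).1
  have d3 : X / 2 ^ (64 * 3) = n3 + 18446744073709551616 * (n4 + 18446744073709551616 * (n5 + 18446744073709551616 * (n6 + 18446744073709551616 * (n7 + 18446744073709551616 * (n8 + 18446744073709551616 * (n9 + 18446744073709551616 * E)))))) := by
    rw [div_step X 2, d2]; exact (digit rfl h2).1
  have d4 : X / 2 ^ (64 * 4) = n4 + 18446744073709551616 * (n5 + 18446744073709551616 * (n6 + 18446744073709551616 * (n7 + 18446744073709551616 * (n8 + 18446744073709551616 * (n9 + 18446744073709551616 * E))))) := by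
    rw [div_step X 3, d3]; exact (digit rfl h3).1
  have d5 : X / 2 ^ (64 * 5) = n5 + 18446744073709551616 * (n6 + 18446744073709551616 * (n7 + 18446744073709551616 * (n8 + 18446744073709551616 * (n9 + 18446744073709551616 * E)))) := by
    rw [div_step X 4, d4]; exact (digit rfl h4).1
  have d6 : X / 2 ^ (64 * 6) = n6 + 18446744073709551616 * (n7 + 18446744073709551616 * (n8 + 18446744073709551616 * (n9 + 18446744073709551616 * E))) := by
    rw [div_step X 5, d5]; exact (digit rfl h5).1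
  have d7 : X / 2 ^ (64 * 7) = n7 + 18446744073709551616 * (n8 + 18446744073709551616 * (n9 + 18446744073709551616 * E)) := by
    rw [div_step X 6, d6]; exact (digit rfl h6).1
  have d8 : X / 2 ^ (64 * 8) = n8 + 18446744073709551616 * (n9 + 18446744073709551616 * E) := by
    rw [div_step X 7, d7]; exact (digit rfl h7).1
  have d9 : X / 2 ^ (64 * 9) = n9 + 18446744073709551616 * E := by
    rw [div_step X 8, d8]; exact (digit rfl h8).1
  have d10 : X / 2 ^ (64 * 10) = E := by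
    rw [div_step X 9, d9]; exact (digit rfl h9).1
  exact d10

/-- the nodes -/
theorem nAF_core {L D r Y : ℕ} (h : nAF L D r = Y + 1) : ∃ X, ndA L D r = X + 1 ∧
    (∀ l ≤ 9, Nat.pred (Y / 2 ^ (64 * l) % 18446744073709551616) = X / 2 ^ (64 * l) % 18446744073709551616) ∧
    Y / 2 ^ 640 = X / 2 ^ 640 := by
  have h0 : nAF L D r = rd0F (tvM r (bk1 L) (pK D)) L 0 1 (Nat.div D (Nat.pow 2 65)) := by
    unfold nAF
    rw [tvF_k, b1F_k, kKF_k]
  rw [h0] at h
  obtain ⟨n0, n1, n2, n3, n4, n5, n6, n7, n8, n9, E, ⟨s0, s1, s2, s3, s4, s5, s6, s7, s8, s9⟩, hY, hX⟩ := core h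
  refine ⟨n0 + 18446744073709551616 * (n1 + 18446744073709551616 * (n2 + 18446744073709551616 * (n3 + 18446744073709551616 * (n4 + 18446744073709551616 * (n5 + 18446744073709551616 * (n6 + 18446744073709551616 * (n7 + 18446744073709551616 * (n8 + 18446744073709551616 * (n9 + 18446744073709551616 * E))))))))), ?_, ?_, ?_⟩
  · unfold ndA
    rw [fz_pr, fz_pr]
    exact hX
  · intro l hl
    have k1 := digits10 hY (NS_lt s0) (NS_lt s1) (NS_lt s2) (NS_lt s3) (NS_lt s4) (NS_lt s5) (NS_lt s6) (NS_lt s7) (NS_lt s8) (NS_lt s9) l hl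
    have k2 := digits10 (X := n0 + 18446744073709551616 * (n1 + 18446744073709551616 * (n2 + 18446744073709551616 * (n3 + 18446744073709551616 * (n4 + 18446744073709551616 * (n5 + 18446744073709551616 * (n6 + 18446744073709551616 * (n7 + 18446744073709551616 * (n8 + 18446744073709551616 * (n9 + 18446744073709551616 * E)))))))))) rfl ((Nat.lt_succ_self _).trans (NS_lt s0)) ((Nat.lt_succ_self _).trans (NS_lt s1)) ((Nat.lt_succ_self _).trans (NS_lt s2)) ((Nat.lt_succ_self _).trans (NS_lt s3)) ((Nat.lt_succ_self _).trans (NS_lt s4)) ((Nat.lt_succ_self _).trans (NS_lt s5)) ((Nat.lt_succ_self _).trans (NS_lt s6)) ((Nat.lt_succ_self _).trans (NS_lt s7)) ((Nat.lt_succ_self _).trans (NS_lt s8)) ((Nat.lt_succ_self _).trans (NS_lt s9)) l hl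
    rw [k1, k2]
    clear k1 k2 hX hY
    interval_cases l <;> rfl
  · rw [div10 hY (NS_lt s0) (NS_lt s1) (NS_lt s2) (NS_lt s3) (NS_lt s4) (NS_lt s5) (NS_lt s6) (NS_lt s7) (NS_lt s8) (NS_lt s9), div10 rfl ((Nat.lt_succ_self _).trans (NS_lt s0)) ((Nat.lt_succ_self _).trans (NS_lt s1)) ((Nat.lt_succ_self _).trans (NS_lt s2)) ((Nat.lt_succ_self _).trans (NS_lt s3)) ((Nat.lt_succ_self _).trans (NS_lt s4)) ((Nat.lt_succ_self _).trans (NS_lt s5)) ((Nat.lt_succ_self _).trans (NS_lt s6)) ((Nat.lt_succ_self _).trans (NS_lt s7)) ((Nat.lt_succ_self _).trans (NS_lt s8)) ((Nat.lt_succ_self _).trans (NS_lt s9))]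

lemma dl_ne {L D r : ℕ} (h : dlF L D r = true) : ∃ Y, nAF L D r = Y + 1 := by
  unfold dlF at h
  cases hA : nAF L D r with
  | zero =>
    rw [hA] at h
    have h' : false = true := h
    cases h'
  | succ Y => exact ⟨Y, rfl⟩

lemma nkF_val {L D r Y : ℕ} (h : nAF L D r = Y + 1) (l : ℕ) :
    nkF L D r l = Nat.pred (Y / 2 ^ (64 * l) % 18446744073709551616) := by
  have h1 : nkF L D r l = Nat.pred ((Nat.pred (nAF L D r) >>> (64 * l)) % 18446744073709551616) := rfl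
  rw [h1, h, Nat.shiftRight_eq_div_pow]
  rfl

/-- **the node numbers are the same** -/
theorem nkF_k {L D r : ℕ} (h : dlF L D r = true) {l : ℕ} (hl : l ≤ 9) :
    nkF L D r l = nd L D r l := by
  obtain ⟨Y, hY⟩ := dl_ne h
  obtain ⟨X, hX, h1, -⟩ := nAF_core hY
  rw [nkF_val hY, h1 l hl]
  have h2 : nd L D r l = Nat.pred (ndA L D r) / 2 ^ (64 * l) % 18446744073709551616 := rfl
  rw [h2, hX]
  rfl

lemma ncF_k (n : ℕ) : ncF n = ndc n := rfl
lemma npp_k (n : ℕ) : npp n = ndp n := rfl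
lemma nqF_k (n : ℕ) : nqF n = ndq n := rfl
lemma nvF_k (n : ℕ) : nvF n = ndv n := rfl

lemma rMF_k (k1 k2 K M n0 n1 n2 n3 n4 n5 n6 n7 n8 n9 D : ℕ) : rMF k1 k2 K M n0 n1 n2 n3 n4 n5 n6 n7 n8 n9 D = rdM k1 k2 K M n0 n1 n2 n3 n4 n5 n6 n7 n8 n9 D := by
  unfold rMF rdM
  exact 
    fc (ncF_k n0) fun c0 => fc (nvF_k n0) fun v0 => 
    fc (ncF_k n1) fun c1 => fc (nvF_k n1) fun v1 => 
    fc (ncF_k n2) fun c2 => fc (nvF_k n2) fun v2 => 
    fc (ncF_k n3) fun c3 => fc (nvF_k n3) fun v3 => 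
    fc (ncF_k n4) fun c4 => fc (nvF_k n4) fun v4 => 
    fc (ncF_k n5) fun c5 => fc (nvF_k n5) fun v5 => 
    fc (ncF_k n6) fun c6 => fc (nvF_k n6) fun v6 => 
    fc (ncF_k n7) fun c7 => fc (nvF_k n7) fun v7 => 
    fc (ncF_k n8) fun c8 => fc (nvF_k n8) fun v8 => 
    fc (ncF_k n9) fun c9 => fc (nvF_k n9) fun v9 => mnF_k k1 k2 K M c0 c1 c2 c3 c4 c5 c6 c7 c8 c9 v0 v1 v2 v3 v4 v5 v6 v7 v8 v9 D

/-- **the light check implies the check** -/
theorem dlF_k {L D r : ℕ} (h : dlF L D r = true) : dleaf L D r = true := by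
  have hn := fun l hl => nkF_k h (l := l) hl
  obtain ⟨Y, hY⟩ := dl_ne h
  obtain ⟨X, hX, -, h640⟩ := nAF_core hY
  unfold dleaf
  rw [hX, nb_succ]
  have h1 : dlF L D r = fzB (Nat.div Y (Nat.pow 2 640)) fun D' =>
      fzB (b1F L) fun k1 => fzB (b2F L) fun k2 => fzB (kKF D) fun K =>
      fzB (Nat.mod D 35184372088832) fun M =>
      rMF k1 k2 K M (nkF L D r 0) (nkF L D r 1) (nkF L D r 2) (nkF L D r 3) (nkF L D r 4) (nkF L D r 5) (nkF L D r 6) (nkF L D r 7) (nkF L D r 8) (nkF L D r 9) D' := by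
    unfold dlF
    rw [hY]
  rw [h1] at h
  rw [← h]
  refine (fc h640 fun D' => fc (b1F_k L) fun k1 => fc (b2F_k L) fun k2 => fc (kKF_k D) fun K =>
    fc rfl fun M => ?_).symm
  rw [rMF_k]
  rw [hn 0 (by norm_num), hn 1 (by norm_num), hn 2 (by norm_num), hn 3 (by norm_num), hn 4 (by norm_num), hn 5 (by norm_num), hn 6 (by norm_num), hn 7 (by norm_num), hn 8 (by norm_num), hn 9 (by norm_num)]
  rw [fz_pr, fz_pr, fz_pr, fz_pr, fz_pr, fz_pr, fz_pr, fz_pr, fz_pr, fz_pr]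

/-! ### the exact pole -/

lemma tkA_k (K v P Q : ℕ) : tkA K v P Q = nb K (cb (Nat.ble 32769 P) 2 (cb (Nat.beq v 32768) 3 0))
      (fun _ => cb (Nat.ble 32768 P) (cb (Nat.ble 32769 Q) 2 0) 0) :=
  nc rfl (cc rfl rfl (cc rfl rfl rfl)) fun _ => cc rfl (cc rfl rfl rfl) rfl

lemma tkB_k (K v a b : ℕ) : tkB K v a b = cb (Nat.ble a 48) (cb (Nat.ble 48 b)
    (nb K (cb (Nat.ble 32769 (vP v)) 2 (cb (Nat.beq v 32768) 3 0))
      fun _ => cb (Nat.ble 32768 (vP v)) (cb (Nat.ble 32769 (Nat.add (vP v) (vW v))) 2 0) 0) 1) 1 :=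
  cc rfl (cc rfl (tkA_k K v (vP v) (Nat.add (vP v) (vW v))) rfl) rfl

lemma tkF_k (K c v : ℕ) : tkF K c v = tmk K c v := by
  unfold tmk
  rw [fz_pr, fz_pr]
  exact tkB_k K v (lo c) (hi c)

lemma pqF_k (a b L : ℕ) : pqF a b L = pq a b L := by
  unfold pqF pq
  exact nc rfl rfl fun a => nc rfl rfl fun b =>
    congrArg (fun x => Nat.add (Nat.sub 65536 L) (Nat.mul 1048576 x))
      (nc rfl rfl fun _ => nc rfl rfl fun _ => rfl)

lemma tqF_k (M c0 c1 c2 c3 c4 c5 c6 c7 c8 c9 v0 v1 v2 v3 v4 v5 v6 v7 v8 v9 t0 t1 t2 t3 t4 t5 t6 t7 t8 t9 : ℕ) :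
    tqF M c0 c1 c2 c3 c4 c5 c6 c7 c8 c9 v0 v1 v2 v3 v4 v5 v6 v7 v8 v9 t0 t1 t2 t3 t4 t5 t6 t7 t8 t9 = tsq M c0 c1 c2 c3 c4 c5 c6 c7 c8 c9 v0 v1 v2 v3 v4 v5 v6 v7 v8 v9 t0 t1 t2 t3 t4 t5 t6 t7 t8 t9 := by
  unfold tqF tsq
  rw [pT_e]
  simp only [pe_0, pe_1, pe_2, pe_3, pe_4, pe_5, pe_6, pe_7, pe_8, pe_9, pe_10, pe_11, pe_12, pe_13, pe_14, pe_15, pe_16, pe_17, pe_18, pe_19, pe_20, pe_21, pe_22, pe_23, pe_24, pe_25, pe_26, pe_27, pe_28, pe_29, pe_30, pe_31, pe_32, pe_33, pe_34, pe_35, pe_36, pe_37, pe_38, pe_39, pe_40, pe_41, pe_42, pe_43, pe_44, pqF_k, lc1_k, lc2_k, lc3_k, lc4_k, lc5_k, lc6_k, lc7_k, lc8_k, lc9_k]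

lemma pdF_k (K M c0 c1 c2 c3 c4 c5 c6 c7 c8 c9 v0 v1 v2 v3 v4 v5 v6 v7 v8 v9 : ℕ) : pdF K M c0 c1 c2 c3 c4 c5 c6 c7 c8 c9 v0 v1 v2 v3 v4 v5 v6 v7 v8 v9 = poleD K M c0 c1 c2 c3 c4 c5 c6 c7 c8 c9 v0 v1 v2 v3 v4 v5 v6 v7 v8 v9 := by
  unfold pdF poleD
  exact 
    nc (tkF_k K c0 v0) rfl fun t0 => 
    nc (tkF_k K c1 v1) rfl fun t1 => 
    nc (tkF_k K c2 v2) rfl fun t2 => 
    nc (tkF_k K c3 v3) rfl fun t3 => 
    nc (tkF_k K c4 v4) rfl fun t4 => 
    nc (tkF_k K c5 v5) rfl fun t5 => 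
    nc (tkF_k K c6 v6) rfl fun t6 => 
    nc (tkF_k K c7 v7) rfl fun t7 => 
    nc (tkF_k K c8 v8) rfl fun t8 => 
    nc (tkF_k K c9 v9) rfl fun t9 => cc (congrArg (Nat.ble 2) (ctF_k t0 t1 t2 t3 t4 t5 t6 t7 t8 t9)) (tqF_k M c0 c1 c2 c3 c4 c5 c6 c7 c8 c9 v0 v1 v2 v3 v4 v5 v6 v7 v8 v9 t0 t1 t2 t3 t4 t5 t6 t7 t8 t9) rfl

/-- **the light pole check implies the pole check** -/
theorem poF_k {L D r : ℕ} (h : dlF L D r = true) (h' : poF L D r = true) :
    poleL L D r = true := by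
  have hn := fun l hl => nkF_k h (l := l) hl
  rw [← h']
  unfold poF poleL
  refine (fc (kKF_k D) fun K => fc rfl fun M => ?_).symm
  rw [hn 0 (by norm_num), hn 1 (by norm_num), hn 2 (by norm_num), hn 3 (by norm_num), hn 4 (by norm_num), hn 5 (by norm_num), hn 6 (by norm_num), hn 7 (by norm_num), hn 8 (by norm_num), hn 9 (by norm_num)]
  rw [fz_pr, fz_pr, fz_pr, fz_pr, fz_pr, fz_pr, fz_pr, fz_pr, fz_pr, fz_pr]
  unfold rPF
  exact 
    fc (ncF_k (nd L D r 0)) fun c0 => fc (nvF_k (nd L D r 0)) fun v0 => 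
    fc (ncF_k (nd L D r 1)) fun c1 => fc (nvF_k (nd L D r 1)) fun v1 => 
    fc (ncF_k (nd L D r 2)) fun c2 => fc (nvF_k (nd L D r 2)) fun v2 => 
    fc (ncF_k (nd L D r 3)) fun c3 => fc (nvF_k (nd L D r 3)) fun v3 => 
    fc (ncF_k (nd L D r 4)) fun c4 => fc (nvF_k (nd L D r 4)) fun v4 => 
    fc (ncF_k (nd L D r 5)) fun c5 => fc (nvF_k (nd L D r 5)) fun v5 => 
    fc (ncF_k (nd L D r 6)) fun c6 => fc (nvF_k (nd L D r 6)) fun v6 => 
    fc (ncF_k (nd L D r 7)) fun c7 => fc (nvF_k (nd L D r 7)) fun v7 => 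
    fc (ncF_k (nd L D r 8)) fun c8 => fc (nvF_k (nd L D r 8)) fun v8 => 
    fc (ncF_k (nd L D r 9)) fun c9 => fc (nvF_k (nd L D r 9)) fun v9 => pdF_k K M c0 c1 c2 c3 c4 c5 c6 c7 c8 c9 v0 v1 v2 v3 v4 v5 v6 v7 v8 v9

end Pool.Agent.Helper98.FD
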