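import Pool.Agent.Helper98.DL.DTabR
import Pool.Agent.Helper98.KT.HopCell

set_option autoImplicit false

/-! # Contacts of the south point over a cell of the grid `z = (i - 176) / 256` -/

namespace Pool.Agent.Helper98.DL

open Real Set Pool.Agent.Helper66.Kiss Pool.Agent.Helper98.KT

/-- packed lower bounds of `2 ^ 14 / √(1 - z ^ 2)` -/
def ivL : ℕ := 0x49e649b549854956492748f948cc489f48734848481e47f447cb47a2477a4753472c470646e046bb46964672464f462c460a45e845c745a64586456645464528450944eb44ce44b144944478445d44414427440c43f243d943c043a7438f4377435f43484331431b430542ef42da42c542b1429c428942754262424f423d422b4219420741f641e541d541c541b541a5419641874179416a415c414f414141344127411b410f410340f740ec40e140d640cb40c140b740ad40a4409b40924089408140794071406a4062405b4055404e40484042403c40374032402d402840244020401c401840154012400f400c400a40084006400440034002400140004000400040004000400140024003400440064008400a400c400f401240154018401c402040244028402d40324037403c40424048404e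4055405b4062406a40714079408140894092409b40a440ad40b740c140cb40d640e140ec40f74103410f411b412741344141414f415c416a41794187419641a541b541c541d541e541f642074219422b423d424f426242754289429c42b142c542da42ef4305431b43314348435f4377438f43a743c043d943f2440c44274441445d4478449444b144ce44eb4509452845464566458645a645c745e8460a462c464f4672469646bb46e04706472c4753477a47a247cb47f4481e48484873489f48cc48f949274956498549b549e64a184a4a4a7d4ab14ae64b1c4b534b8a4bc34bfc4c364c714cad4cea4d294d684da84de94e2c4e6f4eb44efa4f414f894fd3501e506a50b75106515751a851fc525152a752ff535953b45411547054d15534559955ff566856d3574057b05821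
/-- packed upper bounds of `2 ^ 14 / √(1 - z ^ 2)` -/
def ivU : ℕ := 0x49e749b649864957492848fa48cd48a048744849481f47f547cc47a3477b4754472d470746e146bc469746734650462d460b45e945c845a74587456745474529450a44ec44cf44b244954479445e44424428440d43f343da43c143a843904378436043494332431c430642f042db42c642b2429d428a427642634250423e422c421a420841f741e641d641c641b641a641974188417a416b415d4150414241354128411c4110410440f840ed40e240d740cc40c240b840ae40a5409c4093408a4082407a4072406b4063405c4056404f40494043403d40384033402e402940254021401d4019401640134010400d400b40094007400540044003400240014001400040014001400240034004400540074009400b400d4010401340164019401d402140254029402e40334038403d40434049404f4056405c4063406b4072407a4082408a4093409c40a540ae40b840c240cc40d740e240ed40f841044110411c4128413541424150415d416b417a4188419741a641b641c641d641e641f74208421a422c423e425042634276428a429d42b242c642db42f04306431c4332434943604378439043a843c143da43f3440d44284442445e4479449544b244cf44ec450a452945474567458745a745c845e9460b462d46504673469746bc46e14707472d4754477b47a347cc47f5481f4849487448a048cd48fa49284957498649b649e74a194a4b4a7e4ab24ae74b1d4b544b8b4bc44bfd4c374c724cae4ceb4d2a4d694da94dea4e2d4e704eb54efb4f424f8a4fd4501f506b50b85107515851a951fd525252a85300535a53b55412547154d25535559a5600566956d4574157b15822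

/-- coordinate in units `1 / 4096`, shifted -/
def gm (i : ℕ) : ℕ := Nat.add (Nat.mul 16 i) 1280

lemma yz_gm (i : ℕ) : yz (gm i) = zz i := by
  have e : ((gm i : ℕ) : ℝ) = 16 * i + 1280 := by
    show ((16 * i + 1280 : ℕ) : ℝ) = _
    push_cast; ring
  unfold yz zz
  rw [e]; ring

/-- integer check -/
def ivchk (i : ℕ) : Bool :=
  decide (((ent ivL i : ℤ)) ^ 2 * (65536 - ((i : ℤ) - 176) ^ 2) ≤ 2 ^ 44) &&
  decide (2 ^ 44 ≤ ((ent ivU i : ℤ)) ^ 2 * (65536 - ((i : ℤ) - 176) ^ 2)) &&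
  decide (0 < 65536 - ((i : ℤ) - 176) ^ 2)

lemma ivchk_all : ∀ i < 305, ivchk i = true := by decide +kernel

theorem iv_tables {i : ℕ} (hi : i ≤ 304) :
    (ent ivL i : ℝ) ≤ 2 ^ 14 / √(1 - zz i ^ 2) ∧ 2 ^ 14 / √(1 - zz i ^ 2) ≤ (ent ivU i : ℝ) := by
  have hc := ivchk_all i (by omega)
  unfold ivchk at hc
  simp only [Bool.and_eq_true, decide_eq_true_eq] at hc
  obtain ⟨⟨c1, c2⟩, c3⟩ := hc
  set L := ent ivL i
  set U := ent ivU i
  have r1 : (L : ℝ) ^ 2 * (65536 - ((i : ℝ) - 176) ^ 2) ≤ 2 ^ 44 := by exact_mod_cast c1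
  have r2 : 2 ^ 44 ≤ (U : ℝ) ^ 2 * (65536 - ((i : ℝ) - 176) ^ 2) := by exact_mod_cast c2
  have r3 : 0 < 65536 - ((i : ℝ) - 176) ^ 2 := by exact_mod_cast c3
  have e : 1 - zz i ^ 2 = (65536 - ((i : ℝ) - 176) ^ 2) / 65536 := by unfold zz; ring
  have hp : 0 < 1 - zz i ^ 2 := by rw [e]; positivity
  have hs : 0 < √(1 - zz i ^ 2) := Real.sqrt_pos.2 hp
  have hL : (0 : ℝ) ≤ L := Nat.cast_nonneg _
  have hU : (0 : ℝ) ≤ U := Nat.cast_nonneg _
  constructor
  · rw [le_div_iff₀ hs]
    refine (le_abs_self _).trans (abs_le_of_sq_le_sq ?_ (by positivity))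
    rw [mul_pow, Real.sq_sqrt hp.le, e]
    have : (L : ℝ) ^ 2 * ((65536 - ((i : ℝ) - 176) ^ 2) / 65536) =
      (L : ℝ) ^ 2 * (65536 - ((i : ℝ) - 176) ^ 2) / 65536 := by ring
    rw [this, div_le_iff₀ (by norm_num)]
    calc _ ≤ _ := r1
      _ = _ := by norm_num
  · rw [div_le_iff₀ hs]
    refine (le_abs_self _).trans (abs_le_of_sq_le_sq ?_ (by positivity))
    rw [mul_pow, Real.sq_sqrt hp.le, e]
    have : (U : ℝ) ^ 2 * ((65536 - ((i : ℝ) - 176) ^ 2) / 65536) =
      (U : ℝ) ^ 2 * (65536 - ((i : ℝ) - 176) ^ 2) / 65536 := by ring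
    rw [this, le_div_iff₀ (by norm_num)]
    calc _ = 2 ^ 44 := by norm_num
      _ ≤ _ := r2

/-- shallow part of a cell (`48 ≤ i1`): `0` = no contact, `m + 1`: contact angle `≤ m π / 512` -/
def aSh (k1 k2 i1 : ℕ) : ℕ :=
  match rSh k1 k2 (gm i1) (ent ivL i1) with
  | 0 => 257
  | r + 1 => alS1 (r + 1)

theorem aSh_sound {k1 k2 i1 : ℕ} {t y : ℝ} (ht0 : 0 < t) (ht1 : (k1 : ℝ) / 4096 ≤ t)
    (ht2 : t ≤ (k2 : ℝ) / 4096) (hk : k2 ≤ 900) (hi : 48 ≤ i1) (hi' : i1 ≤ 304)
    (hy : zz i1 ≤ y) (hy' : y ≤ 1 / 2) :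
    (aSh k1 k2 i1 = 0 → 1 < RR (zs t) y) ∧
    ∀ m, aSh k1 k2 i1 = m + 1 → wd (zs t) y ≤ m * (π / 512) := by
  have hgn : 2048 ≤ gm i1 := by
    show 2048 ≤ 16 * i1 + 1280
    omega
  have hgn' : gm i1 ≤ 6144 := by
    show 16 * i1 + 1280 ≤ 6144
    omega
  have key := rSh_le (i := ent ivL i1) (y := y) ht0 ht1 ht2 hk hgn hgn' (by rw [yz_gm]; exact hy) hy'
    (by rw [yz_gm]; exact (iv_tables hi').1)
  have hw : wd (zs t) y = arccos (RR (zs t) y) := rfl
  unfold aSh
  cases hr : rSh k1 k2 (gm i1) (ent ivL i1) with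
  | zero =>
    rw [hr] at key
    refine ⟨fun h => absurd (show (257 : ℕ) = 0 from h) (by norm_num), fun m hm => ?_⟩
    have hm' : m = 256 := by
      have : (257 : ℕ) = m + 1 := hm
      omega
    rw [hw, hm']
    have h0 : 0 ≤ RR (zs t) y := by
      have : (0 : ℝ) ≤ 2 ^ 14 * RR (zs t) y := by simpa using key
      linarith
    have := arccos_le_pi_div_two.2 h0
    push_cast
    linarith
  | succ r =>
    rw [hr] at key
    exact alS1_sound key

/-- deep part of a cell (`i2 ≤ 48`) -/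
def aDp (k1 i1 i2 : ℕ) : ℕ :=
  match rDp k1 (gm i1) (ent ivL i2) (ent ivU i1) with
  | (true, r) => alS1 r
  | (false, r) => alS2 r

theorem aDp_sound {k1 i1 i2 : ℕ} {t y : ℝ} (hk0 : 0 < k1) (ht1 : (k1 : ℝ) / 4096 ≤ t)
    (ht2 : t < 1) (hi : i2 ≤ 48) (hy : zz i1 ≤ y) (hy' : y ≤ zz i2) :
    (aDp k1 i1 i2 = 0 → 1 < RR (zs t) y) ∧
    ∀ m, aDp k1 i1 i2 = m + 1 → wd (zs t) y ≤ m * (π / 512) := by
  have h12 : i1 ≤ i2 := by
    have h := hy.trans hy'
    unfold zz at h
    have h3 : (i1 : ℝ) ≤ i2 := by linarith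
    exact_mod_cast h3
  have hgn0 : 0 < gm i1 := by
    show 0 < 16 * i1 + 1280
    omega
  have hgn2 : gm i2 ≤ 2048 := by
    show 16 * i2 + 1280 ≤ 2048
    omega
  have hi1 : i1 ≤ 304 := by omega
  have hi2 : i2 ≤ 304 := by omega
  have key := rDp_le (i2 := ent ivL i2) (j1 := ent ivU i1) (t := t) (y := y) hk0 ht1 ht2 hgn0 hgn2
    (by rw [yz_gm]; exact hy) (by rw [yz_gm]; exact hy')
    (by rw [yz_gm]; exact (iv_tables hi2).1) (by rw [yz_gm]; exact (iv_tables hi1).2)
  obtain ⟨key1, key2⟩ := key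
  have hw : wd (zs t) y = arccos (RR (zs t) y) := rfl
  unfold aDp
  cases hr : rDp k1 (gm i1) (ent ivL i2) (ent ivU i1) with
  | mk b r =>
    cases b with
    | true => exact alS1_sound (key1 r hr)
    | false => exact alS2_sound (key2 r hr)

/-- deep part of a cell, any tilt -/
def aDq (k1 i1 i2 : ℕ) : ℕ := match k1 with
  | 0 => 513
  | k + 1 => aDp (Nat.succ k) i1 i2

theorem aDq_sound {k1 i1 i2 : ℕ} {t y : ℝ} (ht1 : (k1 : ℝ) / 4096 ≤ t)
    (ht2 : t < 1) (hi : i2 ≤ 48) (hy : zz i1 ≤ y) (hy' : y ≤ zz i2) :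
    (aDq k1 i1 i2 = 0 → 1 < RR (zs t) y) ∧
    ∀ m, aDq k1 i1 i2 = m + 1 → wd (zs t) y ≤ m * (π / 512) := by
  cases k1 with
  | zero =>
    have e : aDq 0 i1 i2 = 513 := by unfold aDq; rfl
    rw [e]
    refine ⟨fun h => by omega, fun m hm => ?_⟩
    have hm' : m = 512 := by omega
    have h1 : wd (zs t) y ≤ π := arccos_le_pi _
    rw [hm']
    push_cast
    linarith [Real.pi_pos]
  | succ k =>
    have e : aDq (k + 1) i1 i2 = aDp (k + 1) i1 i2 := by unfold aDq; rfl
    rw [e]
    exact aDp_sound (Nat.succ_pos k) ht1 ht2 hi hy hy'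

end Pool.Agent.Helper98.DL
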