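import Pool.Agent.Helper98.DL.HC
import Pool.Agent.Helper98.KT.HopFin

set_option autoImplicit false

/-! # Edge bounds of the contacts of the south point over a cell of the fine grid -/

namespace Pool.Agent.Helper98.DL

open Real Set Pool.Agent.Helper66.Kiss Pool.Agent.Helper98.KT

/-- upper bound of `g`; a negative velocity is not allowed at the pole -/
def gvT (vn k1 n2 j : ℕ) : ℕ := match vn with
  | 0 => 0
  | _ + 1 => match k1 with
    | 0 => 35184372088832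
    | k + 1 => gHi (Nat.succ k) n2 j

lemma gvT_eq {vn k1 n2 j : ℕ} (h : 0 < vn) (h' : 0 < k1) : gvT vn k1 n2 j = gHi k1 n2 j := by
  obtain ⟨a, rfl⟩ := Nat.exists_eq_succ_of_ne_zero h.ne'
  obtain ⟨b, rfl⟩ := Nat.exists_eq_succ_of_ne_zero h'.ne'
  unfold gvT
  rfl

lemma gvT_zero {vn n2 j : ℕ} (h : 0 < vn) : gvT vn 0 n2 j = 35184372088832 := by
  obtain ⟨a, rfl⟩ := Nat.exists_eq_succ_of_ne_zero h.ne'
  unfold gvT
  rfl

lemma hopN1_g2 {P N ML KT g1 g2 j vp vn mp mn J : ℕ}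
    (h : hopN1 P N ML KT g1 g2 j vp vn mp mn J = true) : vn * g2 ≤ 35184372088831 := by
  unfold hopN1 at h
  cases h1 : Nat.ble (Nat.mul vp g1) 35184372088831 with
  | false => rw [h1] at h; exact absurd h (by simp)
  | true =>
    rw [h1] at h
    cases h2 : Nat.ble (Nat.add (Nat.mul vn g2) (Nat.add (ckap KT j)
      (Nat.add ML (Nat.mul 20 mn)))) 35184372088831 with
    | false => rw [h2] at h; exact absurd h (by simp)
    | true =>
      have := Nat.le_of_ble_eq_true h2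
      exact (Nat.le_add_right _ _).trans this

lemma vn_of_g2 {P N ML KT g1 j vp vn mp mn J k1 n2 i : ℕ}
    (h : hopN1 P N ML KT g1 (gvT vn k1 n2 i) j vp vn mp mn J = true) : vn = 0 ∨ 0 < k1 := by
  rcases Nat.eq_zero_or_pos vn with h0 | h0
  · exact Or.inl h0
  rcases Nat.eq_zero_or_pos k1 with h1 | h1
  · have h2 := hopN1_g2 h
    rw [h1, gvT_zero h0] at h2
    have h3 : 1 * 35184372088832 ≤ vn * 35184372088832 := Nat.mul_le_mul_right _ h0
    omega
  · exact Or.inr h1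

/-- upper bound of `2 ^ 14 / √(1 - y ^ 2)` on a cell -/
def jT (i1 i2 : ℕ) : ℕ := match Nat.ble (Nat.add i1 i2) 352 with
  | true => ent ivU i1
  | false => ent ivU i2

lemma iv_cell2 {i : ℕ} {y : ℝ} (hi : i ≤ 304) (h : y ^ 2 ≤ zz i ^ 2) :
    2 ^ 14 / √(1 - y ^ 2) ≤ (ent ivU i : ℝ) := by
  refine le_trans ?_ (iv_tables hi).2
  have hc := ivchk_all i (by omega)
  unfold ivchk at hc
  simp only [Bool.and_eq_true, decide_eq_true_eq] at hc
  have r3 : 0 < 65536 - ((i : ℝ) - 176) ^ 2 := by exact_mod_cast hc.2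
  have e : 1 - zz i ^ 2 = (65536 - ((i : ℝ) - 176) ^ 2) / 65536 := by unfold zz; ring
  have hp : 0 < 1 - zz i ^ 2 := by rw [e]; positivity
  exact div_le_div_of_nonneg_left (by positivity) (Real.sqrt_pos.2 hp)
    (Real.sqrt_le_sqrt (by linarith))

lemma jT_ge {i1 i2 : ℕ} {y : ℝ} (hi1 : i1 ≤ 304) (hi2 : i2 ≤ 304) (hy1 : zz i1 ≤ y)
    (hy2 : y ≤ zz i2) : 2 ^ 14 / √(1 - y ^ 2) ≤ (jT i1 i2 : ℝ) := by
  unfold jT
  cases hb : Nat.ble (Nat.add i1 i2) 352 with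
  | true =>
    have h : i1 + i2 ≤ 352 := Nat.le_of_ble_eq_true hb
    have hr : (i1 : ℝ) + i2 ≤ 352 := by exact_mod_cast h
    clear hb
    refine iv_cell2 hi1 ?_
    have : zz i1 + zz i2 ≤ 0 := by unfold zz; linarith
    nlinarith
  | false =>
    have h : 352 < i1 + i2 := by
      by_contra hcon
      rw [Nat.ble_eq_true_of_le (show Nat.add i1 i2 ≤ 352 from not_lt.1 hcon)] at hb
      cases hb
    have hr : (352 : ℝ) < (i1 : ℝ) + i2 := by exact_mod_cast h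
    clear hb
    refine iv_cell2 hi2 ?_
    have : 0 ≤ zz i1 + zz i2 := by unfold zz; linarith
    nlinarith

/-- check of the shallow part `[i1, i2]`, `48 ≤ i1`; `m` = angle in units `π / 512` -/
def conSC (P N ML KT k1 k2 i1 i2 vp vn mp mn m : ℕ) : Bool :=
  hopN1 P N ML KT (gLo k2 (gm i1) (ent ivL i1)) (gvT vn k1 (gm i2) (ent ivU i2)) (jT i1 i2)
    vp vn mp mn (Nat.div (Nat.add m 15) 16)

/-- check of the deep part `[i1, i2]`, `i2 ≤ 48`; `gA = gAll k2` -/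
def conDC (P N ML KT gA k1 i1 i2 vp vn mp mn m : ℕ) : Bool :=
  hopN1 P N ML KT gA (gvT vn k1 (gm i2) (ent ivU i1)) (ent ivU i1)
    vp vn mp mn (Nat.div (Nat.add m 15) 16)

lemma conSC_vn {P N ML KT k1 k2 i1 i2 vp vn mp mn m : ℕ}
    (h : conSC P N ML KT k1 k2 i1 i2 vp vn mp mn m = true) : vn = 0 ∨ 0 < k1 := vn_of_g2 h

lemma conDC_vn {P N ML KT gA k1 i1 i2 vp vn mp mn m : ℕ}
    (h : conDC P N ML KT gA k1 i1 i2 vp vn mp mn m = true) : vn = 0 ∨ 0 < k1 := vn_of_g2 h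

section

variable {K k1 k2 l ku i1 i2 vp vn mp mn m : ℕ} {t y u κ V W : ℝ}

/-- **shallow contacts** -/
theorem conSC_sound (hu : 0 < u) (hκ : κ = K * u) (ht0 : 0 < t) (ht1 : (k1 : ℝ) / 4096 ≤ t)
    (ht : t ≤ (k2 : ℝ) / 4096) (hk : k2 ≤ 900) (hi1 : 48 ≤ i1) (hi2 : i2 ≤ 304)
    (hy1 : zz i1 ≤ y) (hy2 : y ≤ zz i2)
    (hl : l < 2 ^ 24) (hK : K < 2 ^ 24) (hku : ku < 2 ^ 24) (hkue : ku = kUof K k2)
    (hm : aSh k1 k2 i1 = m + 1)
    (h : conSC (hopP l K) (hopN ku) (Nat.add (Nat.mul 403 l) (Nat.mul 20 ku)) (kTof K k2) k1 k2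
      i1 i2 vp vn mp mn m = true) (hV : ((vp : ℝ) - vn) * u ≤ V) (hVW : VW V W)
    (hR1 : -1 ≤ RR (zs t) y) (hR2 : RR (zs t) y ≤ 1) :
    EBp (zs t) y (-κ) (-κ) V W (hb u l mp mn (wd (zs t) y)) := by
  have hvk : vn = 0 ∨ 0 < k1 := conSC_vn h
  revert h hm
  obtain ⟨htl, htsq⟩ := t_facts ht0 ht hk
  have hi2r : (i2 : ℝ) ≤ 304 := by exact_mod_cast hi2
  have hi1r : (48 : ℝ) ≤ i1 := by exact_mod_cast hi1
  have hz1 : -(1 / 2) ≤ zz i1 := by unfold zz; linarith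
  have hz2 : zz i2 ≤ 1 / 2 := by unfold zz; linarith
  have h12 : i1 ≤ i2 := by
    have h := hy1.trans hy2
    unfold zz at h
    have h3 : (i1 : ℝ) ≤ i2 := by linarith
    exact_mod_cast h3
  have hi1' : i1 ≤ 304 := h12.trans hi2
  have hy : -1 < y ∧ y < 1 := ⟨by linarith, by linarith⟩
  have hne : y ≠ 1 / 2 := fun hc => by
    have := RR_wall ht0 htsq
    rw [← hc] at this
    linarith
  have hk1' : k1 ≤ 900 := by
    have : (k1 : ℝ) / 4096 ≤ (k2 : ℝ) / 4096 := ht1.trans ht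
    have h3 : (k1 : ℝ) ≤ k2 := by linarith
    have h4 : k1 ≤ k2 := by exact_mod_cast h3
    exact h4.trans hk
  have hk2p : 0 < k2 := by
    rcases Nat.eq_zero_or_pos k2 with h0 | h0
    · exfalso
      rw [h0] at ht
      norm_num at ht
      linarith
    · exact h0
  have hg1 : (gLo k2 (gm i1) (ent ivL i1) : ℝ) ≤ 2 ^ 14 * gt t y := by
    have a1 := gLo_le (k := k2) (n := gm i1) (i := ent ivL i1) hk2p hk
      (by rw [yz_gm]; exact (iv_tables hi1').1) (by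
        rw [yz_gm]
        have hk2r : ((k2 : ℝ) / 4096) ^ 2 ≤ 1 / 20 :=
          (t_facts (k2 := k2) (t := (k2 : ℝ) / 4096) (by linarith) le_rfl hk).2
        nlinarith [sq_nonneg ((k2 : ℝ) / 4096)])
    rw [yz_gm] at a1
    refine a1.trans (mul_le_mul_of_nonneg_left ?_ (by positivity))
    have hkq : ((k2 : ℝ) / 4096) ^ 2 ≤ 1 / 20 :=
      (t_facts (k2 := k2) (t := (k2 : ℝ) / 4096) (by linarith) le_rfl hk).2
    exact (gt_mono (by linarith) hkq hz1 hy1 hy.2).trans (gt_anti ht0 ht hy)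
  have hg2 : vn = 0 ∨ 2 ^ 14 * gt t y ≤ (gvT vn k1 (gm i2) (ent ivU i2) : ℝ) := by
    rcases Nat.eq_zero_or_pos vn with h0 | h0
    · exact Or.inl h0
    right
    have hk0 : 0 < k1 := hvk.resolve_left h0.ne'
    have hk0r : (0 : ℝ) < (k1 : ℝ) / 4096 := by
      have : (0 : ℝ) < k1 := by exact_mod_cast hk0
      positivity
    rw [gvT_eq h0 hk0]
    have hkq : ((k1 : ℝ) / 4096) ^ 2 ≤ 1 / 20 := by
      have : (0 : ℝ) ≤ (k1 : ℝ) / 4096 := by positivity
      nlinarith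
    have a1 := gHi_ge (k := k1) (n := gm i2) (i := ent ivU i2) hk0 hk1'
      (by rw [yz_gm]; exact (iv_tables hi2).2) (by
        rw [yz_gm]
        nlinarith [sq_nonneg ((k1 : ℝ) / 4096)])
    rw [yz_gm] at a1
    refine le_trans (mul_le_mul_of_nonneg_left ?_ (by positivity)) a1
    exact (gt_anti (by positivity) ht1 hy).trans
      (gt_mono (by positivity) hkq (by linarith) hy2 (by linarith))
  intro hm h
  have hα := (aSh_sound ht0 ht1 ht hk hi1 hi1' hy1 (hy2.trans hz2)).2 m hm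
  have key := fun v (hv : v = ((vp : ℝ) - vn) * u) => hopN1_sound (κ := κ) (v := v) hu hκ hv ht0 ht
    hk hy (jT_ge hi1' hi2 hy1 hy2) hg1 hg2 hl hK hku hkue h (J_real hα)
  have key1 := key _ rfl
  clear key hm h
  have hWV : V ≤ W := by
    rcases hVW with h | h
    · exact h.ge
    · exact h.2.le
  refine EBp_of_all (hLo_south ht0 htl) hHi_south hR1 hR2 ?_ ?_
  · have e : hLo V W y = V * (1 - y ^ 2) := by
      unfold hLo
      rw [if_neg (fun h => hne h.1), if_neg (by linarith)]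
    rw [e]
    exact bound_up ht0 htl htsq hy hV key1
  · by_cases hyy : y ≤ -(1 / 2)
    · have e : hHi V W y = W * (1 - y ^ 2) := by unfold hHi; rw [if_pos hyy]
      rw [e]
      exact bound_up ht0 htl htsq hy (hV.trans hWV) key1
    · have e : hHi V W y = V * (1 - y ^ 2) := by unfold hHi; rw [if_neg hyy]
      rw [e]
      exact bound_up ht0 htl htsq hy hV key1

/-- **deep contacts** -/
theorem conDC_sound (hu : 0 < u) (hκ : κ = K * u) (ht0 : 0 < t) (ht1 : (k1 : ℝ) / 4096 ≤ t)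
    (ht : t ≤ (k2 : ℝ) / 4096) (hk : k2 ≤ 900) (hi2 : i2 ≤ 48)
    (hy1 : zz i1 ≤ y) (hy2 : y ≤ zz i2) (hys : y < -(1 / 2))
    (hl : l < 2 ^ 24) (hK : K < 2 ^ 24) (hku : ku < 2 ^ 24) (hkue : ku = kUof K k2)
    (hm : aDq k1 i1 i2 = m + 1)
    (h : conDC (hopP l K) (hopN ku) (Nat.add (Nat.mul 403 l) (Nat.mul 20 ku)) (kTof K k2) (gAll k2)
      k1 i1 i2 vp vn mp mn m = true) (hV : ((vp : ℝ) - vn) * u ≤ W)
    (hR1 : -1 ≤ RR (zs t) y) (hR2 : RR (zs t) y ≤ 1) :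
    EBp (zs t) y (-κ) (-κ) V W (hb u l mp mn (wd (zs t) y)) := by
  have hvk : vn = 0 ∨ 0 < k1 := conDC_vn h
  revert h hm
  obtain ⟨htl, htsq⟩ := t_facts ht0 ht hk
  have hi2r : (i2 : ℝ) ≤ 48 := by exact_mod_cast hi2
  have h12 : i1 ≤ i2 := by
    have h := hy1.trans hy2
    unfold zz at h
    have h3 : (i1 : ℝ) ≤ i2 := by linarith
    exact_mod_cast h3
  have hi1' : i1 ≤ 304 := by omega
  have hz1 : -(11 / 16) ≤ zz i1 := by
    have : (0 : ℝ) ≤ i1 := Nat.cast_nonneg _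
    unfold zz; linarith
  have hy : -1 < y ∧ y < 1 := ⟨by linarith, by linarith⟩
  have hk1' : k1 ≤ 900 := by
    have : (k1 : ℝ) / 4096 ≤ (k2 : ℝ) / 4096 := ht1.trans ht
    have h3 : (k1 : ℝ) ≤ k2 := by linarith
    have h4 : k1 ≤ k2 := by exact_mod_cast h3
    exact h4.trans hk
  have hk2p : 0 < k2 := by
    rcases Nat.eq_zero_or_pos k2 with h0 | h0
    · exfalso
      rw [h0] at ht
      norm_num at ht
      linarith
    · exact h0
  have hj : 2 ^ 14 / √(1 - y ^ 2) ≤ (ent ivU i1 : ℝ) := iv_cell2 hi1' (by nlinarith)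
  have hg1 : (gAll k2 : ℝ) ≤ 2 ^ 14 * gt t y :=
    (gAll_le hk2p hk hy).trans (mul_le_mul_of_nonneg_left (gt_anti ht0 ht hy) (by positivity))
  have hg2 : vn = 0 ∨ 2 ^ 14 * gt t y ≤ (gvT vn k1 (gm i2) (ent ivU i1) : ℝ) := by
    rcases Nat.eq_zero_or_pos vn with h0 | h0
    · exact Or.inl h0
    right
    have hk0 : 0 < k1 := hvk.resolve_left h0.ne'
    rw [gvT_eq h0 hk0]
    exact gHi_cell hk0 ht1 htsq hk1' hy (by rw [yz_gm]; exact hy2) hj
  intro hm h
  have hα := (aDq_sound ht1 htl hi2 hy1 hy2).2 m hm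
  have key := fun v (hv : v = ((vp : ℝ) - vn) * u) => hopN1_sound (κ := κ) (v := v) hu hκ hv ht0 ht
    hk hy hj hg1 hg2 hl hK hku hkue h (J_real hα)
  have key1 := key _ rfl
  clear key hm h
  refine EBp_of_all (hLo_south ht0 htl) hHi_south hR1 hR2 ?_ ?_
  · have e : hLo V W y = W * (1 - y ^ 2) := by
      unfold hLo
      rw [if_neg (fun h => by linarith [h.1]), if_pos hys]
    rw [e]
    exact bound_up ht0 htl htsq hy hV key1
  · have e : hHi V W y = W * (1 - y ^ 2) := by unfold hHi; rw [if_pos hys.le]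
    rw [e]
    exact bound_up ht0 htl htsq hy hV key1

end

end Pool.Agent.Helper98.DL
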